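import Mathlib

set_option autoImplicit false

/-!
# The factorization argument for two prime bases

`A X ^ 2 = B Y ^ 2 + C` with `A = x (y - 1)`, `B = y (x - 1)`, `C = y - x`, `X = x ^ a`, `Y = y ^ b`.
The pair `(U k, V k)` is defined by `(√A + √C) ^ (2 k + 1) = √A * U k + √C * V k`.
-/

namespace Pool.Agent.W_MP_cac67d_h21

/-- The coefficients of `√A` and `√C` in `(√A + √C) ^ (2 k + 1)`. -/
def UV (A C : ℤ) : ℕ → ℤ × ℤ
  | 0 => (1, 1)
  | k + 1 => ((A + C) * (UV A C k).1 + 2 * C * (UV A C k).2,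
      (A + C) * (UV A C k).2 + 2 * A * (UV A C k).1)

lemma UV_norm (A C : ℤ) (k : ℕ) :
    A * (UV A C k).1 ^ 2 - C * (UV A C k).2 ^ 2 = (A - C) ^ (2 * k + 1) := by
  induction k with
  | zero => simp [UV]
  | succ k ih =>
    have : (A - C) ^ (2 * (k + 1) + 1) = (A - C) ^ 2 * (A - C) ^ (2 * k + 1) := by ring
    rw [this, ← ih]
    simp only [UV]
    ring

lemma UV_pos {A C : ℤ} (hA : 0 < A) (hC : 0 ≤ C) (k : ℕ) :
    0 < (UV A C k).1 ∧ (A + C) ^ k ≤ (UV A C k).2 := by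
  induction k with
  | zero => simp [UV]
  | succ k ih =>
    obtain ⟨h1, h2⟩ := ih
    have h3 : 0 < (A + C) ^ k := by positivity
    have h4 : 0 < (UV A C k).2 := lt_of_lt_of_le h3 h2
    simp only [UV]
    refine ⟨by positivity, ?_⟩
    have h5 : (A + C) ^ (k + 1) = (A + C) * (A + C) ^ k := by ring
    rw [h5]
    have h6 : (A + C) * (A + C) ^ k ≤ (A + C) * (UV A C k).2 :=
      mul_le_mul_of_nonneg_left h2 (by positivity)
    have h7 : 0 < 2 * A * (UV A C k).1 := by positivity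
    linarith

lemma UV_pos2 {A C : ℤ} (hA : 0 < A) (hC : 0 ≤ C) (k : ℕ) : 0 < (UV A C k).2 :=
  lt_of_lt_of_le (by positivity) (UV_pos hA hC k).2

lemma UV_le {A C : ℤ} (hA : 0 < A) (hC : 0 ≤ C) (hCA : C ≤ A) (k : ℕ) :
    (UV A C k).1 ≤ (UV A C k).2 := by
  induction k with
  | zero => simp [UV]
  | succ k ih =>
    have hU := (UV_pos hA hC k).1
    have hV := UV_pos2 hA hC k
    have hn := UV_norm A C k
    have hp : 0 ≤ (A - C) ^ (2 * k + 1) := pow_nonneg (by linarith) _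
    have key : C * (UV A C k).2 ≤ A * (UV A C k).1 := by
      by_contra hcon
      push Not at hcon
      have h1 : A * (UV A C k).1 * (UV A C k).1 < C * (UV A C k).2 * (UV A C k).1 :=
        mul_lt_mul_of_pos_right hcon hU
      have h2 : C * (UV A C k).2 * (UV A C k).1 ≤ C * (UV A C k).2 * (UV A C k).2 :=
        mul_le_mul_of_nonneg_left ih (by positivity)
      nlinarith
    simp only [UV]
    have h3 : (A + C) * (UV A C k).1 ≤ (A + C) * (UV A C k).2 :=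
      mul_le_mul_of_nonneg_left ih (by positivity)
    nlinarith

/-- Homogeneity and monotonicity. -/
lemma UV_mono {t a c C : ℤ} (ht : 0 < t) (ha : 0 < a) (hC : 0 ≤ C) (hCc : C ≤ t * c) (k : ℕ) :
    (UV (t * a) C k).1 ≤ t ^ k * (UV a c k).1 ∧ (UV (t * a) C k).2 ≤ t ^ k * (UV a c k).2 := by
  have hc : 0 ≤ c := by
    by_contra hcon
    push Not at hcon
    have : t * c < 0 := mul_neg_of_pos_of_neg ht hcon
    linarith
  induction k with
  | zero => simp [UV]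
  | succ k ih =>
    obtain ⟨h1, h2⟩ := ih
    have hA : 0 < t * a := by positivity
    have hU := (UV_pos hA hC k).1
    have hV := UV_pos2 hA hC k
    have hs : t * a + C ≤ t * (a + c) := by linarith
    simp only [UV]
    constructor
    · have e1 : (t * a + C) * (UV (t * a) C k).1 ≤ t * (a + c) * (t ^ k * (UV a c k).1) :=
        mul_le_mul hs h1 hU.le (by positivity)
      have e2 : 2 * C * (UV (t * a) C k).2 ≤ 2 * (t * c) * (t ^ k * (UV a c k).2) :=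
        mul_le_mul (by linarith) h2 hV.le (by positivity)
      calc _ ≤ _ := add_le_add e1 e2
        _ = _ := by ring
    · have e1 : (t * a + C) * (UV (t * a) C k).2 ≤ t * (a + c) * (t ^ k * (UV a c k).2) :=
        mul_le_mul hs h2 hV.le (by positivity)
      have e2 : 2 * (t * a) * (UV (t * a) C k).1 ≤ 2 * (t * a) * (t ^ k * (UV a c k).1) :=
        mul_le_mul_of_nonneg_left h1 (by positivity)
      calc _ ≤ _ := add_le_add e1 e2
        _ = _ := by ring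

lemma UV_mod {A C x y : ℤ} (hA : A ≡ -x [ZMOD y]) (hC : C ≡ -x [ZMOD y]) (k : ℕ) :
    (UV A C k).1 ≡ (-4 * x) ^ k [ZMOD y] ∧ (UV A C k).2 ≡ (-4 * x) ^ k [ZMOD y] := by
  induction k with
  | zero => simp [UV, Int.ModEq.refl]
  | succ k ih =>
    obtain ⟨h1, h2⟩ := ih
    simp only [UV]
    constructor
    · have h3 := ((hA.add hC).mul h1).add (((Int.ModEq.refl 2).mul hC).mul h2)
      have e : (-x + -x) * (-4 * x) ^ k + 2 * -x * (-4 * x) ^ k = (-4 * x) ^ (k + 1) := by ring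
      rw [e] at h3
      exact h3
    · have h3 := ((hA.add hC).mul h2).add (((Int.ModEq.refl 2).mul hA).mul h1)
      have e : (-x + -x) * (-4 * x) ^ k + 2 * -x * (-4 * x) ^ k = (-4 * x) ^ (k + 1) := by ring
      rw [e] at h3
      exact h3

/-- The equation in Pell form. -/
lemma pell_form {x y a b : ℕ}
    (h : ∑ i ∈ Finset.range (2 * a + 1), x ^ i = ∑ i ∈ Finset.range (2 * b + 1), y ^ i) :
    (x : ℤ) * (y - 1) * ((x : ℤ) ^ a) ^ 2 = y * (x - 1) * ((y : ℤ) ^ b) ^ 2 + (y - x) := by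
  have h' : (∑ i ∈ Finset.range (2 * a + 1), (x : ℤ) ^ i) =
      ∑ i ∈ Finset.range (2 * b + 1), (y : ℤ) ^ i := by exact_mod_cast h
  have e1 := geom_sum_mul (x : ℤ) (2 * a + 1)
  have e2 := geom_sum_mul (y : ℤ) (2 * b + 1)
  rw [h'] at e1
  have e3 : ((x : ℤ) ^ (2 * a + 1) - 1) * (y - 1) = ((y : ℤ) ^ (2 * b + 1) - 1) * (x - 1) := by
    rw [← e1, ← e2]; ring
  have e4 : (x : ℤ) ^ (2 * a + 1) = x * ((x : ℤ) ^ a) ^ 2 := by ring
  have e5 : (y : ℤ) ^ (2 * b + 1) = y * ((y : ℤ) ^ b) ^ 2 := by ring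
  rw [e4, e5] at e3
  linarith

/-- `x ^ a < y ^ b`. -/
lemma pow_lt_of_pell {x y X Y : ℤ} (hx : 2 ≤ x) (hxy : x < y) (hX : 0 < X) (hY : 2 ≤ Y)
    (h : x * (y - 1) * X ^ 2 = y * (x - 1) * Y ^ 2 + (y - x)) : X < Y := by
  by_contra hcon
  push Not at hcon
  have h1 : Y ^ 2 ≤ X ^ 2 := by nlinarith
  have h2 : 0 < x * (y - 1) := by nlinarith
  have h3 : x * (y - 1) * Y ^ 2 ≤ x * (y - 1) * X ^ 2 := mul_le_mul_of_nonneg_left h1 h2.le
  have h4 : (y - x) * Y ^ 2 ≤ y - x := by nlinarith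
  have h5 : 4 ≤ Y ^ 2 := by nlinarith
  have h6 : (y - x) * 4 ≤ (y - x) * Y ^ 2 := mul_le_mul_of_nonneg_left h5 (by linarith)
  linarith

/-- The main inequality: `y < V_b(x, 1)`. -/
theorem main_bound {x y a b : ℕ} (hx : 2 ≤ x) (hxy : x < y) (hy : y.Prime)
    (hcop : Nat.Coprime x y) (hb : 1 ≤ b)
    (h : ∑ i ∈ Finset.range (2 * a + 1), x ^ i = ∑ i ∈ Finset.range (2 * b + 1), y ^ i) :
    (y : ℤ) < (UV x 1 b).2 := by
  have hy2 : 2 ≤ y := hy.two_le
  have hP := pell_form h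
  have hxZ : (2 : ℤ) ≤ x := by exact_mod_cast hx
  have hxyZ : (x : ℤ) < y := by exact_mod_cast hxy
  set X : ℤ := (x : ℤ) ^ a with hX
  set Y : ℤ := (y : ℤ) ^ b with hY
  have hXpos : 0 < X := by positivity
  have hYge : 2 ≤ Y := by
    have : (y : ℤ) ^ 1 ≤ (y : ℤ) ^ b := pow_le_pow_right₀ (by linarith) hb
    rw [pow_one] at this
    linarith
  have hXY : X < Y := pow_lt_of_pell hxZ hxyZ hXpos hYge hP
  set A : ℤ := (x : ℤ) * (y - 1) with hA
  set C : ℤ := (y : ℤ) - x with hC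
  set U := (UV A C b).1 with hU
  set V := (UV A C b).2 with hV
  have hApos : 0 < A := by
    rw [hA]; nlinarith
  have hCpos : 0 ≤ C := by rw [hC]; linarith
  have hUpos : 0 < U := (UV_pos hApos hCpos b).1
  have hVge : (A + C) ^ b ≤ V := (UV_pos hApos hCpos b).2
  have hVpos : 0 < V := UV_pos2 hApos hCpos b
  have hnorm : A * U ^ 2 - C * V ^ 2 = (A - C) ^ (2 * b + 1) := UV_norm A C b
  have hB : A - C = y * (x - 1) := by rw [hA, hC]; ring
  have key : A * ((X * V - U) * (X * V + U)) =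
      (y : ℤ) ^ (2 * b + 1) * ((x - 1) * (V ^ 2 - (x - 1) ^ (2 * b))) := by
    have e1 : A * ((X * V - U) * (X * V + U)) = (A * X ^ 2) * V ^ 2 - A * U ^ 2 := by ring
    have e2 : A * U ^ 2 = C * V ^ 2 + (y * (x - 1)) ^ (2 * b + 1) := by
      rw [← hB]; linarith
    rw [e1, e2, hP, mul_pow]
    have e3 : Y ^ 2 = (y : ℤ) ^ (2 * b) := by rw [hY]; ring
    rw [e3]
    ring
  -- divisibility
  have hyZ : Prime (y : ℤ) := Nat.prime_iff_prime_int.mp hy
  have hyx : ¬ (y : ℤ) ∣ x := by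
    intro hdvd
    have := Int.le_of_dvd (by linarith) hdvd
    linarith
  have hyA : ¬ (y : ℤ) ∣ A := by
    rw [hA]
    intro hdvd
    rcases hyZ.dvd_or_dvd hdvd with h1 | h1
    · exact hyx h1
    · have := Int.le_of_dvd (by linarith) h1
      linarith
  have hy3 : ¬ (y : ℤ) ∣ 2 := by
    intro hdvd
    have := Int.le_of_dvd (by norm_num) hdvd
    linarith
  have hyV : ¬ (y : ℤ) ∣ V := by
    have hmA : A ≡ -x [ZMOD y] := Int.modEq_iff_dvd.mpr ⟨-x, by rw [hA]; ring⟩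
    have hmC : C ≡ -x [ZMOD y] := Int.modEq_iff_dvd.mpr ⟨-1, by rw [hC]; ring⟩
    have h1 := (UV_mod hmA hmC b).2
    intro hdvd
    have h2 : (y : ℤ) ∣ (-4 * x) ^ b := by
      have := (Int.modEq_iff_dvd.mp h1)
      have h3 := dvd_add this hdvd
      rwa [sub_add_cancel] at h3
    have h3 := hyZ.dvd_of_dvd_pow h2
    rcases hyZ.dvd_or_dvd h3 with h4 | h4
    · have h5 : (y : ℤ) ∣ 2 ^ 2 := by
        have : (2 : ℤ) ^ 2 = -(-4) := by norm_num
        rw [this]; exact (dvd_neg).mpr h4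
      exact hy3 (hyZ.dvd_of_dvd_pow h5)
    · exact hyx h4
  have hcopA : IsCoprime ((y : ℤ) ^ (2 * b + 1)) A :=
    ((Prime.coprime_iff_not_dvd hyZ).mpr hyA).pow_left
  have hdvd : (y : ℤ) ^ (2 * b + 1) ∣ (X * V - U) * (X * V + U) :=
    hcopA.dvd_of_dvd_mul_left ⟨_, key⟩
  have hyX : ¬ (y : ℤ) ∣ X := fun h1 => hyx (hyZ.dvd_of_dvd_pow h1)
  have hnot : ¬ ((y : ℤ) ∣ (X * V - U) ∧ (y : ℤ) ∣ (X * V + U)) := by
    rintro ⟨h1, h2⟩
    have h3 := dvd_add h1 h2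
    have h4 : X * V - U + (X * V + U) = 2 * (X * V) := by ring
    rw [h4] at h3
    rcases hyZ.dvd_or_dvd h3 with h5 | h5
    · exact hy3 h5
    · rcases hyZ.dvd_or_dvd h5 with h6 | h6
      · exact hyX h6
      · exact hyV h6
  have hVgt : ((x : ℤ) - 1) ^ b < V := by
    refine lt_of_lt_of_le ?_ hVge
    refine pow_lt_pow_left₀ ?_ (by linarith) (by omega)
    rw [hA, hC]
    nlinarith
  have hne : (X * V - U) ≠ 0 := by
    intro h0
    rw [h0, zero_mul, mul_zero] at key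
    have h1 : V ^ 2 - ((x : ℤ) - 1) ^ (2 * b) ≠ 0 := by
      have : ((x : ℤ) - 1) ^ (2 * b) = (((x : ℤ) - 1) ^ b) ^ 2 := by ring
      rw [this]
      have h2 : 0 ≤ ((x : ℤ) - 1) ^ b := pow_nonneg (by linarith) _
      nlinarith
    have h3 : (y : ℤ) ^ (2 * b + 1) ≠ 0 := by positivity
    have h4 : ((x : ℤ) - 1) ≠ 0 := by linarith
    exact (mul_ne_zero h3 (mul_ne_zero h4 h1)) key.symm
  have hle : (y : ℤ) ^ (2 * b + 1) ≤ X * V + U := by
    by_cases hd : (y : ℤ) ∣ (X * V - U)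
    · have hd' : ¬ (y : ℤ) ∣ (X * V + U) := fun h' => hnot ⟨hd, h'⟩
      have hc : IsCoprime ((y : ℤ) ^ (2 * b + 1)) (X * V + U) :=
        ((Prime.coprime_iff_not_dvd hyZ).mpr hd').pow_left
      have h1 : (y : ℤ) ^ (2 * b + 1) ∣ (X * V - U) := hc.dvd_of_dvd_mul_right hdvd
      have h2 := Int.le_of_dvd (abs_pos.mpr hne) ((dvd_abs _ _).mpr h1)
      refine h2.trans ?_
      rw [abs_le]
      have : 0 < X * V := by positivity
      constructor <;> linarith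
    · have hc : IsCoprime ((y : ℤ) ^ (2 * b + 1)) (X * V - U) :=
        ((Prime.coprime_iff_not_dvd hyZ).mpr hd).pow_left
      have h1 : (y : ℤ) ^ (2 * b + 1) ∣ (X * V + U) := hc.dvd_of_dvd_mul_left hdvd
      exact Int.le_of_dvd (by positivity) h1
  -- the size
  have hm := UV_mono (t := (y : ℤ) - 1) (a := x) (c := 1) (C := C) (by linarith) (by linarith)
    hCpos (by rw [hC]; linarith) b
  have hAeq : ((y : ℤ) - 1) * x = A := by rw [hA]; ring
  rw [hAeq] at hm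
  obtain ⟨hmU, hmV⟩ := hm
  set u0 := (UV (x : ℤ) 1 b).1 with hu0
  set v0 := (UV (x : ℤ) 1 b).2 with hv0
  have hu0v0 : u0 ≤ v0 := UV_le (by linarith) (by norm_num) (by linarith) b
  have hv0pos : 0 < v0 := UV_pos2 (by linarith) (by norm_num) b
  have hypow : 0 < ((y : ℤ) - 1) ^ b := pow_pos (by linarith) _
  have h1 : X * V + U ≤ ((y : ℤ) - 1) ^ b * (v0 * Y) := by
    have e1 : X * V ≤ X * (((y : ℤ) - 1) ^ b * v0) := mul_le_mul_of_nonneg_left hmV hXpos.le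
    have e2 : U ≤ ((y : ℤ) - 1) ^ b * v0 := hmU.trans (mul_le_mul_of_nonneg_left hu0v0 hypow.le)
    have e3 : X + 1 ≤ Y := hXY
    have e4 : (X + 1) * (((y : ℤ) - 1) ^ b * v0) ≤ Y * (((y : ℤ) - 1) ^ b * v0) :=
      mul_le_mul_of_nonneg_right e3 (by positivity)
    calc X * V + U ≤ (X + 1) * (((y : ℤ) - 1) ^ b * v0) := by linarith
      _ ≤ Y * (((y : ℤ) - 1) ^ b * v0) := e4
      _ = _ := by ring
  have h2 : ((y : ℤ) - 1) ^ b < Y := by
    rw [hY]
    exact pow_lt_pow_left₀ (by linarith) (by linarith) (by omega)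
  have h3 : ((y : ℤ) - 1) ^ b * (v0 * Y) < Y * (v0 * Y) :=
    mul_lt_mul_of_pos_right h2 (by positivity)
  have h4 : (y : ℤ) ^ (2 * b + 1) = y * (Y * Y) := by rw [hY]; ring
  have h5 : y * (Y * Y) < v0 * (Y * Y) := by
    calc (y : ℤ) * (Y * Y) = (y : ℤ) ^ (2 * b + 1) := h4.symm
      _ ≤ X * V + U := hle
      _ ≤ _ := h1
      _ < _ := h3
      _ = v0 * (Y * Y) := by ring
  exact lt_of_mul_lt_mul_right h5 (by positivity)

/-- The closed form of `V_k(x, 1)`. -/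
lemma UV_closed (x : ℕ) (k : ℕ) :
    (√(x : ℝ) + 1) ^ (2 * k + 1) = √x * ((UV x 1 k).1 : ℝ) + ((UV x 1 k).2 : ℝ) ∧
    (√(x : ℝ) - 1) ^ (2 * k + 1) = √x * ((UV x 1 k).1 : ℝ) - ((UV x 1 k).2 : ℝ) := by
  have hs : √(x : ℝ) * √(x : ℝ) = x := Real.mul_self_sqrt (Nat.cast_nonneg x)
  induction k with
  | zero => simp [UV]
  | succ k ih =>
    obtain ⟨h1, h2⟩ := ih
    have e1 : (√(x : ℝ) + 1) ^ (2 * (k + 1) + 1) = (√(x : ℝ) + 1) ^ (2 * k + 1) * (√(x : ℝ) + 1) ^ 2 := by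
      ring
    have e2 : (√(x : ℝ) - 1) ^ (2 * (k + 1) + 1) = (√(x : ℝ) - 1) ^ (2 * k + 1) * (√(x : ℝ) - 1) ^ 2 := by
      ring
    rw [e1, e2, h1, h2]
    simp only [UV]
    push_cast
    have e3 : (√(x : ℝ) + 1) ^ 2 = x + 1 + 2 * √x := by
      rw [add_sq, sq, hs]; ring
    have e4 : (√(x : ℝ) - 1) ^ 2 = x + 1 - 2 * √x := by
      rw [sub_sq, sq, hs]; ring
    rw [e3, e4]
    constructor
    · linear_combination (2 * ((UV x 1 k).1 : ℝ)) * hs
    · linear_combination (-2 * ((UV x 1 k).1 : ℝ)) * hs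

lemma two_UV (x k : ℕ) :
    2 * ((UV x 1 k).2 : ℝ) = (√(x : ℝ) + 1) ^ (2 * k + 1) - (√(x : ℝ) - 1) ^ (2 * k + 1) := by
  obtain ⟨h1, h2⟩ := UV_closed x k
  rw [h1, h2]; ring

end Pool.Agent.W_MP_cac67d_h21
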