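import Mathlib

set_option autoImplicit false

/-!
# Expansion of the determinant of a product of two rectangular matrices
-/

namespace Pool.Agent.W_MP_cac67d_h21

open Matrix Finset

theorem det_expand {R ι J : Type*} [CommRing R] [Fintype ι] [DecidableEq ι] [Fintype J]
    (A : ι → J → R) (C : J → ι → R) :
    (Matrix.of fun r c => ∑ s, A r s * C s c).det =
      ∑ g : ι → J, (∏ r, A r (g r)) * (Matrix.of fun r c => C (g r) c).det := by
  classical
  have h1 : (Matrix.of fun r c => ∑ s, A r s * C s c) =
      fun r => ∑ s : J, A r s • C s := by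
    ext r c
    simp [Finset.sum_apply]
  have h2 : (Matrix.of fun r c => ∑ s, A r s * C s c).det =
      (Matrix.detRowAlternating (R := R) (n := ι)).toMultilinearMap
        (fun r => ∑ s : J, A r s • C s) := by
    rw [h1]; rfl
  rw [h2, MultilinearMap.map_sum]
  refine Finset.sum_congr rfl fun g _ => ?_
  rw [MultilinearMap.map_smul_univ]
  rfl

theorem det_expand_zero {R ι J : Type*} [CommRing R] [Fintype ι] [DecidableEq ι]
    (C : J → ι → R) (g : ι → J) (hg : ¬ Function.Injective g) :
    (Matrix.of fun r c => C (g r) c).det = 0 := by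
  rw [Function.Injective] at hg
  push Not at hg
  obtain ⟨r1, r2, h1, h2⟩ := hg
  refine Matrix.det_zero_of_row_eq h2 ?_
  funext c
  simp [h1]

end Pool.Agent.W_MP_cac67d_h21
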