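import Mathlib
import Pool.Agent.W_MP_cac67d_h21.Det1

set_option autoImplicit false

/-!
# The interpolation matrix and its factorization
-/

namespace Pool.Agent.W_MP_cac67d_h21

open Matrix Finset

/-- The index type of the rows: values at `(1,1)` and values at `(T,W)`. -/
abbrev Row (K : ℕ) := Fin K ⊕ Fin K

/-- The interpolation matrix with columns `(m c, i c)`. -/
def Ent {R : Type*} [CommRing R] (T W : R) {K : ℕ} {ι : Type*} (m i : ι → ℕ) : Row K → ι → R
  | Sum.inl k, c => ((m c).choose k : R)
  | Sum.inr k, c => ((m c).choose k : R) * T ^ (m c - k) * W ^ (i c)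

/-- Left factor. -/
def FacA {R : Type*} [CommRing R] (x z : R) {K : ℕ} : Row K → ℕ × ℕ → R
  | Sum.inl k, s => if s.1 = k ∧ s.2 = 0 then 1 else 0
  | Sum.inr k, s => (s.1.choose k : R) * x ^ (s.1 - k) * z ^ s.2

/-- Right factor. -/
def FacC (R : Type*) [CommRing R] {ι : Type*} (m i : ι → ℕ) (s : ℕ × ℕ) (c : ι) : R :=
  ((m c).choose s.1 : R) * ((i c).choose s.2 : R)

lemma sum_choose {R : Type*} [CommRing R] (x : R) {m M : ℕ} (k : ℕ) (h : m ≤ M) :
    ∑ j ∈ range (M + 1), (j.choose k : R) * x ^ (j - k) * (m.choose j : R) =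
      (m.choose k : R) * (1 + x) ^ (m - k) := by
  rcases lt_or_ge m k with hk | hk
  · rw [Nat.choose_eq_zero_of_lt hk, Nat.cast_zero, zero_mul]
    refine Finset.sum_eq_zero fun j _ => ?_
    rcases lt_or_ge j k with h1 | h1
    · rw [Nat.choose_eq_zero_of_lt h1]; simp
    · rw [Nat.choose_eq_zero_of_lt (lt_of_lt_of_le hk h1) (n := m)]; simp
  · have hsub : Ico k (m + 1) ⊆ range (M + 1) := by
      intro j hj
      simp only [Finset.mem_Ico, Finset.mem_range] at hj ⊢
      omega
    rw [← Finset.sum_subset hsub]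
    · rw [Finset.sum_Ico_eq_sum_range, add_comm 1 x, add_pow, Finset.mul_sum]
      have : m + 1 - k = m - k + 1 := by omega
      rw [this]
      refine Finset.sum_congr rfl fun l hl => ?_
      simp only [Finset.mem_range] at hl
      have e := Nat.choose_mul (n := m) (k := k + l) (s := k) (by omega)
      have e' : ((m.choose (k + l) : ℕ) : R) * ((k + l).choose k : R) =
          (m.choose k : R) * ((m - k).choose l : R) := by
        have : k + l - k = l := by omega
        rw [this] at e
        exact_mod_cast congrArg (Nat.cast (R := R)) e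
      have h2 : k + l - k = l := by omega
      rw [h2, one_pow, mul_one]
      linear_combination (x ^ l) * e'
    · intro j hj hj'
      simp only [Finset.mem_Ico, Finset.mem_range, not_and, not_lt] at hj hj'
      rcases lt_or_ge j k with h1 | h1
      · rw [Nat.choose_eq_zero_of_lt h1]; simp
      · have h2 := hj' h1
        rw [Nat.choose_eq_zero_of_lt (by omega : m < j)]; simp

lemma sum_choose' {R : Type*} [CommRing R] (z : R) {i I : ℕ} (h : i ≤ I) :
    ∑ b ∈ range (I + 1), z ^ b * (i.choose b : R) = (1 + z) ^ i := by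
  have := sum_choose z 0 h
  simpa using this

theorem Ent_factor {R : Type*} [CommRing R] (x z : R) {K M I : ℕ} {ι : Type*} (m i : ι → ℕ)
    (hK : K ≤ M + 1) (hm : ∀ c, m c ≤ M) (hi : ∀ c, i c ≤ I) (r : Row K) (c : ι) :
    Ent (1 + x) (1 + z) m i r c =
      ∑ s : Fin (M + 1) × Fin (I + 1), FacA x z r (s.1.val, s.2.val) *
        FacC R m i (s.1.val, s.2.val) c := by
  rw [Fintype.sum_prod_type]
  have key : ∀ f : ℕ → ℕ → R, (∑ j : Fin (M + 1), ∑ b : Fin (I + 1), f j.val b.val) =
      ∑ j ∈ range (M + 1), ∑ b ∈ range (I + 1), f j b := by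
    intro f
    rw [Fin.sum_univ_eq_sum_range (fun j => ∑ b : Fin (I + 1), f j b.val) (M + 1)]
    refine Finset.sum_congr rfl fun j _ => ?_
    rw [Fin.sum_univ_eq_sum_range (fun b => f j b) (I + 1)]
  rw [key (fun j b => FacA x z r (j, b) * FacC R m i (j, b) c)]
  rcases r with k | k
  · simp only [Ent, FacA, FacC]
    rw [Finset.sum_eq_single k.val]
    · rw [Finset.sum_eq_single 0]
      · simp
      · intro b _ hb
        simp [hb]
      · intro h0
        simp at h0
    · intro j _ hj
      refine Finset.sum_eq_zero fun b _ => ?_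
      simp [hj]
    · intro h0
      exfalso
      apply h0
      have := k.isLt
      simp only [Finset.mem_range]
      omega
  · simp only [Ent, FacA, FacC]
    have e : ∀ j ∈ range (M + 1), (∑ b ∈ range (I + 1), (j.choose k.val : R) * x ^ (j - k.val) *
        z ^ b * (((m c).choose j : R) * ((i c).choose b : R))) =
        ((j.choose k.val : R) * x ^ (j - k.val) * ((m c).choose j : R)) * (1 + z) ^ (i c) := by
      intro j _
      rw [← sum_choose' z (hi c), Finset.mul_sum]
      refine Finset.sum_congr rfl fun b _ => ?_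
      ring
    rw [Finset.sum_congr rfl e, ← Finset.sum_mul, sum_choose x k.val (hm c)]

/-- The expansion of the interpolation determinant. -/
theorem Ent_det {R : Type*} [CommRing R] (x z : R) {K M I : ℕ} (m i : Row K → ℕ)
    (hK : K ≤ M + 1) (hm : ∀ c, m c ≤ M) (hi : ∀ c, i c ≤ I) :
    (Matrix.of (Ent (1 + x) (1 + z) m i)).det =
      ∑ g : Row K → Fin (M + 1) × Fin (I + 1),
        (∏ r, FacA x z r ((g r).1.val, (g r).2.val)) *
        (Matrix.of fun r c => FacC R m i ((g r).1.val, (g r).2.val) c).det := by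
  have h : (Matrix.of (Ent (1 + x) (1 + z) m i) : Matrix (Row K) (Row K) R) =
      Matrix.of fun r c => ∑ s : Fin (M + 1) × Fin (I + 1),
        FacA x z r (s.1.val, s.2.val) * FacC R m i (s.1.val, s.2.val) c := by
    ext r c
    simp only [Matrix.of_apply]
    exact Ent_factor x z m i hK hm hi r c
  rw [h, det_expand]

end Pool.Agent.W_MP_cac67d_h21
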