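import Mathlib
import Pool.Agent.W_MP_cac67d_h21.Det2

set_option autoImplicit false

/-!
# The sum of the weights
-/

namespace Pool.Agent.W_MP_cac67d_h21

open Finset

/-- The weight of the monomial `x ^ j * z ^ b`. -/
def wt (ρ : ℕ) (s : ℕ × ℕ) : ℕ := s.1 + (2 * ρ + 1) * s.2

lemma sum_triW (T U : ℕ) (h : U ≤ T) : 2 * ∑ j ∈ range T, (U - j) = U * (U + 1) := by
  induction U generalizing T with
  | zero => simp
  | succ U ih =>
    obtain ⟨T', rfl⟩ : ∃ T', T = T' + 1 := ⟨T - 1, by omega⟩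
    rw [Finset.sum_range_succ', mul_add]
    have : ∑ k ∈ range T', (U + 1 - (k + 1)) = ∑ k ∈ range T', (U - k) :=
      Finset.sum_congr rfl fun k _ => by omega
    rw [this, ih T' (by omega)]
    simp
    ring

lemma wt_sum {ι : Type*} [Fintype ι] (g : ι → ℕ × ℕ) (hg : Function.Injective g) (ρ T : ℕ)
    (hT : T ≤ 2 * (2 * ρ + 1)) :
    2 * (Fintype.card ι * T) ≤ 2 * (∑ r, wt ρ (g r)) +
      (T * (T + 1) + (T - (2 * ρ + 1)) * (T - (2 * ρ + 1) + 1)) := by
  classical
  have h1 : Fintype.card ι * T ≤ (∑ r, wt ρ (g r)) + ∑ r, (T - wt ρ (g r)) := by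
    rw [← Finset.sum_add_distrib, ← Finset.card_univ, ← smul_eq_mul, ← Finset.sum_const]
    exact Finset.sum_le_sum fun r _ => by omega
  have h2 : ∑ r, (T - wt ρ (g r)) = ∑ s ∈ Finset.univ.image g, (T - wt ρ s) := by
    rw [Finset.sum_image]
    intro a _ b _ hab
    exact hg hab
  have h3 : ∑ s ∈ Finset.univ.image g, (T - wt ρ s) ≤
      ∑ s ∈ range T ×ˢ range 2, (T - wt ρ s) := by
    have e1 : ∑ s ∈ Finset.univ.image g, (T - wt ρ s) =
        ∑ s ∈ (Finset.univ.image g).filter (fun s => s ∈ range T ×ˢ range 2), (T - wt ρ s) := by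
      rw [Finset.sum_filter]
      refine Finset.sum_congr rfl fun s _ => ?_
      split_ifs with hs
      · rfl
      · simp only [Finset.mem_product, Finset.mem_range, not_and_or, not_lt] at hs
        simp only [wt]
        rcases hs with hs | hs
        · omega
        · have : (2 * ρ + 1) * 2 ≤ (2 * ρ + 1) * s.2 := Nat.mul_le_mul_left _ hs
          omega
    rw [e1]
    refine Finset.sum_le_sum_of_subset ?_
    intro s hs
    exact (Finset.mem_filter.mp hs).2
  have h4 : 2 * ∑ s ∈ range T ×ˢ range 2, (T - wt ρ s) =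
      T * (T + 1) + (T - (2 * ρ + 1)) * (T - (2 * ρ + 1) + 1) := by
    rw [Finset.sum_product_right, Finset.sum_range_succ, Finset.sum_range_one, mul_add]
    have e1 := sum_triW T T le_rfl
    have e2 := sum_triW T (T - (2 * ρ + 1)) (by omega)
    have a1 : ∑ x ∈ range T, (T - wt ρ (x, 0)) = ∑ j ∈ range T, (T - j) :=
      Finset.sum_congr rfl fun j _ => by simp [wt]
    have a2 : ∑ x ∈ range T, (T - wt ρ (x, 1)) = ∑ j ∈ range T, (T - (2 * ρ + 1) - j) :=
      Finset.sum_congr rfl fun j _ => by simp only [wt]; omega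
    rw [a1, a2, e1, e2]
  omega

/-- The order of the derivative in each row. -/
def rk {K : ℕ} : Row K → ℕ
  | Sum.inl k => k.val
  | Sum.inr k => k.val

lemma sum_rk (K : ℕ) : ∑ r : Row K, rk r = K * (K - 1) := by
  rw [Fintype.sum_sum_type]
  simp only [rk]
  rw [Fin.sum_univ_eq_sum_range (fun k => k) K]
  have := Finset.sum_range_id_mul_two K
  omega

/-- The total order of vanishing. -/
def Wd (ρ K : ℕ) : ℕ := (2 * ρ + 1) * K - ρ * (ρ + 1)

lemma Wd_le {ρ K : ℕ} (h2 : K ≤ 3 * ρ + 2) (g : Row K → ℕ × ℕ)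
    (hg : Function.Injective g) : Wd ρ K ≤ ∑ r, (wt ρ (g r) - rk r) := by
  have hc : Fintype.card (Row K) = 2 * K := by
    simp [Row, two_mul]
  have h4 : ∑ r, wt ρ (g r) ≤ (∑ r : Row K, (wt ρ (g r) - rk r)) + ∑ r : Row K, rk r := by
    rw [← Finset.sum_add_distrib]
    exact Finset.sum_le_sum fun r _ => by omega
  rw [sum_rk] at h4
  rcases lt_or_ge ρ K with h1 | h1
  · have h3 := wt_sum g hg ρ (K + ρ) (by omega)
    rw [hc] at h3
    obtain ⟨e, rfl⟩ : ∃ e, K = ρ + 1 + e := ⟨K - (ρ + 1), by omega⟩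
    have e1 : ρ + 1 + e + ρ - (2 * ρ + 1) = e := by omega
    have e2 : ρ + 1 + e - 1 = ρ + e := by omega
    rw [e1] at h3
    rw [e2] at h4
    unfold Wd
    have e3 : (2 * ρ + 1) * (ρ + 1 + e) - ρ * (ρ + 1) = (ρ + 1) * (ρ + 1) + (2 * ρ + 1) * e := by
      have : (2 * ρ + 1) * (ρ + 1 + e) = (ρ + 1) * (ρ + 1) + (2 * ρ + 1) * e + ρ * (ρ + 1) := by ring
      omega
    rw [e3]
    nlinarith
  · have h3 := wt_sum g hg ρ (2 * K) (by omega)
    rw [hc] at h3
    have e1 : 2 * K - (2 * ρ + 1) = 0 := by omega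
    rw [e1, zero_mul, add_zero] at h3
    obtain ⟨e, rfl⟩ : ∃ e, ρ = K + e := ⟨ρ - K, by omega⟩
    have h5 : K * K ≤ ∑ r : Row K, (wt (K + e) (g r) - rk r) := by
      rcases Nat.eq_zero_or_pos K with h0 | h0
      · subst h0; simp
      · obtain ⟨k, rfl⟩ : ∃ k, K = k + 1 := ⟨K - 1, by omega⟩
        have e2 : k + 1 - 1 = k := by omega
        rw [e2] at h4
        nlinarith
    refine le_trans ?_ h5
    unfold Wd
    have h6 : (2 * (K + e) + 1) * K ≤ K * K + (K + e) * (K + e + 1) := by nlinarith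
    omega

end Pool.Agent.W_MP_cac67d_h21
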