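import Mathlib
import Pool.Agent.W_MP_cac67d_h21.Wt

set_option autoImplicit false

/-!
# Size and order of vanishing of the interpolation determinant
-/

namespace Pool.Agent.W_MP_cac67d_h21

open Finset Matrix

/-- A decreasing multiplicative filtration. -/
structure Filt {R : Type*} [CommRing R] (P : ℕ → R → Prop) : Prop where
  zero : ∀ n, P n 0
  add : ∀ n a b, P n a → P n b → P n (a + b)
  mul : ∀ m n a b, P m a → P n b → P (m + n) (a * b)
  anti : ∀ m n a, m ≤ n → P n a → P m a
  int : ∀ k : ℤ, P 0 (k : R)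

lemma Filt.sum {R : Type*} [CommRing R] {P : ℕ → R → Prop} (hP : Filt P) {α : Type*}
    (s : Finset α) (f : α → R) (n : ℕ) (h : ∀ a ∈ s, P n (f a)) : P n (∑ a ∈ s, f a) := by
  classical
  induction s using Finset.induction_on with
  | empty => simpa using hP.zero n
  | insert a s ha ih =>
    rw [Finset.sum_insert ha]
    exact hP.add _ _ _ (h a (Finset.mem_insert_self a s))
      (ih fun b hb => h b (Finset.mem_insert_of_mem hb))

lemma Filt.prod {R : Type*} [CommRing R] {P : ℕ → R → Prop} (hP : Filt P) {α : Type*}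
    (s : Finset α) (f : α → R) (e : α → ℕ) (h : ∀ a ∈ s, P (e a) (f a)) :
    P (∑ a ∈ s, e a) (∏ a ∈ s, f a) := by
  classical
  induction s using Finset.induction_on with
  | empty => simpa using hP.int 1
  | insert a s ha ih =>
    rw [Finset.prod_insert ha, Finset.sum_insert ha]
    exact hP.mul _ _ _ _ (h a (Finset.mem_insert_self a s))
      (ih fun b hb => h b (Finset.mem_insert_of_mem hb))

lemma Filt.pow {R : Type*} [CommRing R] {P : ℕ → R → Prop} (hP : Filt P) {x : R} {d : ℕ}
    (h : P d x) (n : ℕ) : P (d * n) (x ^ n) := by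
  induction n with
  | zero => simpa using hP.int 1
  | succ n ih =>
    rw [pow_succ, Nat.mul_succ]
    exact hP.mul _ _ _ _ ih h

lemma Filt.nat {R : Type*} [CommRing R] {P : ℕ → R → Prop} (hP : Filt P) (n : ℕ) :
    P 0 (n : R) := by
  have := hP.int n
  simpa using this

lemma Filt.det_int {R : Type*} [CommRing R] {P : ℕ → R → Prop} (hP : Filt P) {ι : Type*}
    [Fintype ι] [DecidableEq ι] (M : Matrix ι ι R) (h : ∀ r c, P 0 (M r c)) : P 0 M.det := by
  rw [Matrix.det_apply']
  refine hP.sum _ _ _ fun σ _ => ?_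
  have h1 := hP.mul 0 0 _ _ (hP.int (Equiv.Perm.sign σ : ℤ))
    (by simpa using hP.prod Finset.univ (fun c => M (σ c) c) (fun _ => 0) fun c _ => h _ _)
  simpa using h1

/-- The factor `FacA` and the weights. -/
lemma Filt.facA {R : Type*} [CommRing R] {P : ℕ → R → Prop} (hP : Filt P) {ρ K : ℕ} {x z : R}
    (hx : P 1 x) (hz : P (2 * ρ + 1) z) (r : Row K) (s : ℕ × ℕ) :
    P (wt ρ s - rk r) (FacA x z r s) := by
  rcases r with k | k
  · simp only [FacA]
    split_ifs with h
    · have : wt ρ s - rk (Sum.inl k : Row K) = 0 := by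
        simp [wt, rk, h.1, h.2]
      rw [this]
      simpa using hP.int 1
    · exact hP.zero _
  · simp only [FacA]
    rcases lt_or_ge s.1 k.val with h | h
    · rw [Nat.choose_eq_zero_of_lt h]
      simpa using hP.zero _
    · have h1 := hP.mul _ _ _ _ (hP.mul _ _ _ _ (hP.nat (s.1.choose k.val)) (hP.pow hx (s.1 - k.val)))
        (hP.pow hz s.2)
      refine hP.anti _ _ _ ?_ h1
      simp only [wt, rk]
      omega

/-- Order of vanishing of the interpolation determinant. -/
theorem Filt.det {R : Type*} [CommRing R] {P : ℕ → R → Prop} (hP : Filt P) {ρ K M I : ℕ}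
    (m i : Row K → ℕ) {x z : R} (hx : P 1 x) (hz : P (2 * ρ + 1) z)
    (hK : K ≤ M + 1) (hm : ∀ c, m c ≤ M) (hi : ∀ c, i c ≤ I)
    (h2 : K ≤ 3 * ρ + 2) :
    P (Wd ρ K) (Matrix.of (Ent (1 + x) (1 + z) m i)).det := by
  rw [Ent_det x z m i hK hm hi]
  refine hP.sum _ _ _ fun g _ => ?_
  by_cases hg : Function.Injective g
  · have hg' : Function.Injective (fun r : Row K => (((g r).1.val, (g r).2.val) : ℕ × ℕ)) := by
      intro a b hab
      apply hg
      simp only [Prod.mk.injEq] at hab
      exact Prod.ext (Fin.ext hab.1) (Fin.ext hab.2)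
    have h3 := Wd_le h2 _ hg'
    refine hP.anti _ _ _ h3 ?_
    have h4 := hP.prod Finset.univ (fun r : Row K => FacA x z r ((g r).1.val, (g r).2.val))
      (fun r => wt ρ ((g r).1.val, (g r).2.val) - rk r) fun r _ => hP.facA hx hz r _
    have h5 := hP.det_int (Matrix.of fun r c => FacC R m i ((g r).1.val, (g r).2.val) c)
      (fun r c => by
        simp only [Matrix.of_apply, FacC]
        simpa using hP.mul 0 0 _ _ (hP.nat _) (hP.nat _))
    simpa using hP.mul _ _ _ _ h4 h5
  · have h3 := det_expand_zero
      (fun (s : Fin (M + 1) × Fin (I + 1)) (c : Row K) => FacC R m i (s.1.val, s.2.val) c) g hg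
    rw [h3, mul_zero]
    exact hP.zero _

/-- The constant in the archimedean bound. -/
def Ec (K M I : ℕ) : ℕ :=
  ((M + 1) * (I + 1)) ^ (2 * K) * (2 * K).factorial * 2 ^ ((2 * M + I) * (2 * K))

/-- Size of the interpolation determinant. -/
theorem arch_det {ρ K M I : ℕ} (m i : Row K → ℕ) {x z ξ : ℝ} (hξ0 : 0 < ξ) (hξ1 : ξ ≤ 1)
    (hx : |x| ≤ ξ) (hz : |z| ≤ ξ ^ (2 * ρ + 1))
    (hK : K ≤ M + 1) (hm : ∀ c, m c ≤ M) (hi : ∀ c, i c ≤ I)
    (h2 : K ≤ 3 * ρ + 2) :
    |(Matrix.of (Ent (1 + x) (1 + z) m i)).det| ≤ Ec K M I * ξ ^ Wd ρ K := by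
  rw [Ent_det x z m i hK hm hi]
  refine (Finset.abs_sum_le_sum_abs _ _).trans ?_
  have hcard : Fintype.card (Row K) = 2 * K := by simp [Row, two_mul]
  have key : ∀ g : Row K → Fin (M + 1) × Fin (I + 1),
      |(∏ r, FacA x z r ((g r).1.val, (g r).2.val)) *
        (Matrix.of fun r c => FacC ℝ m i ((g r).1.val, (g r).2.val) c).det| ≤
      (2 * K).factorial * 2 ^ ((2 * M + I) * (2 * K)) * ξ ^ Wd ρ K := by
    intro g
    by_cases hg : Function.Injective g
    · have hg' : Function.Injective (fun r : Row K => (((g r).1.val, (g r).2.val) : ℕ × ℕ)) := by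
        intro a b hab
        apply hg
        simp only [Prod.mk.injEq] at hab
        exact Prod.ext (Fin.ext hab.1) (Fin.ext hab.2)
      have h3 := Wd_le h2 _ hg'
      have hA : ∀ r : Row K, |FacA x z r ((g r).1.val, (g r).2.val)| ≤
          2 ^ M * ξ ^ (wt ρ ((g r).1.val, (g r).2.val) - rk r) := by
        intro r
        have hone : (1 : ℝ) ≤ 2 ^ M := one_le_pow₀ (by norm_num)
        rcases r with k | k
        · simp only [FacA]
          split_ifs with h
          · have : wt ρ ((g (Sum.inl k)).1.val, (g (Sum.inl k)).2.val) -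
              rk (Sum.inl k : Row K) = 0 := by
              simp [wt, rk, h.1, h.2]
            rw [this]
            simpa using hone
          · rw [abs_zero]; positivity
        · simp only [FacA]
          rcases lt_or_ge (g (Sum.inr k)).1.val k.val with h | h
          · rw [Nat.choose_eq_zero_of_lt h]
            simp only [Nat.cast_zero, zero_mul, abs_zero]
            positivity
          · rw [abs_mul, abs_mul, abs_pow, abs_pow, Nat.abs_cast]
            have e1 : (((g (Sum.inr k)).1.val.choose k.val : ℕ) : ℝ) ≤ 2 ^ M := by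
              have h4 : (g (Sum.inr k)).1.val.choose k.val ≤ 2 ^ (g (Sum.inr k)).1.val :=
                Nat.choose_le_two_pow _ _
              have h5 : 2 ^ (g (Sum.inr k)).1.val ≤ 2 ^ M :=
                Nat.pow_le_pow_right (by norm_num) (by have := (g (Sum.inr k)).1.isLt; omega)
              exact_mod_cast h4.trans h5
            have e2 : |x| ^ ((g (Sum.inr k)).1.val - k.val) ≤
                ξ ^ ((g (Sum.inr k)).1.val - k.val) := pow_le_pow_left₀ (abs_nonneg _) hx _
            have e3 : |z| ^ (g (Sum.inr k)).2.val ≤ (ξ ^ (2 * ρ + 1)) ^ (g (Sum.inr k)).2.val :=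
              pow_le_pow_left₀ (abs_nonneg _) hz _
            have e4 : wt ρ ((g (Sum.inr k)).1.val, (g (Sum.inr k)).2.val) - rk (Sum.inr k : Row K) =
                ((g (Sum.inr k)).1.val - k.val) + (2 * ρ + 1) * (g (Sum.inr k)).2.val := by
              simp only [wt, rk]
              omega
            rw [e4, pow_add, pow_mul, ← mul_assoc]
            exact mul_le_mul (mul_le_mul e1 e2 (by positivity) (by positivity)) e3
              (by positivity) (by positivity)
      have hC : |(Matrix.of fun r c => FacC ℝ m i ((g r).1.val, (g r).2.val) c).det| ≤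
          (2 * K).factorial * (2 ^ (M + I)) ^ (2 * K) := by
        have := Matrix.det_le (A := Matrix.of fun r c => FacC ℝ m i ((g r).1.val, (g r).2.val) c)
          (abv := AbsoluteValue.abs) (x := 2 ^ (M + I)) (fun r c => by
            simp only [Matrix.of_apply, FacC, AbsoluteValue.abs_apply]
            rw [abs_mul, Nat.abs_cast, Nat.abs_cast, pow_add]
            have e1 : ((m c).choose (g r).1.val : ℝ) ≤ 2 ^ M := by
              have h4 := (Nat.choose_le_two_pow (m c) (g r).1.val).trans
                (Nat.pow_le_pow_right (by norm_num) (hm c))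
              exact_mod_cast h4
            have e2 : ((i c).choose (g r).2.val : ℝ) ≤ 2 ^ I := by
              have h4 := (Nat.choose_le_two_pow (i c) (g r).2.val).trans
                (Nat.pow_le_pow_right (by norm_num) (hi c))
              exact_mod_cast h4
            exact mul_le_mul e1 e2 (by positivity) (by positivity))
        rw [hcard] at this
        simpa [nsmul_eq_mul] using this
      rw [abs_mul, Finset.abs_prod]
      have hprod : ∏ r, |FacA x z r ((g r).1.val, (g r).2.val)| ≤
          (2 ^ M) ^ (2 * K) * ξ ^ Wd ρ K := by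
        calc ∏ r, |FacA x z r ((g r).1.val, (g r).2.val)| ≤
            ∏ r : Row K, (2 ^ M * ξ ^ (wt ρ ((g r).1.val, (g r).2.val) - rk r)) :=
              Finset.prod_le_prod (fun _ _ => abs_nonneg _) fun r _ => hA r
          _ = (2 ^ M) ^ (2 * K) * ξ ^ (∑ r : Row K, (wt ρ ((g r).1.val, (g r).2.val) - rk r)) := by
              rw [Finset.prod_mul_distrib, Finset.prod_const, Finset.card_univ, hcard,
                Finset.prod_pow_eq_pow_sum]
          _ ≤ _ := mul_le_mul_of_nonneg_left (pow_le_pow_of_le_one hξ0.le hξ1 h3) (by positivity)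
      calc _ ≤ ((2 ^ M) ^ (2 * K) * ξ ^ Wd ρ K) *
            ((2 * K).factorial * (2 ^ (M + I)) ^ (2 * K)) :=
            mul_le_mul hprod hC (abs_nonneg _) (by positivity)
        _ = _ := by
            have e : (2 : ℝ) ^ ((2 * M + I) * (2 * K)) = (2 ^ M) ^ (2 * K) * (2 ^ (M + I)) ^ (2 * K) := by
              rw [← pow_mul, ← pow_mul, ← pow_add]
              congr 1
              ring
            rw [e]; ring
    · have h3 := det_expand_zero
        (fun (s : Fin (M + 1) × Fin (I + 1)) (c : Row K) => FacC ℝ m i (s.1.val, s.2.val) c) g hg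
      rw [h3, mul_zero, abs_zero]
      positivity
  calc _ ≤ ∑ g : Row K → Fin (M + 1) × Fin (I + 1),
        ((2 * K).factorial * 2 ^ ((2 * M + I) * (2 * K)) * ξ ^ Wd ρ K : ℝ) :=
        Finset.sum_le_sum fun g _ => key g
    _ = _ := by
        rw [Finset.sum_const, Finset.card_univ, Fintype.card_fun, hcard, Fintype.card_prod,
          Fintype.card_fin, Fintype.card_fin, nsmul_eq_mul]
        unfold Ec
        push_cast
        ring

end Pool.Agent.W_MP_cac67d_h21
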