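import Mathlib
import Pool.Agent.W_MP_cac67d_h21.Det3

set_option autoImplicit false

/-!
# The ring `ℤ[√D]` inside `ℝ × ℝ` and the filtration at the prime `p`
-/

namespace Pool.Agent.W_MP_cac67d_h21

open Finset

/-- The element `u + v √D` with its conjugate. -/
noncomputable def qe (D : ℕ) (u v : ℤ) : ℝ × ℝ :=
  ((u : ℝ) + v * √(D : ℝ), (u : ℝ) - v * √(D : ℝ))

lemma qe_mul (D : ℕ) (u v u' v' : ℤ) :
    qe D u v * qe D u' v' = qe D (u * u' + D * (v * v')) (u * v' + v * u') := by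
  have hs : √(D : ℝ) * √(D : ℝ) = D := Real.mul_self_sqrt (Nat.cast_nonneg D)
  unfold qe
  rw [Prod.mk_mul_mk]
  push_cast
  refine Prod.ext ?_ ?_
  · simp only
    linear_combination ((v : ℝ) * v') * hs
  · simp only
    linear_combination ((v : ℝ) * v') * hs

lemma qe_add (D : ℕ) (u v u' v' : ℤ) :
    qe D u v + qe D u' v' = qe D (u + u') (v + v') := by
  unfold qe
  rw [Prod.mk_add_mk]
  push_cast
  refine Prod.ext ?_ ?_ <;> simp only <;> ring

lemma qe_neg (D : ℕ) (u v : ℤ) : -qe D u v = qe D (-u) (-v) := by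
  unfold qe
  push_cast
  refine Prod.ext ?_ ?_ <;> simp only [Prod.fst_neg, Prod.snd_neg] <;> ring

lemma qe_int (D : ℕ) (u : ℤ) : qe D u 0 = (u : ℝ × ℝ) := by
  unfold qe
  refine Prod.ext ?_ ?_ <;> simp

lemma qe_swap (D : ℕ) (u v : ℤ) : (qe D u v).swap = qe D u (-v) := by
  unfold qe
  push_cast
  refine Prod.ext ?_ ?_ <;> simp only [Prod.fst_swap, Prod.snd_swap] <;> ring

/-- The ring `ℤ[√D]`. -/
noncomputable def OR (D : ℕ) : Subring (ℝ × ℝ) where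
  carrier := {z | ∃ u v : ℤ, z = qe D u v}
  mul_mem' := by
    rintro _ _ ⟨u, v, rfl⟩ ⟨u', v', rfl⟩
    exact ⟨_, _, qe_mul D u v u' v'⟩
  one_mem' := ⟨1, 0, by rw [qe_int]; simp⟩
  add_mem' := by
    rintro _ _ ⟨u, v, rfl⟩ ⟨u', v', rfl⟩
    exact ⟨_, _, qe_add D u v u' v'⟩
  zero_mem' := ⟨0, 0, by rw [qe_int]; simp⟩
  neg_mem' := by
    rintro _ ⟨u, v, rfl⟩
    exact ⟨_, _, qe_neg D u v⟩

lemma mem_OR {D : ℕ} {z : ℝ × ℝ} : z ∈ OR D ↔ ∃ u v : ℤ, z = qe D u v := Iff.rfl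

lemma swap_mem {D : ℕ} {z : ℝ × ℝ} (h : z ∈ OR D) : z.swap ∈ OR D := by
  obtain ⟨u, v, rfl⟩ := h
  exact ⟨_, _, qe_swap D u v⟩

lemma swap_mul' (a b : ℝ × ℝ) : (a * b).swap = a.swap * b.swap := rfl

/-- Bezout: denominators coprime to each other cancel. -/
lemma mem_of_coprime {D : ℕ} {z : ℝ × ℝ} {a b : ℕ} (hab : Nat.Coprime a b)
    (ha : (a : ℝ × ℝ) * z ∈ OR D) (hb : (b : ℝ × ℝ) * z ∈ OR D) : z ∈ OR D := by
  have h1 := Nat.gcd_eq_gcd_ab a b
  rw [Nat.Coprime] at hab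
  rw [hab] at h1
  have h2 : z = ((a.gcdA b : ℤ) : ℝ × ℝ) * ((a : ℝ × ℝ) * z) +
      ((a.gcdB b : ℤ) : ℝ × ℝ) * ((b : ℝ × ℝ) * z) := by
    have h3 : ((1 : ℕ) : ℝ × ℝ) = ((a : ℝ × ℝ)) * ((a.gcdA b : ℤ) : ℝ × ℝ) +
        (b : ℝ × ℝ) * ((a.gcdB b : ℤ) : ℝ × ℝ) := by
      have := congrArg (Int.cast : ℤ → ℝ × ℝ) h1
      push_cast at this
      simpa using this
    have h4 : z = ((1 : ℕ) : ℝ × ℝ) * z := by simp
    conv_lhs => rw [h4, h3]
    ring
  rw [h2]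
  exact (OR D).add_mem ((OR D).mul_mem (intCast_mem _ _) ha) ((OR D).mul_mem (intCast_mem _ _) hb)

/-- The filtration at `p` (for `p ∣ D`), with denominators prime to `p`. -/
def JL (p D : ℕ) (n : ℕ) (z : ℝ × ℝ) : Prop :=
  ∃ d : ℕ, Nat.Coprime d p ∧ ∃ u v : ℤ, (p : ℤ) ^ ((n + 1) / 2) ∣ u ∧ (p : ℤ) ^ (n / 2) ∣ v ∧
    (d : ℝ × ℝ) * z = qe D u v

theorem JL_filt (p D : ℕ) (hpD : p ∣ D) : Filt (JL p D) where
  zero := fun n => ⟨1, Nat.coprime_one_left p, 0, 0, dvd_zero _, dvd_zero _, by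
    rw [qe_int]; simp⟩
  add := by
    rintro n a b ⟨d, hd, u, v, hu, hv, h⟩ ⟨d', hd', u', v', hu', hv', h'⟩
    refine ⟨d * d', Nat.Coprime.mul_left hd hd', d' * u + d * u', d' * v + d * v',
      dvd_add (dvd_mul_of_dvd_right hu _) (dvd_mul_of_dvd_right hu' _),
      dvd_add (dvd_mul_of_dvd_right hv _) (dvd_mul_of_dvd_right hv' _), ?_⟩
    have e1 : qe D (d' * u + d * u') (d' * v + d * v') =
        (d' : ℝ × ℝ) * qe D u v + (d : ℝ × ℝ) * qe D u' v' := by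
      have e2 : (d' : ℝ × ℝ) = qe D d' 0 := by rw [qe_int]; push_cast; rfl
      have e3 : (d : ℝ × ℝ) = qe D d 0 := by rw [qe_int]; push_cast; rfl
      rw [e2, e3, qe_mul, qe_mul, qe_add]
      congr 1 <;> ring
    rw [e1, ← h, ← h']
    push_cast
    ring
  mul := by
    rintro m n a b ⟨d, hd, u, v, hu, hv, h⟩ ⟨d', hd', u', v', hu', hv', h'⟩
    have hpD' : (p : ℤ) ∣ D := by exact_mod_cast hpD
    refine ⟨d * d', Nat.Coprime.mul_left hd hd', u * u' + D * (v * v'), u * v' + v * u',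
      dvd_add ?_ ?_, dvd_add ?_ ?_, ?_⟩
    · refine dvd_trans ?_ (mul_dvd_mul hu hu')
      rw [← pow_add]
      exact pow_dvd_pow _ (by omega)
    · refine dvd_trans ?_ (mul_dvd_mul hpD' (mul_dvd_mul hv hv'))
      rw [← pow_add, ← pow_succ']
      exact pow_dvd_pow _ (by omega)
    · refine dvd_trans ?_ (mul_dvd_mul hu hv')
      rw [← pow_add]
      exact pow_dvd_pow _ (by omega)
    · refine dvd_trans ?_ (mul_dvd_mul hv hu')
      rw [← pow_add]
      exact pow_dvd_pow _ (by omega)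
    · rw [← qe_mul, ← h, ← h']
      push_cast
      ring
  anti := by
    rintro m n a hmn ⟨d, hd, u, v, hu, hv, h⟩
    exact ⟨d, hd, u, v, dvd_trans (pow_dvd_pow _ (by omega)) hu,
      dvd_trans (pow_dvd_pow _ (by omega)) hv, h⟩
  int := fun k => ⟨1, Nat.coprime_one_left p, k, 0, by simp, dvd_zero _, by
    rw [qe_int]; simp⟩

/-- The norm of an element of order `n` is divisible by `p ^ n`. -/
lemma JL_norm {p D n : ℕ} (hp : p.Prime) (hpD : p ∣ D) {z : ℝ × ℝ} (hz : JL p D n z) {c : ℕ}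
    {w : ℤ} (hw : (c : ℝ) * (z.1 * z.2) = w) : (p : ℤ) ^ n ∣ w := by
  obtain ⟨d, hd, u, v, hu, hv, h⟩ := hz
  have hs : √(D : ℝ) * √(D : ℝ) = D := Real.mul_self_sqrt (Nat.cast_nonneg D)
  have h1 : (d : ℝ) * z.1 = u + v * √(D : ℝ) := by
    have := congrArg Prod.fst h
    simpa [qe] using this
  have h2 : (d : ℝ) * z.2 = u - v * √(D : ℝ) := by
    have := congrArg Prod.snd h
    simpa [qe] using this
  have h3 : ((d : ℤ) ^ 2 * w : ℤ) = c * (u ^ 2 - D * v ^ 2) := by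
    have : ((d : ℝ) ^ 2 * w : ℝ) = c * (u ^ 2 - D * v ^ 2) := by
      rw [← hw]
      have e : (d : ℝ) ^ 2 * (c * (z.1 * z.2)) = c * ((d * z.1) * (d * z.2)) := by ring
      rw [e, h1, h2]
      linear_combination (-(c : ℝ) * v ^ 2) * hs
    exact_mod_cast this
  have hpD' : (p : ℤ) ∣ D := by exact_mod_cast hpD
  have h4 : (p : ℤ) ^ n ∣ (d : ℤ) ^ 2 * w := by
    rw [h3]
    refine dvd_mul_of_dvd_right (dvd_sub ?_ ?_) _
    · refine dvd_trans ?_ (pow_dvd_pow_of_dvd hu 2)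
      rw [← pow_mul]
      exact pow_dvd_pow _ (by omega)
    · refine dvd_trans ?_ (mul_dvd_mul hpD' (pow_dvd_pow_of_dvd hv 2))
      rw [← pow_mul, ← pow_succ']
      exact pow_dvd_pow _ (by omega)
  have h5 : IsCoprime ((p : ℤ) ^ n) ((d : ℤ) ^ 2) := by
    have : IsCoprime (p : ℤ) (d : ℤ) := by
      rw [Nat.isCoprime_iff_coprime]; exact hd.symm
    exact this.pow
  exact h5.dvd_of_dvd_mul_left h4

/-- If `√D` is irrational, an element of the field with nonzero first component has nonzero second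
component. -/
lemma snd_ne {p D n : ℕ} (hD : Irrational √(D : ℝ)) (hp : 2 ≤ p) {z : ℝ × ℝ} (hz : JL p D n z)
    (h : z.1 ≠ 0) : z.2 ≠ 0 := by
  obtain ⟨d, hd, u, v, hu, hv, h0⟩ := hz
  have hd0 : (d : ℝ) ≠ 0 := by
    intro h1
    have h2 : d = 0 := by exact_mod_cast h1
    rw [h2, Nat.coprime_zero_left] at hd
    omega
  have h1 : (d : ℝ) * z.1 = u + v * √(D : ℝ) := by
    have := congrArg Prod.fst h0
    simpa [qe] using this
  have h2 : (d : ℝ) * z.2 = u - v * √(D : ℝ) := by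
    have := congrArg Prod.snd h0
    simpa [qe] using this
  intro h3
  rw [h3, mul_zero] at h2
  by_cases hv0 : v = 0
  · rw [hv0] at h1 h2
    simp only [Int.cast_zero, zero_mul, add_zero, sub_zero] at h1 h2
    rw [← h2] at h1
    exact (mul_ne_zero hd0 h) h1
  · have h4 : √(D : ℝ) = (u : ℝ) / v := by
      have : (v : ℝ) ≠ 0 := by exact_mod_cast hv0
      field_simp
      linarith
    apply hD
    exact ⟨(u : ℚ) / v, by push_cast; exact h4.symm⟩

end Pool.Agent.W_MP_cac67d_h21
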