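import Mathlib
import Pool.Agent.W_MP_cac67d_h21.Quad

set_option autoImplicit false

/-!
# Integrality of the norm of the interpolation determinant
-/

namespace Pool.Agent.W_MP_cac67d_h21

open Finset

/-- `0` for the rows at `(1, 1)`, `1` for the rows at `(T, W)`. -/
def chi {K : ℕ} : Row K → ℤ
  | Sum.inl _ => 0
  | Sum.inr _ => 1

/-- the order of the derivative for the rows at `(T, W)` -/
def kd {K : ℕ} : Row K → ℤ
  | Sum.inl _ => 0
  | Sum.inr k => (k.val : ℤ)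

lemma chi_sub {K : ℕ} (r r' : Row K) : |chi r - chi r'| ≤ 1 := by
  rcases r with _ | _ <;> rcases r' with _ | _ <;> simp [chi]

lemma Ent_unit {R : Type*} [CommRing R] (T W : Rˣ) {K : ℕ} (m i : Row K → ℕ) (r c : Row K) :
    Ent (T : R) (W : R) m i r c = (((m c).choose (rk r) : ℕ) : R) *
      ((T ^ (chi r * (m c : ℤ) - kd r) * W ^ (chi r * (i c : ℤ)) : Rˣ) : R) := by
  rcases r with k | k
  · simp [Ent, rk, chi, kd]
  · simp only [Ent, rk, chi, kd, one_mul]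
    rcases lt_or_ge (m c) k with h | h
    · rw [Nat.choose_eq_zero_of_lt h]; simp
    · have h1 : (m c : ℤ) - (k.val : ℤ) = ((m c - k.val : ℕ) : ℤ) := by
        rw [Nat.cast_sub h]
      rw [h1, zpow_natCast, zpow_natCast]
      push_cast
      ring

lemma zz {G : Type*} [CommGroup G] (T W : G) (a b c d : ℤ) :
    T ^ (a + b) * W ^ (c + d) = (T ^ a * W ^ c) * (T ^ b * W ^ d) := by
  rw [zpow_add, zpow_add, mul_mul_mul_comm]

/-- the coefficient of a permutation -/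
def nP {K : ℕ} (m : Row K → ℕ) (π : Equiv.Perm (Row K)) : ℤ :=
  (Equiv.Perm.sign π : ℤ) * ∏ c, ((m c).choose (rk (π c)) : ℤ)

lemma det_units {R : Type*} [CommRing R] (T W : Rˣ) {K : ℕ} (m i : Row K → ℕ)
    (s σ' M0 I0 : ℤ) (kc tc : Row K → ℤ) (hm : ∀ c, (m c : ℤ) = 2 * kc c + s * tc c + M0)
    (hi : ∀ c, (i c : ℤ) = kc c + σ' * tc c + I0) :
    (Matrix.of (Ent (T : R) (W : R) m i)).det =
      ((T ^ (M0 * (∑ r : Row K, chi r) - ∑ r : Row K, kd r) *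
        W ^ (I0 * ∑ r : Row K, chi r) : Rˣ) : R) *
      ∑ π : Equiv.Perm (Row K), ((nP m π : ℤ) : R) *
        ((T ^ (2 * (∑ c, chi (π c) * kc c) + s * (∑ c, chi (π c) * tc c)) *
          W ^ ((∑ c, chi (π c) * kc c) + σ' * (∑ c, chi (π c) * tc c)) : Rˣ) : R) := by
  rw [Matrix.det_apply', Finset.mul_sum]
  refine Finset.sum_congr rfl fun π _ => ?_
  have h1 : ∀ c, Ent (T : R) (W : R) m i (π c) c = (((m c).choose (rk (π c)) : ℕ) : R) *
      ((T ^ (chi (π c) * (m c : ℤ) - kd (π c)) * W ^ (chi (π c) * (i c : ℤ)) : Rˣ) : R) :=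
    fun c => Ent_unit T W m i (π c) c
  simp only [Matrix.of_apply]
  rw [Finset.prod_congr rfl fun c _ => h1 c, Finset.prod_mul_distrib]
  have h2 : ∏ c, ((T ^ (chi (π c) * (m c : ℤ) - kd (π c)) * W ^ (chi (π c) * (i c : ℤ)) : Rˣ) : R)
      = ((T ^ (∑ c, (chi (π c) * (m c : ℤ) - kd (π c))) *
        W ^ (∑ c, chi (π c) * (i c : ℤ)) : Rˣ) : R) := by
    rw [← Units.coe_prod, Finset.prod_mul_distrib]
    congr 2
    · exact (map_sum (zmultiplesHom (Additive Rˣ) (Additive.ofMul T)) _ _).symm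
    · exact (map_sum (zmultiplesHom (Additive Rˣ) (Additive.ofMul W)) _ _).symm
  rw [h2]
  have hchi : ∑ c, chi (π c) = ∑ r : Row K, chi r := Equiv.sum_comp π chi
  have hkd : ∑ c, kd (π c) = ∑ r : Row K, kd r := Equiv.sum_comp π kd
  have e1 : ∑ c, (chi (π c) * (m c : ℤ) - kd (π c)) =
      (M0 * (∑ r : Row K, chi r) - ∑ r : Row K, kd r) +
      (2 * (∑ c, chi (π c) * kc c) + s * (∑ c, chi (π c) * tc c)) := by
    rw [Finset.sum_sub_distrib, hkd]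
    have : ∀ c, chi (π c) * (m c : ℤ) = 2 * (chi (π c) * kc c) + s * (chi (π c) * tc c) +
        M0 * chi (π c) := fun c => by rw [hm]; ring
    rw [Finset.sum_congr rfl fun c _ => this c, Finset.sum_add_distrib, Finset.sum_add_distrib,
      ← Finset.mul_sum, ← Finset.mul_sum, ← Finset.mul_sum, hchi]
    ring
  have e2 : ∑ c, chi (π c) * (i c : ℤ) = (I0 * ∑ r : Row K, chi r) +
      ((∑ c, chi (π c) * kc c) + σ' * (∑ c, chi (π c) * tc c)) := by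
    have : ∀ c, chi (π c) * (i c : ℤ) = (chi (π c) * kc c) + σ' * (chi (π c) * tc c) +
        I0 * chi (π c) := fun c => by rw [hi]; ring
    rw [Finset.sum_congr rfl fun c _ => this c, Finset.sum_add_distrib, Finset.sum_add_distrib,
      ← Finset.mul_sum, ← Finset.mul_sum, hchi]
    ring
  rw [e1, e2, zz T W, Units.val_mul]
  unfold nP
  push_cast
  ring

/-- the swap on units -/
noncomputable def sw : (ℝ × ℝ)ˣ →* (ℝ × ℝ)ˣ :=
  Units.map (RingEquiv.prodComm (R := ℝ) (S := ℝ)).toRingHom.toMonoidHom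

lemma coe_sw (u : (ℝ × ℝ)ˣ) : ((sw u : (ℝ × ℝ)ˣ) : ℝ × ℝ) = (u : ℝ × ℝ).swap := rfl

lemma swap_sum {α : Type*} (s : Finset α) (f : α → ℝ × ℝ) :
    (∑ a ∈ s, f a).swap = ∑ a ∈ s, (f a).swap :=
  map_sum (RingEquiv.prodComm (R := ℝ) (S := ℝ)) f s

lemma swap_intCast (n : ℤ) : ((n : ℤ) : ℝ × ℝ).swap = (n : ℝ × ℝ) := by
  refine Prod.ext ?_ ?_ <;> simp

theorem norm_int {D x1 y : ℕ} (s σ' : ℤ) (T W : (ℝ × ℝ)ˣ)
    (hT : sw T = T⁻¹) (hW : sw W = W⁻¹)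
    (hint : ∀ k t : ℤ, ((y : ℝ × ℝ) ^ k.natAbs * (x1 : ℝ × ℝ) ^ (k + σ' * t).natAbs) *
      ((T ^ (2 * k + s * t) * W ^ (k + σ' * t) : (ℝ × ℝ)ˣ) : ℝ × ℝ) ∈ OR D)
    {K : ℕ} (kc tc : Row K → ℤ) (m i : Row K → ℕ) (M0 I0 : ℤ)
    (hm : ∀ c, (m c : ℤ) = 2 * kc c + s * tc c + M0)
    (hi : ∀ c, (i c : ℤ) = kc c + σ' * tc c + I0) :
    ((y : ℝ × ℝ) ^ (∑ c, (kc c).natAbs) * (x1 : ℝ × ℝ) ^ (∑ c, (kc c + σ' * tc c).natAbs)) *
      ((Matrix.of (Ent (T : ℝ × ℝ) (W : ℝ × ℝ) m i)).det *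
        (Matrix.of (Ent (T : ℝ × ℝ) (W : ℝ × ℝ) m i)).det.swap) ∈ OR D := by
  rw [det_units T W m i s σ' M0 I0 kc tc hm hi]
  set U : (ℝ × ℝ)ˣ := T ^ (M0 * (∑ r : Row K, chi r) - ∑ r : Row K, kd r) *
        W ^ (I0 * ∑ r : Row K, chi r) with hU
  set kP : Equiv.Perm (Row K) → ℤ := fun π => ∑ c, chi (π c) * kc c with hkP
  set tP : Equiv.Perm (Row K) → ℤ := fun π => ∑ c, chi (π c) * tc c with htP
  have hswU : sw U = U⁻¹ := by
    rw [hU, map_mul, map_zpow, map_zpow, hT, hW, inv_zpow, inv_zpow, mul_inv]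
  have hswE : ∀ k t : ℤ, sw (T ^ (2 * k + s * t) * W ^ (k + σ' * t)) =
      T ^ (-(2 * k + s * t)) * W ^ (-(k + σ' * t)) := by
    intro k t
    rw [map_mul, map_zpow, map_zpow, hT, hW, inv_zpow', inv_zpow']
  have h1 : ((U : ℝ × ℝ) * ∑ π : Equiv.Perm (Row K), ((nP m π : ℤ) : ℝ × ℝ) *
        ((T ^ (2 * kP π + s * tP π) * W ^ (kP π + σ' * tP π) : (ℝ × ℝ)ˣ) : ℝ × ℝ)).swap =
      ((U⁻¹ : (ℝ × ℝ)ˣ) : ℝ × ℝ) * ∑ π : Equiv.Perm (Row K), ((nP m π : ℤ) : ℝ × ℝ) *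
        ((T ^ (-(2 * kP π + s * tP π)) * W ^ (-(kP π + σ' * tP π)) : (ℝ × ℝ)ˣ) : ℝ × ℝ) := by
    rw [swap_mul', ← coe_sw, hswU, swap_sum]
    congr 1
    refine Finset.sum_congr rfl fun π _ => ?_
    rw [swap_mul', swap_intCast, ← coe_sw, hswE]
  rw [h1]
  have h2 : ∀ a b : ℝ × ℝ, ((U : ℝ × ℝ) * a) * (((U⁻¹ : (ℝ × ℝ)ˣ) : ℝ × ℝ) * b) = a * b := by
    intro a b
    have := U.mul_inv
    calc ((U : ℝ × ℝ) * a) * (((U⁻¹ : (ℝ × ℝ)ˣ) : ℝ × ℝ) * b) =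
        ((U : ℝ × ℝ) * ((U⁻¹ : (ℝ × ℝ)ˣ) : ℝ × ℝ)) * (a * b) := by ring
      _ = a * b := by rw [this, one_mul]
  rw [h2, Finset.sum_mul_sum, Finset.mul_sum]
  refine (OR D).sum_mem fun π _ => ?_
  rw [Finset.mul_sum]
  refine (OR D).sum_mem fun π' _ => ?_
  have h3 : (((nP m π : ℤ) : ℝ × ℝ) *
        ((T ^ (2 * kP π + s * tP π) * W ^ (kP π + σ' * tP π) : (ℝ × ℝ)ˣ) : ℝ × ℝ)) *
      (((nP m π' : ℤ) : ℝ × ℝ) *
        ((T ^ (-(2 * kP π' + s * tP π')) * W ^ (-(kP π' + σ' * tP π')) : (ℝ × ℝ)ˣ) : ℝ × ℝ)) =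
      (((nP m π * nP m π' : ℤ)) : ℝ × ℝ) *
        ((T ^ (2 * (kP π - kP π') + s * (tP π - tP π')) *
          W ^ ((kP π - kP π') + σ' * (tP π - tP π')) : (ℝ × ℝ)ˣ) : ℝ × ℝ) := by
    have e1 : 2 * (kP π - kP π') + s * (tP π - tP π') =
        (2 * kP π + s * tP π) + (-(2 * kP π' + s * tP π')) := by ring
    have e2 : (kP π - kP π') + σ' * (tP π - tP π') =
        (kP π + σ' * tP π) + (-(kP π' + σ' * tP π')) := by ring
    rw [e1, e2, zz T W (2 * kP π + s * tP π) (-(2 * kP π' + s * tP π')) (kP π + σ' * tP π)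
      (-(kP π' + σ' * tP π')), Int.cast_mul]
    simp only [Units.val_mul]
    ring
  rw [h3]
  have hb : ∀ f : Row K → ℤ, (∑ c, chi (π c) * f c - ∑ c, chi (π' c) * f c).natAbs ≤
      ∑ c, (f c).natAbs := by
    intro f
    rw [← Finset.sum_sub_distrib]
    have e1 : |∑ c, (chi (π c) * f c - chi (π' c) * f c)| ≤ ∑ c, |f c| := by
      refine (Finset.abs_sum_le_sum_abs _ _).trans (Finset.sum_le_sum fun c _ => ?_)
      rw [← sub_mul, abs_mul]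
      calc |chi (π c) - chi (π' c)| * |f c| ≤ 1 * |f c| :=
            mul_le_mul_of_nonneg_right (chi_sub _ _) (abs_nonneg _)
        _ = |f c| := one_mul _
    have e2 : ((∑ c, (chi (π c) * f c - chi (π' c) * f c)).natAbs : ℤ) ≤
        ((∑ c, (f c).natAbs : ℕ) : ℤ) := by
      push_cast
      exact e1
    exact_mod_cast e2
  have hk : (kP π - kP π').natAbs ≤ ∑ c, (kc c).natAbs := hb kc
  have hkt : ((kP π - kP π') + σ' * (tP π - tP π')).natAbs ≤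
      ∑ c, (kc c + σ' * tc c).natAbs := by
    have e1 := hb (fun c => kc c + σ' * tc c)
    have e2 : ∑ c, chi (π c) * (kc c + σ' * tc c) - ∑ c, chi (π' c) * (kc c + σ' * tc c) =
        (kP π - kP π') + σ' * (tP π - tP π') := by
      have e3 : ∀ p : Equiv.Perm (Row K), ∑ c, chi (p c) * (kc c + σ' * tc c) =
          kP p + σ' * tP p := by
        intro p
        simp only [hkP, htP]
        rw [Finset.mul_sum, ← Finset.sum_add_distrib]
        exact Finset.sum_congr rfl fun c _ => by ring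
      rw [e3, e3]; ring
    rwa [e2] at e1
  obtain ⟨a, ha⟩ := Nat.exists_eq_add_of_le hk
  obtain ⟨b, hb'⟩ := Nat.exists_eq_add_of_le hkt
  rw [ha, hb', pow_add, pow_add]
  have h4 := hint (kP π - kP π') (tP π - tP π')
  have h5 : (y : ℝ × ℝ) ^ a * (x1 : ℝ × ℝ) ^ b * (((nP m π * nP m π' : ℤ)) : ℝ × ℝ) ∈ OR D :=
    (OR D).mul_mem ((OR D).mul_mem ((OR D).pow_mem (natCast_mem _ _) _)
      ((OR D).pow_mem (natCast_mem _ _) _)) (intCast_mem _ _)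
  have h6 := (OR D).mul_mem h4 h5
  convert h6 using 1
  ring

end Pool.Agent.W_MP_cac67d_h21
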