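import Mathlib
import Pool.Agent.W_MP_cac67d_h21.NormInt

set_option autoImplicit false

/-!
# The main inequality from the interpolation determinant
-/

namespace Pool.Agent.W_MP_cac67d_h21

open Finset

lemma Ent_map {R S : Type*} [CommRing R] [CommRing S] (f : R →+* S) (T W : R) {K : ℕ}
    (m i : Row K → ℕ) :
    f (Matrix.of (Ent T W m i)).det = (Matrix.of (Ent (f T) (f W) m i)).det := by
  rw [RingHom.map_det]
  congr 1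
  ext r c
  simp only [RingHom.mapMatrix_apply, Matrix.map_apply, Matrix.of_apply]
  rcases r with k | k <;> simp [Ent]

lemma Ent_sign {R : Type*} [CommRing R] (T W : R) {K : ℕ} (m i : Row K → ℕ) (ε : ℤ)
    (hε : ε * ε = 1) (η : ℤ) (hη : ∀ c, ε ^ (m c) * (-1) ^ (i c) = η) :
    ∃ u : ℤ, (Matrix.of (Ent T W m i)).det =
      (u : R) * (Matrix.of (Ent ((ε : R) * T) (-W) m i)).det := by
  set g : Row K → ℤ := fun r => match r with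
    | Sum.inl _ => 1
    | Sum.inr k => η * ε ^ (k : ℕ) with hg
  refine ⟨∏ r, g r, ?_⟩
  have h1 : (Matrix.of (Ent T W m i)) =
      Matrix.of (fun r c => ((g r : ℤ) : R) * (Matrix.of (Ent ((ε : R) * T) (-W) m i)) r c) := by
    ext r c
    simp only [Matrix.of_apply]
    rcases r with k | k
    · simp [Ent, hg]
    · simp only [Ent, hg]
      rcases lt_or_ge (m c) k with h | h
      · rw [Nat.choose_eq_zero_of_lt h]; simp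
      · rw [← hη c, mul_pow, neg_pow W]
        have e1 : ((ε : R)) ^ (m c) * (ε : R) ^ (k : ℕ) * (ε : R) ^ (m c - k) = 1 := by
          have e2 : (ε : R) * ε = 1 := by
            have := congrArg (Int.cast : ℤ → R) hε
            push_cast at this
            exact this
          rw [mul_assoc, ← pow_add]
          have e3 : (k : ℕ) + (m c - k) = m c := by omega
          rw [e3, ← mul_pow, e2, one_pow]
        have e4 : ((-1 : R)) ^ (i c) * (-1) ^ (i c) = 1 := by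
          rw [← mul_pow]; simp
        push_cast
        calc ((m c).choose k : R) * T ^ (m c - k) * W ^ (i c)
            = ((m c).choose k : R) * T ^ (m c - k) * W ^ (i c) *
              (((ε : R)) ^ (m c) * (ε : R) ^ (k : ℕ) * (ε : R) ^ (m c - k)) *
              (((-1 : R)) ^ (i c) * (-1) ^ (i c)) := by rw [e1, e4, mul_one, mul_one]
          _ = _ := by ring
  rw [h1, Matrix.det_mul_column]
  push_cast
  rfl

theorem det_main {D p x1 y : ℕ} (hp : p.Prime) (hpD : p ∣ D) (hD : Irrational √(D : ℝ))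
    (hx1 : 0 < x1) (hy : 0 < y) (s σ' : ℤ) (T W : (ℝ × ℝ)ˣ)
    (hT : sw T = T⁻¹) (hW : sw W = W⁻¹)
    (hint : ∀ k t : ℤ, ((y : ℝ × ℝ) ^ k.natAbs * (x1 : ℝ × ℝ) ^ (k + σ' * t).natAbs) *
      ((T ^ (2 * k + s * t) * W ^ (k + σ' * t) : (ℝ × ℝ)ˣ) : ℝ × ℝ) ∈ OR D)
    {ρ K M I : ℕ} (kc tc : Row K → ℤ) (m i : Row K → ℕ) (M0 I0 : ℤ)
    (hm : ∀ c, (m c : ℤ) = 2 * kc c + s * tc c + M0)
    (hi : ∀ c, (i c : ℤ) = kc c + σ' * tc c + I0)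
    (hmM : ∀ c, m c ≤ M) (hiI : ∀ c, i c ≤ I) (hKM : K ≤ M + 1)
    (h2 : K ≤ 3 * ρ + 2) (ε : ℤ) (hε : ε * ε = 1)
    (hpT : JL p D 1 ((ε : ℝ × ℝ) * (T : ℝ × ℝ) - 1))
    (hpW : JL p D (2 * ρ + 1) (-(W : ℝ × ℝ) - 1))
    (η : ℤ) (hη : ∀ c, ε ^ (m c) * (-1) ^ (i c) = η)
    {ξ : ℝ} (hξ0 : 0 < ξ) (hξ1 : ξ ≤ 1)
    (hT1 : |(T : ℝ × ℝ).1 - 1| ≤ ξ) (hT2 : |(T : ℝ × ℝ).2 - 1| ≤ ξ)
    (hW1 : |(W : ℝ × ℝ).1 - 1| ≤ ξ ^ (2 * ρ + 1)) (hW2 : |(W : ℝ × ℝ).2 - 1| ≤ ξ ^ (2 * ρ + 1))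
    (hne : (Matrix.of (Ent (T : ℝ × ℝ).1 (W : ℝ × ℝ).1 m i)).det ≠ 0) :
    (p : ℝ) ^ Wd ρ K ≤ ((y : ℝ) ^ (∑ c, (kc c).natAbs) *
      (x1 : ℝ) ^ (∑ c, (kc c + σ' * tc c).natAbs)) * ((Ec K M I : ℝ) * ξ ^ Wd ρ K) ^ 2 := by
  have hF := JL_filt p D hpD
  set Δ : ℝ × ℝ := (Matrix.of (Ent (T : ℝ × ℝ) (W : ℝ × ℝ) m i)).det with hΔ
  have hfst : Δ.1 = (Matrix.of (Ent (T : ℝ × ℝ).1 (W : ℝ × ℝ).1 m i)).det :=
    Ent_map (RingHom.fst ℝ ℝ) _ _ m i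
  have hsnd : Δ.2 = (Matrix.of (Ent (T : ℝ × ℝ).2 (W : ℝ × ℝ).2 m i)).det :=
    Ent_map (RingHom.snd ℝ ℝ) _ _ m i
  -- order at p
  have hJ : JL p D (Wd ρ K) Δ := by
    obtain ⟨u, hu⟩ := Ent_sign (T : ℝ × ℝ) (W : ℝ × ℝ) m i ε hε η hη
    have h3 := hF.det (ρ := ρ) (M := M) (I := I) m i hpT hpW hKM hmM hiI h2
    have e1 : (1 : ℝ × ℝ) + ((ε : ℝ × ℝ) * (T : ℝ × ℝ) - 1) = (ε : ℝ × ℝ) * (T : ℝ × ℝ) := by ring
    have e2 : (1 : ℝ × ℝ) + (-(W : ℝ × ℝ) - 1) = -(W : ℝ × ℝ) := by ring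
    rw [e1, e2] at h3
    rw [hΔ, hu]
    have h4 := hF.mul 0 _ _ _ (hF.int u) h3
    rwa [zero_add] at h4
  -- the integer
  have hmem := norm_int (D := D) (x1 := x1) (y := y) s σ' T W hT hW hint kc tc m i M0 I0 hm hi
  rw [← hΔ] at hmem
  obtain ⟨u, v, huv⟩ := hmem
  set c : ℕ := y ^ (∑ c, (kc c).natAbs) * x1 ^ (∑ c, (kc c + σ' * tc c).natAbs) with hc
  have hcc : ((y : ℝ × ℝ) ^ (∑ c, (kc c).natAbs) *
      (x1 : ℝ × ℝ) ^ (∑ c, (kc c + σ' * tc c).natAbs)) = (c : ℝ × ℝ) := by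
    rw [hc]; push_cast; rfl
  rw [hcc] at huv
  have e1 : (c : ℝ) * (Δ.1 * Δ.2) = u + v * √(D : ℝ) := by
    have := congrArg Prod.fst huv
    simpa [qe] using this
  have e2 : (c : ℝ) * (Δ.2 * Δ.1) = u - v * √(D : ℝ) := by
    have := congrArg Prod.snd huv
    simpa [qe] using this
  have e3 : (c : ℝ) * (Δ.1 * Δ.2) = (u : ℝ) := by
    rw [mul_comm Δ.2 Δ.1] at e2
    linarith
  have hdvd := JL_norm hp hpD hJ e3
  have hΔ1 : Δ.1 ≠ 0 := by rw [hfst]; exact hne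
  have hΔ2 : Δ.2 ≠ 0 := snd_ne hD hp.two_le hJ hΔ1
  have hc0 : (0 : ℝ) < c := by
    have : 0 < c := by rw [hc]; positivity
    exact_mod_cast this
  have hu0 : u ≠ 0 := by
    intro h0
    rw [h0, Int.cast_zero] at e3
    exact (mul_ne_zero hc0.ne' (mul_ne_zero hΔ1 hΔ2)) e3
  have hle : (p : ℤ) ^ Wd ρ K ≤ |u| :=
    Int.le_of_dvd (abs_pos.mpr hu0) ((dvd_abs _ _).mpr hdvd)
  have hle' : (p : ℝ) ^ Wd ρ K ≤ |(u : ℝ)| := by exact_mod_cast hle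
  -- the size
  have hb1 : |Δ.1| ≤ (Ec K M I : ℝ) * ξ ^ Wd ρ K := by
    rw [hfst]
    have := arch_det (ρ := ρ) (K := K) (M := M) (I := I) m i (x := (T : ℝ × ℝ).1 - 1)
      (z := (W : ℝ × ℝ).1 - 1) hξ0 hξ1 hT1 hW1 hKM hmM hiI h2
    have e4 : (1 : ℝ) + ((T : ℝ × ℝ).1 - 1) = (T : ℝ × ℝ).1 := by ring
    have e5 : (1 : ℝ) + ((W : ℝ × ℝ).1 - 1) = (W : ℝ × ℝ).1 := by ring
    rwa [e4, e5] at this
  have hb2 : |Δ.2| ≤ (Ec K M I : ℝ) * ξ ^ Wd ρ K := by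
    rw [hsnd]
    have := arch_det (ρ := ρ) (K := K) (M := M) (I := I) m i (x := (T : ℝ × ℝ).2 - 1)
      (z := (W : ℝ × ℝ).2 - 1) hξ0 hξ1 hT2 hW2 hKM hmM hiI h2
    have e4 : (1 : ℝ) + ((T : ℝ × ℝ).2 - 1) = (T : ℝ × ℝ).2 := by ring
    have e5 : (1 : ℝ) + ((W : ℝ × ℝ).2 - 1) = (W : ℝ × ℝ).2 := by ring
    rwa [e4, e5] at this
  calc (p : ℝ) ^ Wd ρ K ≤ |(u : ℝ)| := hle'
    _ = c * (|Δ.1| * |Δ.2|) := by
        rw [← e3, abs_mul, abs_mul, abs_of_pos hc0]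
    _ ≤ c * (((Ec K M I : ℝ) * ξ ^ Wd ρ K) * ((Ec K M I : ℝ) * ξ ^ Wd ρ K)) := by
        refine mul_le_mul_of_nonneg_left ?_ hc0.le
        exact mul_le_mul hb1 hb2 (abs_nonneg _) (by positivity)
    _ = _ := by
        rw [hc]; push_cast; ring

end Pool.Agent.W_MP_cac67d_h21
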