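import Mathlib
import Pool.Agent.W_MP_cac67d_h21.C1
import Pool.Agent.W_MP_cac67d_h21.DetMain

set_option autoImplicit false

/-!
# The units `T`, `W` attached to a solution
-/

namespace Pool.Agent.W_MP_cac67d_h21

open Finset

/-- A solution of the equation in Pell form. -/
structure Sol (x y a b : ℕ) : Prop where
  hx : x.Prime
  hy : y.Prime
  hxy : x < y
  ha : 2 ≤ a
  hb : 1 ≤ b
  hE : (x : ℤ) * (y - 1) * ((x : ℤ) ^ a) ^ 2 = y * (x - 1) * ((y : ℤ) ^ b) ^ 2 + (y - x)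

/-- `1 + x + ... + x ^ (a - 1)` -/
def gS (x a : ℕ) : ℤ := ∑ i ∈ range a, (x : ℤ) ^ i

lemma gS_mul (x a : ℕ) : gS x a * ((x : ℤ) - 1) = (x : ℤ) ^ a - 1 := geom_sum_mul _ _

/-- the discriminant -/
def DD (x y : ℕ) : ℕ := x * (y - 1) * (y - x)

lemma DD_cast {x y : ℕ} (hx : 1 ≤ x) (hxy : x < y) :
    ((DD x y : ℕ) : ℤ) = (x : ℤ) * (y - 1) * (y - x) := by
  unfold DD
  have h1 : ((y - 1 : ℕ) : ℤ) = (y : ℤ) - 1 := by push_cast [Nat.cast_sub (by omega : 1 ≤ y)]; rfl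
  have h2 : ((y - x : ℕ) : ℤ) = (y : ℤ) - x := by push_cast [Nat.cast_sub hxy.le]; rfl
  push_cast
  rw [h1, h2]

section

variable {x y a b : ℕ}

/-- `α = A g + y` -/
def al (x y a : ℕ) : ℤ := (x : ℤ) * (y - 1) * gS x a + y

/-- Identity for `T`. -/
lemma T_norm (h : Sol x y a b) :
    al x y a * al x y a - (x : ℤ) * (y - 1) * (y - x) * (gS x a * gS x a) =
      ((y : ℤ) ^ (b + 1)) ^ 2 := by
  have hx2 : (2 : ℤ) ≤ x := by exact_mod_cast h.hx.two_le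
  have hg := gS_mul x a
  have hE := h.hE
  unfold al
  have key : ((x : ℤ) - 1) * ((x : ℤ) * (y - 1) * gS x a + y) * ((x : ℤ) * (y - 1) * gS x a + y) -
      ((x : ℤ) - 1) * ((x : ℤ) * (y - 1) * (y - x) * (gS x a * gS x a)) =
      ((x : ℤ) - 1) * ((y : ℤ) ^ (b + 1)) ^ 2 := by
    have e1 : ((y : ℤ) ^ (b + 1)) ^ 2 = y ^ 2 * ((y : ℤ) ^ b) ^ 2 := by ring
    rw [e1]
    set X : ℤ := (x : ℤ) ^ a
    set Y : ℤ := (y : ℤ) ^ b
    set g : ℤ := gS x a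
    linear_combination (x * (y - 1) * y * (g * (x - 1) + 2 + X - 1) : ℤ) * hg + (y : ℤ) * hE
  have h1 : ((x : ℤ) - 1) ≠ 0 := by linarith
  apply mul_left_cancel₀ h1
  linear_combination key

/-- Identity for `W`. -/
lemma W_norm (h : Sol x y a b) :
    ((x : ℤ) * (y - 1) * ((x : ℤ) ^ a) ^ 2 + (y - x)) * ((x : ℤ) * (y - 1) * ((x : ℤ) ^ a) ^ 2 + (y - x)) -
      (x : ℤ) * (y - 1) * (y - x) * (2 * (x : ℤ) ^ a * (2 * (x : ℤ) ^ a)) =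
      (((x : ℤ) - 1) * (y : ℤ) ^ (2 * b + 1)) ^ 2 := by
  have hE := h.hE
  have e1 : ((x : ℤ) - 1) * (y : ℤ) ^ (2 * b + 1) = y * (x - 1) * ((y : ℤ) ^ b) ^ 2 := by ring
  rw [e1]
  set X : ℤ := (x : ℤ) ^ a
  set Y : ℤ := (y : ℤ) ^ b
  linear_combination ((x : ℤ) * (y - 1) * X ^ 2 - (y - x) + y * (x - 1) * Y ^ 2) * hE

/-- Identity for `T ^ 2 * W`, for both signs of `δ`. -/
lemma TTW (h : Sol x y a b) (δ : ℝ) (hδ : δ * δ = (x : ℝ) * (y - 1) * (y - x)) :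
    ((al x y a : ℝ) - gS x a * δ) ^ 2 *
      (((x : ℝ) * (y - 1) * ((x : ℝ) ^ a) ^ 2 + (y - x)) - 2 * (x : ℝ) ^ a * δ) =
      (y : ℝ) ^ (2 * (2 * b + 1)) * (((x : ℝ) * (y - 1) + (y - x)) - 2 * δ) := by
  have hx2 : (2 : ℝ) ≤ x := by exact_mod_cast h.hx.two_le
  have hg : (gS x a : ℝ) * ((x : ℝ) - 1) = (x : ℝ) ^ a - 1 := by exact_mod_cast gS_mul x a
  have hE : (x : ℝ) * (y - 1) * ((x : ℝ) ^ a) ^ 2 = y * (x - 1) * ((y : ℝ) ^ b) ^ 2 + (y - x) := by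
    exact_mod_cast h.hE
  have hal : (al x y a : ℝ) = (x : ℝ) * (y - 1) * gS x a + y := by
    unfold al; push_cast; ring
  set X : ℝ := (x : ℝ) ^ a with hX
  set Y : ℝ := (y : ℝ) ^ b with hY
  set g : ℝ := (gS x a : ℝ) with hgd
  -- multiply by (x - 1) ^ 2
  have e1 : ((x : ℝ) - 1) * ((al x y a : ℝ) - g * δ) =
      ((x : ℝ) * (y - 1) * X - (y - x)) - (X - 1) * δ := by
    rw [hal]
    linear_combination ((x : ℝ) * (y - 1) - δ) * hg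
  have e2 : (((x : ℝ) * (y - 1) * X - (y - x)) - (X - 1) * δ) ^ 2 *
      (((x : ℝ) * (y - 1) * X ^ 2 + (y - x)) - 2 * X * δ) =
      ((x : ℝ) * (y - 1) * X ^ 2 - (y - x)) ^ 2 * (((x : ℝ) * (y - 1) + (y - x)) - 2 * δ) := by
    linear_combination ((X - 1) ^ 2 * ((x : ℝ) * (y - 1) * X ^ 2 + (y - x)) +
      4 * X * ((x : ℝ) * (y - 1) * X - (y - x)) * (X - 1) - 2 * X * (X - 1) ^ 2 * δ) * hδ
  have e3 : (x : ℝ) * (y - 1) * X ^ 2 - (y - x) = (x - 1) * (y * Y ^ 2) := by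
    rw [hE]; ring
  have h1 : ((x : ℝ) - 1) ^ 2 ≠ 0 := by
    have : (0 : ℝ) < x - 1 := by linarith
    positivity
  apply mul_left_cancel₀ h1
  have e4 : (y : ℝ) ^ (2 * (2 * b + 1)) = (y * Y ^ 2) ^ 2 := by rw [hY]; ring
  rw [e4]
  calc ((x : ℝ) - 1) ^ 2 * (((al x y a : ℝ) - g * δ) ^ 2 *
      (((x : ℝ) * (y - 1) * X ^ 2 + (y - x)) - 2 * X * δ)) =
      (((x : ℝ) - 1) * ((al x y a : ℝ) - g * δ)) ^ 2 *
      (((x : ℝ) * (y - 1) * X ^ 2 + (y - x)) - 2 * X * δ) := by ring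
    _ = _ := by rw [e1, e2, e3]; ring

end

end Pool.Agent.W_MP_cac67d_h21
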