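import Mathlib
import Pool.Agent.W_MP_cac67d_h21.Alg1

set_option autoImplicit false

/-!
# Units of norm one; integrality of `θ ^ k * ψ ^ t`
-/

namespace Pool.Agent.W_MP_cac67d_h21

open Finset

/-- the scalar `1 / c` -/
noncomputable def cinv (c : ℕ) : ℝ × ℝ := ((c : ℝ)⁻¹, (c : ℝ)⁻¹)

lemma cinv_mul {c : ℕ} (hc : c ≠ 0) : (c : ℝ × ℝ) * cinv c = 1 := by
  have : (c : ℝ) ≠ 0 := by exact_mod_cast hc
  unfold cinv
  refine Prod.ext ?_ ?_ <;> simp [this]

/-- The unit `(u + v √D) / c` of norm one. -/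
noncomputable def mkU (D c : ℕ) (u v : ℤ) (hc : c ≠ 0)
    (h : u * u - D * (v * v) = (c : ℤ) ^ 2) : (ℝ × ℝ)ˣ where
  val := cinv c * qe D u v
  inv := cinv c * qe D u (-v)
  val_inv := by
    have e1 : qe D u v * qe D u (-v) = ((c : ℝ × ℝ)) ^ 2 := by
      rw [qe_mul]
      have e2 : u * u + D * (v * -v) = (c : ℤ) ^ 2 := by linear_combination h
      have e3 : u * -v + v * u = 0 := by ring
      rw [e2, e3, qe_int]; push_cast; rfl
    calc cinv c * qe D u v * (cinv c * qe D u (-v)) =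
        (cinv c * cinv c) * (qe D u v * qe D u (-v)) := by ring
      _ = ((c : ℝ × ℝ) * cinv c) * ((c : ℝ × ℝ) * cinv c) := by rw [e1]; ring
      _ = 1 := by rw [cinv_mul hc, one_mul]
  inv_val := by
    have e1 : qe D u (-v) * qe D u v = ((c : ℝ × ℝ)) ^ 2 := by
      rw [qe_mul]
      have e2 : u * u + D * (-v * v) = (c : ℤ) ^ 2 := by linear_combination h
      have e3 : u * v + -v * u = 0 := by ring
      rw [e2, e3, qe_int]; push_cast; rfl
    calc cinv c * qe D u (-v) * (cinv c * qe D u v) =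
        (cinv c * cinv c) * (qe D u (-v) * qe D u v) := by ring
      _ = ((c : ℝ × ℝ) * cinv c) * ((c : ℝ × ℝ) * cinv c) := by rw [e1]; ring
      _ = 1 := by rw [cinv_mul hc, one_mul]

section
variable {D c : ℕ} {u v : ℤ} {hc : c ≠ 0} {h : u * u - D * (v * v) = (c : ℤ) ^ 2}

lemma mkU_mul : (c : ℝ × ℝ) * ((mkU D c u v hc h : (ℝ × ℝ)ˣ) : ℝ × ℝ) = qe D u v := by
  show (c : ℝ × ℝ) * (cinv c * qe D u v) = qe D u v
  rw [← mul_assoc, cinv_mul hc, one_mul]

lemma mkU_mul_inv :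
    (c : ℝ × ℝ) * (((mkU D c u v hc h)⁻¹ : (ℝ × ℝ)ˣ) : ℝ × ℝ) = qe D u (-v) := by
  show (c : ℝ × ℝ) * (cinv c * qe D u (-v)) = qe D u (-v)
  rw [← mul_assoc, cinv_mul hc, one_mul]

lemma mkU_sw : sw (mkU D c u v hc h) = (mkU D c u v hc h)⁻¹ := by
  apply Units.ext
  rw [coe_sw]
  show (cinv c * qe D u v).swap = cinv c * qe D u (-v)
  rw [swap_mul', qe_swap]
  rfl

lemma mkU_fst : (c : ℝ) * ((mkU D c u v hc h : (ℝ × ℝ)ˣ) : ℝ × ℝ).1 = u + v * √(D : ℝ) := by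
  have := congrArg Prod.fst (mkU_mul (D := D) (c := c) (u := u) (v := v) (hc := hc) (h := h))
  simpa [qe] using this

lemma mkU_snd : (c : ℝ) * ((mkU D c u v hc h : (ℝ × ℝ)ˣ) : ℝ × ℝ).2 = u - v * √(D : ℝ) := by
  have := congrArg Prod.snd (mkU_mul (D := D) (c := c) (u := u) (v := v) (hc := hc) (h := h))
  simpa [qe] using this

end

/-- integrality of powers -/
lemma zint {D c : ℕ} {E : (ℝ × ℝ)ˣ} (h1 : (c : ℝ × ℝ) * (E : ℝ × ℝ) ∈ OR D)
    (h2 : (c : ℝ × ℝ) * ((E⁻¹ : (ℝ × ℝ)ˣ) : ℝ × ℝ) ∈ OR D) (n : ℤ) :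
    (c : ℝ × ℝ) ^ n.natAbs * ((E ^ n : (ℝ × ℝ)ˣ) : ℝ × ℝ) ∈ OR D := by
  have key : ∀ (F : (ℝ × ℝ)ˣ), (c : ℝ × ℝ) * (F : ℝ × ℝ) ∈ OR D → ∀ k : ℕ,
      (c : ℝ × ℝ) ^ k * ((F ^ k : (ℝ × ℝ)ˣ) : ℝ × ℝ) ∈ OR D := by
    intro F hF k
    have := (OR D).pow_mem hF k
    rw [mul_pow] at this
    exact_mod_cast this
  rcases Int.natAbs_eq n with h | h
  · rw [h]
    have := key E h1 n.natAbs
    rw [zpow_natCast]
    rwa [Int.natAbs_natCast]
  · have h3 := key E⁻¹ h2 n.natAbs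
    have h4 : E ^ n = E⁻¹ ^ n.natAbs := by
      conv_lhs => rw [h]
      rw [zpow_neg, zpow_natCast, inv_pow]
    rw [h4]
    exact h3

/-- division -/
lemma mem_of_dvd {D c : ℕ} (hc : c ≠ 0) {z : ℝ × ℝ} {u v : ℤ} (h : (c : ℝ × ℝ) * z = qe D u v)
    (hu : (c : ℤ) ∣ u) (hv : (c : ℤ) ∣ v) : z ∈ OR D := by
  obtain ⟨u', rfl⟩ := hu
  obtain ⟨v', rfl⟩ := hv
  have h1 : qe D (c * u') (c * v') = (c : ℝ × ℝ) * qe D u' v' := by
    have e3 : (c : ℝ × ℝ) = qe D c 0 := by rw [qe_int]; push_cast; rfl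
    rw [e3, qe_mul]
    congr 1 <;> ring
  refine ⟨u', v', ?_⟩
  have h2 : cinv c * ((c : ℝ × ℝ) * z) = cinv c * ((c : ℝ × ℝ) * qe D u' v') := by rw [h, h1]
  rw [← mul_assoc, ← mul_assoc, mul_comm (cinv c), cinv_mul hc, one_mul, one_mul] at h2
  exact h2

section

variable {x y a b : ℕ}

lemma Sol.x2 (h : Sol x y a b) : (2 : ℤ) ≤ x := by exact_mod_cast h.hx.two_le

lemma Sol.x1 (h : Sol x y a b) : ((x - 1 : ℕ) : ℤ) = (x : ℤ) - 1 := by
  have := h.hx.two_le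
  push_cast [Nat.cast_sub (by omega : 1 ≤ x)]; rfl

lemma Sol.Dc (h : Sol x y a b) : ((DD x y : ℕ) : ℤ) = (x : ℤ) * (y - 1) * (y - x) :=
  DD_cast h.hx.one_le h.hxy

/-- the unit `T` -/
noncomputable def Sol.T (h : Sol x y a b) : (ℝ × ℝ)ˣ :=
  mkU (DD x y) (y ^ (b + 1)) (al x y a) (-gS x a) (pow_ne_zero _ h.hy.ne_zero) (by
    rw [h.Dc]
    have := T_norm h
    push_cast
    linear_combination this)

/-- the unit `W` -/
noncomputable def Sol.W (h : Sol x y a b) : (ℝ × ℝ)ˣ :=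
  mkU (DD x y) ((x - 1) * y ^ (2 * b + 1)) ((x : ℤ) * (y - 1) * ((x : ℤ) ^ a) ^ 2 + (y - x))
    (-(2 * (x : ℤ) ^ a))
    (mul_ne_zero (by have := h.hx.two_le; omega) (pow_ne_zero _ h.hy.ne_zero)) (by
    rw [h.Dc]
    have := W_norm h
    push_cast [h.x1]
    linear_combination this)

/-- the unit `θ` -/
noncomputable def Sol.Th (h : Sol x y a b) : (ℝ × ℝ)ˣ :=
  mkU (DD x y) (y * (x - 1)) ((x : ℤ) * (y - 1) + (y - x)) (-2)
    (mul_ne_zero h.hy.ne_zero (by have := h.hx.two_le; omega)) (by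
    rw [h.Dc]
    push_cast [h.x1]
    ring)

lemma Sol.sq (h : Sol x y a b) : √((DD x y : ℕ) : ℝ) * √((DD x y : ℕ) : ℝ) =
    (x : ℝ) * (y - 1) * (y - x) := by
  rw [Real.mul_self_sqrt (Nat.cast_nonneg _)]
  have := congrArg (Int.cast : ℤ → ℝ) h.Dc
  push_cast at this
  exact this

lemma Sol.theta (h : Sol x y a b) : h.T ^ 2 * h.W = h.Th := by
  have hx2 : (2 : ℝ) ≤ x := by exact_mod_cast h.hx.two_le
  have hy0 : (0 : ℝ) < y := by exact_mod_cast h.hy.pos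
  have hx1 : (((x - 1 : ℕ) : ℝ)) = (x : ℝ) - 1 := by
    have := congrArg (Int.cast : ℤ → ℝ) h.x1
    push_cast at this
    exact this
  have hx0 : (0 : ℝ) < (x : ℝ) - 1 := by linarith
  have key : ∀ δ t w θ : ℝ, δ * δ = (x : ℝ) * (y - 1) * (y - x) →
      (y : ℝ) ^ (b + 1) * t = (al x y a : ℝ) - gS x a * δ →
      ((x : ℝ) - 1) * (y : ℝ) ^ (2 * b + 1) * w =
        ((x : ℝ) * (y - 1) * ((x : ℝ) ^ a) ^ 2 + (y - x)) - 2 * (x : ℝ) ^ a * δ →
      (y : ℝ) * ((x : ℝ) - 1) * θ = ((x : ℝ) * (y - 1) + (y - x)) - 2 * δ → t ^ 2 * w = θ := by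
    intro δ t w θ hδ ht hw hθ
    have h1 := TTW h δ hδ
    rw [← ht, ← hw, ← hθ] at h1
    have h2 : (y : ℝ) ^ (2 * (2 * b + 1)) * ((y : ℝ) * ((x : ℝ) - 1)) ≠ 0 := by positivity
    apply mul_left_cancel₀ h2
    calc (y : ℝ) ^ (2 * (2 * b + 1)) * ((y : ℝ) * ((x : ℝ) - 1)) * (t ^ 2 * w) =
        ((y : ℝ) ^ (b + 1) * t) ^ 2 * (((x : ℝ) - 1) * (y : ℝ) ^ (2 * b + 1) * w) := by ring
      _ = _ := by rw [h1]; ring
  apply Units.ext
  rw [Units.val_mul, Units.val_pow_eq_pow_val]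
  refine Prod.ext ?_ ?_
  · have h1 := mkU_fst (D := DD x y) (c := y ^ (b + 1)) (u := al x y a) (v := -gS x a)
      (hc := pow_ne_zero _ h.hy.ne_zero) (h := by
        rw [h.Dc]
        have := T_norm h
        push_cast
        linear_combination this)
    have h2 := mkU_fst (D := DD x y) (c := (x - 1) * y ^ (2 * b + 1))
      (u := (x : ℤ) * (y - 1) * ((x : ℤ) ^ a) ^ 2 + (y - x)) (v := -(2 * (x : ℤ) ^ a))
      (hc := mul_ne_zero (by have := h.hx.two_le; omega) (pow_ne_zero _ h.hy.ne_zero)) (h := by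
        rw [h.Dc]
        have := W_norm h
        push_cast [h.x1]
        linear_combination this)
    have h3 := mkU_fst (D := DD x y) (c := y * (x - 1))
      (u := (x : ℤ) * (y - 1) + (y - x)) (v := -2)
      (hc := mul_ne_zero h.hy.ne_zero (by have := h.hx.two_le; omega)) (h := by
        rw [h.Dc]
        push_cast [h.x1]
        ring)
    refine key (√((DD x y : ℕ) : ℝ)) _ _ _ h.sq ?_ ?_ ?_
    · push_cast at h1
      unfold Sol.T
      linear_combination h1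
    · push_cast [hx1] at h2
      unfold Sol.W
      linear_combination h2
    · push_cast [hx1] at h3
      unfold Sol.Th
      linear_combination h3
  · have h1 := mkU_snd (D := DD x y) (c := y ^ (b + 1)) (u := al x y a) (v := -gS x a)
      (hc := pow_ne_zero _ h.hy.ne_zero) (h := by
        rw [h.Dc]
        have := T_norm h
        push_cast
        linear_combination this)
    have h2 := mkU_snd (D := DD x y) (c := (x - 1) * y ^ (2 * b + 1))
      (u := (x : ℤ) * (y - 1) * ((x : ℤ) ^ a) ^ 2 + (y - x)) (v := -(2 * (x : ℤ) ^ a))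
      (hc := mul_ne_zero (by have := h.hx.two_le; omega) (pow_ne_zero _ h.hy.ne_zero)) (h := by
        rw [h.Dc]
        have := W_norm h
        push_cast [h.x1]
        linear_combination this)
    have h3 := mkU_snd (D := DD x y) (c := y * (x - 1))
      (u := (x : ℤ) * (y - 1) + (y - x)) (v := -2)
      (hc := mul_ne_zero h.hy.ne_zero (by have := h.hx.two_le; omega)) (h := by
        rw [h.Dc]
        push_cast [h.x1]
        ring)
    refine key (-√((DD x y : ℕ) : ℝ)) _ _ _ (by rw [neg_mul_neg]; exact h.sq) ?_ ?_ ?_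
    · push_cast at h1
      unfold Sol.T
      linear_combination h1
    · push_cast [hx1] at h2
      unfold Sol.W
      linear_combination h2
    · push_cast [hx1] at h3
      unfold Sol.Th
      linear_combination h3

end

end Pool.Agent.W_MP_cac67d_h21
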