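import Mathlib
import Pool.Agent.W_MP_cac67d_h21.Alg2

set_option autoImplicit false

/-!
# The divisibility at `y` and the integrality of `ψ`
-/

namespace Pool.Agent.W_MP_cac67d_h21

open Finset

section

variable {x y a b : ℕ}

/-- `A = x (y - 1)` -/
def AA (x y : ℕ) : ℤ := (x : ℤ) * (y - 1)

/-- `C = y - x` -/
def CC (x y : ℕ) : ℤ := (y : ℤ) - x

lemma Sol.yx (h : Sol x y a b) : ¬ (y : ℤ) ∣ x := by
  intro hdvd
  have h1 : (x : ℤ) < y := by exact_mod_cast h.hxy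
  have := Int.le_of_dvd (by have := h.x2; linarith) hdvd
  linarith

lemma Sol.yx1 (h : Sol x y a b) : ¬ (y : ℤ) ∣ (x : ℤ) - 1 := by
  intro hdvd
  have h1 : (x : ℤ) < y := by exact_mod_cast h.hxy
  have := Int.le_of_dvd (by have := h.x2; linarith) hdvd
  linarith

lemma Sol.y2 (h : Sol x y a b) : ¬ (y : ℤ) ∣ 2 := by
  intro hdvd
  have h1 : (x : ℤ) < y := by exact_mod_cast h.hxy
  have := Int.le_of_dvd (by norm_num) hdvd
  have := h.x2
  linarith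

/-- The prime power `y ^ (2 b + 1)` divides one factor. -/
lemma Sol.dvd_or (h : Sol x y a b) :
    (y : ℤ) ^ (2 * b + 1) ∣ (x : ℤ) ^ a * (UV (AA x y) (CC x y) b).2 - (UV (AA x y) (CC x y) b).1 ∨
    (y : ℤ) ^ (2 * b + 1) ∣ (x : ℤ) ^ a * (UV (AA x y) (CC x y) b).2 + (UV (AA x y) (CC x y) b).1 := by
  have hP := h.hE
  have hxZ := h.x2
  have hxyZ : (x : ℤ) < y := by exact_mod_cast h.hxy
  set X : ℤ := (x : ℤ) ^ a with hX
  set Y : ℤ := (y : ℤ) ^ b with hY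
  set A : ℤ := AA x y with hA
  set C : ℤ := CC x y with hC
  have hA' : A = (x : ℤ) * (y - 1) := rfl
  have hC' : C = (y : ℤ) - x := rfl
  set U := (UV A C b).1 with hU
  set V := (UV A C b).2 with hV
  have hnorm : A * U ^ 2 - C * V ^ 2 = (A - C) ^ (2 * b + 1) := UV_norm A C b
  have hB : A - C = y * (x - 1) := by rw [hA', hC']; ring
  have key : A * ((X * V - U) * (X * V + U)) =
      (y : ℤ) ^ (2 * b + 1) * ((x - 1) * (V ^ 2 - (x - 1) ^ (2 * b))) := by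
    have e1 : A * ((X * V - U) * (X * V + U)) = (A * X ^ 2) * V ^ 2 - A * U ^ 2 := by ring
    have e2 : A * U ^ 2 = C * V ^ 2 + (y * (x - 1)) ^ (2 * b + 1) := by
      rw [← hB]; linarith
    have e0 : A * X ^ 2 = y * (x - 1) * Y ^ 2 + (y - x) := by rw [hA']; exact hP
    rw [e1, e2, e0, mul_pow]
    have e3 : Y ^ 2 = (y : ℤ) ^ (2 * b) := by rw [hY]; ring
    rw [e3, hC']
    ring
  have hyZ : Prime (y : ℤ) := Nat.prime_iff_prime_int.mp h.hy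
  have hyx := h.yx
  have hyA : ¬ (y : ℤ) ∣ A := by
    rw [hA']
    intro hdvd
    rcases hyZ.dvd_or_dvd hdvd with h1 | h1
    · exact hyx h1
    · have := Int.le_of_dvd (by linarith) h1
      linarith
  have hy3 := h.y2
  have hyV : ¬ (y : ℤ) ∣ V := by
    have hmA : A ≡ -x [ZMOD y] := Int.modEq_iff_dvd.mpr ⟨-x, by rw [hA']; ring⟩
    have hmC : C ≡ -x [ZMOD y] := Int.modEq_iff_dvd.mpr ⟨-1, by rw [hC']; ring⟩
    have h1 := (UV_mod hmA hmC b).2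
    intro hdvd
    have h2 : (y : ℤ) ∣ (-4 * x) ^ b := by
      have := (Int.modEq_iff_dvd.mp h1)
      have h3 := dvd_add this hdvd
      rwa [sub_add_cancel] at h3
    have h3 := hyZ.dvd_of_dvd_pow h2
    rcases hyZ.dvd_or_dvd h3 with h4 | h4
    · have h5 : (y : ℤ) ∣ 2 ^ 2 := by
        have : (2 : ℤ) ^ 2 = -(-4) := by norm_num
        rw [this]; exact (dvd_neg).mpr h4
      exact hy3 (hyZ.dvd_of_dvd_pow h5)
    · exact hyx h4
  have hcopA : IsCoprime ((y : ℤ) ^ (2 * b + 1)) A :=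
    ((Prime.coprime_iff_not_dvd hyZ).mpr hyA).pow_left
  have hdvd : (y : ℤ) ^ (2 * b + 1) ∣ (X * V - U) * (X * V + U) :=
    hcopA.dvd_of_dvd_mul_left ⟨_, key⟩
  have hyX : ¬ (y : ℤ) ∣ X := fun h1 => hyx (hyZ.dvd_of_dvd_pow h1)
  have hnot : ¬ ((y : ℤ) ∣ (X * V - U) ∧ (y : ℤ) ∣ (X * V + U)) := by
    rintro ⟨h1, h2⟩
    have h3 := dvd_add h1 h2
    have h4 : X * V - U + (X * V + U) = 2 * (X * V) := by ring
    rw [h4] at h3
    rcases hyZ.dvd_or_dvd h3 with h5 | h5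
    · exact hy3 h5
    · rcases hyZ.dvd_or_dvd h5 with h6 | h6
      · exact hyX h6
      · exact hyV h6
  by_cases hd : (y : ℤ) ∣ (X * V - U)
  · left
    have hd' : ¬ (y : ℤ) ∣ (X * V + U) := fun h' => hnot ⟨hd, h'⟩
    have hc : IsCoprime ((y : ℤ) ^ (2 * b + 1)) (X * V + U) :=
      ((Prime.coprime_iff_not_dvd hyZ).mpr hd').pow_left
    exact hc.dvd_of_dvd_mul_right hdvd
  · right
    have hc : IsCoprime ((y : ℤ) ^ (2 * b + 1)) (X * V - U) :=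
      ((Prime.coprime_iff_not_dvd hyZ).mpr hd).pow_left
    exact hc.dvd_of_dvd_mul_left hdvd

/-- `((A + C) + 2 δ) ^ k * (u0 + v0 δ)` -/
def PQ (A C u0 v0 : ℤ) : ℕ → ℤ × ℤ
  | 0 => (u0, v0)
  | k + 1 => ((A + C) * (PQ A C u0 v0 k).1 + A * C * (2 * (PQ A C u0 v0 k).2),
      (A + C) * (PQ A C u0 v0 k).2 + 2 * (PQ A C u0 v0 k).1)

lemma PQ_qe {D : ℕ} {A C : ℤ} (hD : (D : ℤ) = A * C) (u0 v0 : ℤ) (k : ℕ) :
    qe D (A + C) 2 ^ k * qe D u0 v0 = qe D (PQ A C u0 v0 k).1 (PQ A C u0 v0 k).2 := by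
  induction k with
  | zero => simp [PQ]
  | succ k ih =>
    rw [pow_succ', mul_assoc, ih, qe_mul, hD]
    rfl

lemma PQ_norm (A C u0 v0 : ℤ) (k : ℕ) :
    (PQ A C u0 v0 k).1 ^ 2 - A * C * (PQ A C u0 v0 k).2 ^ 2 =
      ((A - C) ^ k) ^ 2 * (u0 ^ 2 - A * C * v0 ^ 2) := by
  induction k with
  | zero => simp [PQ]
  | succ k ih =>
    have : ((A - C) ^ (k + 1)) ^ 2 * (u0 ^ 2 - A * C * v0 ^ 2) =
      (A - C) ^ 2 * (((A - C) ^ k) ^ 2 * (u0 ^ 2 - A * C * v0 ^ 2)) := by ring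
    rw [this, ← ih]
    simp only [PQ]
    ring

lemma sol_g (x a : ℕ) : gS x a * ((x : ℤ) - 1) = (x : ℤ) ^ a - 1 := gS_mul x a

/-- first case -/
lemma PQ_plus (x y a : ℕ) (k : ℕ) :
    ((x : ℤ) - 1) * (PQ (AA x y) (CC x y) (al x y a) (gS x a) k).1 =
      AA x y * (x : ℤ) ^ a * (UV (AA x y) (CC x y) k).1 - CC x y * (UV (AA x y) (CC x y) k).2 ∧
    ((x : ℤ) - 1) * (PQ (AA x y) (CC x y) (al x y a) (gS x a) k).2 =
      (x : ℤ) ^ a * (UV (AA x y) (CC x y) k).2 - (UV (AA x y) (CC x y) k).1 := by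
  induction k with
  | zero =>
    have hg := gS_mul x a
    simp only [PQ, UV]
    constructor
    · unfold al AA CC
      linear_combination ((x : ℤ) * (y - 1)) * hg
    · linear_combination hg
  | succ k ih =>
    obtain ⟨h1, h2⟩ := ih
    simp only [PQ, UV]
    constructor
    · linear_combination (AA x y + CC x y) * h1 + (2 * AA x y * CC x y) * h2
    · linear_combination (AA x y + CC x y) * h2 + 2 * h1

/-- second case -/
lemma PQ_minus (x y a : ℕ) (k : ℕ) :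
    (PQ (AA x y) (CC x y) (al x y a) (-gS x a) (k + 1)).1 =
      y * (AA x y * (x : ℤ) ^ a * (UV (AA x y) (CC x y) k).1 +
        CC x y * (UV (AA x y) (CC x y) k).2) ∧
    (PQ (AA x y) (CC x y) (al x y a) (-gS x a) (k + 1)).2 =
      y * ((x : ℤ) ^ a * (UV (AA x y) (CC x y) k).2 + (UV (AA x y) (CC x y) k).1) := by
  induction k with
  | zero =>
    have hg := gS_mul x a
    simp only [PQ, UV]
    constructor
    · unfold al AA CC
      linear_combination ((x : ℤ) * (y - 1) * y) * hg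
    · unfold al AA CC
      linear_combination (y : ℤ) * hg
  | succ k ih =>
    obtain ⟨h1, h2⟩ := ih
    rw [PQ, h1, h2]
    simp only [UV]
    constructor <;> ring

lemma gp1 {G : Type*} [CommGroup G] (T W : G) (b : ℕ) :
    (T ^ (2 * b + 1) * W ^ b)⁻¹ = ((T ^ 2 * W)⁻¹) ^ b * T⁻¹ := by
  rw [inv_pow, ← mul_inv ((T ^ 2 * W) ^ b) T, inv_inj, mul_pow, ← pow_mul, pow_succ]
  exact mul_right_comm _ _ _

lemma gp2 {G : Type*} [CommGroup G] (T W : G) (b : ℕ) :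
    (T ^ (2 * b + 1) * W ^ (b + 1))⁻¹ = ((T ^ 2 * W)⁻¹) ^ (b + 1) * T := by
  rw [inv_pow, inv_eq_iff_eq_inv, mul_inv, inv_inv, eq_mul_inv_iff_mul_eq, mul_pow, ← pow_mul]
  have : 2 * (b + 1) = (2 * b + 1) + 1 := by ring
  rw [this, pow_succ T (2 * b + 1)]
  exact mul_right_comm _ _ _

/-- `ψ`-integrality: the exponent `σ'` is `b` or `b + 1`. -/
theorem Sol.psi (h : Sol x y a b) : ∃ σ' : ℕ, (σ' = b ∨ σ' = b + 1) ∧
    (((x - 1) ^ σ' : ℕ) : ℝ × ℝ) * (((h.T ^ (2 * b + 1) * h.W ^ σ' : (ℝ × ℝ)ˣ)) : ℝ × ℝ) ∈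
      OR (DD x y) ∧
    (((x - 1) ^ σ' : ℕ) : ℝ × ℝ) * (((h.T ^ (2 * b + 1) * h.W ^ σ')⁻¹ : (ℝ × ℝ)ˣ) : ℝ × ℝ) ∈
      OR (DD x y) := by
  have hyZ : Prime (y : ℤ) := Nat.prime_iff_prime_int.mp h.hy
  have hDc : ((DD x y : ℕ) : ℤ) = AA x y * CC x y := h.Dc
  have hyne : y ≠ 0 := h.hy.ne_zero
  have hsub : ((x - 1 : ℕ) : ℤ) = (x : ℤ) - 1 := h.x1
  have hAC : AA x y - CC x y = y * ((x : ℤ) - 1) := by unfold AA CC; ring
  -- from the inverse to the element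
  have hconj : ∀ (c : ℕ) (E : (ℝ × ℝ)ˣ), sw E = E⁻¹ →
      (c : ℝ × ℝ) * ((E⁻¹ : (ℝ × ℝ)ˣ) : ℝ × ℝ) ∈ OR (DD x y) →
      (c : ℝ × ℝ) * (E : ℝ × ℝ) ∈ OR (DD x y) := by
    intro c E hE h1
    have h2 := swap_mem h1
    rw [swap_mul'] at h2
    have h3 : ((c : ℕ) : ℝ × ℝ).swap = (c : ℝ × ℝ) := by
      have := swap_intCast (c : ℤ)
      simpa using this
    rw [h3, ← coe_sw, map_inv, hE, inv_inv] at h2
    exact h2
  have hsw : ∀ n : ℕ, sw (h.T ^ (2 * b + 1) * h.W ^ n) = (h.T ^ (2 * b + 1) * h.W ^ n)⁻¹ := by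
    intro n
    rw [map_mul, map_pow, map_pow]
    have h1 : sw h.T = h.T⁻¹ := mkU_sw
    have h2 : sw h.W = h.W⁻¹ := mkU_sw
    rw [h1, h2, mul_inv, inv_pow, inv_pow]
  -- the numerators
  have hTi : ((y ^ (b + 1) : ℕ) : ℝ × ℝ) * ((h.T⁻¹ : (ℝ × ℝ)ˣ) : ℝ × ℝ) =
      qe (DD x y) (al x y a) (gS x a) := by
    have := mkU_mul_inv (D := DD x y) (c := y ^ (b + 1)) (u := al x y a) (v := -gS x a)
      (hc := pow_ne_zero _ h.hy.ne_zero) (h := by
        rw [h.Dc]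
        have := T_norm h
        push_cast
        linear_combination this)
    rw [neg_neg] at this
    exact this
  have hT : ((y ^ (b + 1) : ℕ) : ℝ × ℝ) * ((h.T : (ℝ × ℝ)ˣ) : ℝ × ℝ) =
      qe (DD x y) (al x y a) (-gS x a) :=
    mkU_mul (D := DD x y) (c := y ^ (b + 1)) (u := al x y a) (v := -gS x a)
      (hc := pow_ne_zero _ h.hy.ne_zero) (h := by
        rw [h.Dc]
        have := T_norm h
        push_cast
        linear_combination this)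
  have hThi : ((y * (x - 1) : ℕ) : ℝ × ℝ) * ((h.Th⁻¹ : (ℝ × ℝ)ˣ) : ℝ × ℝ) =
      qe (DD x y) (AA x y + CC x y) 2 := by
    have := mkU_mul_inv (D := DD x y) (c := y * (x - 1)) (u := (x : ℤ) * (y - 1) + (y - x)) (v := -2)
      (hc := mul_ne_zero h.hy.ne_zero (by have := h.hx.two_le; omega)) (h := by
        rw [h.Dc]
        push_cast [h.x1]
        ring)
    rw [neg_neg] at this
    exact this
  have hTn : (al x y a) ^ 2 - AA x y * CC x y * (gS x a) ^ 2 = ((y : ℤ) ^ (b + 1)) ^ 2 := by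
    have := T_norm h
    unfold AA CC
    linear_combination this
  -- divisibility of the first coordinate
  have hfst : ∀ (e : ℕ) (P Q R : ℤ), P ^ 2 - AA x y * CC x y * Q ^ 2 = ((y : ℤ) ^ e) ^ 2 * R →
      (y : ℤ) ^ e ∣ Q → (y : ℤ) ^ e ∣ P := by
    intro e P Q R h1 h2
    have h3 : ((y : ℤ) ^ e) ^ 2 ∣ P ^ 2 := by
      have h4 : P ^ 2 = ((y : ℤ) ^ e) ^ 2 * R + AA x y * CC x y * Q ^ 2 := by linarith
      rw [h4]
      exact dvd_add (dvd_mul_right _ _) (dvd_mul_of_dvd_right (pow_dvd_pow_of_dvd h2 2) _)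
    exact (Int.pow_dvd_pow_iff two_ne_zero).mp h3
  rcases h.dvd_or with hd | hd
  · refine ⟨b, Or.inl rfl, ?_⟩
    have hmem : (((x - 1) ^ b : ℕ) : ℝ × ℝ) *
        (((h.T ^ (2 * b + 1) * h.W ^ b)⁻¹ : (ℝ × ℝ)ˣ) : ℝ × ℝ) ∈ OR (DD x y) := by
      have e1 : (h.T ^ (2 * b + 1) * h.W ^ b)⁻¹ = h.Th⁻¹ ^ b * h.T⁻¹ := by
        rw [← h.theta]
        exact gp1 _ _ _
      rw [e1]
      have e2 : ((y ^ (2 * b + 1) : ℕ) : ℝ × ℝ) * ((((x - 1) ^ b : ℕ) : ℝ × ℝ) *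
          ((h.Th⁻¹ ^ b * h.T⁻¹ : (ℝ × ℝ)ˣ) : ℝ × ℝ)) =
          qe (DD x y) (PQ (AA x y) (CC x y) (al x y a) (gS x a) b).1
            (PQ (AA x y) (CC x y) (al x y a) (gS x a) b).2 := by
        rw [← PQ_qe hDc, ← hThi, ← hTi, Units.val_mul, Units.val_pow_eq_pow_val]
        push_cast
        ring
      have hQ : (y : ℤ) ^ (2 * b + 1) ∣ (PQ (AA x y) (CC x y) (al x y a) (gS x a) b).2 := by
        have h1 := (PQ_plus x y a b).2
        have hc : IsCoprime ((y : ℤ) ^ (2 * b + 1)) ((x : ℤ) - 1) :=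
          ((Prime.coprime_iff_not_dvd hyZ).mpr h.yx1).pow_left
        refine hc.dvd_of_dvd_mul_left ?_
        rw [h1]
        exact hd
      refine mem_of_dvd (pow_ne_zero _ hyne) e2 ?_ ?_
      · push_cast
        refine hfst (2 * b + 1) _ _ ((((x : ℤ) - 1) ^ b) ^ 2) ?_ hQ
        rw [PQ_norm, hTn, hAC, mul_pow]
        ring
      · push_cast
        exact hQ
    exact ⟨hconj _ _ (hsw b) hmem, hmem⟩
  · refine ⟨b + 1, Or.inr rfl, ?_⟩
    have hmem : (((x - 1) ^ (b + 1) : ℕ) : ℝ × ℝ) *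
        (((h.T ^ (2 * b + 1) * h.W ^ (b + 1))⁻¹ : (ℝ × ℝ)ˣ) : ℝ × ℝ) ∈ OR (DD x y) := by
      have e1 : (h.T ^ (2 * b + 1) * h.W ^ (b + 1))⁻¹ = h.Th⁻¹ ^ (b + 1) * h.T := by
        rw [← h.theta]
        exact gp2 _ _ _
      rw [e1]
      have e2 : ((y ^ (2 * b + 2) : ℕ) : ℝ × ℝ) * ((((x - 1) ^ (b + 1) : ℕ) : ℝ × ℝ) *
          ((h.Th⁻¹ ^ (b + 1) * h.T : (ℝ × ℝ)ˣ) : ℝ × ℝ)) =
          qe (DD x y) (PQ (AA x y) (CC x y) (al x y a) (-gS x a) (b + 1)).1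
            (PQ (AA x y) (CC x y) (al x y a) (-gS x a) (b + 1)).2 := by
        rw [← PQ_qe hDc, ← hThi, ← hT, Units.val_mul, Units.val_pow_eq_pow_val]
        push_cast
        ring
      have hQ : (y : ℤ) ^ (2 * b + 2) ∣
          (PQ (AA x y) (CC x y) (al x y a) (-gS x a) (b + 1)).2 := by
        rw [(PQ_minus x y a b).2]
        have : (y : ℤ) ^ (2 * b + 2) = y * (y : ℤ) ^ (2 * b + 1) := by ring
        rw [this]
        exact mul_dvd_mul_left _ hd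
      refine mem_of_dvd (pow_ne_zero _ hyne) e2 ?_ ?_
      · push_cast
        refine hfst (2 * b + 2) _ _ ((((x : ℤ) - 1) ^ (b + 1)) ^ 2) ?_ hQ
        rw [PQ_norm, neg_sq, hTn, hAC, mul_pow]
        ring
      · push_cast
        exact hQ
    exact ⟨hconj _ _ (hsw (b + 1)) hmem, hmem⟩

end

end Pool.Agent.W_MP_cac67d_h21
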