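import Mathlib
import Pool.Agent.W_MP_cac67d_h21.Alg3

set_option autoImplicit false

/-!
# Integrality of `T ^ m * W ^ i`; closeness at `x` and at infinity
-/

namespace Pool.Agent.W_MP_cac67d_h21

open Finset

lemma qe_sub (D : ℕ) (u v u' v' : ℤ) :
    qe D u v - qe D u' v' = qe D (u - u') (v - v') := by
  rw [sub_eq_add_neg, qe_neg, qe_add]
  congr 1

section

variable {x y a b : ℕ}

lemma Sol.T_mul (h : Sol x y a b) : ((y ^ (b + 1) : ℕ) : ℝ × ℝ) * ((h.T : (ℝ × ℝ)ˣ) : ℝ × ℝ) =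
    qe (DD x y) (al x y a) (-gS x a) :=
  mkU_mul (D := DD x y) (c := y ^ (b + 1)) (u := al x y a) (v := -gS x a)
    (hc := pow_ne_zero _ h.hy.ne_zero) (h := by
      rw [h.Dc]
      have := T_norm h
      push_cast
      linear_combination this)

lemma Sol.T_mul_inv (h : Sol x y a b) :
    ((y ^ (b + 1) : ℕ) : ℝ × ℝ) * ((h.T⁻¹ : (ℝ × ℝ)ˣ) : ℝ × ℝ) =
    qe (DD x y) (al x y a) (-(-gS x a)) :=
  mkU_mul_inv (D := DD x y) (c := y ^ (b + 1)) (u := al x y a) (v := -gS x a)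
    (hc := pow_ne_zero _ h.hy.ne_zero) (h := by
      rw [h.Dc]
      have := T_norm h
      push_cast
      linear_combination this)

lemma Sol.W_mul (h : Sol x y a b) :
    (((x - 1) * y ^ (2 * b + 1) : ℕ) : ℝ × ℝ) * ((h.W : (ℝ × ℝ)ˣ) : ℝ × ℝ) =
    qe (DD x y) ((x : ℤ) * (y - 1) * ((x : ℤ) ^ a) ^ 2 + (y - x)) (-(2 * (x : ℤ) ^ a)) :=
  mkU_mul (D := DD x y) (c := (x - 1) * y ^ (2 * b + 1))
    (u := (x : ℤ) * (y - 1) * ((x : ℤ) ^ a) ^ 2 + (y - x)) (v := -(2 * (x : ℤ) ^ a))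
    (hc := mul_ne_zero (by have := h.hx.two_le; omega) (pow_ne_zero _ h.hy.ne_zero)) (h := by
      rw [h.Dc]
      have := W_norm h
      push_cast [h.x1]
      linear_combination this)

lemma Sol.W_mul_inv (h : Sol x y a b) :
    (((x - 1) * y ^ (2 * b + 1) : ℕ) : ℝ × ℝ) * ((h.W⁻¹ : (ℝ × ℝ)ˣ) : ℝ × ℝ) =
    qe (DD x y) ((x : ℤ) * (y - 1) * ((x : ℤ) ^ a) ^ 2 + (y - x)) (-(-(2 * (x : ℤ) ^ a))) :=
  mkU_mul_inv (D := DD x y) (c := (x - 1) * y ^ (2 * b + 1))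
    (u := (x : ℤ) * (y - 1) * ((x : ℤ) ^ a) ^ 2 + (y - x)) (v := -(2 * (x : ℤ) ^ a))
    (hc := mul_ne_zero (by have := h.hx.two_le; omega) (pow_ne_zero _ h.hy.ne_zero)) (h := by
      rw [h.Dc]
      have := W_norm h
      push_cast [h.x1]
      linear_combination this)

lemma Sol.Th_mul (h : Sol x y a b) :
    ((y * (x - 1) : ℕ) : ℝ × ℝ) * ((h.Th : (ℝ × ℝ)ˣ) : ℝ × ℝ) =
    qe (DD x y) ((x : ℤ) * (y - 1) + (y - x)) (-2) :=
  mkU_mul (D := DD x y) (c := y * (x - 1)) (u := (x : ℤ) * (y - 1) + (y - x)) (v := -2)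
    (hc := mul_ne_zero h.hy.ne_zero (by have := h.hx.two_le; omega)) (h := by
      rw [h.Dc]
      push_cast [h.x1]
      ring)

lemma Sol.Th_mul_inv (h : Sol x y a b) :
    ((y * (x - 1) : ℕ) : ℝ × ℝ) * ((h.Th⁻¹ : (ℝ × ℝ)ˣ) : ℝ × ℝ) =
    qe (DD x y) ((x : ℤ) * (y - 1) + (y - x)) (- -2) :=
  mkU_mul_inv (D := DD x y) (c := y * (x - 1)) (u := (x : ℤ) * (y - 1) + (y - x)) (v := -2)
    (hc := mul_ne_zero h.hy.ne_zero (by have := h.hx.two_le; omega)) (h := by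
      rw [h.Dc]
      push_cast [h.x1]
      ring)

lemma Sol.swT (h : Sol x y a b) : sw h.T = h.T⁻¹ := mkU_sw

lemma Sol.swW (h : Sol x y a b) : sw h.W = h.W⁻¹ := mkU_sw

lemma Sol.cop (h : Sol x y a b) : Nat.Coprime (x - 1) y := by
  have h1 : ¬ y ∣ x - 1 := by
    intro hd
    have h2 := Nat.le_of_dvd (by have := h.hx.two_le; omega) hd
    have := h.hxy
    omega
  exact ((Nat.Prime.coprime_iff_not_dvd h.hy).mpr h1).symm

/-- the integrality of all the monomials -/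
theorem Sol.int (h : Sol x y a b) {σ' : ℕ}
    (h1 : (((x - 1) ^ σ' : ℕ) : ℝ × ℝ) * (((h.T ^ (2 * b + 1) * h.W ^ σ' : (ℝ × ℝ)ˣ)) : ℝ × ℝ) ∈
      OR (DD x y))
    (h2 : (((x - 1) ^ σ' : ℕ) : ℝ × ℝ) * (((h.T ^ (2 * b + 1) * h.W ^ σ')⁻¹ : (ℝ × ℝ)ˣ) : ℝ × ℝ) ∈
      OR (DD x y)) (k t : ℤ) :
    ((y : ℝ × ℝ) ^ k.natAbs * ((x - 1 : ℕ) : ℝ × ℝ) ^ (k + (σ' : ℤ) * t).natAbs) *
      ((h.T ^ (2 * k + ((2 * b + 1 : ℕ) : ℤ) * t) * h.W ^ (k + (σ' : ℤ) * t) : (ℝ × ℝ)ˣ) : ℝ × ℝ) ∈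
      OR (DD x y) := by
  set D := DD x y with hD
  set m : ℤ := 2 * k + ((2 * b + 1 : ℕ) : ℤ) * t with hm
  set i : ℤ := k + (σ' : ℤ) * t with hi
  have e0 : h.T ^ m * h.W ^ i = h.Th ^ k * (h.T ^ (2 * b + 1) * h.W ^ σ') ^ t := by
    rw [← h.theta, mul_zpow, mul_zpow, hm, hi, zpow_add, zpow_add, zpow_mul, zpow_mul, zpow_mul,
      zpow_natCast, zpow_natCast]
    have e1 : h.T ^ (2 : ℤ) = h.T ^ 2 := by norm_cast
    rw [e1]
    exact mul_mul_mul_comm _ _ _ _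
  have g1 := zint (D := D) (c := y * (x - 1)) (E := h.Th)
    (by rw [h.Th_mul]; exact ⟨_, _, rfl⟩) (by rw [h.Th_mul_inv]; exact ⟨_, _, rfl⟩) k
  have g2 := zint (D := D) (c := (x - 1) ^ σ') (E := h.T ^ (2 * b + 1) * h.W ^ σ') h1 h2 t
  have g3 := zint (D := D) (c := y ^ (b + 1)) (E := h.T)
    (by rw [h.T_mul]; exact ⟨_, _, rfl⟩) (by rw [h.T_mul_inv]; exact ⟨_, _, rfl⟩) m
  have g4 := zint (D := D) (c := (x - 1) * y ^ (2 * b + 1)) (E := h.W)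
    (by rw [h.W_mul]; exact ⟨_, _, rfl⟩) (by rw [h.W_mul_inv]; exact ⟨_, _, rfl⟩) i
  refine mem_of_coprime (a := (x - 1) ^ (k.natAbs + σ' * t.natAbs))
    (b := y ^ ((b + 1) * m.natAbs + (2 * b + 1) * i.natAbs)) ?_ ?_ ?_
  · exact Nat.Coprime.pow _ _ h.cop
  · have g5 := (OR D).mul_mem ((OR D).mul_mem g1 g2)
      ((OR D).pow_mem (natCast_mem (OR D) (x - 1)) i.natAbs)
    rw [e0, Units.val_mul]
    convert g5 using 1
    push_cast
    rw [mul_pow, ← pow_mul, pow_add]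
    ring
  · have g5 := (OR D).mul_mem ((OR D).mul_mem g3 g4)
      ((OR D).pow_mem (natCast_mem (OR D) y) k.natAbs)
    rw [Units.val_mul]
    convert g5 using 1
    push_cast
    rw [mul_pow, ← pow_mul, ← pow_mul, pow_add]
    ring

lemma Sol.xD (_ : Sol x y a b) : x ∣ DD x y := ⟨(y - 1) * (y - x), by unfold DD; ring⟩

lemma Sol.yx' (h : Sol x y a b) : Nat.Coprime y x :=
  (Nat.coprime_primes h.hy h.hx).mpr h.hxy.ne'

lemma Sol.x1x (h : Sol x y a b) : Nat.Coprime (x - 1) x := by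
  have h1 := h.hx.two_le
  have h2 : x = (x - 1) + 1 := by omega
  conv_rhs => rw [h2]
  simp

/-- the sign of `y ^ b` modulo `x` -/
lemma Sol.eps (h : Sol x y a b) : ∃ ε : ℤ, ε * ε = 1 ∧ (x : ℤ) ∣ ε - (y : ℤ) ^ b := by
  have hxZ : Prime (x : ℤ) := Nat.prime_iff_prime_int.mp h.hx
  have hyx : ¬ (x : ℤ) ∣ y := by
    intro hd
    have h1 : x ∣ y := by exact_mod_cast hd
    have h2 := (Nat.prime_dvd_prime_iff_eq h.hx h.hy).mp h1
    have := h.hxy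
    omega
  have h1 : (x : ℤ) ∣ y * ((1 - (y : ℤ) ^ b) * (1 + (y : ℤ) ^ b)) := by
    have e : (y : ℤ) * ((1 - (y : ℤ) ^ b) * (1 + (y : ℤ) ^ b)) =
        x * ((y - 1) * ((x : ℤ) ^ a) ^ 2 - y * ((y : ℤ) ^ b) ^ 2 + 1) := by
      linear_combination (-1 : ℤ) * h.hE
    exact ⟨_, e⟩
  rcases hxZ.dvd_or_dvd h1 with h2 | h2
  · exact absurd h2 hyx
  · rcases hxZ.dvd_or_dvd h2 with h3 | h3
    · exact ⟨1, by norm_num, h3⟩
    · refine ⟨-1, by norm_num, ?_⟩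
      have e : (-1 : ℤ) - (y : ℤ) ^ b = -(1 + (y : ℤ) ^ b) := by ring
      rw [e]
      exact (dvd_neg).mpr h3

lemma Sol.JT (h : Sol x y a b) {ε : ℤ} (hd : (x : ℤ) ∣ ε - (y : ℤ) ^ b) :
    JL x (DD x y) 1 ((ε : ℝ × ℝ) * (h.T : ℝ × ℝ) - 1) := by
  refine ⟨y ^ (b + 1), Nat.Coprime.pow_left _ h.yx', ε * al x y a - (y : ℤ) ^ (b + 1),
    -(ε * gS x a), ?_, ?_, ?_⟩
  · norm_num
    obtain ⟨c, hc⟩ := hd
    refine ⟨ε * ((y - 1) * gS x a) + y * c, ?_⟩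
    unfold al
    linear_combination (y : ℤ) * hc
  · norm_num
  · have h1 := h.T_mul
    have e1 : qe (DD x y) (ε * al x y a - (y : ℤ) ^ (b + 1)) (-(ε * gS x a)) =
        qe (DD x y) ε 0 * qe (DD x y) (al x y a) (-gS x a) - qe (DD x y) ((y : ℤ) ^ (b + 1)) 0 := by
      rw [qe_mul, qe_sub]
      congr 1 <;> ring
    rw [e1, ← h1, qe_int, qe_int]
    push_cast
    ring

lemma Sol.JW (h : Sol x y a b) :
    JL x (DD x y) (2 * a + 1) (-(h.W : ℝ × ℝ) - 1) := by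
  have hx1 : ((x - 1 : ℕ) : ℤ) = (x : ℤ) - 1 := h.x1
  refine ⟨(x - 1) * y ^ (2 * b + 1), Nat.Coprime.mul_left h.x1x (Nat.Coprime.pow_left _ h.yx'),
    -(2 * ((x : ℤ) * (y - 1) * ((x : ℤ) ^ a) ^ 2)), 2 * (x : ℤ) ^ a, ?_, ?_, ?_⟩
  · have e : (2 * a + 1 + 1) / 2 = a + 1 := by omega
    rw [e]
    refine ⟨-(2 * ((y - 1) * (x : ℤ) ^ a)), by ring⟩
  · have e : (2 * a + 1) / 2 = a := by omega
    rw [e]
    exact dvd_mul_left _ _
  · have h1 := h.W_mul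
    have e1 : qe (DD x y) (-(2 * ((x : ℤ) * (y - 1) * ((x : ℤ) ^ a) ^ 2))) (2 * (x : ℤ) ^ a) =
        -qe (DD x y) ((x : ℤ) * (y - 1) * ((x : ℤ) ^ a) ^ 2 + (y - x)) (-(2 * (x : ℤ) ^ a)) -
          qe (DD x y) (((x : ℤ) - 1) * (y : ℤ) ^ (2 * b + 1)) 0 := by
      rw [qe_neg, qe_sub]
      congr 1
      · have hE := h.hE
        linear_combination -hE
      · ring
    rw [e1, ← h1, qe_int]
    have e2 : (((x : ℤ) - 1) * (y : ℤ) ^ (2 * b + 1) : ℤ) =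
        (((x - 1) * y ^ (2 * b + 1) : ℕ) : ℤ) := by
      push_cast [hx1]; ring
    rw [e2]
    push_cast
    ring

/-- `D` is not a square -/
lemma Sol.nsq (h : Sol x y a b) : Irrational √((DD x y : ℕ) : ℝ) := by
  rw [irrational_sqrt_natCast_iff]
  rintro ⟨d, hd⟩
  have hxZ := h.x2
  have hxyZ : (x : ℤ) < y := by exact_mod_cast h.hxy
  have hyZ : Prime (y : ℤ) := Nat.prime_iff_prime_int.mp h.hy
  have hdZ : (d : ℤ) * d = (x : ℤ) * (y - 1) * (y - x) := by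
    rw [← h.Dc, hd]; push_cast; ring
  set X : ℤ := (x : ℤ) ^ a with hX
  set Y : ℤ := (y : ℤ) ^ b with hY
  set A : ℤ := (x : ℤ) * (y - 1) with hA
  have hx0 : (0 : ℤ) < x := by linarith
  have hy0 : (0 : ℤ) < y := by linarith
  have hXpos : 0 < X := by positivity
  have hYpos : 0 < Y := by positivity
  have hApos : 0 < A := by
    rw [hA]; nlinarith
  have hE : A * X ^ 2 = y * (x - 1) * Y ^ 2 + (y - x) := h.hE
  have key : (A * X - d) * (A * X + d) = (y : ℤ) ^ (2 * b + 1) * (A * (x - 1)) := by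
    have e1 : (A * X - d) * (A * X + d) = A * (A * X ^ 2) - d * d := by ring
    rw [e1, hE, hdZ]
    have e2 : (y : ℤ) ^ (2 * b + 1) = y * Y ^ 2 := by rw [hY]; ring
    rw [e2]
    ring
  have hyA : ¬ (y : ℤ) ∣ A := by
    rw [hA]
    intro hdvd
    rcases hyZ.dvd_or_dvd hdvd with h1 | h1
    · exact h.yx h1
    · have := Int.le_of_dvd (by linarith) h1
      linarith
  have hyX : ¬ (y : ℤ) ∣ X := fun h1 => h.yx (hyZ.dvd_of_dvd_pow h1)
  have hnot : ¬ ((y : ℤ) ∣ (A * X - d) ∧ (y : ℤ) ∣ (A * X + d)) := by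
    rintro ⟨h1, h2⟩
    have h3 := dvd_add h1 h2
    have h4 : A * X - d + (A * X + d) = 2 * (A * X) := by ring
    rw [h4] at h3
    rcases hyZ.dvd_or_dvd h3 with h5 | h5
    · exact h.y2 h5
    · rcases hyZ.dvd_or_dvd h5 with h6 | h6
      · exact hyA h6
      · exact hyX h6
  have hpos : 0 < (A * X - d) * (A * X + d) := by
    rw [key]
    have : 0 < (x : ℤ) - 1 := by linarith
    positivity
  have hd0 : (0 : ℤ) ≤ d := Int.natCast_nonneg d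
  have hAX : 0 < A * X := by positivity
  have hAXd : 0 < A * X - d := by
    have h1 : 0 < A * X + d := by linarith
    exact (pos_iff_pos_of_mul_pos hpos).mpr h1
  have hle : (y : ℤ) ^ (2 * b + 1) ≤ A * X + d := by
    have hdvd : (y : ℤ) ^ (2 * b + 1) ∣ (A * X - d) * (A * X + d) := ⟨_, key⟩
    by_cases h1 : (y : ℤ) ∣ (A * X - d)
    · have h2 : ¬ (y : ℤ) ∣ (A * X + d) := fun h' => hnot ⟨h1, h'⟩
      have hc : IsCoprime ((y : ℤ) ^ (2 * b + 1)) (A * X + d) :=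
        ((Prime.coprime_iff_not_dvd hyZ).mpr h2).pow_left
      have h3 := Int.le_of_dvd hAXd (hc.dvd_of_dvd_mul_right hdvd)
      linarith
    · have hc : IsCoprime ((y : ℤ) ^ (2 * b + 1)) (A * X - d) :=
        ((Prime.coprime_iff_not_dvd hyZ).mpr h1).pow_left
      exact Int.le_of_dvd (by linarith) (hc.dvd_of_dvd_mul_left hdvd)
  have hYge : 2 ≤ Y := by
    have : (y : ℤ) ^ 1 ≤ (y : ℤ) ^ b := pow_le_pow_right₀ (by linarith) h.hb
    rw [pow_one] at this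
    linarith
  have hXY : X < Y := pow_lt_of_pell hxZ hxyZ hXpos hYge h.hE
  have h4 : (y : ℤ) ^ (2 * b + 1) = y * (Y * Y) := by rw [hY]; ring
  have h5 : y * (X * X) < 2 * (A * X) := by
    have h6 : (y : ℤ) * (X * X) < y * (Y * Y) := by
      have : X * X < Y * Y := by nlinarith
      exact mul_lt_mul_of_pos_left this (by linarith)
    linarith
  have h7 : y * X < 2 * A := by
    have : (y * X) * X < (2 * A) * X := by nlinarith
    exact lt_of_mul_lt_mul_right this hXpos.le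
  have h8 : (x : ℤ) ^ 2 ≤ X := pow_le_pow_right₀ (by linarith) h.ha
  have h9 : (y : ℤ) * X < y * (2 * x) := by
    calc (y : ℤ) * X < 2 * A := h7
      _ ≤ y * (2 * x) := by rw [hA]; nlinarith
  have h10 : X < 2 * x := lt_of_mul_lt_mul_left h9 (by linarith)
  nlinarith

end

end Pool.Agent.W_MP_cac67d_h21
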