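import Mathlib
import Pool.Agent.W_MP_cac67d_h21.Alg4

set_option autoImplicit false

/-!
# Closeness at infinity
-/

namespace Pool.Agent.W_MP_cac67d_h21

lemma absm {c e : ℝ} (hc : 0 < c) : c * |e| = |c * e| := by
  rw [abs_mul, abs_of_pos hc]

section

variable {x y a b : ℕ}

/-- the two sides of the equation in terms of `r = √(C / A)` -/
theorem Sol.arch (h : Sol x y a b) (hx9 : 9 ≤ x) :
    |(h.T : ℝ × ℝ).1 - 1| ≤ 2 / √(x : ℝ) ∧ |(h.T : ℝ × ℝ).2 - 1| ≤ 2 / √(x : ℝ) ∧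
    |(h.W : ℝ × ℝ).1 - 1| ≤ (2 / √(x : ℝ)) ^ (2 * a + 1) ∧
    |(h.W : ℝ × ℝ).2 - 1| ≤ (2 / √(x : ℝ)) ^ (2 * a + 1) ∧
    (h.T : ℝ × ℝ).1 ≠ 0 ∧ (h.W : ℝ × ℝ).1 ≠ 0 ∧
    (h.T : ℝ × ℝ).1 ^ 4 * (h.W : ℝ × ℝ).1 ^ 2 ≠ 1 := by
  have hx9' : (9 : ℝ) ≤ x := by exact_mod_cast hx9
  have hxy : (x : ℝ) + 1 ≤ y := by exact_mod_cast h.hxy
  have hx0 : (0 : ℝ) < x := by linarith
  set X : ℝ := (x : ℝ) ^ a with hX
  set Y : ℝ := (y : ℝ) ^ b with hY
  set A : ℝ := (x : ℝ) * (y - 1) with hA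
  set C : ℝ := (y : ℝ) - x with hC
  have hA0 : 0 < A := by
    rw [hA]
    have : (0 : ℝ) < (y : ℝ) - 1 := by linarith
    positivity
  have hC0 : 0 < C := by rw [hC]; linarith
  have hX1 : 9 ≤ X := by
    calc (9 : ℝ) ≤ x := hx9'
      _ = (x : ℝ) ^ 1 := (pow_one _).symm
      _ ≤ X := pow_le_pow_right₀ (by linarith) (by have := h.ha; omega)
  have hY1 : 1 ≤ Y := one_le_pow₀ (by linarith)
  have hE : A * X ^ 2 = y * (x - 1) * Y ^ 2 + (y - x) := by
    have := congrArg (Int.cast : ℤ → ℝ) h.hE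
    push_cast at this
    exact this
  have hXY : X < Y := by
    have hXpos : (0 : ℤ) < (x : ℤ) ^ a := pow_pos (by exact_mod_cast h.hx.pos) _
    have hYge : 2 ≤ (y : ℤ) ^ b := by
      have h1 : (x : ℤ) < y := by exact_mod_cast h.hxy
      have h2 := h.x2
      have : (y : ℤ) ^ 1 ≤ (y : ℤ) ^ b := pow_le_pow_right₀ (by linarith only [h1]) h.hb
      rw [pow_one] at this
      linarith
    have h3 := pow_lt_of_pell h.x2 (by exact_mod_cast h.hxy) hXpos hYge h.hE
    rw [hX, hY]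
    exact_mod_cast h3
  -- the number r
  set r : ℝ := √(C / A) with hr
  have hr0 : 0 < r := Real.sqrt_pos.mpr (div_pos hC0 hA0)
  have hrr : A * r ^ 2 = C := by
    rw [hr, Real.sq_sqrt (div_pos hC0 hA0).le]
    field_simp
  have hsD : √((DD x y : ℕ) : ℝ) = A * r := by
    rw [Real.sqrt_eq_iff_mul_self_eq (Nat.cast_nonneg _) (by positivity)]
    have := congrArg (Int.cast : ℤ → ℝ) h.Dc
    push_cast at this
    rw [this]
    have e : A * r * (A * r) = A * (A * r ^ 2) := by ring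
    rw [e, hrr]
  set u : ℝ := 1 / √(x : ℝ) with hu
  have hs0 : 0 < √(x : ℝ) := Real.sqrt_pos.mpr hx0
  have hs3 : 3 ≤ √(x : ℝ) := by
    rw [Real.le_sqrt (by norm_num) hx0.le]; linarith
  have hu0 : 0 < u := by positivity
  have hus : u ^ 2 = 1 / x := by
    rw [hu, div_pow, Real.sq_sqrt hx0.le, one_pow]
  have hu3 : u ≤ 1 / 3 := by
    rw [hu]
    exact one_div_le_one_div_of_le (by norm_num) hs3
  have hru : r ≤ u := by
    have h1 : r ^ 2 ≤ u ^ 2 := by
      rw [hus, le_div_iff₀ hx0]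
      have h2 : A * (r ^ 2 * x) ≤ A * 1 := by
        have e : A * (r ^ 2 * x) = C * x := by rw [← hrr]; ring
        rw [e, mul_one, hC, hA]
        nlinarith only [hx9']
      exact le_of_mul_le_mul_left h2 hA0
    exact (pow_le_pow_iff_left₀ hr0.le hu0.le two_ne_zero).mp h1
  have hr3 : r ≤ 1 / 3 := hru.trans hu3
  have hξ : 2 / √(x : ℝ) = 2 * u := by rw [hu]; ring
  -- the relation between X, Y and r
  have hB : (y : ℝ) * (x - 1) = A * (1 - r ^ 2) := by
    have : A * (1 - r ^ 2) = A - C := by rw [mul_sub, mul_one, hrr]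
    rw [this, hA, hC]; ring
  have hXYr : (1 - r ^ 2) * Y ^ 2 = X ^ 2 - r ^ 2 := by
    have h1 : A * ((1 - r ^ 2) * Y ^ 2) = A * (X ^ 2 - r ^ 2) := by
      linear_combination (-Y ^ 2) * hB - hE + hrr + hC
    exact mul_left_cancel₀ hA0.ne' h1
  have hYX : Y - X ≤ r ^ 2 * Y := by
    have h1 : (Y - X) * (Y + X) ≤ (r ^ 2 * Y) * (Y + X) := by
      have e : (Y - X) * (Y + X) = r ^ 2 * (Y ^ 2 - 1) := by linear_combination hXYr
      rw [e]
      have : 0 ≤ r ^ 2 * Y * X := by positivity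
      nlinarith only [this]
    exact le_of_mul_le_mul_right h1 (by linarith only [hX1, hXY])
  have hg : (gS x a : ℝ) * ((x : ℝ) - 1) = X - 1 := by
    have := congrArg (Int.cast : ℤ → ℝ) (gS_mul x a)
    push_cast at this
    exact this
  have hal : (al x y a : ℝ) = A * gS x a + y := by
    unfold al; push_cast; ring
  have hx1 : (((x - 1 : ℕ) : ℝ)) = (x : ℝ) - 1 := by
    have := congrArg (Int.cast : ℤ → ℝ) h.x1
    push_cast at this
    exact this
  have hx1' : (x : ℝ) - 1 ≠ 0 := by linarith only [hx9']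
  -- values
  have hT1 : (Y * (1 + r)) * (h.T : ℝ × ℝ).1 = X + r := by
    have h1 := congrArg Prod.fst h.T_mul
    simp only [Prod.fst_mul, Prod.fst_natCast, qe, hsD] at h1
    push_cast at h1
    have h2 : (A * (1 - r)) * ((Y * (1 + r)) * (h.T : ℝ × ℝ).1) = (A * (1 - r)) * (X + r) := by
      calc (A * (1 - r)) * ((Y * (1 + r)) * (h.T : ℝ × ℝ).1) =
          (A * (1 - r ^ 2)) * Y * (h.T : ℝ × ℝ).1 := by ring
        _ = ((x : ℝ) - 1) * ((y : ℝ) ^ (b + 1) * (h.T : ℝ × ℝ).1) := by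
            rw [← hB, hY]; ring
        _ = ((x : ℝ) - 1) * ((al x y a : ℝ) + -(gS x a : ℝ) * (A * r)) := by rw [h1]
        _ = _ := by
            rw [hal]
            linear_combination (A * (1 - r)) * hg + hB
    exact mul_left_cancel₀ (mul_ne_zero hA0.ne' (by linarith only [hr3])) h2
  have hT2 : (Y * (1 - r)) * (h.T : ℝ × ℝ).2 = X - r := by
    have h1 := congrArg Prod.snd h.T_mul
    simp only [Prod.snd_mul, Prod.snd_natCast, qe, hsD] at h1
    push_cast at h1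
    have h2 : (A * (1 + r)) * ((Y * (1 - r)) * (h.T : ℝ × ℝ).2) = (A * (1 + r)) * (X - r) := by
      calc (A * (1 + r)) * ((Y * (1 - r)) * (h.T : ℝ × ℝ).2) =
          (A * (1 - r ^ 2)) * Y * (h.T : ℝ × ℝ).2 := by ring
        _ = ((x : ℝ) - 1) * ((y : ℝ) ^ (b + 1) * (h.T : ℝ × ℝ).2) := by
            rw [← hB, hY]; ring
        _ = ((x : ℝ) - 1) * ((al x y a : ℝ) - -(gS x a : ℝ) * (A * r)) := by rw [h1]
        _ = _ := by
            rw [hal]
            linear_combination (A * (1 + r)) * hg + hB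
    exact mul_left_cancel₀ (mul_ne_zero hA0.ne' (by linarith only [hr0])) h2
  have hW1 : (X + r) * (h.W : ℝ × ℝ).1 = X - r := by
    have h1 := congrArg Prod.fst h.W_mul
    simp only [Prod.fst_mul, Prod.fst_natCast, qe, hsD] at h1
    push_cast [hx1] at h1
    have h2 : (A * (X - r)) * ((X + r) * (h.W : ℝ × ℝ).1) = (A * (X - r)) * (X - r) := by
      calc (A * (X - r)) * ((X + r) * (h.W : ℝ × ℝ).1) =
          (A * (X ^ 2 - r ^ 2)) * (h.W : ℝ × ℝ).1 := by ring
        _ = (((x : ℝ) - 1) * (y : ℝ) ^ (2 * b + 1)) * (h.W : ℝ × ℝ).1 := by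
            rw [← hXYr, ← mul_assoc, ← hB, hY]; ring
        _ = _ := by
            rw [h1, ← hX, ← hA, ← hC, ← hrr]
            ring
    exact mul_left_cancel₀ (mul_ne_zero hA0.ne' (by linarith only [hX1, hr3])) h2
  have hW2 : (X - r) * (h.W : ℝ × ℝ).2 = X + r := by
    have h1 := congrArg Prod.snd h.W_mul
    simp only [Prod.snd_mul, Prod.snd_natCast, qe, hsD] at h1
    push_cast [hx1] at h1
    have h2 : (A * (X + r)) * ((X - r) * (h.W : ℝ × ℝ).2) = (A * (X + r)) * (X + r) := by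
      calc (A * (X + r)) * ((X - r) * (h.W : ℝ × ℝ).2) =
          (A * (X ^ 2 - r ^ 2)) * (h.W : ℝ × ℝ).2 := by ring
        _ = (((x : ℝ) - 1) * (y : ℝ) ^ (2 * b + 1)) * (h.W : ℝ × ℝ).2 := by
            rw [← hXYr, ← mul_assoc, ← hB, hY]; ring
        _ = _ := by
            rw [h1, ← hX, ← hA, ← hC, ← hrr]
            ring
    exact mul_left_cancel₀ (mul_ne_zero hA0.ne' (by linarith only [hX1, hr0])) h2
  -- the bound for ξ ^ (2 a + 1)
  have hpow : 4 * u / X ≤ (2 * u) ^ (2 * a + 1) := by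
    have e1 : u ^ (2 * a) = 1 / X := by
      rw [pow_mul, hus, div_pow, one_pow]
    have e2 : (2 * u) ^ (2 * a + 1) = 2 ^ (2 * a + 1) * u / X := by
      rw [mul_pow, pow_succ u, e1]; ring
    rw [e2]
    have e3 : (4 : ℝ) ≤ 2 ^ (2 * a + 1) := by
      calc (4 : ℝ) = 2 ^ 2 := by norm_num
        _ ≤ 2 ^ (2 * a + 1) := pow_le_pow_right₀ (by norm_num) (by have := h.ha; omega)
    have e4 : 0 < X := by linarith only [hX1]
    gcongr
  rw [hξ]
  have hY0 : 0 < Y := by linarith only [hY1]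
  have hX0 : 0 < X := by linarith only [hX1]
  refine ⟨?_, ?_, ?_, ?_, ?_, ?_, ?_⟩
  · have h1 : (Y * (1 + r)) * ((h.T : ℝ × ℝ).1 - 1) = -((Y - X) + r * (Y - 1)) := by
      linear_combination hT1
    have h2 : (Y * (1 + r)) * |(h.T : ℝ × ℝ).1 - 1| ≤ (Y * (1 + r)) * (2 * u) := by
      have h3 : (Y * (1 + r)) * |(h.T : ℝ × ℝ).1 - 1| = (Y - X) + r * (Y - 1) := by
        rw [absm (show 0 < Y * (1 + r) by positivity), h1, abs_neg, abs_of_nonneg]
        have : 0 ≤ r * (Y - 1) := mul_nonneg hr0.le (by linarith only [hY1])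
        linarith only [hXY, this]
      rw [h3]
      have h4 : (Y - X) + r * (Y - 1) ≤ r * (Y * (1 + r)) := by linarith only [hr0, hYX]
      have h5 : r * (Y * (1 + r)) ≤ (2 * u) * (Y * (1 + r)) :=
        mul_le_mul_of_nonneg_right (by linarith only [hu0, hru]) (by positivity)
      linarith only [h4, h5]
    exact le_of_mul_le_mul_left h2 (by positivity)
  · have h1 : (Y * (1 - r)) * ((h.T : ℝ × ℝ).2 - 1) = -(Y - X) + r * (Y - 1) := by
      linear_combination hT2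
    have hpos : 0 < Y * (1 - r) := mul_pos hY0 (by linarith only [hr3])
    have h2 : (Y * (1 - r)) * |(h.T : ℝ × ℝ).2 - 1| ≤ (Y * (1 - r)) * (2 * u) := by
      have h3 : (Y * (1 - r)) * |(h.T : ℝ × ℝ).2 - 1| = |-(Y - X) + r * (Y - 1)| := by
        rw [absm hpos, h1]
      rw [h3]
      have h4 : |-(Y - X) + r * (Y - 1)| ≤ r * (Y * (1 + r)) := by
        rw [abs_le]
        constructor
        · have : 0 ≤ r * (Y - 1) := mul_nonneg hr0.le (by linarith only [hY1])
          linarith only [hr0, hYX, this]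
        · linarith only [hXY, hr0, hYX]
      have h5 : r * (Y * (1 + r)) ≤ (2 * r) * (Y * (1 - r)) := by
        have : 1 + r ≤ 2 * (1 - r) := by linarith only [hr3]
        have h6 : Y * (1 + r) ≤ Y * (2 * (1 - r)) := mul_le_mul_of_nonneg_left this hY0.le
        nlinarith only [hr0, h6]
      have h7 : (2 * r) * (Y * (1 - r)) ≤ (2 * u) * (Y * (1 - r)) :=
        mul_le_mul_of_nonneg_right (by linarith only [hru]) hpos.le
      linarith only [h4, h5, h7]
    exact le_of_mul_le_mul_left h2 hpos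
  · refine le_trans ?_ hpow
    have h1 : (X + r) * ((h.W : ℝ × ℝ).1 - 1) = -(2 * r) := by linear_combination hW1
    have hpos : 0 < X + r := by linarith only [hX1, hr0]
    have h3 : (X + r) * |(h.W : ℝ × ℝ).1 - 1| = 2 * r := by
      rw [absm hpos, h1, abs_neg, abs_of_pos (by linarith only [hr0])]
    have h4 : |(h.W : ℝ × ℝ).1 - 1| = 2 * r / (X + r) := by
      rw [eq_div_iff hpos.ne', mul_comm]; exact h3
    rw [h4, div_le_div_iff₀ hpos hX0]
    nlinarith only [hu0, hru, hXYr, hpos]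
  · refine le_trans ?_ hpow
    have h1 : (X - r) * ((h.W : ℝ × ℝ).2 - 1) = 2 * r := by linear_combination hW2
    have hpos : 0 < X - r := by linarith only [hX1, hr3]
    have h3 : (X - r) * |(h.W : ℝ × ℝ).2 - 1| = 2 * r := by
      rw [absm hpos, h1, abs_of_pos (by linarith only [hr0])]
    have h4 : |(h.W : ℝ × ℝ).2 - 1| = 2 * r / (X - r) := by
      rw [eq_div_iff hpos.ne', mul_comm]; exact h3
    rw [h4, div_le_div_iff₀ hpos hX0]
    have h5 : X ≤ 2 * (X - r) := by linarith only [hX1, hr3]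
    have h6 : 2 * r * X ≤ 2 * u * X := by
      have : r * X ≤ u * X := mul_le_mul_of_nonneg_right hru hX0.le
      linarith only [this]
    have h7 : 2 * u * X ≤ 2 * u * (2 * (X - r)) := mul_le_mul_of_nonneg_left h5 (by linarith only [hu0])
    linarith only [h6, h7]
  · intro h0
    rw [h0, mul_zero] at hT1
    linarith only [hr0, hT1, hX0]
  · intro h0
    rw [h0, mul_zero] at hW1
    linarith only [hX1, hr3, hW1]
  · -- T ^ 2 * W = (1 - r) / (1 + r)
    intro h0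
    have hθ : ((1 + r) * ((h.T : ℝ × ℝ).1 ^ 2 * (h.W : ℝ × ℝ).1)) = 1 - r := by
      have e1 : (Y ^ 2 * (1 + r) * (1 - r ^ 2) * (X + r)) *
          ((1 + r) * ((h.T : ℝ × ℝ).1 ^ 2 * (h.W : ℝ × ℝ).1)) =
          (Y ^ 2 * (1 + r) * (1 - r ^ 2) * (X + r)) * (1 - r) := by
        calc (Y ^ 2 * (1 + r) * (1 - r ^ 2) * (X + r)) *
          ((1 + r) * ((h.T : ℝ × ℝ).1 ^ 2 * (h.W : ℝ × ℝ).1)) =
            (1 - r ^ 2) * ((Y * (1 + r)) * (h.T : ℝ × ℝ).1) ^ 2 *
              ((X + r) * (h.W : ℝ × ℝ).1) := by ring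
          _ = (1 - r ^ 2) * (X + r) ^ 2 * (X - r) := by rw [hT1, hW1]
          _ = (1 - r ^ 2) * (X + r) * (X ^ 2 - r ^ 2) := by ring
          _ = _ := by rw [← hXYr]; ring
      have h1r : 0 < 1 - r ^ 2 := by nlinarith only [hx9', hA0, hC0, hrr]
      exact mul_left_cancel₀ (by positivity) e1
    set q := (h.T : ℝ × ℝ).1 ^ 2 * (h.W : ℝ × ℝ).1 with hq
    have h1 : q ^ 2 = 1 := by rw [hq]; linear_combination h0
    have h2 : ((1 + r) * q) ^ 2 = (1 - r) ^ 2 := by rw [hθ]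
    rw [mul_pow, h1, mul_one] at h2
    linarith only [hr0, h2]

end

end Pool.Agent.W_MP_cac67d_h21
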