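import Mathlib

set_option autoImplicit false

/-!
# The set of columns, row by row
-/

namespace Pool.Agent.W_MP_cac67d_h21

open Finset

/-- the row of columns over `κ` -/
noncomputable def JJ (σ : ℤ) (κ : ℤ) (n : ℕ) : Finset ℤ := Ico (-(n : ℤ) - 2 * κ / σ) (n - 2 * κ / σ)

lemma JJ_card (σ κ : ℤ) (n : ℕ) : (JJ σ κ n).card = 2 * n := by
  unfold JJ
  rw [Int.card_Ico]
  omega

lemma row_abs {σ : ℤ} (hσ : 0 < σ) (κ : ℤ) (n : ℕ) :
    ∑ t ∈ JJ σ κ n, |2 * κ + σ * t| = σ * (n : ℤ) ^ 2 := by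
  unfold JJ
  set f := 2 * κ / σ with hf
  set u := 2 * κ % σ with hu
  have hu0 : 0 ≤ u := Int.emod_nonneg _ hσ.ne'
  have hu1 : u < σ := Int.emod_lt_of_pos _ hσ
  have hd : σ * f + u = 2 * κ := Int.mul_ediv_add_emod _ _
  induction n with
  | zero => simp
  | succ n ih =>
    have e : Ico (-((n + 1 : ℕ) : ℤ) - f) (((n + 1 : ℕ) : ℤ) - f) =
        insert ((n : ℤ) - f) (insert (-((n + 1 : ℕ) : ℤ) - f) (Ico (-(n : ℤ) - f) (n - f))) := by
      ext t
      simp only [mem_insert, mem_Ico]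
      push_cast
      omega
    rw [e, sum_insert, sum_insert, ih]
    · have hn : (0 : ℤ) ≤ n := Int.natCast_nonneg n
      have e1 : |2 * κ + σ * ((n : ℤ) - f)| = u + σ * n := by
        rw [← hd, show σ * f + u + σ * ((n : ℤ) - f) = u + σ * n by ring, abs_of_nonneg (by positivity)]
      have e2 : |2 * κ + σ * (-((n + 1 : ℕ) : ℤ) - f)| = σ * (n + 1) - u := by
        rw [← hd, show σ * f + u + σ * (-((n + 1 : ℕ) : ℤ) - f) = -(σ * (n + 1) - u) by
          push_cast; ring, abs_neg, abs_of_nonneg (by nlinarith)]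
      rw [e1, e2]
      push_cast
      ring
    · simp only [mem_Ico]
      push_cast
      omega
    · simp only [mem_insert, mem_Ico]
      push_cast
      omega

lemma JJ_abs {σ : ℤ} (hσ : 0 < σ) (κ : ℤ) (n : ℕ) {t : ℤ} (ht : t ∈ JJ σ κ n) :
    |2 * κ + σ * t| ≤ σ * n := by
  unfold JJ at ht
  rw [mem_Ico] at ht
  set f := 2 * κ / σ with hf
  set u := 2 * κ % σ with hu
  have hu0 : 0 ≤ u := Int.emod_nonneg _ hσ.ne'
  have hu1 : u < σ := Int.emod_lt_of_pos _ hσ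
  have hd : σ * f + u = 2 * κ := Int.mul_ediv_add_emod _ _
  rw [← hd, show σ * f + u + σ * t = u + σ * (t + f) by ring, abs_le]
  have h1 : -(n : ℤ) ≤ t + f := by linarith [ht.1]
  have h2 : t + f ≤ n - 1 := by linarith [ht.2, Int.le_sub_one_of_lt ht.2]
  constructor <;> nlinarith

/-- the weight of a column -/
def ww (a b σ : ℤ) (e : ℤ → ℤ) (κ t : ℤ) : ℤ := a * |2 * κ + e t| + b * |2 * κ + e t + σ * t|

lemma row_w {a b σ : ℤ} (ha : 0 ≤ a) (hb : 0 ≤ b) (hσ : 0 < σ) (e : ℤ → ℤ)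
    (he : ∀ t, 0 ≤ e t ∧ e t ≤ 1) (κ : ℤ) (n : ℕ) :
    2 * n * (2 * a * b - 2 * a * |κ| - a - b) - b * σ * (n : ℤ) ^ 2 ≤
      ∑ t ∈ JJ σ κ n, (2 * a * b - ww a b σ e κ t) := by
  have h1 : ∀ t ∈ JJ σ κ n, (2 * a * b - 2 * a * |κ| - a - b) - b * |2 * κ + σ * t| ≤
      2 * a * b - ww a b σ e κ t := by
    intro t _
    unfold ww
    have h2 : |2 * κ + e t| ≤ 2 * |κ| + 1 := by
      have := abs_add_le (2 * κ) (e t)
      have h3 : |e t| ≤ 1 := by rw [abs_le]; constructor <;> linarith [he t]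
      rw [abs_mul] at this
      norm_num at this
      linarith
    have h4 : |2 * κ + e t + σ * t| ≤ |2 * κ + σ * t| + 1 := by
      have := abs_add_le (2 * κ + σ * t) (e t)
      have h3 : |e t| ≤ 1 := by rw [abs_le]; constructor <;> linarith [he t]
      rw [show 2 * κ + e t + σ * t = 2 * κ + σ * t + e t by ring]
      linarith
    nlinarith
  refine le_trans (le_of_eq ?_) (sum_le_sum h1)
  rw [sum_sub_distrib, ← mul_sum, row_abs hσ, sum_const, JJ_card]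
  simp only [nsmul_eq_mul]
  push_cast
  ring

lemma sum_sym {M : Type*} [AddCommMonoid M] (n : ℕ) (F : ℤ → M) :
    ∑ κ ∈ Icc (-(n : ℤ)) n, F κ = F 0 + ∑ j ∈ range n, (F ((j : ℤ) + 1) + F (-((j : ℤ) + 1))) := by
  induction n with
  | zero => simp
  | succ n ih =>
    have e : Icc (-((n + 1 : ℕ) : ℤ)) ((n + 1 : ℕ) : ℤ) =
        insert ((n : ℤ) + 1) (insert (-((n : ℤ) + 1)) (Icc (-(n : ℤ)) n)) := by
      ext t
      simp only [mem_insert, mem_Icc]
      push_cast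
      omega
    rw [e, sum_insert, sum_insert, ih, sum_range_succ]
    · rw [← add_assoc (F ((n : ℤ) + 1)), add_comm (F ((n : ℤ) + 1) + F (-((n : ℤ) + 1))), add_assoc]
    · simp only [mem_Icc]
      omega
    · simp only [mem_insert, mem_Icc]
      omega

/-- overlap of consecutive rows -/
lemma JJ_inter {σ : ℤ} (hσ : 0 < σ) (κ : ℤ) (n n' : ℕ) :
    (2 * min n n' : ℤ) - (2 * (κ + 1) / σ - 2 * κ / σ) ≤ ((JJ σ κ n ∩ JJ σ (κ + 1) n').card : ℤ) := by
  unfold JJ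
  have hf : 2 * κ / σ ≤ 2 * (κ + 1) / σ := Int.ediv_le_ediv hσ (by linarith)
  rw [Ico_inter_Ico, Int.card_Ico]
  set f := 2 * κ / σ
  set f' := 2 * (κ + 1) / σ
  have h0 := Int.self_le_toNat ((n - f) ⊓ (n' - f') - (-(n : ℤ) - f) ⊔ (-(n' : ℤ) - f'))
  refine le_trans ?_ h0
  omega

end Pool.Agent.W_MP_cac67d_h21
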