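import Mathlib
import Pool.Agent.W_MP_cac67d_h21.Cnt1

set_option autoImplicit false

/-!
# The set of columns: counting
-/

namespace Pool.Agent.W_MP_cac67d_h21

open Finset

lemma sum_sym' {M : Type*} [AddCommMonoid M] (n : ℕ) (F : ℤ → M) :
    ∑ κ ∈ Ico (-(n : ℤ)) n, F κ = ∑ j ∈ range n, (F (j : ℤ) + F (-((j : ℤ) + 1))) := by
  induction n with
  | zero => simp
  | succ n ih =>
    have e : Ico (-((n + 1 : ℕ) : ℤ)) ((n + 1 : ℕ) : ℤ) =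
        insert (n : ℤ) (insert (-((n : ℤ) + 1)) (Ico (-(n : ℤ)) n)) := by
      ext t
      simp only [mem_insert, mem_Ico]
      push_cast
      omega
    rw [e, sum_insert, sum_insert, ih, sum_range_succ]
    · rw [← add_assoc, add_comm]
    · simp only [mem_Ico]
      omega
    · simp only [mem_insert, mem_Ico]
      omega

lemma sum_h1 (β : ℕ) : (β : ℝ) + ∑ j ∈ range β, (((β : ℝ) - (j + 1)) + ((β : ℝ) - (j + 1))) =
    (β : ℝ) ^ 2 := by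
  induction β with
  | zero => simp
  | succ β ih =>
    rw [sum_range_succ']
    have e : ∑ k ∈ range β, ((((β + 1 : ℕ) : ℝ) - (((k + 1 : ℕ) : ℝ) + 1)) +
        (((β + 1 : ℕ) : ℝ) - (((k + 1 : ℕ) : ℝ) + 1))) =
        ∑ j ∈ range β, (((β : ℝ) - (j + 1)) + ((β : ℝ) - (j + 1))) :=
      sum_congr rfl fun k _ => by push_cast; ring
    rw [e]
    push_cast
    linarith

lemma sum_h2 (β : ℕ) : (β : ℝ) ^ 2 + ∑ j ∈ range β, (((β : ℝ) - (j + 1)) ^ 2 + ((β : ℝ) - (j + 1)) ^ 2) =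
    (β : ℝ) * (2 * (β : ℝ) ^ 2 + 1) / 3 := by
  induction β with
  | zero => simp
  | succ β ih =>
    rw [sum_range_succ']
    have e : ∑ k ∈ range β, ((((β + 1 : ℕ) : ℝ) - (((k + 1 : ℕ) : ℝ) + 1)) ^ 2 +
        (((β + 1 : ℕ) : ℝ) - (((k + 1 : ℕ) : ℝ) + 1)) ^ 2) =
        ∑ j ∈ range β, (((β : ℝ) - (j + 1)) ^ 2 + ((β : ℝ) - (j + 1)) ^ 2) :=
      sum_congr rfl fun k _ => by push_cast; ring
    rw [e]
    push_cast
    linarith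

/-- half the size of the row over `±j` -/
noncomputable def NN (a b σ : ℕ) (j : ℕ) : ℕ :=
  ⌊2 * (a : ℝ) * ((b : ℝ) - 1 - j) / (b * σ) + 1 / 2⌋₊

lemma NN_le {a b σ j : ℕ} (hj : j + 1 ≤ b) :
    (NN a b σ j : ℝ) ≤ 2 * (a : ℝ) * ((b : ℝ) - 1 - j) / (b * σ) + 1 / 2 := by
  refine Nat.floor_le ?_
  have h1 : (j : ℝ) + 1 ≤ b := by exact_mod_cast hj
  have h2 : (0 : ℝ) ≤ (b : ℝ) - 1 - j := by linarith
  positivity

lemma lt_NN {a b σ j : ℕ} :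
    2 * (a : ℝ) * ((b : ℝ) - 1 - j) / (b * σ) < (NN a b σ j : ℝ) + 1 / 2 := by
  have := Nat.lt_floor_add_one (2 * (a : ℝ) * ((b : ℝ) - 1 - j) / (b * σ) + 1 / 2)
  unfold NN
  linarith

lemma NN_anti {a b σ j : ℕ} : NN a b σ (j + 1) ≤ NN a b σ j := by
  unfold NN
  refine Nat.floor_le_floor ?_
  have : 2 * (a : ℝ) * ((b : ℝ) - 1 - ((j + 1 : ℕ) : ℝ)) ≤ 2 * (a : ℝ) * ((b : ℝ) - 1 - j) := by
    push_cast
    have : (0 : ℝ) ≤ a := Nat.cast_nonneg a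
    nlinarith
  gcongr

/-- the columns -/
noncomputable def Om (a b σ : ℕ) : Finset (Σ _ : ℤ, ℤ) :=
  (Icc (-((b - 1 : ℕ) : ℤ)) ((b - 1 : ℕ) : ℤ)).sigma fun κ => JJ σ κ (NN a b σ κ.natAbs)

/-- the columns with a partner -/
noncomputable def Om' (a b σ : ℕ) : Finset (Σ _ : ℤ, ℤ) :=
  (Ico (-((b - 1 : ℕ) : ℤ)) ((b - 1 : ℕ) : ℤ)).sigma fun κ =>
    JJ σ κ (NN a b σ κ.natAbs) ∩ JJ σ (κ + 1) (NN a b σ (κ + 1).natAbs)

lemma Om'_sub (a b σ : ℕ) : Om' a b σ ⊆ Om a b σ := by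
  intro c hc
  unfold Om' at hc
  unfold Om
  rw [mem_sigma, mem_Ico, mem_inter] at hc
  rw [mem_sigma, mem_Icc]
  exact ⟨⟨hc.1.1, hc.1.2.le⟩, hc.2.1⟩

lemma Om'_partner (a b σ : ℕ) (c : Σ _ : ℤ, ℤ) (hc : c ∈ Om' a b σ) :
    (⟨c.1 + 1, c.2⟩ : Σ _ : ℤ, ℤ) ∈ Om a b σ := by
  unfold Om' at hc
  unfold Om
  rw [mem_sigma, mem_Ico, mem_inter] at hc
  rw [mem_sigma, mem_Icc]
  refine ⟨⟨?_, ?_⟩, hc.2.2⟩
  · show -((b - 1 : ℕ) : ℤ) ≤ c.1 + 1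
    linarith [hc.1.1]
  · show c.1 + 1 ≤ ((b - 1 : ℕ) : ℤ)
    exact hc.1.2

lemma Om_bd {a b σ : ℕ} (hb : 1 ≤ b) (hab : b + 1 ≤ a) (hσ1 : b ≤ σ) (hσ2 : σ ≤ b + 1)
    (c : Σ _ : ℤ, ℤ) (hc : c ∈ Om a b σ) :
    |c.1| + 1 ≤ b ∧ 2 * |2 * c.1 + σ * c.2| ≤ 5 * a := by
  unfold Om at hc
  rw [mem_sigma, mem_Icc] at hc
  have h1 : |c.1| + 1 ≤ b := by
    have : |c.1| ≤ ((b - 1 : ℕ) : ℤ) := abs_le.mpr hc.1
    omega
  refine ⟨h1, ?_⟩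
  have h2 := JJ_abs (σ := (σ : ℤ)) (by omega) c.1 _ hc.2
  have h3 : c.1.natAbs + 1 ≤ b := by omega
  have h4 := NN_le (a := a) (σ := σ) h3
  have hb' : (1 : ℝ) ≤ b := by exact_mod_cast hb
  have hσ' : (b : ℝ) ≤ σ := by exact_mod_cast hσ1
  have hσ'' : (σ : ℝ) ≤ b + 1 := by exact_mod_cast hσ2
  have hab' : (b : ℝ) + 1 ≤ a := by exact_mod_cast hab
  have h5 : (σ : ℝ) * (2 * (a : ℝ) * ((b : ℝ) - 1 - (c.1.natAbs : ℝ)) / (b * σ)) ≤ 2 * a := by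
    have hs0 : (0 : ℝ) < σ := by linarith
    have hb0 : (0 : ℝ) < b := by linarith
    have e : (σ : ℝ) * (2 * (a : ℝ) * ((b : ℝ) - 1 - (c.1.natAbs : ℝ)) / (b * σ)) =
        2 * a * ((b : ℝ) - 1 - (c.1.natAbs : ℝ)) / b := by
      field_simp
    rw [e, div_le_iff₀ hb0]
    have h6 : (0 : ℝ) ≤ c.1.natAbs := Nat.cast_nonneg _
    have h7 : (0 : ℝ) ≤ a := Nat.cast_nonneg a
    nlinarith
  have h6 : 2 * ((σ : ℝ) * (NN a b σ c.1.natAbs : ℝ)) ≤ 5 * a := by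
    have hs0 : (0 : ℝ) < σ := by linarith
    nlinarith
  have h7 : 2 * ((σ : ℤ) * (NN a b σ c.1.natAbs : ℤ)) ≤ 5 * a := by exact_mod_cast h6
  linarith

lemma Om_card (a b σ : ℕ) : ((Om a b σ).card : ℝ) = 2 * (NN a b σ 0 : ℝ) +
    4 * ∑ j ∈ range (b - 1), (NN a b σ (j + 1) : ℝ) := by
  unfold Om
  rw [card_sigma]
  simp only [JJ_card]
  rw [sum_sym]
  push_cast
  rw [mul_sum]
  congr 1
  refine sum_congr rfl fun j _ => ?_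
  have e1 : ((j : ℤ) + 1).natAbs = j + 1 := by omega
  have e2 : (-((j : ℤ) + 1)).natAbs = j + 1 := by omega
  rw [e1, e2]
  ring

lemma Om_card_le {a b σ : ℕ} (hb : 1 ≤ b) (hσ1 : b ≤ σ) :
    (Om a b σ).card + 1 ≤ 4 * a + 2 * b := by
  obtain ⟨β, rfl⟩ : ∃ β, b = β + 1 := ⟨b - 1, by omega⟩
  have h1 := Om_card a (β + 1) σ
  have e0 : β + 1 - 1 = β := rfl
  rw [e0] at h1
  set P : ℝ := ((β + 1 : ℕ) : ℝ) * σ with hP
  have hP0 : 0 < P := by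
    have : (0 : ℝ) < σ := by
      have : 0 < σ := by omega
      exact_mod_cast this
    rw [hP]; positivity
  have h2 : (NN a (β + 1) σ 0 : ℝ) ≤ 2 * a / P * β + 1 / 2 := by
    have := NN_le (a := a) (b := β + 1) (σ := σ) (j := 0) (by omega)
    refine this.trans (le_of_eq ?_)
    rw [← hP]; push_cast; ring
  have h3 : ∑ j ∈ range β, (NN a (β + 1) σ (j + 1) : ℝ) ≤
      ∑ j ∈ range β, (2 * a / P * ((β : ℝ) - (j + 1)) + 1 / 2) := by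
    refine sum_le_sum fun j hj => ?_
    have hj' := mem_range.mp hj
    have := NN_le (a := a) (b := β + 1) (σ := σ) (j := j + 1) (by omega)
    refine this.trans (le_of_eq ?_)
    rw [← hP]; push_cast; ring
  rw [sum_add_distrib, ← mul_sum, sum_const, card_range, nsmul_eq_mul] at h3
  have h4 := sum_h1 β
  rw [sum_add_distrib] at h4
  have h5 : ((Om a (β + 1) σ).card : ℝ) ≤ 4 * a / P * (β : ℝ) ^ 2 + 2 * β + 1 := by
    rw [h1, ← h4]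
    have e : 4 * (a : ℝ) / P = 2 * (2 * a / P) := by ring
    rw [e]
    nlinarith [h2, h3]
  have h6 : 4 * (a : ℝ) / P * (β : ℝ) ^ 2 ≤ 4 * a := by
    rw [div_mul_eq_mul_div, div_le_iff₀ hP0]
    have h7 : (β : ℝ) ^ 2 ≤ P := by
      rw [hP]
      have : ((β + 1 : ℕ) : ℝ) ≤ σ := by exact_mod_cast hσ1
      push_cast at this ⊢
      have h0 : (0 : ℝ) ≤ β := Nat.cast_nonneg β
      nlinarith
    have : (0 : ℝ) ≤ 4 * a := by positivity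
    nlinarith
  have h7 : ((Om a (β + 1) σ).card : ℝ) + 1 ≤ 4 * a + 2 * ((β + 1 : ℕ) : ℝ) := by
    push_cast
    linarith
  exact_mod_cast h7

lemma Om'_card {a b σ : ℕ} (hb : 1 ≤ b) (hσ1 : b ≤ σ) :
    ((Om a b σ).card : ℝ) - (Om' a b σ).card ≤ 2 * NN a b σ 0 + 3 := by
  have h1 := Om_card a b σ
  obtain ⟨β, rfl⟩ : ∃ β, b = β + 1 := ⟨b - 1, by omega⟩
  have e0 : β + 1 - 1 = β := rfl
  have hσ0 : (0 : ℤ) < σ := by omega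
  have h2 : (4 * ∑ j ∈ range β, (NN a (β + 1) σ (j + 1) : ℤ)) - 3 ≤ ((Om' a (β + 1) σ).card : ℤ) := by
    unfold Om'
    rw [card_sigma, e0]
    push_cast
    have h3 : ∀ κ : ℤ, _ := fun κ : ℤ =>
      JJ_inter (σ := (σ : ℤ)) hσ0 κ (NN a (β + 1) σ κ.natAbs) (NN a (β + 1) σ (κ + 1).natAbs)
    refine le_trans ?_ (sum_le_sum fun κ _ => h3 κ)
    rw [sum_sub_distrib, sum_sym', sum_sym']
    have h4 : ∑ j ∈ range β, ((2 * (↑((j : ℤ) + 1) : ℤ) / (σ : ℤ) - 2 * (j : ℤ) / (σ : ℤ)) +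
        (2 * (-((j : ℤ) + 1) + 1) / (σ : ℤ) - 2 * -((j : ℤ) + 1) / (σ : ℤ))) =
        2 * (β : ℤ) / (σ : ℤ) - 2 * -(β : ℤ) / (σ : ℤ) := by
      have := Finset.sum_range_sub (fun j : ℕ => 2 * (j : ℤ) / (σ : ℤ) - 2 * -(j : ℤ) / (σ : ℤ)) β
      simp only [Nat.cast_zero, mul_zero, neg_zero, sub_zero, Int.zero_ediv] at this
      rw [← this]
      refine sum_congr rfl fun j _ => ?_
      push_cast
      have e1 : -((j : ℤ) + 1) + 1 = -(j : ℤ) := by ring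
      rw [e1]
      ring
    rw [h4]
    have h5 : 2 * (β : ℤ) / (σ : ℤ) ≤ 1 := by
      have : 2 * (β : ℤ) / (σ : ℤ) < 2 := Int.ediv_lt_of_lt_mul hσ0 (by omega)
      omega
    have h6 : -2 ≤ 2 * -(β : ℤ) / (σ : ℤ) := Int.le_ediv_of_mul_le hσ0 (by omega)
    have h7 : 4 * ∑ j ∈ range β, (NN a (β + 1) σ (j + 1) : ℤ) =
        ∑ j ∈ range β, ((2 * min (NN a (β + 1) σ (j : ℤ).natAbs) (NN a (β + 1) σ ((j : ℤ) + 1).natAbs) : ℤ) +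
        (2 * min (NN a (β + 1) σ (-((j : ℤ) + 1)).natAbs) (NN a (β + 1) σ (-((j : ℤ) + 1) + 1).natAbs) : ℤ)) := by
      rw [mul_sum]
      refine sum_congr rfl fun j _ => ?_
      have e1 : (j : ℤ).natAbs = j := by omega
      have e2 : ((j : ℤ) + 1).natAbs = j + 1 := by omega
      have e3 : (-((j : ℤ) + 1)).natAbs = j + 1 := by omega
      have e4 : (-((j : ℤ) + 1) + 1).natAbs = j := by omega
      have h8 : NN a (β + 1) σ (j + 1) ≤ NN a (β + 1) σ j := NN_anti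
      rw [e1, e2, e3, e4, min_eq_right h8, min_eq_left h8]
      ring
    rw [h7]
    linarith
  have h3 : (4 * ∑ j ∈ range β, (NN a (β + 1) σ (j + 1) : ℝ)) - 3 ≤ ((Om' a (β + 1) σ).card : ℝ) := by
    exact_mod_cast h2
  rw [e0] at h1
  linarith

lemma NN0_le {a b σ : ℕ} (hb : 1 ≤ b) (hσ1 : b ≤ σ) :
    (b : ℝ) * (2 * NN a b σ 0) ≤ 4 * a + b := by
  have h1 := NN_le (a := a) (b := b) (σ := σ) (j := 0) (by omega)
  have hb' : (1 : ℝ) ≤ b := by exact_mod_cast hb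
  have hσ' : (b : ℝ) ≤ σ := by exact_mod_cast hσ1
  have ha0 : (0 : ℝ) ≤ a := Nat.cast_nonneg a
  have h2 : (b : ℝ) * (2 * (a : ℝ) * ((b : ℝ) - 1 - ((0 : ℕ) : ℝ)) / (b * σ)) ≤ 2 * a := by
    have hs0 : (0 : ℝ) < σ := by linarith
    have hb0 : (0 : ℝ) < b := by linarith
    have e : (b : ℝ) * (2 * (a : ℝ) * ((b : ℝ) - 1 - ((0 : ℕ) : ℝ)) / (b * σ)) =
        2 * a * ((b : ℝ) - 1) / σ := by
      push_cast
      field_simp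
      ring
    rw [e, div_le_iff₀ hs0]
    nlinarith
  nlinarith

lemma Om_loss {a b σ : ℕ} (hb : 1 ≤ b) (hσ1 : b ≤ σ) :
    (b : ℝ) * (((Om a b σ).card : ℝ) - (Om' a b σ).card) ≤ 4 * a + 4 * b := by
  have h1 := Om'_card (a := a) hb hσ1
  have h2 := NN0_le (a := a) hb hσ1
  have hb' : (1 : ℝ) ≤ b := by exact_mod_cast hb
  nlinarith

lemma row_real {a b σ j : ℕ} (hab : b ≤ a) (hb : 1 ≤ b) (hσ1 : b ≤ σ) (hj : j + 1 ≤ b) :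
    4 * (a : ℝ) ^ 2 / (b * σ) * ((b : ℝ) - 1 - j) ^ 2 - b * σ / 4 ≤
      2 * (NN a b σ j : ℝ) * (2 * a * b - 2 * a * j - a - b) - b * σ * (NN a b σ j : ℝ) ^ 2 := by
  have hb' : (1 : ℝ) ≤ b := by exact_mod_cast hb
  have hσ' : (b : ℝ) ≤ σ := by exact_mod_cast hσ1
  have ha' : (b : ℝ) ≤ a := by exact_mod_cast hab
  have h1 := NN_le (a := a) (b := b) (σ := σ) hj
  have h2 := lt_NN (a := a) (b := b) (σ := σ) (j := j)
  set h : ℝ := (b : ℝ) - 1 - j with hh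
  set n : ℝ := (NN a b σ j : ℝ) with hn
  have hn0 : 0 ≤ n := Nat.cast_nonneg _
  set P : ℝ := (b : ℝ) * σ with hP
  have hP0 : 0 < P := by rw [hP]; nlinarith
  set z : ℝ := 2 * (a : ℝ) * h / P with hz
  have e1 : 2 * a * h = P * z := by rw [hz]; field_simp
  have e2 : 4 * (a : ℝ) ^ 2 / P * h ^ 2 = P * z ^ 2 := by rw [hz]; field_simp; ring
  rw [e2]
  have h3 : 2 * (a : ℝ) * h ≤ 2 * a * b - 2 * a * j - a - b := by rw [hh]; nlinarith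
  have h4 : (z - n) ^ 2 ≤ 1 / 4 := by
    have : |z - n| ≤ 1 / 2 := by rw [abs_le]; constructor <;> linarith
    nlinarith [abs_nonneg (z - n), sq_abs (z - n)]
  have h5 : 2 * n * (P * z) ≤ 2 * n * (2 * a * b - 2 * a * j - a - b) := by
    rw [← e1]
    exact mul_le_mul_of_nonneg_left h3 (by positivity)
  have h6 : P * (z - n) ^ 2 ≤ P * (1 / 4) := mul_le_mul_of_nonneg_left h4 hP0.le
  nlinarith

lemma Om_sum {a b σ : ℕ} (hb : 1 ≤ b) (hab : b + 1 ≤ a) (hσ1 : b ≤ σ) (hσ2 : σ ≤ b + 1)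
    (e : ℤ → ℤ) (he : ∀ t, 0 ≤ e t ∧ e t ≤ 1) :
    (13 / 6 : ℝ) * a ^ 2 * b - 11 * a ^ 2 ≤
      ((∑ c ∈ Om a b σ, (2 * (a : ℤ) * b - ww a b σ e c.1 c.2) : ℤ) : ℝ) := by
  have h0 : ∑ κ ∈ Icc (-((b - 1 : ℕ) : ℤ)) ((b - 1 : ℕ) : ℤ),
      (2 * (NN a b σ κ.natAbs : ℤ) * (2 * a * b - 2 * a * |κ| - a - b) -
        b * σ * (NN a b σ κ.natAbs : ℤ) ^ 2) ≤
      ∑ c ∈ Om a b σ, (2 * (a : ℤ) * b - ww a b σ e c.1 c.2) := by
    unfold Om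
    rw [sum_sigma]
    refine sum_le_sum fun κ _ => ?_
    exact row_w (Int.natCast_nonneg a) (Int.natCast_nonneg b) (by omega) e he κ _
  have h1 : ((∑ κ ∈ Icc (-((b - 1 : ℕ) : ℤ)) ((b - 1 : ℕ) : ℤ),
      (2 * (NN a b σ κ.natAbs : ℤ) * (2 * a * b - 2 * a * |κ| - a - b) -
        b * σ * (NN a b σ κ.natAbs : ℤ) ^ 2) : ℤ) : ℝ) ≤
      ((∑ c ∈ Om a b σ, (2 * (a : ℤ) * b - ww a b σ e c.1 c.2) : ℤ) : ℝ) :=
    Int.cast_le.mpr h0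
  refine le_trans ?_ h1
  push_cast
  obtain ⟨β, rfl⟩ : ∃ β, b = β + 1 := ⟨b - 1, by omega⟩
  have e0 : β + 1 - 1 = β := rfl
  rw [e0]
  have h2 : ∑ κ ∈ Icc (-(β : ℤ)) β, (4 * (a : ℝ) ^ 2 / (((β + 1 : ℕ) : ℝ) * σ) *
      ((((β + 1 : ℕ) : ℝ)) - 1 - (κ.natAbs : ℝ)) ^ 2 - ((β + 1 : ℕ) : ℝ) * σ / 4) ≤
      ∑ κ ∈ Icc (-(β : ℤ)) β, (2 * (NN a (β + 1) σ κ.natAbs : ℝ) *
        (2 * a * ((β + 1 : ℕ) : ℝ) - 2 * a * |(κ : ℝ)| - a - ((β + 1 : ℕ) : ℝ)) -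
        ((β + 1 : ℕ) : ℝ) * σ * (NN a (β + 1) σ κ.natAbs : ℝ) ^ 2) := by
    refine sum_le_sum fun κ hκ => ?_
    rw [mem_Icc] at hκ
    have h3 := row_real (a := a) (b := β + 1) (σ := σ) (j := κ.natAbs) (by omega) hb hσ1 (by omega)
    have e1 : (κ.natAbs : ℝ) = |(κ : ℝ)| := by
      rw [Nat.cast_natAbs]; push_cast; rfl
    rw [e1] at h3 ⊢
    push_cast at h3 ⊢
    exact h3
  refine le_trans ?_ h2
  rw [sum_sym]
  have e3 : ∀ j : ℕ, ((((j : ℤ) + 1).natAbs : ℕ) : ℝ) = (j : ℝ) + 1 := by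
    intro j
    have : ((j : ℤ) + 1).natAbs = j + 1 := by omega
    rw [this]; push_cast; rfl
  have e4 : ∀ j : ℕ, (((-((j : ℤ) + 1)).natAbs : ℕ) : ℝ) = (j : ℝ) + 1 := by
    intro j
    have : (-((j : ℤ) + 1)).natAbs = j + 1 := by omega
    rw [this]; push_cast; rfl
  simp only [e3, e4, Int.natAbs_zero, Nat.cast_zero, sub_zero]
  push_cast
  set P : ℝ := ((β : ℝ) + 1) * σ with hP
  have hσ' : ((β : ℝ) + 1) ≤ σ := by exact_mod_cast hσ1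
  have hσ'' : (σ : ℝ) ≤ (β : ℝ) + 1 + 1 := by exact_mod_cast hσ2
  have hβ0 : (0 : ℝ) ≤ β := Nat.cast_nonneg β
  have hP0 : 0 < P := by rw [hP]; nlinarith
  set c : ℝ := 4 * (a : ℝ) ^ 2 / P with hc
  have h5 := sum_h2 β
  have h6 : c * ((β : ℝ) + 1 - 1) ^ 2 - P / 4 + ∑ x ∈ range β, (c * ((β : ℝ) + 1 - 1 - (x + 1)) ^ 2 - P / 4 +
      (c * ((β : ℝ) + 1 - 1 - (x + 1)) ^ 2 - P / 4)) =
      c * ((β : ℝ) * (2 * (β : ℝ) ^ 2 + 1) / 3) - (2 * β + 1) * (P / 4) := by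
    rw [← h5, mul_add, mul_sum]
    have e5 : ∑ x ∈ range β, (c * ((β : ℝ) + 1 - 1 - (x + 1)) ^ 2 - P / 4 +
      (c * ((β : ℝ) + 1 - 1 - (x + 1)) ^ 2 - P / 4)) =
      ∑ x ∈ range β, (c * (((β : ℝ) - (x + 1)) ^ 2 + ((β : ℝ) - (x + 1)) ^ 2)) -
      ∑ x ∈ range β, (2 * (P / 4)) := by
      rw [← sum_sub_distrib]
      refine sum_congr rfl fun x _ => by ring
    rw [e5, sum_const, card_range, nsmul_eq_mul]
    ring
  rw [h6]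
  have ha1 : ((β : ℝ) + 1) + 1 ≤ a := by exact_mod_cast hab
  have hPle : P ≤ ((β : ℝ) + 1) * (β + 2) := by rw [hP]; nlinarith
  have h7 : (β - 3 : ℝ) * P ≤ (β : ℝ) ^ 3 := by
    rcases le_or_gt (β : ℝ) 3 with h8 | h8
    · have : (β - 3 : ℝ) * P ≤ 0 := mul_nonpos_of_nonpos_of_nonneg (by linarith) hP0.le
      have : (0 : ℝ) ≤ (β : ℝ) ^ 3 := by positivity
      linarith
    · calc (β - 3 : ℝ) * P ≤ (β - 3 : ℝ) * (((β : ℝ) + 1) * (β + 2)) :=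
            mul_le_mul_of_nonneg_left hPle (by linarith)
        _ ≤ _ := by nlinarith
  have h8 : (8 / 3 : ℝ) * a ^ 2 * (β - 3) ≤ c * ((β : ℝ) * (2 * (β : ℝ) ^ 2 + 1) / 3) := by
    have e6 : c * ((β : ℝ) * (2 * (β : ℝ) ^ 2 + 1) / 3) =
        (4 * (a : ℝ) ^ 2 * ((β : ℝ) * (2 * (β : ℝ) ^ 2 + 1) / 3)) / P := by
      rw [hc]; ring
    rw [e6, le_div_iff₀ hP0]
    have h9 : (8 / 3 : ℝ) * a ^ 2 * ((β - 3) * P) ≤ (8 / 3 : ℝ) * a ^ 2 * (β : ℝ) ^ 3 :=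
      mul_le_mul_of_nonneg_left h7 (by positivity)
    have h10 : 0 ≤ (a : ℝ) ^ 2 * β := by positivity
    nlinarith
  have h9 : (2 * β + 1) * (P / 4) ≤ (a : ℝ) ^ 2 * ((β : ℝ) + 1) / 2 + a ^ 2 / 4 := by
    have h10 : (2 * β + 1) * (P / 4) ≤ (2 * β + 1) * (((β : ℝ) + 1) * (β + 2) / 4) :=
      mul_le_mul_of_nonneg_left (by linarith) (by positivity)
    refine h10.trans ?_
    have h11 : ((β : ℝ) + 1) ^ 2 ≤ a ^ 2 := by nlinarith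
    have h12 : ((β : ℝ) + 1) ^ 2 * (β + 1) ≤ a ^ 2 * (β + 1) :=
      mul_le_mul_of_nonneg_right h11 (by linarith)
    nlinarith
  push_cast at *
  nlinarith

end Pool.Agent.W_MP_cac67d_h21
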