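import Mathlib
import Pool.Agent.W_MP_cac67d_h21.Det2

set_option autoImplicit false

/-!
# The zero estimate
-/

namespace Pool.Agent.W_MP_cac67d_h21

open Finset Matrix Polynomial

/-- The binomial polynomial. -/
noncomputable def bp (k : ℕ) : ℝ[X] := C ((k.factorial : ℝ)⁻¹) * descPochhammer ℝ k

lemma bp_eval (k m : ℕ) : (bp k).eval (m : ℝ) = m.choose k := by
  unfold bp
  rw [eval_mul, eval_C, descPochhammer_eval_eq_descFactorial, Nat.descFactorial_eq_factorial_mul_choose]
  push_cast
  have : (k.factorial : ℝ) ≠ 0 := by positivity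
  field_simp

lemma bp_degree (k : ℕ) : (bp k).degree = k := by
  unfold bp
  have h : ((k.factorial : ℝ)⁻¹) ≠ 0 := by positivity
  rw [degree_C_mul h, degree_eq_natDegree (monic_descPochhammer ℝ k).ne_zero,
    descPochhammer_natDegree]

/-- The polynomial with given coefficients in the basis `bp`. -/
noncomputable def pv {K : ℕ} (v : Fin K → ℝ) : ℝ[X] := ∑ k : Fin K, C (v k) * bp k

lemma pv_eval {K : ℕ} (v : Fin K → ℝ) (m : ℕ) :
    (pv v).eval (m : ℝ) = ∑ k : Fin K, v k * (m.choose k : ℝ) := by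
  unfold pv
  rw [eval_finset_sum]
  refine Finset.sum_congr rfl fun k _ => ?_
  rw [eval_mul, eval_C, bp_eval]

lemma pv_degree {K : ℕ} (v : Fin K → ℝ) : (pv v).degree < K := by
  unfold pv
  refine lt_of_le_of_lt (degree_sum_le _ _) ?_
  rw [Finset.sup_lt_iff (by exact WithBot.bot_lt_coe K)]
  intro k _
  have h1 : (C (v k) * bp k).degree ≤ (bp k).degree := by
    refine (degree_mul_le _ _).trans ?_
    have := degree_C_le (a := v k)
    calc (C (v k)).degree + (bp k).degree ≤ 0 + (bp k).degree := by gcongr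
      _ = _ := zero_add _
  refine lt_of_le_of_lt h1 ?_
  rw [bp_degree]
  exact_mod_cast k.isLt

lemma pv_zero {K : ℕ} (v : Fin K → ℝ) (h : pv v = 0) : v = 0 := by
  have h1 : ∀ n : ℕ, ∀ hn : n < K, v ⟨n, hn⟩ = 0 := by
    intro n
    induction n using Nat.strong_induction_on with
    | _ n ih =>
      intro hn
      have h2 := pv_eval v n
      rw [h, eval_zero] at h2
      rw [Finset.sum_eq_single (⟨n, hn⟩ : Fin K)] at h2
      · simpa using h2.symm
      · intro k _ hk
        rcases lt_trichotomy k.val n with h3 | h3 | h3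
        · have := ih k.val h3 k.isLt
          simp only [Fin.eta] at this
          rw [this, zero_mul]
        · exact absurd (Fin.ext h3) hk
        · rw [Nat.choose_eq_zero_of_lt h3]; simp
      · intro h3
        exact absurd (Finset.mem_univ _) h3
  funext k
  exact h1 k.val k.isLt

lemma card_roots_lt {P : ℝ[X]} (hP : P ≠ 0) {n : ℕ} (hn : P.natDegree < n) {κ : Type*}
    (Ω : Finset κ) (m : κ → ℕ) (hm : Set.InjOn m Ω) (hz : ∀ c ∈ Ω, P.eval (m c : ℝ) = 0) :
    Ω.card < n := by
  classical
  have h1 : (Ω.image (fun c => (m c : ℝ))).card = Ω.card := by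
    refine Finset.card_image_of_injOn ?_
    intro a ha b hb hab
    have hab' : (m a : ℝ) = m b := hab
    exact hm ha hb (by exact_mod_cast hab')
  have h2 : Ω.image (fun c => (m c : ℝ)) ⊆ P.roots.toFinset := by
    intro t ht
    obtain ⟨c, hc, rfl⟩ := Finset.mem_image.mp ht
    rw [Multiset.mem_toFinset, mem_roots hP]
    exact hz c hc
  have h3 := Finset.card_le_card h2
  have h4 := Multiset.toFinset_card_le P.roots
  have h5 := card_roots' P
  omega

theorem rows_indep {K : ℕ} (hK : 1 ≤ K) {κ : Type*} (Ω : Finset κ)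
    (m i : κ → ℕ) (hm : Set.InjOn m Ω) (T W : ℝ) (hT : T ≠ 0) (hW : W ≠ 0)
    (hα : T ^ 4 * W ^ 2 ≠ 1) (Ω' : Finset κ) (hΩ : Ω' ⊆ Ω)
    (hΩ' : ∀ c ∈ Ω', ∃ c' ∈ Ω, m c' = m c + 4 ∧ i c' = i c + 2)
    (hcount : 2 * K ≤ Ω'.card + 1) (v : Row K → ℝ)
    (hv : ∀ c ∈ Ω, ∑ r, v r * Ent T W m i r c = 0) : v = 0 := by
  set U := pv (fun k : Fin K => v (Sum.inl k)) with hU
  set V := pv (fun k : Fin K => v (Sum.inr k) * (T ^ (k : ℕ))⁻¹) with hV
  have hUd : U.degree < K := pv_degree _
  have hVd : V.degree < K := pv_degree _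
  have hrel : ∀ c ∈ Ω, U.eval (m c : ℝ) + V.eval (m c : ℝ) * (T ^ m c * W ^ i c) = 0 := by
    intro c hc
    have h1 := hv c hc
    rw [Fintype.sum_sum_type] at h1
    rw [hU, hV, pv_eval, pv_eval, ← h1, Finset.sum_mul]
    congr 1
    refine Finset.sum_congr rfl fun k _ => ?_
    simp only [Ent]
    rcases lt_or_ge (m c) k with h2 | h2
    · rw [Nat.choose_eq_zero_of_lt h2]; simp
    · have h3 : T ^ m c = T ^ (m c - (k : ℕ)) * T ^ (k : ℕ) := by
        rw [← pow_add]; congr 1; omega
      rw [h3]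
      have h4 : T ^ (k : ℕ) ≠ 0 := pow_ne_zero _ hT
      field_simp
  have hcard : Ω'.card ≤ Ω.card := Finset.card_le_card hΩ
  have hTW : ∀ c, T ^ m c * W ^ i c ≠ 0 := fun c => mul_ne_zero (pow_ne_zero _ hT) (pow_ne_zero _ hW)
  have hnat : ∀ P : ℝ[X], P ≠ 0 → P.degree < K → P.natDegree < K := by
    intro P hP hd
    exact (natDegree_lt_iff_degree_lt hP).mpr hd
  have hU0 : U = 0 → v = 0 := by
    intro h0
    have hV0 : V = 0 := by
      by_contra hne
      have h1 := card_roots_lt hne (hnat V hne hVd) Ω m hm (fun c hc => by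
        have h2 := hrel c hc
        rw [h0, eval_zero, zero_add] at h2
        exact (mul_eq_zero.mp h2).resolve_right (hTW c))
      omega
    have h1 := pv_zero _ h0
    have h2 := pv_zero _ hV0
    funext r
    rcases r with k | k
    · exact congrFun h1 k
    · have h3 := congrFun h2 k
      simp only [Pi.zero_apply, mul_eq_zero, inv_eq_zero] at h3
      exact h3.resolve_right (pow_ne_zero _ hT)
  have hV0 : V = 0 → v = 0 := by
    intro h0
    apply hU0
    by_contra hne
    have h1 := card_roots_lt hne (hnat U hne hUd) Ω m hm (fun c hc => by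
      have h2 := hrel c hc
      rw [h0, eval_zero, zero_mul, add_zero] at h2
      exact h2)
    omega
  by_contra hcon
  have hUne : U ≠ 0 := fun h0 => hcon (hU0 h0)
  have hVne : V ≠ 0 := fun h0 => hcon (hV0 h0)
  set α := T ^ 4 * W ^ 2 with hαdef
  set Q := taylor 4 U * V - C α * (U * taylor 4 V) with hQ
  have hQz : ∀ c ∈ Ω', Q.eval (m c : ℝ) = 0 := by
    intro c hc
    obtain ⟨c', hc', h1, h2⟩ := hΩ' c hc
    have h3 := hrel c (hΩ hc)
    have h4 := hrel c' hc'
    rw [h1, h2] at h4
    have h5 : T ^ (m c + 4) * W ^ (i c + 2) = (T ^ m c * W ^ i c) * α := by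
      rw [hαdef, pow_add, pow_add]; ring
    rw [h5] at h4
    have h6 : ((m c + 4 : ℕ) : ℝ) = (m c : ℝ) + 4 := by push_cast; ring
    rw [h6] at h4
    rw [hQ, eval_sub, eval_mul, eval_mul, eval_mul, eval_C, taylor_eval, taylor_eval]
    have h7 := hTW c
    set g := T ^ m c * W ^ i c
    have h8 : g * (eval ((m c : ℝ) + 4) U * eval (m c : ℝ) V -
        α * (eval (m c : ℝ) U * eval ((m c : ℝ) + 4) V)) = 0 := by
      linear_combination (-α * g * eval ((m c : ℝ) + 4) V) * h3 +
        (g * eval (m c : ℝ) V) * h4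
    exact (mul_eq_zero.mp h8).resolve_left h7
  have hcoef : Q.coeff (U.natDegree + V.natDegree) =
      (1 - α) * (U.leadingCoeff * V.leadingCoeff) := by
    rw [hQ, coeff_sub, coeff_C_mul]
    have e1 : (taylor 4 U * V).coeff (U.natDegree + V.natDegree) =
        U.leadingCoeff * V.leadingCoeff := by
      have := coeff_mul_degree_add_degree (taylor 4 U) V
      rw [natDegree_taylor, leadingCoeff_taylor] at this
      exact this
    have e2 : (U * taylor 4 V).coeff (U.natDegree + V.natDegree) =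
        U.leadingCoeff * V.leadingCoeff := by
      have := coeff_mul_degree_add_degree U (taylor 4 V)
      rw [natDegree_taylor, leadingCoeff_taylor] at this
      exact this
    rw [e1, e2]; ring
  have hQne : Q ≠ 0 := by
    intro h0
    rw [h0, coeff_zero] at hcoef
    have h1 : (1 - α) ≠ 0 := fun h2 => hα (by linarith)
    exact (mul_ne_zero h1 (mul_ne_zero (leadingCoeff_ne_zero.mpr hUne)
      (leadingCoeff_ne_zero.mpr hVne))) hcoef.symm
  have hQd : Q.natDegree < 2 * K - 1 := by
    have hu := hnat U hUne hUd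
    have hvv := hnat V hVne hVd
    have h1 : Q.natDegree ≤ U.natDegree + V.natDegree := by
      rw [hQ]
      refine (natDegree_sub_le _ _).trans (max_le ?_ ?_)
      · refine natDegree_mul_le.trans ?_
        rw [natDegree_taylor]
      · refine (natDegree_C_mul_le _ _).trans (natDegree_mul_le.trans ?_)
        rw [natDegree_taylor]
    omega
  have h1 := card_roots_lt hQne hQd Ω' m (hm.mono (by exact_mod_cast hΩ)) hQz
  omega

/-- A nonzero minor. -/
theorem exists_minor {ι κ : Type*} [Fintype ι] [DecidableEq ι] (Ω : Finset κ) (A : ι → κ → ℝ)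
    (h : ∀ v : ι → ℝ, (∀ c ∈ Ω, ∑ r, v r * A r c = 0) → v = 0) :
    ∃ col : ι → κ, (∀ r, col r ∈ Ω) ∧ Function.Injective col ∧
      (Matrix.of fun r c => A r (col c)).det ≠ 0 := by
  classical
  set w : Ω → (ι → ℝ) := fun c r => A r c.1 with hw
  have hspan : Submodule.span ℝ (Set.range w) = ⊤ := by
    by_contra hne
    obtain ⟨f, hf, hker⟩ := Submodule.exists_le_ker_of_lt_top _ (lt_top_iff_ne_top.mpr hne)
    apply hf
    have h1 : ∀ x : ι → ℝ, f x = ∑ r, f (Pi.single r 1) * x r := by
      intro x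
      conv_lhs => rw [pi_eq_sum_univ' x]
      rw [map_sum]
      refine Finset.sum_congr rfl fun r _ => ?_
      rw [map_smul, smul_eq_mul, mul_comm]
    have h2 := h (fun r => f (Pi.single r 1)) (fun c hc => by
      rw [← h1 (fun r => A r c)]
      have : w ⟨c, hc⟩ ∈ Submodule.span ℝ (Set.range w) :=
        Submodule.subset_span ⟨⟨c, hc⟩, rfl⟩
      exact hker this)
    ext x
    have h3 := congrFun h2 x
    simpa using h3
  obtain ⟨κ', a, ha, hsp, hli⟩ := exists_linearIndependent' ℝ w
  rw [hspan] at hsp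
  have hb := Module.Basis.mk hli (by rw [hsp])
  have hfin : Fintype κ' := FiniteDimensional.fintypeBasisIndex hb
  have hcard : Fintype.card κ' = Fintype.card ι := by
    rw [← Module.finrank_eq_card_basis hb, Module.finrank_fintype_fun_eq_card]
  obtain ⟨e⟩ : Nonempty (ι ≃ κ') := ⟨Fintype.equivOfCardEq hcard.symm⟩
  refine ⟨fun c => (a (e c)).1, fun r => (a (e r)).2, ?_, ?_⟩
  · intro c1 c2 h12
    exact e.injective (ha (Subtype.ext h12))
  · have h1 : LinearIndependent ℝ (fun c => w (a (e c))) := hli.comp e e.injective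
    have h2 : LinearIndependent ℝ (Matrix.of fun r c => A r (a (e c)).1).col := h1
    rw [Matrix.linearIndependent_cols_iff_isUnit, Matrix.isUnit_iff_isUnit_det] at h2
    exact h2.ne_zero

end Pool.Agent.W_MP_cac67d_h21
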