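import Mathlib
import Pool.Agent.W_MP_cac67d_h21.Cnt2
import Pool.Agent.W_MP_cac67d_h21.Arc
import Pool.Agent.W_MP_cac67d_h21.Zero

set_option autoImplicit false

/-!
# The columns of the determinant
-/

namespace Pool.Agent.W_MP_cac67d_h21

open Finset

/-- parity correction -/
def eo (z : Bool) (t : ℤ) : ℤ := if z then 0 else t % 2

lemma eo_bd (z : Bool) (t : ℤ) : 0 ≤ eo z t ∧ eo z t ≤ 1 := by
  unfold eo
  split_ifs
  · simp
  · omega

/-- the exponent of `θ` -/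
def kf (z : Bool) (c : Σ _ : ℤ, ℤ) : ℤ := 2 * c.1 + eo z c.2

lemma m_inj {b : ℕ} (z : Bool) {c c' : Σ _ : ℤ, ℤ} (h1 : |c.1| + 1 ≤ b) (h2 : |c'.1| + 1 ≤ b)
    (h : 2 * kf z c + (2 * (b : ℤ) + 1) * c.2 = 2 * kf z c' + (2 * (b : ℤ) + 1) * c'.2) :
    c = c' := by
  obtain ⟨κ, t⟩ := c
  obtain ⟨κ', t'⟩ := c'
  simp only at h h1 h2
  obtain ⟨j, hj⟩ : ∃ j, t' - t = 2 * j := by
    refine ⟨kf z ⟨κ, t⟩ - kf z ⟨κ', t'⟩ - b * (t' - t), ?_⟩
    linarith
  have h3 : kf z ⟨κ, t⟩ - kf z ⟨κ', t'⟩ = (2 * (b : ℤ) + 1) * j := by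
    have : (2 * (b : ℤ) + 1) * (t' - t) = 2 * (kf z ⟨κ, t⟩ - kf z ⟨κ', t'⟩) := by linarith
    rw [hj] at this
    linarith
  have h4 : eo z t = eo z t' := by
    unfold eo
    split_ifs
    · rfl
    · omega
  have h5 : 2 * (κ - κ') = (2 * (b : ℤ) + 1) * j := by
    rw [← h3]
    unfold kf
    simp only
    rw [h4]
    ring
  obtain ⟨l, hl⟩ : ∃ l, j = 2 * l := ⟨κ - κ' - b * j, by linarith⟩
  have h6 : κ - κ' = (2 * (b : ℤ) + 1) * l := by
    rw [hl] at h5
    linarith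
  have h7 := abs_le.mp (show |κ| ≤ (b : ℤ) - 1 by linarith)
  have h8 := abs_le.mp (show |κ'| ≤ (b : ℤ) - 1 by linarith)
  have hb0 : (0 : ℤ) ≤ b := Int.natCast_nonneg b
  have hl0 : l = 0 := by
    by_contra hne
    rcases lt_or_gt_of_ne hne with h9 | h9
    · have : l ≤ -1 := by omega
      nlinarith
    · have : 1 ≤ l := by omega
      nlinarith
  subst hl0
  have e1 : κ = κ' := by linarith
  have e2 : t = t' := by linarith
  rw [e1, e2]

/-- bounds for the exponents -/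
lemma exp_bd {a b σ : ℕ} (z : Bool) (hb : 180 ≤ b) (hab : b + 1 ≤ a) (hσ : σ = b ∨ σ = b + 1)
    {c : Σ _ : ℤ, ℤ} (hc : c ∈ Om a b σ) :
    |kf z c| ≤ 2 * b ∧ |kf z c + σ * c.2| ≤ 3 * a ∧ |2 * kf z c + (2 * (b : ℤ) + 1) * c.2| ≤ 8 * a := by
  obtain ⟨h1, h2⟩ := Om_bd (by omega) hab (by omega) (by omega) c hc
  have he := eo_bd z c.2
  have hk : |kf z c| ≤ 2 * b := by
    unfold kf
    rw [abs_le]
    have := abs_le.mp (show |c.1| ≤ (b : ℤ) - 1 by linarith)
    constructor <;> linarith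
  have hi : |kf z c + σ * c.2| ≤ 3 * a := by
    unfold kf
    have h4 : |2 * c.1 + eo z c.2 + σ * c.2| ≤ |2 * c.1 + σ * c.2| + 1 := by
      have := abs_add_le (2 * c.1 + σ * c.2) (eo z c.2)
      have h3 : |eo z c.2| ≤ 1 := by rw [abs_le]; constructor <;> linarith
      rw [show 2 * c.1 + eo z c.2 + σ * c.2 = 2 * c.1 + σ * c.2 + eo z c.2 by ring]
      linarith
    have h5 : (180 : ℤ) + 1 ≤ a := by omega
    linarith
  refine ⟨hk, hi, ?_⟩
  have ht : |c.2| ≤ a := by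
    have h3 : (σ : ℤ) * |c.2| ≤ 3 * a + 2 * b := by
      have e : (σ : ℤ) * |c.2| = |(σ : ℤ) * c.2| := by
        rw [abs_mul, abs_of_nonneg (Int.natCast_nonneg σ)]
      rw [e]
      have e2 : (σ : ℤ) * c.2 = (kf z c + σ * c.2) - kf z c := by ring
      rw [e2]
      exact (abs_sub _ _).trans (add_le_add hi hk)
    have h4 : (180 : ℤ) * |c.2| ≤ σ * |c.2| :=
      mul_le_mul_of_nonneg_right (by omega) (abs_nonneg _)
    have h5 : (b : ℤ) + 1 ≤ a := by exact_mod_cast hab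
    have h6 : (0 : ℤ) ≤ a := Int.natCast_nonneg a
    linarith
  have hi' := abs_le.mp hi
  have ht' := abs_le.mp ht
  have ha0 : (0 : ℤ) ≤ a := Int.natCast_nonneg a
  rcases hσ with rfl | rfl
  · have e : 2 * kf z c + (2 * (σ : ℤ) + 1) * c.2 = 2 * (kf z c + σ * c.2) + c.2 := by ring
    rw [e, abs_le]
    constructor <;> linarith
  · have e : 2 * kf z c + (2 * (b : ℤ) + 1) * c.2 = 2 * (kf z c + ((b + 1 : ℕ) : ℤ) * c.2) - c.2 := by
      push_cast; ring
    rw [e, abs_le]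
    constructor <;> linarith

/-- the sign is constant on the columns -/
lemma sign_const {a b σ : ℕ} {ε : ℤ} (hε : ε * ε = 1) (c : Σ _ : ℤ, ℤ) (m i : ℕ)
    (hm : (m : ℤ) = 2 * kf (decide (Even σ ↔ ε = 1)) c + (2 * (b : ℤ) + 1) * c.2 + 8 * a)
    (hi : (i : ℤ) = kf (decide (Even σ ↔ ε = 1)) c + σ * c.2 + 4 * a) :
    ε ^ m * (-1) ^ i = 1 := by
  have hε' : ε = 1 ∨ ε = -1 := by
    have : (ε - 1) * (ε + 1) = 0 := by linarith
    rcases mul_eq_zero.mp this with h | h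
    · left; linarith
    · right; linarith
  unfold kf eo at hm hi
  obtain ⟨κ, t⟩ := c
  simp only at hm hi
  have hbt : (2 * (b : ℤ) + 1) * t = 2 * (b * t) + t := by ring
  rw [hbt] at hm
  set v : ℤ := b * t with hv
  rcases Nat.even_or_odd σ with hσ | hσ
  · obtain ⟨τ, hτ⟩ := hσ
    have hσt : (σ : ℤ) * t = 2 * (τ * t) := by rw [hτ]; push_cast; ring
    rw [hσt] at hi
    set w : ℤ := τ * t with hw
    have hev : Even σ := ⟨τ, hτ⟩
    rcases hε' with h1 | h1
    · subst h1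
      simp only [hev, decide_true, ite_true] at hm hi
      have : Even i := by
        rw [Nat.even_iff]; omega
      rw [one_pow, one_mul, this.neg_one_pow]
    · subst h1
      have hz : decide (Even σ ↔ (-1 : ℤ) = 1) = false := by
        simp [hev]
      rw [hz] at hm hi
      simp only [Bool.false_eq_true, ite_false] at hm hi
      have : Even (m + i) := by
        rw [Nat.even_iff]; omega
      rw [← pow_add, this.neg_one_pow]
  · obtain ⟨τ, hτ⟩ := hσ
    have hσt : (σ : ℤ) * t = 2 * (τ * t) + t := by rw [hτ]; push_cast; ring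
    rw [hσt] at hi
    set w : ℤ := τ * t with hw
    have hev : ¬ Even σ := by
      rw [Nat.not_even_iff_odd]; exact ⟨τ, hτ⟩
    rcases hε' with h1 | h1
    · subst h1
      have hz : decide (Even σ ↔ (1 : ℤ) = 1) = false := by
        simp [hev]
      rw [hz] at hm hi
      simp only [Bool.false_eq_true, ite_false] at hm hi
      have : Even i := by
        rw [Nat.even_iff]; omega
      rw [one_pow, one_mul, this.neg_one_pow]
    · subst h1
      have hz : decide (Even σ ↔ (-1 : ℤ) = 1) = true := by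
        simp [hev]
      rw [hz] at hm hi
      simp only [ite_true] at hm hi
      have : Even (m + i) := by
        rw [Nat.even_iff]; omega
      rw [← pow_add, this.neg_one_pow]

lemma pow_aux (a : ℕ) (ha : 30 ≤ a) : (16 * a + 1) * (8 * a + 1) * (6 * a) ≤ 2 ^ a := by
  induction a, ha using Nat.le_induction with
  | base => norm_num
  | succ a ha ih =>
    rw [pow_succ]
    nlinarith [Nat.mul_le_mul ha ha, Nat.mul_le_mul (Nat.mul_le_mul ha ha) ha]

lemma Ec_le {a K : ℕ} (ha : 30 ≤ a) (hK : K ≤ 3 * a) :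
    Ec K (16 * a) (8 * a) ≤ 2 ^ (246 * a ^ 2) := by
  unfold Ec
  have h1 : (2 * K).factorial ≤ (6 * a) ^ (2 * K) := by
    calc (2 * K).factorial ≤ (2 * K) ^ (2 * K) := by
          rw [← Nat.descFactorial_self]
          exact Nat.descFactorial_le_pow _ _
      _ ≤ _ := Nat.pow_le_pow_left (by omega) _
  have h2 : ((16 * a + 1) * (8 * a + 1)) ^ (2 * K) * (2 * K).factorial ≤ 2 ^ (a * (2 * K)) := by
    calc ((16 * a + 1) * (8 * a + 1)) ^ (2 * K) * (2 * K).factorial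
        ≤ ((16 * a + 1) * (8 * a + 1)) ^ (2 * K) * (6 * a) ^ (2 * K) := Nat.mul_le_mul_left _ h1
      _ = ((16 * a + 1) * (8 * a + 1) * (6 * a)) ^ (2 * K) := (mul_pow _ _ _).symm
      _ ≤ (2 ^ a) ^ (2 * K) := Nat.pow_le_pow_left (pow_aux a ha) _
      _ = _ := (pow_mul _ _ _).symm
  calc ((16 * a + 1) * (8 * a + 1)) ^ (2 * K) * (2 * K).factorial * 2 ^ ((2 * (16 * a) + 8 * a) * (2 * K))
      ≤ 2 ^ (a * (2 * K)) * 2 ^ ((2 * (16 * a) + 8 * a) * (2 * K)) := Nat.mul_le_mul_right _ h2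
    _ = 2 ^ (41 * a * (2 * K)) := by rw [← pow_add]; congr 1; ring
    _ ≤ _ := by
      refine Nat.pow_le_pow_right (by norm_num) ?_
      nlinarith

end Pool.Agent.W_MP_cac67d_h21
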