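import Mathlib
import Pool.Agent.W_MP_cac67d_h21.Cnt3

set_option autoImplicit false

/-!
# The bound for the smaller base when the exponents are large
-/

namespace Pool.Agent.W_MP_cac67d_h21

open Finset

lemma sum_row {K : ℕ} {κ : Type*} [DecidableEq κ] (Ω : Finset κ) (col : Row K → κ)
    (hcol : ∀ r, col r ∈ Ω) (hinj : Function.Injective col) (F : κ → ℤ) (B : ℤ)
    (hF : ∀ c, F c ≤ B) :
    ∑ c ∈ Ω, F c ≤ ∑ r, F (col r) + ((Ω.card : ℤ) - 2 * K) * B := by
  set Im : Finset κ := Finset.univ.image col with hIm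
  have hsub : Im ⊆ Ω := by
    intro c hc
    rw [hIm, mem_image] at hc
    obtain ⟨r, _, rfl⟩ := hc
    exact hcol r
  have h1 : ∑ c ∈ Im, F c = ∑ r, F (col r) := by
    rw [hIm, sum_image]
    intro r _ r' _ h
    exact hinj h
  have h2 : Im.card = 2 * K := by
    rw [hIm, card_image_of_injective _ hinj, card_univ]
    simp [Row, two_mul]
  have h3 : ∑ c ∈ Ω \ Im, F c ≤ ((Ω \ Im).card : ℤ) * B := by
    refine (sum_le_sum fun c _ => hF c).trans (le_of_eq ?_)
    rw [sum_const, nsmul_eq_mul]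
  have h4 : ((Ω \ Im).card : ℤ) = (Ω.card : ℤ) - 2 * K := by
    have := card_sdiff_add_card_eq_card hsub
    omega
  rw [← sum_sdiff hsub, h1]
  rw [h4] at h3
  linarith

/-- the analytic part of the conclusion -/
lemma log_ineq {p y x1 Ecv Wdv Kq Kp b a : ℕ} (hp : 2 ≤ p) (hy : 1 ≤ y) (hx1 : 1 ≤ x1) (hx1p : x1 ≤ p)
    (hE : 1 ≤ Ecv) (hyb : y ^ (2 * b) ≤ 2 * p ^ (2 * a))
    (h : (p : ℝ) ^ Wdv ≤ ((y : ℝ) ^ Kq * (x1 : ℝ) ^ Kp) *
      ((Ecv : ℝ) * (2 / √(p : ℝ)) ^ Wdv) ^ 2) :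
    (2 * (b : ℝ) * Wdv - (a * Kq + b * Kp)) * Real.log p ≤
      Kq * Real.log 2 / 2 + 2 * b * Real.log Ecv + 2 * b * Wdv * Real.log 2 := by
  have hp0 : (0 : ℝ) < p := by
    have : 0 < p := by omega
    exact_mod_cast this
  have hy0 : (0 : ℝ) < y := by exact_mod_cast hy
  have hx0 : (0 : ℝ) < x1 := by exact_mod_cast hx1
  have hE0 : (0 : ℝ) < Ecv := by exact_mod_cast hE
  have hs0 : (0 : ℝ) < √(p : ℝ) := Real.sqrt_pos.mpr hp0
  have h1 := Real.log_le_log (by positivity) h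
  rw [Real.log_mul (by positivity) (by positivity), Real.log_mul (by positivity) (by positivity),
    Real.log_pow, Real.log_pow, Real.log_pow, Real.log_pow, Real.log_mul (by positivity) (by positivity),
    Real.log_pow, Real.log_div (by norm_num) (by positivity), Real.log_sqrt hp0.le] at h1
  have h2 : 2 * (b : ℝ) * Real.log y ≤ Real.log 2 + 2 * a * Real.log p := by
    have h3 : ((y : ℝ)) ^ (2 * b) ≤ 2 * (p : ℝ) ^ (2 * a) := by exact_mod_cast hyb
    have h4 := Real.log_le_log (by positivity) h3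
    rw [Real.log_mul (by positivity) (by positivity), Real.log_pow, Real.log_pow] at h4
    push_cast at h4
    exact h4
  have h3 : Real.log x1 ≤ Real.log p := Real.log_le_log hx0 (by exact_mod_cast hx1p)
  have h4 : (0 : ℝ) ≤ Kq := Nat.cast_nonneg _
  have h5 : (0 : ℝ) ≤ Kp := Nat.cast_nonneg _
  have h6 : (0 : ℝ) ≤ b := Nat.cast_nonneg _
  set L := Real.log p
  set Ly := Real.log y
  set Lx := Real.log x1
  set l2 := Real.log 2
  set le := Real.log (Ecv : ℝ)
  push_cast at h1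
  have h7 : (Kq : ℝ) * (2 * b * Ly) ≤ Kq * (l2 + 2 * a * L) := mul_le_mul_of_nonneg_left h2 h4
  have h8 : (2 * b : ℝ) * (Kp * Lx) ≤ (2 * b) * (Kp * L) :=
    mul_le_mul_of_nonneg_left (mul_le_mul_of_nonneg_left h3 h5) (by positivity)
  have h9 : (2 * b : ℝ) * (Wdv * L) ≤ (2 * b) * (Kq * Ly + Kp * Lx + 2 * (le + Wdv * (l2 - L / 2))) :=
    mul_le_mul_of_nonneg_left h1 (by positivity)
  linarith

section

variable {x y a b : ℕ}

lemma Sol.yb (h : Sol x y a b) : y ^ (2 * b) ≤ 2 * x ^ (2 * a) := by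
  have hE := h.hE
  have hx2 : (2 : ℤ) ≤ x := h.x2
  have hxy : (x : ℤ) + 1 ≤ y := by exact_mod_cast h.hxy
  have e1 : ((x : ℤ) ^ a) ^ 2 = (x : ℤ) ^ (2 * a) := by rw [← pow_mul, mul_comm]
  have e2 : ((y : ℤ) ^ b) ^ 2 = (y : ℤ) ^ (2 * b) := by rw [← pow_mul, mul_comm]
  rw [e1, e2] at hE
  have h1 : (y : ℤ) ^ (2 * b) ≤ 2 * (x : ℤ) ^ (2 * a) := by
    set X : ℤ := (x : ℤ) ^ (2 * a)
    set Y : ℤ := (y : ℤ) ^ (2 * b)
    have hX0 : 0 < X := by positivity
    have hY0 : 0 < Y := by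
      have : (0 : ℤ) < y := by linarith
      positivity
    by_contra hcon
    push Not at hcon
    have h2 : (y : ℤ) * (x - 1) * (2 * X) < y * (x - 1) * Y :=
      mul_lt_mul_of_pos_left hcon (mul_pos (by linarith) (by linarith))
    have h3 : 0 ≤ X * (x * y - 2 * y) := mul_nonneg hX0.le (by nlinarith)
    nlinarith
  exact_mod_cast h1

theorem Sol.big (h : Sol x y a b) (hx9 : 9 ≤ x) (hab : b + 1 ≤ a) (hb : 180 ≤ b) :
    x ≤ 2 ^ 90900 := by
  classical
  obtain ⟨σ, hσ, hp1, hp2⟩ := h.psi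
  have hint := h.int hp1 hp2
  obtain ⟨ε, hε, hεd⟩ := h.eps
  obtain ⟨hA1, hA2, hA3, hA4, hA5, hA6, hA7⟩ := h.arch hx9
  set z : Bool := decide (Even σ ↔ ε = 1) with hz
  set Ω := Om a b σ with hΩ
  set Ω' := Om' a b σ with hΩ'
  have hσ1 : b ≤ σ := by omega
  have hσ2 : σ ≤ b + 1 := by omega
  set m : (Σ _ : ℤ, ℤ) → ℕ := fun c => (2 * kf z c + (2 * (b : ℤ) + 1) * c.2 + 8 * a).toNat with hm
  set i : (Σ _ : ℤ, ℤ) → ℕ := fun c => (kf z c + σ * c.2 + 4 * a).toNat with hi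
  have hmc : ∀ c ∈ Ω, (m c : ℤ) = 2 * kf z c + (2 * (b : ℤ) + 1) * c.2 + 8 * a := by
    intro c hc
    obtain ⟨_, _, h3⟩ := exp_bd z hb hab hσ hc
    have := abs_le.mp h3
    rw [hm]
    exact Int.toNat_of_nonneg (by linarith)
  have hic : ∀ c ∈ Ω, (i c : ℤ) = kf z c + σ * c.2 + 4 * a := by
    intro c hc
    obtain ⟨_, h3, _⟩ := exp_bd z hb hab hσ hc
    have := abs_le.mp h3
    rw [hi]
    exact Int.toNat_of_nonneg (by linarith)
  have hmM : ∀ c ∈ Ω, m c ≤ 16 * a := by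
    intro c hc
    obtain ⟨_, _, h3⟩ := exp_bd z hb hab hσ hc
    have h4 := abs_le.mp h3
    have h5 := hmc c hc
    have h6 := h4.2
    omega
  have hiI : ∀ c ∈ Ω, i c ≤ 8 * a := by
    intro c hc
    obtain ⟨_, h3, _⟩ := exp_bd z hb hab hσ hc
    have h4 := abs_le.mp h3
    have h5 := hic c hc
    have h6 := h4.2
    omega
  -- the number of rows
  have hcard := Om_card_le (a := a) (b := b) (σ := σ) (by omega) hσ1
  have hloss := Om_loss (a := a) (b := b) (σ := σ) (by omega) hσ1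
  have hsum := Om_sum (a := a) (b := b) (σ := σ) (by omega) hab hσ1 hσ2 (eo z) (eo_bd z)
  rw [← hΩ] at hcard hloss hsum
  rw [← hΩ'] at hloss
  have hcard' : Ω'.card ≤ Ω.card := card_le_card (Om'_sub a b σ)
  set K : ℕ := (Ω'.card + 1) / 2 with hK
  have hb' : (180 : ℝ) ≤ b := by exact_mod_cast hb
  have hab' : (b : ℝ) + 1 ≤ a := by exact_mod_cast hab
  have hF : ∀ c : Σ _ : ℤ, ℤ, 2 * (a : ℤ) * b - ww a b σ (eo z) c.1 c.2 ≤ 2 * a * b := by
    intro c
    have : 0 ≤ ww a b σ (eo z) c.1 c.2 := by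
      unfold ww
      positivity
    linarith
  have hΩ'1 : 1 ≤ Ω'.card := by
    by_contra hcon
    have h0 : Ω'.card = 0 := by omega
    rw [h0] at hloss
    push_cast at hloss
    have h1 : ((∑ c ∈ Ω, (2 * (a : ℤ) * b - ww a b σ (eo z) c.1 c.2) : ℤ) : ℝ) ≤
        (Ω.card : ℝ) * (2 * a * b) := by
      have h2 : ∑ c ∈ Ω, (2 * (a : ℤ) * b - ww a b σ (eo z) c.1 c.2) ≤ (Ω.card : ℤ) * (2 * a * b) := by
        refine (sum_le_sum fun c _ => hF c).trans (le_of_eq ?_)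
        rw [sum_const, nsmul_eq_mul]
      exact_mod_cast h2
    have h2 : (Ω.card : ℝ) * (2 * a * b) ≤ 2 * a * (4 * a + 4 * b) := by
      have : (2 * (a : ℝ)) * ((b : ℝ) * ((Ω.card : ℝ) - 0)) ≤ (2 * a) * (4 * a + 4 * b) :=
        mul_le_mul_of_nonneg_left hloss (by positivity)
      linarith
    have h3 := (hsum.trans h1).trans h2
    have h4 : (a : ℝ) * b ≤ a * a := mul_le_mul_of_nonneg_left (by linarith) (by linarith)
    have h5 : (0 : ℝ) < (a : ℝ) ^ 2 := by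
      have : (0 : ℝ) < a := by linarith
      positivity
    nlinarith
  have hK1 : 1 ≤ K := by omega
  have hK2 : 2 * K ≤ Ω'.card + 1 := by omega
  have hK3 : Ω'.card ≤ 2 * K := by omega
  have hK4 : K ≤ 3 * a := by omega
  -- the minor
  obtain ⟨col, hcol, hinj, hdet⟩ := exists_minor Ω
    (Ent (h.T : ℝ × ℝ).1 (h.W : ℝ × ℝ).1 (K := K) m i)
    (fun v hv => rows_indep hK1 Ω m i (by
      intro c hc c' hc' hcc
      have hc1 : c ∈ Ω := hc
      have hc2 : c' ∈ Ω := hc'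
      have e1 := hmc c hc1
      have e2 := hmc c' hc2
      have hcc' : m c = m c' := hcc
      rw [hcc'] at e1
      have b1 := (Om_bd (by omega) hab hσ1 hσ2 c hc1).1
      have b2 := (Om_bd (by omega) hab hσ1 hσ2 c' hc2).1
      exact m_inj (b := b) z b1 b2 (by linarith))
      _ _ hA5 hA6 hA7 Ω' (Om'_sub a b σ) (by
      intro c hc
      have hc1 := Om'_partner a b σ c hc
      refine ⟨⟨c.1 + 1, c.2⟩, hc1, ?_, ?_⟩
      · have e1 := hmc c (Om'_sub a b σ hc)
        have e2 := hmc ⟨c.1 + 1, c.2⟩ hc1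
        have e3 : kf z (⟨c.1 + 1, c.2⟩ : Σ _ : ℤ, ℤ) = kf z c + 2 := by
          unfold kf; simp only; ring
        rw [e3] at e2
        simp only at e2
        have : ((m (⟨c.1 + 1, c.2⟩ : Σ _ : ℤ, ℤ) : ℕ) : ℤ) = ((m c + 4 : ℕ) : ℤ) := by
          push_cast; linarith
        exact_mod_cast this
      · have e1 := hic c (Om'_sub a b σ hc)
        have e2 := hic ⟨c.1 + 1, c.2⟩ hc1
        have e3 : kf z (⟨c.1 + 1, c.2⟩ : Σ _ : ℤ, ℤ) = kf z c + 2 := by
          unfold kf; simp only; ring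
        rw [e3] at e2
        simp only at e2
        have : ((i (⟨c.1 + 1, c.2⟩ : Σ _ : ℤ, ℤ) : ℕ) : ℤ) = ((i c + 2 : ℕ) : ℤ) := by
          push_cast; linarith
        exact_mod_cast this) (by omega) v hv)
  -- the main inequality
  have hx0 : (0 : ℝ) < x := by
    have := h.hx.pos
    exact_mod_cast this
  have hx9' : (9 : ℝ) ≤ x := by exact_mod_cast hx9
  have hsx : 3 ≤ √(x : ℝ) := by
    rw [show (3 : ℝ) = √9 by
      rw [show (9 : ℝ) = 3 ^ 2 by norm_num, Real.sqrt_sq (by norm_num)]]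
    exact Real.sqrt_le_sqrt hx9'
  have hmain := det_main (D := DD x y) (p := x) (x1 := x - 1) (y := y) h.hx h.xD h.nsq
    (by have := h.hx.two_le; omega) h.hy.pos ((2 * b + 1 : ℕ) : ℤ) σ h.T h.W h.swT h.swW hint
    (ρ := a) (K := K) (M := 16 * a) (I := 8 * a) (fun r => kf z (col r)) (fun r => (col r).2)
    (fun r => m (col r)) (fun r => i (col r)) (8 * a) (4 * a)
    (fun r => by
      have := hmc (col r) (hcol r)
      push_cast
      linarith)
    (fun r => hic (col r) (hcol r))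
    (fun r => hmM _ (hcol r)) (fun r => hiI _ (hcol r)) (by omega) (by omega) ε hε
    (h.JT hεd) h.JW 1
    (fun r => sign_const (a := a) (b := b) (σ := σ) hε (col r) _ _ (hmc _ (hcol r)) (hic _ (hcol r)))
    (ξ := 2 / √(x : ℝ)) (by positivity) (by
      rw [div_le_one (by positivity)]; linarith)
    hA1 hA2 hA3 hA4 (by
      intro h0
      apply hdet
      rw [← h0]
      congr 1
      ext r c
      rcases r with k | k <;> rfl)
  set Kq : ℕ := ∑ r : Row K, (kf z (col r)).natAbs with hKq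
  set Kp : ℕ := ∑ r : Row K, (kf z (col r) + (σ : ℤ) * (col r).2).natAbs with hKp
  have hx2 := h.hx.two_le
  have hEc1 : 1 ≤ Ec K (16 * a) (8 * a) := by
    unfold Ec
    exact Nat.succ_le_of_lt (by positivity)
  have hlog := log_ineq (p := x) (y := y) (x1 := x - 1) (a := a) (b := b) hx2 h.hy.one_le
    (by omega) (by omega) hEc1 h.yb hmain
  -- the exponent
  have hrow := sum_row (K := K) Ω col hcol hinj
    (fun c => 2 * (a : ℤ) * b - ww a b σ (eo z) c.1 c.2) (2 * a * b) hF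
  have hww : ∑ r : Row K, (2 * (a : ℤ) * b - ww a b σ (eo z) (col r).1 (col r).2) =
      2 * K * (2 * a * b) - (a * Kq + b * Kp) := by
    rw [sum_sub_distrib, sum_const, card_univ]
    have e1 : Fintype.card (Row K) = 2 * K := by simp [Row, two_mul]
    rw [e1, nsmul_eq_mul, hKq, hKp]
    push_cast
    have e2 : ∑ r : Row K, ww a b σ (eo z) (col r).1 (col r).2 =
        a * ∑ r : Row K, |kf z (col r)| + b * ∑ r : Row K, |kf z (col r) + (σ : ℤ) * (col r).2| := by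
      rw [mul_sum, mul_sum, ← sum_add_distrib]
      rfl
    rw [e2]
  have hKqle : Kq ≤ 12 * a * b := by
    have h1 : Kq ≤ ∑ r : Row K, 2 * b := by
      rw [hKq]
      refine sum_le_sum fun r _ => ?_
      have := (exp_bd z hb hab hσ (hcol r)).1
      rw [Int.abs_eq_natAbs] at this
      exact_mod_cast this
    rw [sum_const, card_univ] at h1
    have e1 : Fintype.card (Row K) = 2 * K := by simp [Row, two_mul]
    rw [e1, smul_eq_mul] at h1
    nlinarith
  have hrow' : ((∑ c ∈ Ω, (2 * (a : ℤ) * b - ww a b σ (eo z) c.1 c.2) : ℤ) : ℝ) ≤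
      2 * K * (2 * a * b) - (a * Kq + b * Kp) + ((Ω.card : ℝ) - 2 * K) * (2 * a * b) := by
    have h1 : ∑ c ∈ Ω, (2 * (a : ℤ) * b - ww a b σ (eo z) c.1 c.2) ≤
        2 * K * (2 * a * b) - (a * Kq + b * Kp) + ((Ω.card : ℤ) - 2 * K) * (2 * a * b) := by
      rw [← hww]; exact hrow
    exact_mod_cast h1
  have hWd1 : (2 * (a : ℝ) + 1) * K - a * (a + 1) ≤ (Wd a K : ℝ) := by
    have h1 : (2 * a + 1) * K ≤ Wd a K + a * (a + 1) := by unfold Wd; omega
    have h2 : ((2 * a + 1 : ℝ)) * K ≤ (Wd a K : ℝ) + a * (a + 1) := by exact_mod_cast h1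
    linarith
  have hWd2 : (Wd a K : ℝ) ≤ (2 * (a : ℝ) + 1) * (3 * a) := by
    have h1 : Wd a K ≤ (2 * a + 1) * (3 * a) := by
      unfold Wd
      exact (Nat.sub_le _ _).trans (Nat.mul_le_mul_left _ hK4)
    exact_mod_cast h1
  have ha0 : (0 : ℝ) < a := by linarith
  have hb0 : (0 : ℝ) < b := by linarith
  have hK3' : (Ω'.card : ℝ) ≤ 2 * K := by exact_mod_cast hK3
  have hE : (a : ℝ) ^ 2 * b / 180 ≤ 2 * (b : ℝ) * Wd a K - (a * Kq + b * Kp) := by
    have h1 : 2 * (b : ℝ) * ((2 * (a : ℝ) + 1) * K - a * (a + 1)) ≤ 2 * b * Wd a K :=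
      mul_le_mul_of_nonneg_left hWd1 (by positivity)
    have h2 : (2 * (a : ℝ)) * ((b : ℝ) * ((Ω.card : ℝ) - 2 * K)) ≤ (2 * a) * (4 * a + 4 * b) := by
      refine mul_le_mul_of_nonneg_left ?_ (by positivity)
      refine le_trans ?_ hloss
      exact mul_le_mul_of_nonneg_left (by linarith) (by positivity)
    have h3 : (a : ℝ) * b ≤ a ^ 2 := by nlinarith
    have h4 : (0 : ℝ) ≤ (a : ℝ) ^ 2 * (b - 180) := mul_nonneg (by positivity) (by linarith)
    have h5 : (0 : ℝ) ≤ b * K := by positivity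
    nlinarith
  -- the logarithm of the size
  have hle : Real.log (Ec K (16 * a) (8 * a) : ℝ) ≤ 246 * a ^ 2 * Real.log 2 := by
    have h1 := Ec_le (a := a) (K := K) (by omega) hK4
    have h2 : (Ec K (16 * a) (8 * a) : ℝ) ≤ 2 ^ (246 * a ^ 2) := by exact_mod_cast h1
    have h3 := Real.log_le_log (by exact_mod_cast hEc1) h2
    rw [Real.log_pow] at h3
    push_cast at h3
    exact h3
  have hl2 : 0 < Real.log 2 := Real.log_pos (by norm_num)
  have hLpos : 0 ≤ Real.log x := Real.log_nonneg (by linarith)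
  have hKqle' : (Kq : ℝ) ≤ 12 * a * b := by exact_mod_cast hKqle
  have hfin : (a : ℝ) ^ 2 * b / 180 * Real.log x ≤ 505 * (a ^ 2 * b) * Real.log 2 := by
    have h1 : (a : ℝ) ^ 2 * b / 180 * Real.log x ≤ _ :=
      (mul_le_mul_of_nonneg_right hE hLpos).trans hlog
    refine h1.trans ?_
    have h2 : (Kq : ℝ) * Real.log 2 / 2 ≤ 6 * a * b * Real.log 2 := by
      have := mul_le_mul_of_nonneg_right hKqle' hl2.le
      linarith
    have h3 : 2 * (b : ℝ) * Real.log (Ec K (16 * a) (8 * a) : ℝ) ≤ 2 * b * (246 * a ^ 2 * Real.log 2) :=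
      mul_le_mul_of_nonneg_left hle (by positivity)
    have h4 : 2 * (b : ℝ) * Wd a K * Real.log 2 ≤ 2 * b * ((2 * (a : ℝ) + 1) * (3 * a)) * Real.log 2 := by
      refine mul_le_mul_of_nonneg_right ?_ hl2.le
      exact mul_le_mul_of_nonneg_left hWd2 (by positivity)
    have h5 : (12 : ℝ) * (a * b) ≤ a * (a * b) :=
      mul_le_mul_of_nonneg_right (by linarith) (by positivity)
    have h6 : (12 : ℝ) * (a * b) * Real.log 2 ≤ a * (a * b) * Real.log 2 :=
      mul_le_mul_of_nonneg_right h5 hl2.le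
    linarith
  have hlast : Real.log x ≤ 90900 * Real.log 2 := by
    have hc : (0 : ℝ) < (a : ℝ) ^ 2 * b := by positivity
    have h1 : ((a : ℝ) ^ 2 * b) * Real.log x ≤ ((a : ℝ) ^ 2 * b) * (90900 * Real.log 2) := by
      linarith
    exact le_of_mul_le_mul_left h1 hc
  have h1 : Real.log x ≤ Real.log ((2 : ℝ) ^ 90900) := by
    rw [Real.log_pow]
    push_cast
    exact hlast
  have h2 : (x : ℝ) ≤ (2 : ℝ) ^ 90900 := (Real.log_le_log_iff hx0 (by positivity)).mp h1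
  exact_mod_cast h2

end

end Pool.Agent.W_MP_cac67d_h21
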