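import Mathlib

set_option autoImplicit false

/-!
# Integer polynomials as lists of coefficients (lowest degree first)
-/

namespace Pool.Agent.W_MP_cac67d_h21

/-- Value at `x`. -/
def ev : List ℤ → ℤ → ℤ
  | [], _ => 0
  | c :: l, x => c + x * ev l x

def addL : List ℤ → List ℤ → List ℤ
  | [], m => m
  | a :: l, [] => a :: l
  | a :: l, b :: m => (a + b) :: addL l m

def smulL (c : ℤ) : List ℤ → List ℤ
  | [] => []
  | a :: l => (c * a) :: smulL c l

def mulL : List ℤ → List ℤ → List ℤ
  | [], _ => []
  | a :: l, m => addL (smulL a m) (0 :: mulL l m)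

def powL (l : List ℤ) : ℕ → List ℤ
  | 0 => [1]
  | n + 1 => mulL l (powL l n)

def onesL : ℕ → List ℤ
  | 0 => []
  | n + 1 => 1 :: onesL n

lemma ev_add (l m : List ℤ) (x : ℤ) : ev (addL l m) x = ev l x + ev m x := by
  induction l generalizing m with
  | nil => simp [addL, ev]
  | cons a l ih =>
    cases m with
    | nil => simp [addL, ev]
    | cons b m =>
      simp only [addL, ev, ih]
      ring

lemma ev_smul (c : ℤ) (l : List ℤ) (x : ℤ) : ev (smulL c l) x = c * ev l x := by
  induction l with
  | nil => simp [smulL, ev]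
  | cons a l ih =>
    simp only [smulL, ev, ih]
    ring

lemma ev_mul (l m : List ℤ) (x : ℤ) : ev (mulL l m) x = ev l x * ev m x := by
  induction l with
  | nil => simp [mulL, ev]
  | cons a l ih =>
    simp only [mulL, ev, ev_add, ev_smul, ih]
    ring

lemma ev_pow (l : List ℤ) (n : ℕ) (x : ℤ) : ev (powL l n) x = ev l x ^ n := by
  induction n with
  | zero => simp [powL, ev]
  | succ n ih =>
    simp only [powL, ev_mul, ih]
    ring

lemma ev_ones (n : ℕ) (x : ℤ) : ev (onesL n) x = ∑ i ∈ Finset.range n, x ^ i := by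
  induction n with
  | zero => simp [onesL, ev]
  | succ n ih =>
    simp only [onesL, ev, ih]
    rw [Finset.sum_range_succ', Finset.mul_sum]
    simp only [pow_succ, pow_zero]
    rw [add_comm]
    congr 1
    refine Finset.sum_congr rfl fun i _ => by ring

/-- The sum of the absolute values of the coefficients. -/
def n1 : List ℤ → ℤ
  | [] => 0
  | c :: l => |c| + n1 l

lemma n1_nonneg (l : List ℤ) : 0 ≤ n1 l := by
  induction l with
  | nil => simp [n1]
  | cons a l ih => simp only [n1]; positivity

lemma n1_add (l m : List ℤ) : n1 (addL l m) ≤ n1 l + n1 m := by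
  induction l generalizing m with
  | nil => simp [addL, n1]
  | cons a l ih =>
    cases m with
    | nil => simp [addL, n1]
    | cons b m =>
      simp only [addL, n1]
      have := ih m
      have := abs_add_le a b
      linarith

lemma n1_smul (c : ℤ) (l : List ℤ) : n1 (smulL c l) = |c| * n1 l := by
  induction l with
  | nil => simp [smulL, n1]
  | cons a l ih =>
    simp only [smulL, n1, ih, abs_mul]
    ring

lemma n1_mul (l m : List ℤ) : n1 (mulL l m) ≤ n1 l * n1 m := by
  induction l with
  | nil => simp [mulL, n1]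
  | cons a l ih =>
    simp only [mulL]
    refine (n1_add _ _).trans ?_
    rw [n1_smul]
    simp only [n1, abs_zero, zero_add]
    linarith

lemma n1_pow (l : List ℤ) (n : ℕ) : n1 (powL l n) ≤ n1 l ^ n := by
  induction n with
  | zero => simp [powL, n1]
  | succ n ih =>
    simp only [powL]
    refine (n1_mul _ _).trans ?_
    rw [pow_succ, mul_comm (n1 l ^ n)]
    exact mul_le_mul_of_nonneg_left ih (n1_nonneg l)

lemma n1_ones (n : ℕ) : n1 (onesL n) = n := by
  induction n with
  | zero => simp [onesL, n1]
  | succ n ih =>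
    simp only [onesL, n1, ih, abs_one]
    push_cast
    ring

/-- Kronecker substitution: a polynomial with small coefficients that vanishes at one large
point vanishes. -/
lemma ev_zero_of (l : List ℤ) (B : ℤ) (hB : n1 l < B) (h : ev l B = 0) (x : ℤ) : ev l x = 0 := by
  induction l with
  | nil => simp [ev]
  | cons a l ih =>
    simp only [n1] at hB
    simp only [ev] at h ⊢
    have hl := n1_nonneg l
    have ha : |a| < B := by linarith
    have hBpos : 0 < B := lt_of_le_of_lt (abs_nonneg a) ha
    have hd : B ∣ a := ⟨-ev l B, by linarith⟩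
    have ha0 : a = 0 := Int.eq_zero_of_abs_lt_dvd hd ha
    subst ha0
    have h2 : ev l B = 0 := by
      have : B * ev l B = 0 := by linarith
      rcases mul_eq_zero.mp this with h3 | h3
      · linarith
      · exact h3
    rw [ih (by linarith [abs_nonneg (0 : ℤ)]) h2]
    ring

/-- The polynomial identity `g (Q ^ d) (1 + x + ... + x ^ (n-1)) = P ^ d + E`, tested at `B`. -/
def idchk (g : ℤ) (d n : ℕ) (Q P E : List ℤ) (B : ℤ) : Bool :=
  decide (g * ev Q B ^ d * ev (onesL n) B = ev P B ^ d + ev E B) &&
  decide (|g| * n1 Q ^ d * n + n1 P ^ d + n1 E < B)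

lemma idchk_sound {g : ℤ} {d n : ℕ} {Q P E : List ℤ} {B : ℤ} (h : idchk g d n Q P E B = true)
    (x : ℤ) : g * ev Q x ^ d * (∑ i ∈ Finset.range n, x ^ i) = ev P x ^ d + ev E x := by
  unfold idchk at h
  rw [Bool.and_eq_true, decide_eq_true_eq, decide_eq_true_eq] at h
  obtain ⟨h1, h2⟩ := h
  set Z := addL (smulL g (mulL (powL Q d) (onesL n))) (smulL (-1) (addL (powL P d) E)) with hZ
  have e : ∀ x, ev Z x = g * ev Q x ^ d * ev (onesL n) x - (ev P x ^ d + ev E x) := by
    intro x
    rw [hZ]
    simp only [ev_add, ev_smul, ev_mul, ev_pow]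
    ring
  have hn : n1 Z ≤ |g| * n1 Q ^ d * n + n1 P ^ d + n1 E := by
    rw [hZ]
    refine (n1_add _ _).trans ?_
    rw [n1_smul, n1_smul]
    have a1 : n1 (mulL (powL Q d) (onesL n)) ≤ n1 Q ^ d * n := by
      refine (n1_mul _ _).trans ?_
      rw [n1_ones]
      exact mul_le_mul_of_nonneg_right (n1_pow Q d) (by positivity)
    have a2 : n1 (addL (powL P d) E) ≤ n1 P ^ d + n1 E := by
      refine (n1_add _ _).trans ?_
      linarith [n1_pow P d]
    have a3 : |g| * n1 (mulL (powL Q d) (onesL n)) ≤ |g| * (n1 Q ^ d * n) :=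
      mul_le_mul_of_nonneg_left a1 (abs_nonneg g)
    have a4 : |(-1 : ℤ)| = 1 := by norm_num
    rw [a4]
    linarith
  have h3 := ev_zero_of Z B (lt_of_le_of_lt hn h2) (by rw [e]; linarith) x
  rw [e, ev_ones] at h3
  linarith

/-- All partial Horner values at `X` are nonnegative; returns also the value. -/
def suf (X : ℤ) : List ℤ → ℤ × Bool
  | [] => (0, true)
  | c :: l => (c + X * (suf X l).1, (suf X l).2 && decide (0 ≤ c + X * (suf X l).1))

lemma suf_sound {X : ℤ} (hX : 0 ≤ X) (l : List ℤ) (h : (suf X l).2 = true) {x : ℤ} (hx : X ≤ x) :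
    (suf X l).1 = ev l X ∧ 0 ≤ ev l X ∧ ev l X ≤ ev l x := by
  induction l with
  | nil => simp [suf, ev]
  | cons c l ih =>
    simp only [suf] at h ⊢
    rw [Bool.and_eq_true, decide_eq_true_eq] at h
    obtain ⟨h1, h2⟩ := h
    obtain ⟨e1, e2, e3⟩ := ih h1
    rw [e1] at h2 ⊢
    simp only [ev]
    refine ⟨trivial, h2, ?_⟩
    have : X * ev l X ≤ x * ev l x := mul_le_mul hx e3 e2 (hX.trans hx)
    linarith

/-- Last coefficient and the sum of the absolute values of the others. -/
def lastS : List ℤ → ℤ × ℤ
  | [] => (0, 0)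
  | [c] => (c, 0)
  | c :: d :: l => ((lastS (d :: l)).1, |c| + (lastS (d :: l)).2)

lemma lead_bound (l : List ℤ) {x : ℤ} (hx : 1 ≤ x) :
    |ev l x - (lastS l).1 * x ^ (l.length - 1)| * x ≤ (lastS l).2 * x ^ (l.length - 1) := by
  induction l with
  | nil => simp [ev, lastS]
  | cons c l ih =>
    cases l with
    | nil => simp [ev, lastS]
    | cons d l =>
      have e1 : (c :: d :: l).length - 1 = (d :: l).length - 1 + 1 := by simp
      have e2 : (lastS (c :: d :: l)).1 = (lastS (d :: l)).1 := rfl
      have e3 : (lastS (c :: d :: l)).2 = |c| + (lastS (d :: l)).2 := rfl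
      rw [e1, e2, e3]
      set n := (d :: l).length - 1
      have e4 : ev (c :: d :: l) x = c + x * ev (d :: l) x := rfl
      rw [e4]
      set v := ev (d :: l) x
      set L := (lastS (d :: l)).1
      set S := (lastS (d :: l)).2
      have h1 : |c + x * v - L * x ^ (n + 1)| ≤ |c| + x * |v - L * x ^ n| := by
        have : c + x * v - L * x ^ (n + 1) = c + x * (v - L * x ^ n) := by ring
        rw [this]
        refine (abs_add_le _ _).trans ?_
        rw [abs_mul, abs_of_nonneg (by linarith : (0 : ℤ) ≤ x)]
      have h2 : (1 : ℤ) ≤ x ^ n := one_le_pow₀ hx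
      have h3 : |c| * x ≤ |c| * x ^ (n + 1) := by
        rw [pow_succ]
        refine mul_le_mul_of_nonneg_left ?_ (abs_nonneg c)
        nlinarith
      have h4 : x * |v - L * x ^ n| * x ≤ x * (S * x ^ n) := by
        have := mul_le_mul_of_nonneg_left ih (by linarith : (0 : ℤ) ≤ x)
        calc x * |v - L * x ^ n| * x = x * (|v - L * x ^ n| * x) := by ring
          _ ≤ _ := this
      calc |c + x * v - L * x ^ (n + 1)| * x ≤ (|c| + x * |v - L * x ^ n|) * x :=
            mul_le_mul_of_nonneg_right h1 (by linarith)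
        _ = |c| * x + x * |v - L * x ^ n| * x := by ring
        _ ≤ |c| * x ^ (n + 1) + x * (S * x ^ n) := add_le_add h3 h4
        _ = (|c| + S) * x ^ (n + 1) := by ring

/-- All coefficients are nonnegative. -/
def nonnegL : List ℤ → Bool
  | [] => true
  | c :: l => decide (0 ≤ c) && nonnegL l

lemma nonneg_ev (l : List ℤ) (h : nonnegL l = true) {x : ℤ} (hx : 0 ≤ x) : 0 ≤ ev l x := by
  induction l with
  | nil => simp [ev]
  | cons c l ih =>
    simp only [nonnegL] at h
    rw [Bool.and_eq_true, decide_eq_true_eq] at h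
    simp only [ev]
    have := mul_nonneg hx (ih h.2)
    linarith [h.1]

/-- `ev l x / x ^ n` decreases, `n` the degree. -/
lemma mono_ev (l : List ℤ) (h : nonnegL l = true) {X x : ℤ} (hX : 0 ≤ X) (hx : X ≤ x) :
    ev l x * X ^ (l.length - 1) ≤ ev l X * x ^ (l.length - 1) := by
  induction l with
  | nil => simp [ev]
  | cons c l ih =>
    simp only [nonnegL] at h
    rw [Bool.and_eq_true, decide_eq_true_eq] at h
    obtain ⟨hc, hl⟩ := h
    cases l with
    | nil => simp [ev]
    | cons d l =>
      have e1 : (c :: d :: l).length - 1 = (d :: l).length - 1 + 1 := by simp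
      rw [e1]
      have ih' := ih hl
      set n := (d :: l).length - 1
      have e4 : ∀ t, ev (c :: d :: l) t = c + t * ev (d :: l) t := fun t => rfl
      rw [e4, e4]
      set v := ev (d :: l) x
      set w := ev (d :: l) X
      have hx0 : 0 ≤ x := hX.trans hx
      have h1 : c * X ^ (n + 1) ≤ c * x ^ (n + 1) :=
        mul_le_mul_of_nonneg_left (pow_le_pow_left₀ hX hx _) hc
      have h2 : x * X * (v * X ^ n) ≤ x * X * (w * x ^ n) :=
        mul_le_mul_of_nonneg_left ih' (by positivity)
      calc (c + x * v) * X ^ (n + 1) = c * X ^ (n + 1) + x * X * (v * X ^ n) := by ring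
        _ ≤ c * x ^ (n + 1) + x * X * (w * x ^ n) := add_le_add h1 h2
        _ = _ := by ring

lemma lead_nonneg (l : List ℤ) (h : nonnegL l = true) {x : ℤ} (hx : 0 ≤ x) :
    (lastS l).1 * x ^ (l.length - 1) ≤ ev l x := by
  induction l with
  | nil => simp [ev, lastS]
  | cons c l ih =>
    simp only [nonnegL] at h
    rw [Bool.and_eq_true, decide_eq_true_eq] at h
    obtain ⟨hc, hl⟩ := h
    cases l with
    | nil => simp [ev, lastS]
    | cons d l =>
      have e1 : (c :: d :: l).length - 1 = (d :: l).length - 1 + 1 := by simp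
      rw [e1]
      have ih' := ih hl
      have e2 : (lastS (c :: d :: l)).1 = (lastS (d :: l)).1 := rfl
      have e4 : ev (c :: d :: l) x = c + x * ev (d :: l) x := rfl
      rw [e2, e4]
      set n := (d :: l).length - 1
      have := mul_le_mul_of_nonneg_left ih' hx
      calc (lastS (d :: l)).1 * x ^ (n + 1) = x * ((lastS (d :: l)).1 * x ^ n) := by ring
        _ ≤ x * ev (d :: l) x := this
        _ ≤ _ := by linarith

/-- All coefficients are even. -/
def evenL : List ℤ → Bool
  | [] => true
  | c :: l => decide (c % 2 = 0) && evenL l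

lemma even_ev (l : List ℤ) (h : evenL l = true) (x : ℤ) : 2 ∣ ev l x := by
  induction l with
  | nil => simp [ev]
  | cons c l ih =>
    simp only [evenL] at h
    rw [Bool.and_eq_true, decide_eq_true_eq] at h
    simp only [ev]
    exact dvd_add (Int.dvd_of_emod_eq_zero h.1) (Dvd.dvd.mul_left (ih h.2) x)

/-- The constant coefficient is odd, the others are even. -/
def oddL : List ℤ → Bool
  | [] => false
  | c :: l => decide (c % 2 = 1) && evenL l

lemma odd_ev (l : List ℤ) (h : oddL l = true) (x : ℤ) : ¬ 2 ∣ ev l x := by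
  cases l with
  | nil => simp [oddL] at h
  | cons c l =>
    simp only [oddL] at h
    rw [Bool.and_eq_true, decide_eq_true_eq] at h
    simp only [ev]
    have h2 : (2 : ℤ) ∣ x * ev l x := Dvd.dvd.mul_left (even_ev l h.2 x) x
    have h1 := h.1
    omega

end Pool.Agent.W_MP_cac67d_h21
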