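import Mathlib
import Pool.Agent.W_MP_cac67d_h21.C1
import Pool.Agent.W_MP_cac67d_h21.PolyL

set_option autoImplicit false

/-!
# Runge's method with Padé approximants: a certificate
-/

namespace Pool.Agent.W_MP_cac67d_h21

/-- `y ^ (2 b) < 2 x ^ (2 a)`. -/
lemma pow_lt_two {x y X Y : ℤ} (hx : 2 ≤ x) (hxy : x < y) (hX : 0 < X)
    (h : x * (y - 1) * X ^ 2 = y * (x - 1) * Y ^ 2 + (y - x)) : Y ^ 2 < 2 * X ^ 2 := by
  have h1 : y * (x - 1) * Y ^ 2 < y * (x - 1) * (2 * X ^ 2) := by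
    have h2 : 0 < X ^ 2 := by positivity
    have h3 : x * (y - 1) * X ^ 2 < x * y * X ^ 2 := by nlinarith
    have h4 : (y * X ^ 2) * x ≤ (y * X ^ 2) * (2 * (x - 1)) :=
      mul_le_mul_of_nonneg_left (by linarith) (by nlinarith)
    have h5 : x * y * X ^ 2 = (y * X ^ 2) * x := by ring
    have h6 : y * (x - 1) * (2 * X ^ 2) = (y * X ^ 2) * (2 * (x - 1)) := by ring
    linarith
  exact lt_of_mul_lt_mul_left h1 (by nlinarith)

lemma pow_diff (u v : ℤ) (d : ℕ) (hd : 2 ≤ d) (hv : 0 < v) (huv : v + 1 ≤ u) :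
    v ^ d + d * v ^ (d - 1) < u ^ d := by
  obtain ⟨e, rfl⟩ : ∃ e, d = e + 1 := ⟨d - 1, by omega⟩
  have h0 : (v + 1) ^ (e + 1) ≤ u ^ (e + 1) := pow_le_pow_left₀ (by linarith) huv _
  have h1 : ∀ n : ℕ, 1 ≤ n → v ^ (n + 1) + (n + 1 : ℕ) * v ^ n < (v + 1) ^ (n + 1) := by
    intro n hn
    induction n, hn using Nat.le_induction with
    | base => push_cast; nlinarith
    | succ n hn ih =>
      have e1 : (v + 1) ^ (n + 1 + 1) = (v + 1) ^ (n + 1) * (v + 1) := by ring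
      rw [e1]
      have h2 : (v ^ (n + 1) + (n + 1 : ℕ) * v ^ n) * (v + 1) < (v + 1) ^ (n + 1) * (v + 1) :=
        mul_lt_mul_of_pos_right ih (by linarith)
      refine lt_of_le_of_lt ?_ h2
      have h3 : 0 ≤ ((n + 1 : ℕ) : ℤ) * v ^ n := by positivity
      push_cast at h3 ⊢
      have e2 : (v ^ (n + 1) + ((n : ℤ) + 1) * v ^ n) * (v + 1) =
          v ^ (n + 1 + 1) + ((n : ℤ) + 1 + 1) * v ^ (n + 1) + ((n : ℤ) + 1) * v ^ n := by ring
      rw [e2]
      linarith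
  have h2 := h1 e (by omega)
  simp only [Nat.add_sub_cancel]
  linarith

/-- The heart: the integer `J = Q G - P` is odd, so it is not zero, and it is small. -/
lemma runge_core {d : ℕ} (hd : 2 ≤ d) {Q G P E E2 R g : ℤ}
    (hQ : 0 < Q) (hG : 0 < G) (hP : 0 < P) (hE : 0 ≤ E) (hE2 : 0 < E2)
    (h1 : g * Q ^ d * R = P ^ d + E) (h2 : g * R = G ^ d + E2)
    (hQe : 2 ∣ Q) (hPo : ¬ 2 ∣ P) (hA : E ≤ d * P ^ (d - 1)) (hB : Q * E2 ≤ d * G ^ (d - 1)) :
    False := by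
  have key : (Q * G) ^ d + Q ^ d * E2 = P ^ d + E := by
    rw [mul_pow, ← h1]
    have : g * Q ^ d * R = Q ^ d * (g * R) := by ring
    rw [this, h2]
    ring
  have hQd : 0 < Q ^ d := by positivity
  rcases lt_trichotomy (Q * G) P with hlt | heq | hgt
  · have h3 := pow_diff P (Q * G) d hd (by positivity) hlt
    have h4 : d * (Q * G) ^ (d - 1) < Q ^ d * E2 := by linarith
    have h5 : Q ^ d = Q ^ (d - 1) * Q := by
      rw [← pow_succ]; congr 1; omega
    rw [h5, mul_pow] at h4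
    have h6 : Q ^ (d - 1) * (d * G ^ (d - 1)) < Q ^ (d - 1) * (Q * E2) := by
      calc Q ^ (d - 1) * (d * G ^ (d - 1)) = d * (Q ^ (d - 1) * G ^ (d - 1)) := by ring
        _ < Q ^ (d - 1) * Q * E2 := h4
        _ = _ := by ring
    have h7 := lt_of_mul_lt_mul_left h6 (by positivity)
    linarith
  · exact hPo (heq ▸ Dvd.dvd.mul_right hQe G)
  · have h3 := pow_diff (Q * G) P d hd hP hgt
    have h4 : 0 < Q ^ d * E2 := by positivity
    linarith

/-- The list `K x ^ n - c E(x)`. -/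
def kE (K c : ℤ) : List ℤ → List ℤ
  | [] => []
  | [e] => [K - c * e]
  | e :: f :: l => (-(c * e)) :: kE K c (f :: l)

lemma ev_kE (K c : ℤ) (l : List ℤ) (hl : l ≠ []) (x : ℤ) :
    ev (kE K c l) x = K * x ^ (l.length - 1) - c * ev l x := by
  induction l with
  | nil => exact absurd rfl hl
  | cons e l ih =>
    cases l with
    | nil => simp [kE, ev]
    | cons f l =>
      have e1 : (e :: f :: l).length - 1 = (f :: l).length - 1 + 1 := by simp
      have e2 : kE K c (e :: f :: l) = (-(c * e)) :: kE K c (f :: l) := rfl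
      have e3 : ∀ (u : ℤ) (m : List ℤ), ev (u :: m) x = u + x * ev m x := fun _ _ => rfl
      rw [e1, e2, e3, e3, ih (by simp)]
      ring

/-- The certificate for the exponents `2 a + 1 > 2 b + 1`: `d` divides `2 a`, `2 b`;
`Q`, `P` come from a Padé approximant of `(1 - 1/x) ^ (-1/d)`. -/
def rchk (a b d al be g X B K : ℕ) (Q P E G E2 : List ℤ) : Bool :=
  decide (2 * a = d * al) && decide (2 * b = d * be) && decide (2 ≤ d) && decide (1 ≤ be) &&
  decide (2 ≤ X) &&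
  idchk ((g : ℤ) ^ d) d (2 * a + 1) Q P E B &&
  idchk ((g : ℤ) ^ d) d (2 * b + 1) [1] G E2 B &&
  evenL Q && oddL P && nonnegL G && nonnegL E2 &&
  (suf X Q).2 && decide (0 < (suf X Q).1) &&
  (suf X E).2 && (suf X (kE K ((X : ℤ) ^ (E.length - 1)) E)).2 &&
  decide (0 < (lastS G).1) && decide (0 < ev E2 1) &&
  decide (0 < X * (lastS P).1 - (lastS P).2) &&
  decide (E.length - 1 ≤ (P.length - 1) * (d - 1)) && decide (1 ≤ E.length) &&
  decide ((X : ℤ) ^ (d - 1) * K ≤ d * (X * (lastS P).1 - (lastS P).2) ^ (d - 1) *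
    X ^ ((P.length - 1) * (d - 1))) &&
  decide (E2.length - 1 ≤ be * (d - 1)) && decide (G.length - 1 = be) &&
  decide ((Q.length - 1) * be ≤ al * (be * (d - 1) - (E2.length - 1))) &&
  decide (0 ≤ X * (lastS Q).1 + (lastS Q).2) && decide (0 < ev E2 X) &&
  decide (((X * (lastS Q).1 + (lastS Q).2) * ev E2 X) ^ be ≤
    ((d : ℤ) * X ^ (E2.length - 1 + 1) * (lastS G).1 ^ (d - 1)) ^ be *
      X ^ (al * (be * (d - 1) - (E2.length - 1)) - (Q.length - 1) * be))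

theorem runge_cert {a b d al be g X B K : ℕ} {Q P E G E2 : List ℤ}
    (h : rchk a b d al be g X B K Q P E G E2 = true) {x y : ℕ} (hX : X ≤ x) (hxy : x < y) :
    ∑ i ∈ Finset.range (2 * a + 1), x ^ i ≠ ∑ i ∈ Finset.range (2 * b + 1), y ^ i := by
  intro heq
  unfold rchk at h
  simp only [Bool.and_eq_true, decide_eq_true_eq] at h
  obtain ⟨⟨⟨⟨⟨⟨⟨⟨⟨⟨⟨⟨⟨⟨⟨⟨⟨⟨⟨⟨⟨⟨⟨⟨⟨⟨ha, hb⟩, hd⟩, hbe⟩, hX2⟩, hid1⟩, hid2⟩, hQe⟩, hPo⟩, hGn⟩, hE2n⟩, hQs⟩, hQ1⟩,
    hEs⟩, hKs⟩, hLG⟩, hE21⟩, hP⟩, hnE⟩, hE1⟩, hA⟩, hn2⟩, hnG⟩, hnQ⟩, hQp⟩, hE2X⟩, hB⟩ := h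
  have hXz : (2 : ℤ) ≤ X := by exact_mod_cast hX2
  have hxX : (X : ℤ) ≤ x := by exact_mod_cast hX
  have hx2 : (2 : ℤ) ≤ x := hXz.trans hxX
  have hxyz : (x : ℤ) < y := by exact_mod_cast hxy
  have hXy : (X : ℤ) ≤ y := by linarith
  have hy0 : (0 : ℤ) ≤ y := by linarith
  -- the equation
  have hP0 := pell_form heq
  have hbb : 1 ≤ b := by
    have : 2 ≤ d * be := by nlinarith
    omega
  have hXpos : 0 < (x : ℤ) ^ a := by positivity
  have hYge : 2 ≤ (y : ℤ) ^ b := by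
    have : (y : ℤ) ^ 1 ≤ (y : ℤ) ^ b := pow_le_pow_right₀ (by linarith) hbb
    rw [pow_one] at this
    linarith
  have hlt := pow_lt_of_pell hx2 hxyz hXpos hYge hP0
  have hal : (x : ℤ) ^ al ≤ (y : ℤ) ^ be := by
    by_contra hcon
    push Not at hcon
    have h1 : ((y : ℤ) ^ be) ^ d ≤ ((x : ℤ) ^ al) ^ d :=
      pow_le_pow_left₀ (by positivity) hcon.le _
    have e1 : ((y : ℤ) ^ be) ^ d = ((y : ℤ) ^ b) ^ 2 := by
      rw [← pow_mul, ← pow_mul]; congr 1; rw [mul_comm be d, ← hb]; ring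
    have e2 : ((x : ℤ) ^ al) ^ d = ((x : ℤ) ^ a) ^ 2 := by
      rw [← pow_mul, ← pow_mul]; congr 1; rw [mul_comm al d, ← ha]; ring
    rw [e1, e2] at h1
    have h2 : ((x : ℤ) ^ a) ^ 2 < ((y : ℤ) ^ b) ^ 2 :=
      pow_lt_pow_left₀ hlt hXpos.le (by norm_num)
    linarith
  -- values
  set R : ℤ := ∑ i ∈ Finset.range (2 * a + 1), (x : ℤ) ^ i with hR
  have hR' : R = ∑ i ∈ Finset.range (2 * b + 1), (y : ℤ) ^ i := by
    rw [hR]; exact_mod_cast heq
  have i1 := idchk_sound hid1 (x : ℤ)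
  have i2 := idchk_sound hid2 (y : ℤ)
  rw [← hR] at i1
  rw [← hR'] at i2
  have e1 : ev [1] (y : ℤ) = 1 := by simp [ev]
  rw [e1, one_pow, mul_one] at i2
  obtain ⟨sQ1, sQ2, sQ3⟩ := suf_sound (by linarith) Q hQs hxX
  obtain ⟨sE1, sE2, sE3⟩ := suf_sound (by linarith) E hEs hxX
  obtain ⟨sK1, sK2, sK3⟩ := suf_sound (by linarith) _ hKs hxX
  have hEne : E ≠ [] := by
    intro h0; rw [h0] at hE1; simp at hE1
  rw [ev_kE _ _ _ hEne] at sK2 sK3
  rw [ev_kE _ _ _ hEne] at sK3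
  set nE := E.length - 1
  set nP := P.length - 1
  set nQ := Q.length - 1
  set n2 := E2.length - 1
  have hQpos : 0 < ev Q x := by rw [sQ1] at hQ1; linarith
  have hEnn : 0 ≤ ev E x := by linarith
  have hKE : (X : ℤ) ^ nE * ev E x ≤ K * (x : ℤ) ^ nE := by linarith
  have hGlow : (lastS G).1 * (y : ℤ) ^ be ≤ ev G y := by
    have := lead_nonneg G hGn hy0
    rwa [hnG] at this
  have hGpos : 0 < ev G y := by
    have : 0 < (lastS G).1 * (y : ℤ) ^ be := by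
      have : (0 : ℤ) < y := by linarith
      positivity
    linarith
  have hE2up : ev E2 y * (X : ℤ) ^ n2 ≤ ev E2 X * (y : ℤ) ^ n2 := mono_ev E2 hE2n (by linarith) hXy
  have hE2pos : 0 < ev E2 y := by
    have h1 := mono_ev E2 hE2n (X := 1) (x := y) (by norm_num) (by linarith)
    by_contra hcon
    push Not at hcon
    have h2 := nonneg_ev E2 hE2n hy0
    have h3 : ev E2 y = 0 := le_antisymm hcon h2
    -- all coefficients vanish
    have h4 : ∀ l : List ℤ, nonnegL l = true → ev l y = 0 → ev l 1 = 0 := by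
      intro l
      induction l with
      | nil => intro _ _; simp [ev]
      | cons c l ih =>
        intro hl h5
        simp only [nonnegL] at hl
        rw [Bool.and_eq_true, decide_eq_true_eq] at hl
        simp only [ev] at h5 ⊢
        have h6 := nonneg_ev l hl.2 hy0
        have hypos : (0 : ℤ) < y := by linarith
        have h7 : 0 ≤ (y : ℤ) * ev l y := mul_nonneg hy0 h6
        have h8 : (y : ℤ) * ev l y = 0 := by linarith [hl.1]
        have h9 : ev l y = 0 := by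
          rcases mul_eq_zero.mp h8 with h10 | h10
          · linarith
          · exact h10
        rw [ih hl.2 h9]
        linarith [hl.1]
    have := h4 E2 hE2n h3
    linarith
  -- bounds for P and Q
  have hx1 : (1 : ℤ) ≤ x := by linarith
  have hPl := lead_bound P hx1
  have hQl := lead_bound Q hx1
  have hScale : ∀ (l : List ℤ), |ev l x - (lastS l).1 * (x : ℤ) ^ (l.length - 1)| * X ≤
      (lastS l).2 * (x : ℤ) ^ (l.length - 1) := by
    intro l
    have h1 := lead_bound l hx1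
    have h2 : |ev l x - (lastS l).1 * (x : ℤ) ^ (l.length - 1)| * X ≤
        |ev l x - (lastS l).1 * (x : ℤ) ^ (l.length - 1)| * x :=
      mul_le_mul_of_nonneg_left hxX (abs_nonneg _)
    linarith
  have hPlow : (X * (lastS P).1 - (lastS P).2) * (x : ℤ) ^ nP ≤ X * ev P x := by
    have h1 := hScale P
    have h2 := neg_abs_le (ev P x - (lastS P).1 * (x : ℤ) ^ (P.length - 1))
    have h3 : -|ev P x - (lastS P).1 * (x : ℤ) ^ (P.length - 1)| * X ≤
        (ev P x - (lastS P).1 * (x : ℤ) ^ (P.length - 1)) * X :=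
      mul_le_mul_of_nonneg_right h2 (by linarith)
    linarith
  have hQup : X * ev Q x ≤ (X * (lastS Q).1 + (lastS Q).2) * (x : ℤ) ^ nQ := by
    have h1 := hScale Q
    have h2 := le_abs_self (ev Q x - (lastS Q).1 * (x : ℤ) ^ (Q.length - 1))
    have h3 : (ev Q x - (lastS Q).1 * (x : ℤ) ^ (Q.length - 1)) * X ≤
        |ev Q x - (lastS Q).1 * (x : ℤ) ^ (Q.length - 1)| * X :=
      mul_le_mul_of_nonneg_right h2 (by linarith)
    linarith
  set Pm : ℤ := X * (lastS P).1 - (lastS P).2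
  set Qp : ℤ := X * (lastS Q).1 + (lastS Q).2
  set LG : ℤ := (lastS G).1
  have hXp : (0 : ℤ) < X := by linarith
  have hxp : (0 : ℤ) < x := by linarith
  have hPpos : 0 < ev P x := by
    have : 0 < Pm * (x : ℤ) ^ nP := by positivity
    have h1 : 0 < (X : ℤ) * ev P x := by linarith
    by_contra hcon
    have := mul_nonpos_of_nonneg_of_nonpos hXp.le (not_lt.mp hcon)
    linarith
  -- (A)
  have cA : ev E x ≤ d * ev P x ^ (d - 1) := by
    have h1 : (X : ℤ) ^ (d - 1) * (K * (x : ℤ) ^ nE) ≤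
        (X : ℤ) ^ nE * (d * ((X : ℤ) * ev P x) ^ (d - 1)) := by
      have h2 : (Pm * (x : ℤ) ^ nP) ^ (d - 1) ≤ ((X : ℤ) * ev P x) ^ (d - 1) :=
        pow_le_pow_left₀ (by positivity) hPlow _
      have h3 : (x : ℤ) ^ (nP * (d - 1)) = (x : ℤ) ^ nE * (x : ℤ) ^ (nP * (d - 1) - nE) := by
        rw [← pow_add]; congr 1; omega
      have h3' : (X : ℤ) ^ (nP * (d - 1)) = (X : ℤ) ^ nE * (X : ℤ) ^ (nP * (d - 1) - nE) := by
        rw [← pow_add]; congr 1; omega
      have h4 : (X : ℤ) ^ (nP * (d - 1) - nE) ≤ (x : ℤ) ^ (nP * (d - 1) - nE) :=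
        pow_le_pow_left₀ hXp.le hxX _
      have h5 : (X : ℤ) ^ (d - 1) * K ≤
          (X : ℤ) ^ nE * (d * Pm ^ (d - 1) * (x : ℤ) ^ (nP * (d - 1) - nE)) := by
        refine hA.trans ?_
        rw [h3']
        have : (d : ℤ) * Pm ^ (d - 1) * ((X : ℤ) ^ nE * (X : ℤ) ^ (nP * (d - 1) - nE)) =
          ((X : ℤ) ^ nE * (d * Pm ^ (d - 1))) * (X : ℤ) ^ (nP * (d - 1) - nE) := by ring
        rw [this]
        have h6 : (0 : ℤ) ≤ (X : ℤ) ^ nE * (d * Pm ^ (d - 1)) := by positivity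
        calc _ ≤ ((X : ℤ) ^ nE * (d * Pm ^ (d - 1))) * (x : ℤ) ^ (nP * (d - 1) - nE) :=
              mul_le_mul_of_nonneg_left h4 h6
          _ = _ := by ring
      calc (X : ℤ) ^ (d - 1) * (K * (x : ℤ) ^ nE) = (X : ℤ) ^ (d - 1) * K * (x : ℤ) ^ nE := by ring
        _ ≤ (X : ℤ) ^ nE * (d * Pm ^ (d - 1) * (x : ℤ) ^ (nP * (d - 1) - nE)) * (x : ℤ) ^ nE :=
            mul_le_mul_of_nonneg_right h5 (by positivity)
        _ = (X : ℤ) ^ nE * (d * (Pm ^ (d - 1) * ((x : ℤ) ^ nE * (x : ℤ) ^ (nP * (d - 1) - nE)))) := by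
            ring
        _ = (X : ℤ) ^ nE * (d * (Pm * (x : ℤ) ^ nP) ^ (d - 1)) := by
            rw [← h3, mul_pow, ← pow_mul]
        _ ≤ _ := by
            refine mul_le_mul_of_nonneg_left (mul_le_mul_of_nonneg_left h2 (by positivity))
              (by positivity)
    have h7 : (X : ℤ) ^ (d - 1) * ((X : ℤ) ^ nE * ev E x) ≤
        (X : ℤ) ^ nE * (d * ((X : ℤ) * ev P x) ^ (d - 1)) :=
      (mul_le_mul_of_nonneg_left hKE (by positivity)).trans h1
    have h8 : ((X : ℤ) ^ (d - 1) * (X : ℤ) ^ nE) * ev E x ≤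
        ((X : ℤ) ^ (d - 1) * (X : ℤ) ^ nE) * (d * ev P x ^ (d - 1)) := by
      calc _ = (X : ℤ) ^ (d - 1) * ((X : ℤ) ^ nE * ev E x) := by ring
        _ ≤ _ := h7
        _ = _ := by rw [mul_pow]; ring
    exact le_of_mul_le_mul_left h8 (by positivity)
  -- (B)
  set dl := be * (d - 1) - n2 with hdl
  set c1 : ℤ := Qp * ev E2 X with hc1
  set c2 : ℤ := (d : ℤ) * X ^ (n2 + 1) * LG ^ (d - 1) with hc2
  have hc1n : 0 ≤ c1 := mul_nonneg hQp hE2X.le
  have hc2n : 0 < c2 := by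
    have : (0 : ℤ) < d := by exact_mod_cast (by omega : 0 < d)
    positivity
  have hyp : (0 : ℤ) < y := by linarith
  have hcc : c1 * (x : ℤ) ^ nQ ≤ c2 * (y : ℤ) ^ dl := by
    by_contra hcon
    push Not at hcon
    have h1 : (c2 * (y : ℤ) ^ dl) ^ be < (c1 * (x : ℤ) ^ nQ) ^ be :=
      pow_lt_pow_left₀ hcon (by positivity) (by omega)
    have h2 : (c1 * (x : ℤ) ^ nQ) ^ be ≤ (c2 * (y : ℤ) ^ dl) ^ be := by
      rw [mul_pow c1, mul_pow c2, ← pow_mul, ← pow_mul]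
      have h3 : ((x : ℤ) ^ al) ^ dl ≤ ((y : ℤ) ^ be) ^ dl := pow_le_pow_left₀ (by positivity) hal _
      rw [← pow_mul, ← pow_mul] at h3
      have h4 : (x : ℤ) ^ (al * dl) = (x : ℤ) ^ (nQ * be) * (x : ℤ) ^ (al * dl - nQ * be) := by
        rw [← pow_add]; congr 1; omega
      have h5 : (X : ℤ) ^ (al * dl - nQ * be) ≤ (x : ℤ) ^ (al * dl - nQ * be) :=
        pow_le_pow_left₀ hXp.le hxX _
      calc c1 ^ be * (x : ℤ) ^ (nQ * be) ≤
            (c2 ^ be * (X : ℤ) ^ (al * dl - nQ * be)) * (x : ℤ) ^ (nQ * be) :=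
            mul_le_mul_of_nonneg_right hB (by positivity)
        _ ≤ (c2 ^ be * (x : ℤ) ^ (al * dl - nQ * be)) * (x : ℤ) ^ (nQ * be) :=
            mul_le_mul_of_nonneg_right (mul_le_mul_of_nonneg_left h5 (by positivity))
              (by positivity)
        _ = c2 ^ be * (x : ℤ) ^ (al * dl) := by rw [h4]; ring
        _ ≤ c2 ^ be * (y : ℤ) ^ (be * dl) := mul_le_mul_of_nonneg_left h3 (by positivity)
        _ = _ := by rw [mul_comm be dl]
    linarith
  have cB : ev Q x * ev E2 y ≤ d * ev G y ^ (d - 1) := by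
    have h1 : (LG * (y : ℤ) ^ be) ^ (d - 1) ≤ ev G y ^ (d - 1) :=
      pow_le_pow_left₀ (by positivity) hGlow _
    have h2 : (y : ℤ) ^ (be * (d - 1)) = (y : ℤ) ^ n2 * (y : ℤ) ^ dl := by
      rw [← pow_add]; congr 1; omega
    have h3 : ((X : ℤ) * ev Q x) * (ev E2 y * (X : ℤ) ^ n2) ≤
        (Qp * (x : ℤ) ^ nQ) * (ev E2 X * (y : ℤ) ^ n2) :=
      mul_le_mul hQup hE2up (by positivity) (by positivity)
    have h4 : ((X : ℤ) ^ (n2 + 1)) * (ev Q x * ev E2 y) ≤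
        ((X : ℤ) ^ (n2 + 1)) * (d * ev G y ^ (d - 1)) := by
      calc ((X : ℤ) ^ (n2 + 1)) * (ev Q x * ev E2 y) =
            ((X : ℤ) * ev Q x) * (ev E2 y * (X : ℤ) ^ n2) := by ring
        _ ≤ _ := h3
        _ = (c1 * (x : ℤ) ^ nQ) * (y : ℤ) ^ n2 := by rw [hc1]; ring
        _ ≤ (c2 * (y : ℤ) ^ dl) * (y : ℤ) ^ n2 := mul_le_mul_of_nonneg_right hcc (by positivity)
        _ = ((X : ℤ) ^ (n2 + 1)) * (d * (LG ^ (d - 1) * ((y : ℤ) ^ n2 * (y : ℤ) ^ dl))) := by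
            rw [hc2]; ring
        _ = ((X : ℤ) ^ (n2 + 1)) * (d * (LG * (y : ℤ) ^ be) ^ (d - 1)) := by
            rw [← h2, mul_pow, ← pow_mul]
        _ ≤ _ := mul_le_mul_of_nonneg_left (mul_le_mul_of_nonneg_left h1 (by positivity))
              (by positivity)
    exact le_of_mul_le_mul_left h4 (by positivity)
  exact runge_core hd hQpos hGpos hPpos hEnn hE2pos i1 i2 (even_ev Q hQe x) (odd_ev P hPo x) cA cB

end Pool.Agent.W_MP_cac67d_h21
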