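import Mathlib

set_option autoImplicit false

/-!
# Residue sieves
-/

namespace Pool.Agent.W_MP_cac67d_h21

/-- `1 + x + ... + x ^ (r - 1)` for `r ≥ 1`, computed with one power. -/
def Rc (x r : ℕ) : ℕ := if x ≤ 1 then (if x = 0 then 1 else r) else (x ^ r - 1) / (x - 1)

lemma Rc_eq (x r : ℕ) (hr : 1 ≤ r) : Rc x r = ∑ i ∈ Finset.range r, x ^ i := by
  unfold Rc
  split_ifs with h1 h2
  · subst h2
    obtain ⟨k, rfl⟩ : ∃ k, r = k + 1 := ⟨r - 1, by omega⟩
    rw [Finset.sum_range_succ']
    simp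
  · have : x = 1 := by omega
    subst this
    simp
  · exact (Nat.geomSum_eq (by omega) r).symm

lemma Rc_mod (x r l : ℕ) (hr : 1 ≤ r) : Rc (x % l) r % l = Rc x r % l := by
  rw [Rc_eq _ _ hr, Rc_eq _ _ hr]
  rw [Finset.sum_nat_mod, Finset.sum_nat_mod (s := Finset.range r) (f := fun i => x ^ i)]
  congr 1
  refine Finset.sum_congr rfl fun i _ => ?_
  rw [← Nat.pow_mod]

/-- Test bit, in a form that reduces quickly. -/
def tb (m i : ℕ) : Bool := Nat.beq (Nat.land (Nat.shiftRight m i) 1) 1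

lemma tb_eq (m i : ℕ) : tb m i = m.testBit i := by
  unfold tb
  have h1 : Nat.land (Nat.shiftRight m i) 1 = m / 2 ^ i % 2 := by
    have : Nat.land (Nat.shiftRight m i) 1 = (m >>> i) &&& 1 := rfl
    rw [this, Nat.and_one_is_mod, Nat.shiftRight_eq_div_pow]
  rw [h1, Nat.testBit_eq_decide_div_mod_eq]
  by_cases hc : m / 2 ^ i % 2 = 1
  · rw [hc]; rfl
  · have h2 : Nat.beq (m / 2 ^ i % 2) 1 = false := by
      cases h : Nat.beq (m / 2 ^ i % 2) 1
      · rfl
      · exact absurd (Nat.eq_of_beq_eq_true h) hc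
    rw [h2]
    simp [hc]

/-- The mask of the residues `R(v, s) mod l`, `v < n`. -/
def vm (s l n : ℕ) : ℕ :=
  Nat.rec 0 (fun v acc => Nat.lor acc (Nat.shiftLeft 1 (Rc v s % l))) n

lemma vm_spec (s l n v : ℕ) (hv : v < n) : (vm s l n).testBit (Rc v s % l) = true := by
  induction n with
  | zero => omega
  | succ n ih =>
    have e : vm s l (n + 1) = (vm s l n) ||| (1 <<< (Rc n s % l)) := rfl
    rw [e, Nat.testBit_or]
    rcases Nat.lt_succ_iff_lt_or_eq.mp hv with h | h
    · rw [ih h, Bool.true_or]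
    · subst h
      rw [Nat.testBit_shiftLeft]
      simp

/-- The mask of the `u < n` with `R(u, r) mod l` in the mask `V`. -/
def am (V r l n : ℕ) : ℕ :=
  Nat.rec 0 (fun u acc => cond (tb V (Rc u r % l)) (Nat.lor acc (Nat.shiftLeft 1 u)) acc) n

lemma am_spec (V r l n u : ℕ) (hu : u < n) (h : V.testBit (Rc u r % l) = true) :
    (am V r l n).testBit u = true := by
  induction n with
  | zero => omega
  | succ n ih =>
    have e : am V r l (n + 1) =
      cond (tb V (Rc n r % l)) ((am V r l n) ||| (1 <<< n)) (am V r l n) := rfl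
    rw [e]
    rcases Nat.lt_succ_iff_lt_or_eq.mp hu with h1 | h1
    · cases tb V (Rc n r % l)
      · exact ih h1
      · simp only [cond_true]
        rw [Nat.testBit_or, ih h1, Bool.true_or]
    · subst h1
      rw [tb_eq, h]
      simp only [cond_true]
      rw [Nat.testBit_or, Nat.testBit_shiftLeft]
      simp

/-- The mask of the `t < n` with `M t mod l` in the mask `A`. -/
def bm (A M l n : ℕ) : ℕ :=
  Nat.rec 0 (fun t acc => cond (tb A (M * t % l)) (Nat.lor acc (Nat.shiftLeft 1 t)) acc) n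

lemma bm_spec (A M l n t : ℕ) (ht : t < n) (h : A.testBit (M * t % l) = true) :
    (bm A M l n).testBit t = true := by
  induction n with
  | zero => omega
  | succ n ih =>
    have e : bm A M l (n + 1) =
      cond (tb A (M * n % l)) ((bm A M l n) ||| (1 <<< n)) (bm A M l n) := rfl
    rw [e]
    rcases Nat.lt_succ_iff_lt_or_eq.mp ht with h1 | h1
    · cases tb A (M * n % l)
      · exact ih h1
      · simp only [cond_true]
        rw [Nat.testBit_or, ih h1, Bool.true_or]
    · subst h1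
      rw [tb_eq, h]
      simp only [cond_true]
      rw [Nat.testBit_or, Nat.testBit_shiftLeft]
      simp

lemma bm_lt (A M l n : ℕ) : bm A M l n < 2 ^ n := by
  induction n with
  | zero => simp [bm]
  | succ n ih =>
    have e : bm A M l (n + 1) =
      cond (tb A (M * n % l)) ((bm A M l n) ||| (1 <<< n)) (bm A M l n) := rfl
    rw [e]
    have h1 : bm A M l n < 2 ^ (n + 1) := ih.trans (Nat.pow_lt_pow_right (by norm_num) (by omega))
    cases tb A (M * n % l)
    · exact h1
    · simp only [cond_true]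
      refine Nat.or_lt_two_pow h1 ?_
      rw [Nat.one_shiftLeft]
      exact Nat.pow_lt_pow_right (by norm_num) (by omega)

/-- The periodic extension of the mask `B` of length `l`. -/
def pe (B l n : ℕ) : ℕ := B * ((2 ^ (l * n) - 1) / (2 ^ l - 1))

lemma pe_spec (B l n : ℕ) (hl : 1 ≤ l) (hB : B < 2 ^ l) (i : ℕ) (hi : i < l * n) :
    (pe B l n).testBit i = B.testBit (i % l) := by
  have h2 : 2 ≤ 2 ^ l := by
    calc 2 = 2 ^ 1 := by norm_num
      _ ≤ 2 ^ l := Nat.pow_le_pow_right (by norm_num) hl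
  have hg : ∀ n, (2 ^ (l * n) - 1) / (2 ^ l - 1) = ∑ k ∈ Finset.range n, (2 ^ l) ^ k := by
    intro n
    rw [Nat.geomSum_eq h2, ← pow_mul]
  unfold pe
  rw [hg]
  induction n generalizing i with
  | zero => omega
  | succ n ih =>
    have e : B * ∑ k ∈ Finset.range (n + 1), (2 ^ l) ^ k =
        2 ^ l * (B * ∑ k ∈ Finset.range n, (2 ^ l) ^ k) + B := by
      have e1 : ∑ k ∈ Finset.range n, (2 ^ l) ^ (k + 1) =
          2 ^ l * ∑ k ∈ Finset.range n, (2 ^ l) ^ k := by
        rw [Finset.mul_sum]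
        exact Finset.sum_congr rfl fun k _ => by rw [pow_succ, mul_comm]
      rw [Finset.sum_range_succ', e1, pow_zero]
      ring
    rw [e, Nat.testBit_two_pow_mul_add _ hB]
    split_ifs with h3
    · rw [Nat.mod_eq_of_lt h3]
    · rw [ih (i - l) (by rw [mul_add] at hi; omega)]
      congr 1
      conv_rhs => rw [show i = (i - l) + l by omega]
      rw [Nat.add_mod_right]

/-- Intersection of the filters on a window. -/
def foldW (W t0 c : ℕ) : List (ℕ × ℕ × ℕ) → ℕ → ℕ
  | [], acc => acc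
  | (l, B, m) :: fs, acc =>
    foldW W t0 c fs (Nat.land acc (Nat.shiftRight (pe B l (W / l + 2)) ((t0 + c * m) % l)))

/-- The filters are correct. -/
def okF (r s M : ℕ) : List (ℕ × ℕ × ℕ) → Bool
  | [] => true
  | (l, B, m) :: fs => Nat.ble 2 l && Nat.beq (M * m % l) 1 &&
      Nat.beq (bm (am (vm s l l) r l l) M l l) B && okF r s M fs

/-- All windows of the class `c`. -/
def winAll (W c : ℕ) (F : List (ℕ × ℕ × ℕ)) (n : ℕ) : Bool :=
  Nat.rec true (fun j acc => and (Nat.beq (foldW W (j * W) c F (2 ^ W - 1)) 0) acc) n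

/-- All classes `lo ≤ c < lo + n` modulo `M`. -/
def clsR (r s M W nw : ℕ) (F : List (ℕ × ℕ × ℕ)) (lo n : ℕ) : Bool :=
  Nat.rec true (fun j acc => and
    (or (not (and (Nat.beq (Nat.gcd (lo + j) M) 1) (Nat.beq (Rc (lo + j) r % s) 1)))
      (winAll W (lo + j) F nw)) acc) n

lemma foldW_spec {W t0 c r s M : ℕ} (hr : 1 ≤ r) (hs : 1 ≤ s) (F : List (ℕ × ℕ × ℕ))
    (hF : okF r s M F = true) {i x y : ℕ} (hi : i < W)
    (hx : x = c + M * (t0 + i)) (h : Rc x r = Rc y s) (acc : ℕ) (hacc : acc.testBit i = true) :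
    (foldW W t0 c F acc).testBit i = true := by
  induction F generalizing acc with
  | nil => exact hacc
  | cons f fs ih =>
    obtain ⟨l, B, m⟩ := f
    simp only [okF] at hF
    rw [Bool.and_eq_true, Bool.and_eq_true, Bool.and_eq_true] at hF
    obtain ⟨⟨⟨h1, h2⟩, h3⟩, h4⟩ := hF
    have hl : 2 ≤ l := Nat.le_of_ble_eq_true h1
    have hm : M * m % l = 1 := Nat.eq_of_beq_eq_true h2
    have hB : bm (am (vm s l l) r l l) M l l = B := Nat.eq_of_beq_eq_true h3
    refine ih h4 _ ?_
    have e1 : Nat.land acc (Nat.shiftRight (pe B l (W / l + 2)) ((t0 + c * m) % l)) =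
      acc &&& (pe B l (W / l + 2) >>> ((t0 + c * m) % l)) := rfl
    rw [e1, Nat.testBit_and, hacc, Bool.true_and, Nat.testBit_shiftRight]
    have hσ : (t0 + c * m) % l < l := Nat.mod_lt _ (by omega)
    have hW : W < l * (W / l + 1) := by
      have := Nat.lt_mul_div_succ W (by omega : 0 < l)
      simpa using this
    rw [pe_spec B l _ (by omega) (hB ▸ bm_lt _ _ _ _) _ (by
      have : l * (W / l + 2) = l * (W / l + 1) + l := by ring
      omega)]
    have e2 : ((t0 + c * m) % l + i) % l = (t0 + c * m + i) % l := by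
      rw [Nat.mod_add_mod]
    rw [e2, ← hB]
    refine bm_spec _ _ _ _ _ (Nat.mod_lt _ (by omega)) ?_
    have e3 : M * ((t0 + c * m + i) % l) % l = x % l := by
      rw [Nat.mul_mod_mod, hx]
      have e4 : M * (t0 + c * m + i) = M * m * c + M * (t0 + i) := by ring
      rw [e4, Nat.add_mod, Nat.mul_mod, hm]
      rw [Nat.add_mod c]
      simp
    rw [e3]
    refine am_spec _ _ _ _ _ (Nat.mod_lt _ (by omega)) ?_
    rw [Rc_mod x r l hr, h, ← Rc_mod y s l hs]
    exact vm_spec _ _ _ _ (Nat.mod_lt _ (by omega))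

lemma winAll_spec {W c r s M n : ℕ} (hr : 1 ≤ r) (hs : 1 ≤ s) (F : List (ℕ × ℕ × ℕ))
    (hF : okF r s M F = true) (hw : winAll W c F n = true) {t x y : ℕ} (ht : t < n * W)
    (hx : x = c + M * t) (h : Rc x r = Rc y s) : False := by
  induction n with
  | zero => simp at ht
  | succ n ih =>
    have e : winAll W c F (n + 1) =
      and (Nat.beq (foldW W (n * W) c F (2 ^ W - 1)) 0) (winAll W c F n) := rfl
    rw [e, Bool.and_eq_true] at hw
    by_cases h1 : t < n * W
    · exact ih hw.2 h1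
    · have h2 : foldW W (n * W) c F (2 ^ W - 1) = 0 := Nat.eq_of_beq_eq_true hw.1
      have h3 : t - n * W < W := by
        have : (n + 1) * W = n * W + W := by ring
        omega
      have h4 := foldW_spec hr hs F hF (t0 := n * W) (i := t - n * W) (c := c) (x := x) (y := y) h3
        (by rw [hx]; congr 2; omega) h (2 ^ W - 1)
        (by rw [Nat.testBit_two_pow_sub_one]; simpa using h3)
      rw [h2] at h4
      simp at h4

lemma clsR_spec {W r s M nw lo n : ℕ} {F : List (ℕ × ℕ × ℕ)}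
    (hc : clsR r s M W nw F lo n = true) (c : ℕ) (hlo : lo ≤ c) (hcn : c < lo + n)
    (h1 : Nat.gcd c M = 1) (h2 : Rc c r % s = 1) : winAll W c F nw = true := by
  induction n with
  | zero => omega
  | succ n ih =>
    have e : clsR r s M W nw F lo (n + 1) =
      and (or (not (and (Nat.beq (Nat.gcd (lo + n) M) 1) (Nat.beq (Rc (lo + n) r % s) 1)))
        (winAll W (lo + n) F nw)) (clsR r s M W nw F lo n) := rfl
    rw [e, Bool.and_eq_true] at hc
    by_cases h3 : c < lo + n
    · exact ih hc.2 h3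
    · have h5 : c = lo + n := by omega
      subst h5
      have h4 := hc.1
      rw [h1, h2] at h4
      simpa using h4

/-- A number `N` is killed by one of the masks `V` of the residues of `R(v, s)`. -/
def kill (N : ℕ) : List (ℕ × ℕ) → Bool
  | [] => false
  | (l, V) :: fs => or (not (tb V (N % l))) (kill N fs)

def okV (s : ℕ) : List (ℕ × ℕ) → Bool
  | [] => true
  | (l, V) :: fs => Nat.ble 1 l && Nat.beq (vm s l l) V && okV s fs

lemma kill_spec {s : ℕ} (hs : 1 ≤ s) (F : List (ℕ × ℕ)) (hF : okV s F = true) {N y : ℕ}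
    (hk : kill N F = true) (h : N = Rc y s) : False := by
  induction F with
  | nil => simp [kill] at hk
  | cons f fs ih =>
    obtain ⟨l, V⟩ := f
    simp only [okV] at hF
    simp only [kill] at hk
    rw [Bool.and_eq_true, Bool.and_eq_true] at hF
    obtain ⟨⟨h1, h2⟩, h3⟩ := hF
    have hl : 1 ≤ l := Nat.le_of_ble_eq_true h1
    have hV : vm s l l = V := Nat.eq_of_beq_eq_true h2
    rw [Bool.or_eq_true] at hk
    rcases hk with h4 | h4
    · rw [tb_eq, h, ← Rc_mod y s l hs, ← hV, vm_spec _ _ _ _ (Nat.mod_lt _ (by omega))] at h4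
      simp at h4
    · exact ih h3 h4

/-- Every `x` with `2 ≤ x < 2 + n` such that `R(x, r) = 1 mod s` is killed. -/
def smallAll (r s : ℕ) (F : List (ℕ × ℕ)) (n : ℕ) : Bool :=
  Nat.rec true (fun j acc => and
    (or (not (Nat.beq (Rc (j + 2) r % s) 1)) (kill (Rc (j + 2) r) F)) acc) n

lemma smallAll_spec {r s n : ℕ} (F : List (ℕ × ℕ)) (h : smallAll r s F n = true) {x : ℕ}
    (hx : 2 ≤ x) (hxn : x < 2 + n) (h1 : Rc x r % s = 1) : kill (Rc x r) F = true := by
  induction n with
  | zero => omega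
  | succ n ih =>
    have e : smallAll r s F (n + 1) = and
      (or (not (Nat.beq (Rc (n + 2) r % s) 1)) (kill (Rc (n + 2) r) F)) (smallAll r s F n) := rfl
    rw [e, Bool.and_eq_true] at h
    by_cases h3 : x < 2 + n
    · exact ih h.2 h3
    · have : x = n + 2 := by omega
      subst this
      have h4 := h.1
      rw [h1] at h4
      simpa using h4

/-- If `N = 1 + y + ... + y ^ (s - 1)` is prime and `s` is an odd prime, then `N = 1` modulo `s`. -/
lemma mod_s {y s : ℕ} (hy : 2 ≤ y) (hs : s.Prime) (hN : (∑ i ∈ Finset.range s, y ^ i).Prime) :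
    (∑ i ∈ Finset.range s, y ^ i) % s = 1 := by
  obtain ⟨N, hNdef⟩ : ∃ N, N = ∑ i ∈ Finset.range s, y ^ i := ⟨_, rfl⟩
  rw [← hNdef] at hN ⊢
  have : Fact N.Prime := ⟨hN⟩
  have : Fact s.Prime := ⟨hs⟩
  have hyN : y < N := by
    have h1 : ∑ i ∈ Finset.range 2, y ^ i ≤ N := by
      rw [hNdef]
      exact Finset.sum_le_sum_of_subset (Finset.range_subset_range.mpr hs.two_le)
    have h2 : ∑ i ∈ Finset.range 2, y ^ i = 1 + y := by simp [Finset.sum_range_succ]
    omega
  have hpow : ((y : ZMod N)) ^ s = 1 := by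
    have h1 : (∑ i ∈ Finset.range s, (y : ZMod N) ^ i) * ((y : ZMod N) - 1) = (y : ZMod N) ^ s - 1 :=
      geom_sum_mul _ _
    have h2 : (∑ i ∈ Finset.range s, (y : ZMod N) ^ i) = 0 := by
      have h3 : ((∑ i ∈ Finset.range s, y ^ i : ℕ) : ZMod N) = 0 := by
        rw [← hNdef]; exact ZMod.natCast_self N
      push_cast at h3
      exact h3
    rw [h2, zero_mul] at h1
    exact (sub_eq_zero.mp h1.symm)
  have hne : (y : ZMod N) ≠ 1 := by
    intro h1
    have h2 : ((y : ℕ) : ZMod N) = ((1 : ℕ) : ZMod N) := by simpa using h1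
    rw [ZMod.natCast_eq_natCast_iff'] at h2
    rw [Nat.mod_eq_of_lt hyN, Nat.mod_eq_of_lt (by omega)] at h2
    omega
  have hord : orderOf (y : ZMod N) = s := orderOf_eq_prime hpow hne
  have hne0 : (y : ZMod N) ≠ 0 := by
    intro h0
    rw [h0, zero_pow hs.ne_zero] at hpow
    exact zero_ne_one hpow
  have hdvd : s ∣ N - 1 := by
    rw [← hord]
    exact ZMod.orderOf_dvd_card_sub_one hne0
  obtain ⟨k, hk⟩ := hdvd
  have : N = s * k + 1 := by omega
  rw [this, Nat.mul_add_mod]
  exact Nat.mod_eq_of_lt hs.one_lt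

end Pool.Agent.W_MP_cac67d_h21
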