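import Mathlib
import Pool.Agent.W_MP_cac67d_h21.Runge
import Pool.Agent.W_MP_cac67d_h21.Sieve

set_option autoImplicit false

/-!
# Heads and tails
-/

namespace Pool.Agent.W_MP_cac67d_h21

/-- No solution with `x ≥ T`. -/
def Tail (r s T : ℕ) : Prop := ∀ x y : ℕ, T ≤ x → x < y → y.Prime → Nat.Coprime x y →
  ∑ i ∈ Finset.range r, x ^ i ≠ ∑ i ∈ Finset.range s, y ^ i

/-- No solution with `x < T`. -/
def Head (r s T : ℕ) : Prop := ∀ x y : ℕ, x.Prime → y.Prime → x < T → x < y →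
  (∑ i ∈ Finset.range r, x ^ i).Prime →
  ∑ i ∈ Finset.range r, x ^ i ≠ ∑ i ∈ Finset.range s, y ^ i

/-- No solution. -/
def NoSol (r s : ℕ) : Prop := ∀ x y : ℕ, x.Prime → y.Prime → x < y →
  (∑ i ∈ Finset.range r, x ^ i).Prime →
  ∑ i ∈ Finset.range r, x ^ i ≠ ∑ i ∈ Finset.range s, y ^ i

lemma noSol_of {r s T : ℕ} (h1 : Tail r s T) (h2 : Head r s T) : NoSol r s := by
  intro x y hx hy hxy hN
  by_cases h : x < T
  · exact h2 x y hx hy h hxy hN
  · exact h1 x y (not_lt.mp h) hxy hy ((Nat.coprime_primes hx hy).mpr hxy.ne)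

lemma tail_runge {a b d al be g X B K : ℕ} {Q P E G E2 : List ℤ}
    (h : rchk a b d al be g X B K Q P E G E2 = true) : Tail (2 * a + 1) (2 * b + 1) X :=
  fun _ _ hX hxy _ _ => runge_cert h hX hxy

lemma Tail.mono {r s T T' : ℕ} (h : Tail r s T) (hT : T ≤ T') : Tail r s T' :=
  fun x y hx hxy hy hc => h x y (hT.trans hx) hxy hy hc

/-- The certificate for the factorization bound. -/
def c1chk (a b X : ℕ) (V : List ℤ) : Bool :=
  decide (b * b ≤ a) && nonnegL V && decide (V.length - 1 = b) && decide (ev V X ^ b ≤ (X : ℤ) ^ a) &&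
    decide (1 ≤ b) && decide (2 ≤ X)

lemma tail_c1 {a b X : ℕ} {V : List ℤ} (hV : ∀ x : ℤ, (UV x 1 b).2 = ev V x)
    (hc : c1chk a b X V = true) {a' : ℕ} (ha' : a ≤ a') : Tail (2 * a' + 1) (2 * b + 1) X := by
  intro x y hX hxy hy hcop heq
  unfold c1chk at hc
  simp only [Bool.and_eq_true, decide_eq_true_eq] at hc
  obtain ⟨⟨⟨⟨⟨h1, h2⟩, h3⟩, h4⟩, h5⟩, h6⟩ := hc
  have hXz : (2 : ℤ) ≤ X := by exact_mod_cast h6
  have hxX : (X : ℤ) ≤ x := by exact_mod_cast hX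
  have hx2 : (2 : ℤ) ≤ x := hXz.trans hxX
  have hxyz : (x : ℤ) < y := by exact_mod_cast hxy
  have hmb := main_bound (by omega) hxy hy hcop h5 heq
  rw [hV] at hmb
  have hP0 := pell_form heq
  have hXpos : 0 < (x : ℤ) ^ a' := by positivity
  have hYge : 2 ≤ (y : ℤ) ^ b := by
    have : (y : ℤ) ^ 1 ≤ (y : ℤ) ^ b := pow_le_pow_right₀ (by linarith) h5
    rw [pow_one] at this
    linarith
  have hlt := pow_lt_of_pell hx2 hxyz hXpos hYge hP0
  have hm := mono_ev V h2 (X := X) (x := x) (by linarith) hxX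
  rw [h3] at hm
  have hv0 : 0 ≤ ev V x := nonneg_ev V h2 (by linarith)
  have k1 : ev V x ^ b * (X : ℤ) ^ (b * b) ≤ (X : ℤ) ^ a * (x : ℤ) ^ (b * b) := by
    have k2 : (ev V x * (X : ℤ) ^ b) ^ b ≤ (ev V X * (x : ℤ) ^ b) ^ b :=
      pow_le_pow_left₀ (by positivity) hm _
    rw [mul_pow, mul_pow, ← pow_mul, ← pow_mul] at k2
    exact k2.trans (mul_le_mul_of_nonneg_right h4 (by positivity))
  have k3 : (X : ℤ) ^ a = (X : ℤ) ^ (b * b) * (X : ℤ) ^ (a - b * b) := by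
    rw [← pow_add]; congr 1; omega
  have k4 : (x : ℤ) ^ a = (x : ℤ) ^ (b * b) * (x : ℤ) ^ (a - b * b) := by
    rw [← pow_add]; congr 1; omega
  have k5 : (X : ℤ) ^ (a - b * b) ≤ (x : ℤ) ^ (a - b * b) := pow_le_pow_left₀ (by linarith) hxX _
  have k6 : ev V x ^ b ≤ (x : ℤ) ^ a := by
    have k7 : (X : ℤ) ^ (b * b) * ev V x ^ b ≤ (X : ℤ) ^ (b * b) * (x : ℤ) ^ a := by
      calc (X : ℤ) ^ (b * b) * ev V x ^ b = ev V x ^ b * (X : ℤ) ^ (b * b) := by ring
        _ ≤ (X : ℤ) ^ a * (x : ℤ) ^ (b * b) := k1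
        _ = (X : ℤ) ^ (b * b) * ((x : ℤ) ^ (b * b) * (X : ℤ) ^ (a - b * b)) := by rw [k3]; ring
        _ ≤ (X : ℤ) ^ (b * b) * ((x : ℤ) ^ (b * b) * (x : ℤ) ^ (a - b * b)) := by
            refine mul_le_mul_of_nonneg_left (mul_le_mul_of_nonneg_left k5 (by positivity))
              (by positivity)
        _ = _ := by rw [k4]
    exact le_of_mul_le_mul_left k7 (by positivity)
  have k8 : (x : ℤ) ^ a ≤ (x : ℤ) ^ a' := pow_le_pow_right₀ (by linarith) ha'
  have k9 : (y : ℤ) ^ b ≤ ev V x ^ b := pow_le_pow_left₀ (by linarith) hmb.le _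
  linarith

lemma head_small {r s n : ℕ} (hr : 1 ≤ r) (hs : s.Prime) (F : List (ℕ × ℕ)) (hF : okV s F = true)
    (h : smallAll r s F n = true) : Head r s (2 + n) := by
  intro x y hx hy hxT hxy hN heq
  have h1 := mod_s hy.two_le hs (heq ▸ hN)
  rw [← heq, ← Rc_eq x r hr] at h1
  have h2 := smallAll_spec F h hx.two_le hxT h1
  refine kill_spec hs.one_lt.le F hF h2 (y := y) ?_
  rw [Rc_eq x r hr, Rc_eq y s hs.one_lt.le, heq]

/-- The prime divisors of `M` are killed. -/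
def dchk (r s M : ℕ) (F : List (ℕ × ℕ)) (n : ℕ) : Bool :=
  Nat.rec true (fun j acc => and
    (or (not (and (Nat.beq (M % (j + 2)) 0) (Nat.beq (Rc (j + 2) r % s) 1))) (kill (Rc (j + 2) r) F))
    acc) n

lemma dchk_spec {r s M n : ℕ} (F : List (ℕ × ℕ)) (h : dchk r s M F n = true) {x : ℕ}
    (hx : 2 ≤ x) (hxn : x < 2 + n) (hd : M % x = 0) (h1 : Rc x r % s = 1) :
    kill (Rc x r) F = true := by
  induction n with
  | zero => omega
  | succ n ih =>
    have e : dchk r s M F (n + 1) = and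
      (or (not (and (Nat.beq (M % (n + 2)) 0) (Nat.beq (Rc (n + 2) r % s) 1)))
        (kill (Rc (n + 2) r) F)) (dchk r s M F n) := rfl
    rw [e, Bool.and_eq_true] at h
    by_cases h3 : x < 2 + n
    · exact ih h.2 h3
    · have : x = n + 2 := by omega
      subst this
      have h4 := h.1
      rw [h1, hd] at h4
      simpa using h4

lemma head_sieve {r s M W nw T : ℕ} (hr : 1 ≤ r) (hs : s.Prime) (hM : 1 ≤ M) (hsM : s ∣ M)
    (Fv : List (ℕ × ℕ)) (F : List (ℕ × ℕ × ℕ)) (hFv : okV s Fv = true) (hF : okF r s M F = true)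
    (hd : dchk r s M Fv M = true)
    (hc : ∀ c < M, Nat.gcd c M = 1 → Rc c r % s = 1 → winAll W c F nw = true)
    (hT : T ≤ nw * W * M) : Head r s T := by
  intro x y hx hy hxT hxy hN heq
  have h1 := mod_s hy.two_le hs (heq ▸ hN)
  rw [← heq, ← Rc_eq x r hr] at h1
  have hR : Rc x r = Rc y s := by
    rw [Rc_eq x r hr, Rc_eq y s hs.one_lt.le, heq]
  by_cases hdv : x ∣ M
  · refine kill_spec hs.one_lt.le Fv hFv (dchk_spec Fv hd hx.two_le ?_
      (Nat.mod_eq_zero_of_dvd hdv) h1) hR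
    have := Nat.le_of_dvd hM hdv
    omega
  · have hg : Nat.gcd (x % M) M = 1 := by
      have : Nat.Coprime x M := (Nat.Prime.coprime_iff_not_dvd hx).mpr hdv
      rw [← this, Nat.gcd_comm x M, Nat.gcd_rec M x, Nat.gcd_comm]
    have h2 : Rc (x % M) r % s = 1 := by
      rw [← Rc_mod (x % M) r s hr, Nat.mod_mod_of_dvd _ hsM, Rc_mod x r s hr, h1]
    have hw := hc _ (Nat.mod_lt _ hM) hg h2
    refine winAll_spec hr hs.one_lt.le F hF hw (t := x / M) (x := x) (y := y) ?_ ?_ hR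
    · rw [Nat.div_lt_iff_lt_mul hM]
      omega
    · exact (Nat.mod_add_div x M).symm

end Pool.Agent.W_MP_cac67d_h21
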