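import Mathlib
import Pool.Agent.W_MP_cac67d_h21.Comb
import Pool.Agent.W_MP_cac67d_h21.F11

set_option autoImplicit false

namespace Pool.Agent.W_MP_cac67d_h21

theorem cl_11_17_0 : clsR 17 11 66 93 1 F_11_17 0 66 = true := by decide +kernel

theorem cl_11_19_0 : clsR 19 11 66 176 1 F_11_19 0 66 = true := by decide +kernel

theorem cl_11_23_0 : clsR 23 11 66 1286 1 F_11_23 0 66 = true := by decide +kernel

theorem cl_11_29_0 : clsR 29 11 66 690 1 F_11_29 0 66 = true := by decide +kernel

theorem cl_11_37_0 : clsR 37 11 66 306 1 F_11_37 0 66 = true := by decide +kernel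

theorem cl_11_43_0 : clsR 43 11 66 1112 1 F_11_43 0 66 = true := by decide +kernel

theorem cl_11_47_0 : clsR 47 11 66 5918 1 F_11_47 0 66 = true := by decide +kernel

theorem cl_11_53_0 : clsR 53 11 66 2442 1 F_11_53 0 66 = true := by decide +kernel

end Pool.Agent.W_MP_cac67d_h21
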