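import Mathlib
import Pool.Agent.W_MP_cac67d_h21.Comb
import Pool.Agent.W_MP_cac67d_h21.H11_0

set_option autoImplicit false

namespace Pool.Agent.W_MP_cac67d_h21

def V0_11 : List ℤ := [1, 55, 330, 462, 165, 11]

lemma V0_11_eq (x : ℤ) : (UV x 1 5).2 = ev V0_11 x := by
  simp only [UV, V0_11, ev]
  ring

def K_11 : List (ℕ × ℕ) := [(23, 1179171), (17, 10494), (67, 133827995086570224171), (53, 2192666410675878), (37, 136307178818), (89, 236968236892003097699151683), (101, 934521418231843894813954129142), (383, 11270192924290952066321607168379454260154888838117576405386809212582186475239926613257472852154941276958945093066738), (47, 133656801491194), (59, 569260284895382386), (109, 587719527931744080913858905905602), (19, 417250), (31, 1735362670), (107, 91238612351928710195531935502262), (71, 566724772519195864894), (79, 509984716874770586040966), (191, 1749014717816898442785113506768695613056631844525555170254), (149, 333399379429682272015703182818420118566784406), (331, 956194623464103272347080786342856727108394695886235643451123129735901476141437950762347149437270147), (127, 163901936014881682127427862476107802730), (5, 14), (223, 5839247197382771128656858410527319691505709278790798028296940679046),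 (251, 2387395938370240063670058178833677773679811688212630183028277918111567363574), (151, 705377214841515337866134227824876226921573166), (431, 2448829054809308535841583530663734042465218915452889351321181514490542542074715034672007150412806807925982806525702020925610651370), (197, 167443462585216566902632852624402307618977525644975953410818), (443, 22246956550451313844677462522206997003316899408266621873915426998162350861086816631977116408915936480631112345167261480287153047395346), (449, 1441382507169843964986320452535859362915399166572079178451540854642813494479913650563515532518217069830205452301675370396436291106807306), (317, 266950576219745048597220724274134029772755922740385611944573898333943075336706547937573606899082), (157, 41297136146285283647829261845217105671747894878), (263, 12212319116999099101612216704023067128828972503325489123161730897909423499483898), (439, 689091592047801230714013209359189764930555515060322165277795015546924804573756940080539342154559176503489559567955074795571911241278), (181, 2870126671770826366699654338009200583292831694408251778), (359, 372298244532197517838084598588332288216317446151426883939224991462781655646868279190866323108797990740686974),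 (97, 19071837313213056318747147638), (409, 874001108971335705050818662982257402094421721556103392532785885116489649846724152073826234361584127755708967825673495931534), (491, 3983539094392861442582244770432514645428542736044362389018284366951944825511049544026362776162591404991758100149568402612767006453842515459896409838), (281, 3458553547652600564305283196939667955043220367842102759765840267235288993473078193470), (313, 12380375582359988859554339098842193788207437488313139564995906930395403977188884935381691644830), (337, 116259561173335061919435939261081089874841560933539070946439970911321177473777607890371555669501918162)]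

theorem okK_11 : okV 11 K_11 = true := by decide +kernel

theorem rc_11_13 : rchk 6 5 2 6 5 256 219 (2 ^ 26) 223628926548042512
  [4]
  [231, 252, 280, 320, 384, 512, 1024]
  [995215, 932152, 855712, 759616, 631488, 439296]
  [63, 70, 80, 96, 128, 256]
  [61567, 56716, 50556, 42240, 29568] = true := by
  decide +kernel

theorem tail_11_13 : Tail 13 11 219 := tail_runge (a := 6) (b := 5) rc_11_13

theorem sm_11_13 : smallAll 13 11 K_11 217 = true := by decide +kernel

theorem head_11_13 : Head 13 11 219 := head_small (n := 217) (by norm_num) (by norm_num) K_11 okK_11 sm_11_13

theorem ns_11_13 : NoSol 13 11 := noSol_of tail_11_13 head_11_13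

theorem rc_11_17 : rchk 8 5 2 8 5 256 6106 (2 ^ 37) 126560679131919859989965499939318093
  [128]
  [6435, 6864, 7392, 8064, 8960, 10240, 12288, 16384, 32768]
  [1032332599, 985402144, 931492288, 868480768, 793082368, 699731968, 577527808, 398295040]
  [63, 70, 80, 96, 128, 256]
  [61567, 56716, 50556, 42240, 29568] = true := by
  decide +kernel

theorem tail_11_17 : Tail 17 11 6106 := tail_runge (a := 8) (b := 5) rc_11_17

theorem okF_11_17 : okF 17 11 66 F_11_17 = true := by decide +kernel

theorem cls_11_17 : ∀ c < 66, Nat.gcd c 66 = 1 → Rc c 17 % 11 = 1 → winAll 93 c F_11_17 1 = true := by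
  intro c hc
  exact clsR_spec cl_11_17_0 c (by omega) (by omega)

theorem dc_11_17 : dchk 17 11 66 K_11 66 = true := by decide +kernel

theorem head_11_17 : Head 17 11 6106 := head_sieve (M := 66) (W := 93) (nw := 1) (by norm_num) (by norm_num) (by norm_num) (by norm_num) K_11 F_11_17 okK_11 okF_11_17 dc_11_17 cls_11_17 (by norm_num)

theorem ns_11_17 : NoSol 17 11 := noSol_of tail_11_17 head_11_17

theorem rc_11_19 : rchk 9 5 2 9 5 256 11597 (2 ^ 39) 497165957437489297274963331048819440547011
  [256]
  [12155, 12870, 13728, 14784, 16128, 17920, 20480, 24576, 32768, 65536]
  [4147223271, 3982097596, 3795602716, 3582209536, 3333897472, 3038287872, 2674460672, 2201485312, 1513521152]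
  [63, 70, 80, 96, 128, 256]
  [61567, 56716, 50556, 42240, 29568] = true := by
  decide +kernel

theorem tail_11_19 : Tail 19 11 11597 := tail_runge (a := 9) (b := 5) rc_11_19

theorem okF_11_19 : okF 19 11 66 F_11_19 = true := by decide +kernel

theorem cls_11_19 : ∀ c < 66, Nat.gcd c 66 = 1 → Rc c 19 % 11 = 1 → winAll 176 c F_11_19 1 = true := by
  intro c hc
  exact clsR_spec cl_11_19_0 c (by omega) (by omega)

theorem dc_11_19 : dchk 19 11 66 K_11 66 = true := by decide +kernel

theorem head_11_19 : Head 19 11 11597 := head_sieve (M := 66) (W := 176) (nw := 1) (by norm_num) (by norm_num) (by norm_num) (by norm_num) K_11 F_11_19 okK_11 okF_11_19 dc_11_19 cls_11_19 (by norm_num)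

theorem ns_11_19 : NoSol 19 11 := noSol_of tail_11_19 head_11_19

theorem rc_11_23 : rchk 11 5 2 11 5 256 84840 (2 ^ 45) 1718655827817367009624057459051216586836535407430846635926905
  [2048]
  [88179, 92378, 97240, 102960, 109824, 118272, 129024, 143360, 163840, 196608, 262144, 524288]
  [267102370903, 258586307620, 249195160140, 238754413824, 227031470592, 213705389824, 198312697600, 180140769280, 157988323328, 129506607104, 88609783808]
  [63, 70, 80, 96, 128, 256]
  [61567, 56716, 50556, 42240, 29568] = true := by
  decide +kernel

theorem tail_11_23 : Tail 23 11 84840 := tail_runge (a := 11) (b := 5) rc_11_23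

theorem okF_11_23 : okF 23 11 66 F_11_23 = true := by decide +kernel

theorem cls_11_23 : ∀ c < 66, Nat.gcd c 66 = 1 → Rc c 23 % 11 = 1 → winAll 1286 c F_11_23 1 = true := by
  intro c hc
  exact clsR_spec cl_11_23_0 c (by omega) (by omega)

theorem dc_11_23 : dchk 23 11 66 K_11 66 = true := by decide +kernel

theorem head_11_23 : Head 23 11 84840 := head_sieve (M := 66) (W := 1286) (nw := 1) (by norm_num) (by norm_num) (by norm_num) (by norm_num) K_11 F_11_23 okK_11 okF_11_23 dc_11_23 cls_11_23 (by norm_num)

theorem ns_11_23 : NoSol 23 11 := noSol_of tail_11_23 head_11_23

theorem rc_11_29 : rchk 14 5 2 14 5 256 45490 (2 ^ 68) 2127241998416914102010318754600950164430408969797544879148116603137848188468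
  [-4063232, 4194304]
  [-334305, -742900, -1248072, -1881152, -2687360, -3734016, -5125120, -7028736, -9732096, -13762560, -20185088, -31457280, -54525952, -117440512, -503316480, 1073741824]
  [1081989698715928639, -1151796101410373352, 1124513533012704, 1122787764426304, 1119750411714240, 1114714800638976, 1106678428999680, 1094154213457920, 1074886189547520, 1045341886218240, 999729628446720, 927855767715840, 809475291217920, 593203266846720]
  [63, 70, 80, 96, 128, 256]
  [61567, 56716, 50556, 42240, 29568] = true := by
  decide +kernel

theorem tail_11_29 : Tail 29 11 45490 := tail_runge (a := 14) (b := 5) rc_11_29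

theorem okF_11_29 : okF 29 11 66 F_11_29 = true := by decide +kernel

theorem cls_11_29 : ∀ c < 66, Nat.gcd c 66 = 1 → Rc c 29 % 11 = 1 → winAll 690 c F_11_29 1 = true := by
  intro c hc
  exact clsR_spec cl_11_29_0 c (by omega) (by omega)

theorem dc_11_29 : dchk 29 11 66 K_11 66 = true := by decide +kernel

theorem head_11_29 : Head 29 11 45490 := head_sieve (M := 66) (W := 690) (nw := 1) (by norm_num) (by norm_num) (by norm_num) (by norm_num) K_11 F_11_29 okK_11 okF_11_29 dc_11_29 cls_11_29 (by norm_num)

theorem ns_11_29 : NoSol 29 11 := noSol_of tail_11_29 head_11_29

theorem rc_11_31 : rchk 15 5 10 3 1 10 64 (2 ^ 117) 28786798641721102897661349962770407195177743272430888411843705441424128727017530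
  [200]
  [77, 110, 200, 2000]
  [1023999999999992673319527413799351, 1023999999999895333136105911419300, 1023999999999136838200353944821500, 1023999999993086938117570401720000, 1023999999952918447292033353900000, 1023999999732687542941044907600000, 1023999998547644671646933170000000, 1023999992784388763513023600000000, 1023999967835439155232071500000000, 1023999862121430935552250000000000, 1023999448987395450736110000000000, 1023997970987568935568000000000000, 1023992781673438973760000000000000, 1023975919385899639600000000000000, 1023925134330032494000000000000000, 1023774344830171648000000000000000, 1023363255405870400000000000000000, 1022318483440288000000000000000000, 1019682335484000000000000000000000, 1013720974848000000000000000000000, 1001097232819200000000000000000000, 974224669440000000000000000000000, 926059974400000000000000000000000, 843977728000000000000000000000000, 699677440000000000000000000000000, 525521920000000000000000000000000, 305536000000000000000000000000000]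
  [1, 10]
  [9999999999, 9999999900, 9999995500, 9999880000, 9997900000, 9974800000, 9790000000, 8800000000, 5500000000] = true := by
  decide +kernel

theorem tail_11_31 : Tail 31 11 64 := tail_runge (a := 15) (b := 5) rc_11_31

theorem sm_11_31 : smallAll 31 11 K_11 62 = true := by decide +kernel

theorem head_11_31 : Head 31 11 64 := head_small (n := 62) (by norm_num) (by norm_num) K_11 okK_11 sm_11_31

theorem ns_11_31 : NoSol 31 11 := noSol_of tail_11_31 head_11_31

theorem rc_11_37 : rchk 18 5 2 18 5 256 20139 (2 ^ 87) 2086766432428241416772473536148173116705132112215352866767050999882135603849793565567845551381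
  [-2617245696, 2684354560]
  [-119409675, -259289580, -424292040, -620470080, -855820800, -1141094400, -1491030016, -1926299648, -2476670976, -3186360320, -4123525120, -5398069248, -7197425664, -9865003008, -14092861440, -21474836480, -36507222016, -77309411328, -326417514496, 687194767360]
  [448919949519125164521351, -471941562305154125916744, 294979344943853275456, 294779695908454891456, 294441732024081451456, 293905057892877331456, 293088851558280441856, 291884313514179690496, 290143765929929015296, 287664539838744887296, 284164455945308471296, 279243125864840298496, 272317931125966110720, 262511274240497418240, 248434085612633456640, 227714414039154032640, 195746920754357207040, 140963412654528921600]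
  [63, 70, 80, 96, 128, 256]
  [61567, 56716, 50556, 42240, 29568] = true := by
  decide +kernel

theorem tail_11_37 : Tail 37 11 20139 := tail_runge (a := 18) (b := 5) rc_11_37

theorem okF_11_37 : okF 37 11 66 F_11_37 = true := by decide +kernel

theorem cls_11_37 : ∀ c < 66, Nat.gcd c 66 = 1 → Rc c 37 % 11 = 1 → winAll 306 c F_11_37 1 = true := by
  intro c hc
  exact clsR_spec cl_11_37_0 c (by omega) (by omega)

theorem dc_11_37 : dchk 37 11 66 K_11 66 = true := by decide +kernel

theorem head_11_37 : Head 37 11 20139 := head_sieve (M := 66) (W := 306) (nw := 1) (by norm_num) (by norm_num) (by norm_num) (by norm_num) K_11 F_11_37 okK_11 okF_11_37 dc_11_37 cls_11_37 (by norm_num)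

theorem ns_11_37 : NoSol 37 11 := noSol_of tail_11_37 head_11_37

theorem rc_11_41 : rchk 20 5 10 4 1 10 1969 (2 ^ 171) 52499535466857846184462810152969644429607281628340016305131154647586443773948157914425056526057866763741602260221509596747298792190741385160337885553389395463923766
  [8000]
  [2387, 3080, 4400, 8000, 80000]
  [10737418239999993994845434998486840615024203260151, 10737418239999922514134645141765685355151009808400, 10737418239999439387978768998028230449710070964000, 10737418239996965153520123111278961259222085040000, 10737418239984601489572897671820195521402438400000, 10737418239926359113359820323935102155972812800000, 10737418239680358038505625968916250315549440000000, 10737418238744130514505031925375004005676800000000, 10737418235267591839541391616301298140128000000000, 10737418222844430105750588443796132894720000000000, 10737418181214225942929442792995484979200000000000, 10737418050384702714357987894229039104000000000000, 10737417646519355680796476625703444480000000000000, 10737416441654403971030266897322803200000000000000, 10737413027803330626751845538496512000000000000000, 10737403813425949569372267340201984000000000000000, 10737379242189044046453177230540800000000000000000,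 10737316012425546568356733616128000000000000000000, 10737160946025090610536599715840000000000000000000, 10736795776582608736047838003200000000000000000000, 10735941135562888468971021926400000000000000000000, 10734025996678853671318978560000000000000000000000, 10729940520290008015621324800000000000000000000000, 10721524094081129700130816000000000000000000000000, 10704158166643250086543360000000000000000000000000, 10670542549672228531732480000000000000000000000000, 10608789540157530308608000000000000000000000000000, 10498431840593651957760000000000000000000000000000, 10298451276671955763200000000000000000000000000000, 9976546315355553792000000000000000000000000000000, 9483096842569777152000000000000000000000000000000, 8735004621904281600000000000000000000000000000000, 7558886009602048000000000000000000000000000000000, 6201826072330240000000000000000000000000000000000, 4597420235161600000000000000000000000000000000000, 2627097277235200000000000000000000000000000000000]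
  [1, 10]
  [9999999999, 9999999900, 9999995500, 9999880000, 9997900000, 9974800000, 9790000000, 8800000000, 5500000000] = true := by
  decide +kernel

theorem tail_11_41 : Tail 41 11 1969 := tail_runge (a := 20) (b := 5) rc_11_41

theorem sm_11_41 : smallAll 41 11 K_11 1967 = true := by decide +kernel

theorem head_11_41 : Head 41 11 1969 := head_small (n := 1967) (by norm_num) (by norm_num) K_11 okK_11 sm_11_41

theorem ns_11_41 : NoSol 41 11 := noSol_of tail_11_41 head_11_41

theorem rc_11_43 : rchk 21 5 2 21 5 256 73359 (2 ^ 100) 11090389069175725854891132055527188571972866657531646234981259681428947086254250274556275197958982833599040857067000644431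
  [-193273528320, 197568495616]
  [-6116566755, -13128240840, -21207158280, -30568876800, -41486332800, -54309381120, -69492648960, -87636049920, -109545062400, -136322744320, -169514369024, -211342589952, -265105178624, -335879864320, -431845539840, -566935683072, -766651662336, -1082331758592, -1632087572480, -2748779069440, -5772436045824, -24189255811072, 50577534877696]
  [2448074747307235210408776375, -2556878269084463651658110640, 1208494038908469188837776, 1207995041100620352827776, 1207165937050656132995776, 1205875602549930318462976, 1203955662810402224766976, 1201189247175860513406976, 1197295773319838845566976, 1191910055627757631307776, 1184553122685531276967936, 1174590609326266422132736, 1161171943907449017204736, 1143138714815192142708736, 1118881208620813108903936, 1086102475891485542711296, 1041404203987857043357696, 979491816308371615645696, 891438642719770118455296, 760054038970462095015936, 542222174203493430067200]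
  [63, 70, 80, 96, 128, 256]
  [61567, 56716, 50556, 42240, 29568] = true := by
  decide +kernel

theorem tail_11_43 : Tail 43 11 73359 := tail_runge (a := 21) (b := 5) rc_11_43

theorem okF_11_43 : okF 43 11 66 F_11_43 = true := by decide +kernel

theorem cls_11_43 : ∀ c < 66, Nat.gcd c 66 = 1 → Rc c 43 % 11 = 1 → winAll 1112 c F_11_43 1 = true := by
  intro c hc
  exact clsR_spec cl_11_43_0 c (by omega) (by omega)

theorem dc_11_43 : dchk 43 11 66 K_11 66 = true := by decide +kernel

theorem head_11_43 : Head 43 11 73359 := head_sieve (M := 66) (W := 1112) (nw := 1) (by norm_num) (by norm_num) (by norm_num) (by norm_num) K_11 F_11_43 okK_11 okF_11_43 dc_11_43 cls_11_43 (by norm_num)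

theorem ns_11_43 : NoSol 43 11 := noSol_of tail_11_43 head_11_43

theorem rc_11_47 : rchk 23 5 2 23 5 256 390552 (2 ^ 110) 558007162371282704820523581653760139177632087484011658461507658865540732851381355558141313305313207655775187368226513601506174716765353784395559594491
  [-6734508720128, 6871947673600]
  [-171529806825, -365930254560, -587190408480, -840207413760, -1131048441600, -1467306086400, -1858587709440, -2317200261120, -2859126128640, -3505441996800, -4284429107200, -5234793381888, -6410725228544, -7890123358208, -9788498903040, -12283606466560, -15661598244864, -20409684590592, -27419071217664, -38482906972160, -57724360458240, -96757023244288, -202310139510784, -844424930131968, 1759218604441600]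
  [2972294004901723410610980681199, -3093612283710057059172662179776, 1237604693019505794014578624, 1237222056583329350039962624, 1236592315042573842961882624, 1235622172668977521247002624, 1234194339433412760646426624, 1232161067819390994414567424, 1229335677983529483025383424, 1225481319798491547040743424, 1220295876954957026556903424, 1213391381241475001403572224, 1204265439081046585548734464, 1192260725250101642908401664, 1176506076886865627960049664, 1155828100910118358340337664, 1128613216398786468002136064, 1092581201882878272920879104, 1044387911830252891829960704, 978861947285016628065992704, 887333615856750100903624704, 753159116817950598448021504, 534576660202015408993075200]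
  [63, 70, 80, 96, 128, 256]
  [61567, 56716, 50556, 42240, 29568] = true := by
  decide +kernel

theorem tail_11_47 : Tail 47 11 390552 := tail_runge (a := 23) (b := 5) rc_11_47

theorem okF_11_47 : okF 47 11 66 F_11_47 = true := by decide +kernel

theorem cls_11_47 : ∀ c < 66, Nat.gcd c 66 = 1 → Rc c 47 % 11 = 1 → winAll 5918 c F_11_47 1 = true := by
  intro c hc
  exact clsR_spec cl_11_47_0 c (by omega) (by omega)

theorem dc_11_47 : dchk 47 11 66 K_11 66 = true := by decide +kernel

theorem head_11_47 : Head 47 11 390552 := head_sieve (M := 66) (W := 5918) (nw := 1) (by norm_num) (by norm_num) (by norm_num) (by norm_num) K_11 F_11_47 okK_11 okF_11_47 dc_11_47 cls_11_47 (by norm_num)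

theorem ns_11_47 : NoSol 47 11 := noSol_of tail_11_47 head_11_47

theorem c1_11_53 : c1chk 26 5 161126 V0_11 = true := by decide +kernel

theorem tail_11_53 : Tail 53 11 161126 := tail_c1 (a := 26) (b := 5) (a' := 26) V0_11_eq c1_11_53 (le_refl _)

theorem okF_11_53 : okF 53 11 66 F_11_53 = true := by decide +kernel

theorem cls_11_53 : ∀ c < 66, Nat.gcd c 66 = 1 → Rc c 53 % 11 = 1 → winAll 2442 c F_11_53 1 = true := by
  intro c hc
  exact clsR_spec cl_11_53_0 c (by omega) (by omega)

theorem dc_11_53 : dchk 53 11 66 K_11 66 = true := by decide +kernel

theorem head_11_53 : Head 53 11 161126 := head_sieve (M := 66) (W := 2442) (nw := 1) (by norm_num) (by norm_num) (by norm_num) (by norm_num) K_11 F_11_53 okK_11 okF_11_53 dc_11_53 cls_11_53 (by norm_num)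

theorem ns_11_53 : NoSol 53 11 := noSol_of tail_11_53 head_11_53

theorem c1_11_59 : c1chk 29 5 34 V0_11 = true := by decide +kernel

theorem tail_11_59 : Tail 59 11 34 := tail_c1 (a := 29) (b := 5) (a' := 29) V0_11_eq c1_11_59 (le_refl _)

theorem sm_11_59 : smallAll 59 11 K_11 32 = true := by decide +kernel

theorem head_11_59 : Head 59 11 34 := head_small (n := 32) (by norm_num) (by norm_num) K_11 okK_11 sm_11_59

theorem ns_11_59 : NoSol 59 11 := noSol_of tail_11_59 head_11_59

theorem c1_11_61 : c1chk 30 5 21 V0_11 = true := by decide +kernel

theorem tail_11_61 : Tail 61 11 21 := tail_c1 (a := 30) (b := 5) (a' := 30) V0_11_eq c1_11_61 (le_refl _)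

theorem sm_11_61 : smallAll 61 11 K_11 19 = true := by decide +kernel

theorem head_11_61 : Head 61 11 21 := head_small (n := 19) (by norm_num) (by norm_num) K_11 okK_11 sm_11_61

theorem ns_11_61 : NoSol 61 11 := noSol_of tail_11_61 head_11_61

theorem c1_11_67 : c1chk 33 5 10 V0_11 = true := by decide +kernel

theorem tail_11_67 : Tail 67 11 10 := tail_c1 (a := 33) (b := 5) (a' := 33) V0_11_eq c1_11_67 (le_refl _)

theorem sm_11_67 : smallAll 67 11 K_11 8 = true := by decide +kernel

theorem head_11_67 : Head 67 11 10 := head_small (n := 8) (by norm_num) (by norm_num) K_11 okK_11 sm_11_67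

theorem ns_11_67 : NoSol 67 11 := noSol_of tail_11_67 head_11_67

theorem c1_11_71 : c1chk 35 5 7 V0_11 = true := by decide +kernel

theorem tail_11_71 : Tail 71 11 7 := tail_c1 (a := 35) (b := 5) (a' := 35) V0_11_eq c1_11_71 (le_refl _)

theorem sm_11_71 : smallAll 71 11 K_11 5 = true := by decide +kernel

theorem head_11_71 : Head 71 11 7 := head_small (n := 5) (by norm_num) (by norm_num) K_11 okK_11 sm_11_71

theorem ns_11_71 : NoSol 71 11 := noSol_of tail_11_71 head_11_71

theorem c1_11_73 : c1chk 36 5 7 V0_11 = true := by decide +kernel

theorem tail_11_73 : Tail 73 11 7 := tail_c1 (a := 36) (b := 5) (a' := 36) V0_11_eq c1_11_73 (le_refl _)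

theorem sm_11_73 : smallAll 73 11 K_11 5 = true := by decide +kernel

theorem head_11_73 : Head 73 11 7 := head_small (n := 5) (by norm_num) (by norm_num) K_11 okK_11 sm_11_73

theorem ns_11_73 : NoSol 73 11 := noSol_of tail_11_73 head_11_73

theorem c1_11_79 : c1chk 39 5 5 V0_11 = true := by decide +kernel

theorem tail_11_79 : Tail 79 11 5 := tail_c1 (a := 39) (b := 5) (a' := 39) V0_11_eq c1_11_79 (le_refl _)

theorem sm_11_79 : smallAll 79 11 K_11 3 = true := by decide +kernel

theorem head_11_79 : Head 79 11 5 := head_small (n := 3) (by norm_num) (by norm_num) K_11 okK_11 sm_11_79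

theorem ns_11_79 : NoSol 79 11 := noSol_of tail_11_79 head_11_79

theorem c1_11_83 : c1chk 41 5 5 V0_11 = true := by decide +kernel

theorem tail_11_83 : Tail 83 11 5 := tail_c1 (a := 41) (b := 5) (a' := 41) V0_11_eq c1_11_83 (le_refl _)

theorem sm_11_83 : smallAll 83 11 K_11 3 = true := by decide +kernel

theorem head_11_83 : Head 83 11 5 := head_small (n := 3) (by norm_num) (by norm_num) K_11 okK_11 sm_11_83

theorem ns_11_83 : NoSol 83 11 := noSol_of tail_11_83 head_11_83

theorem c1_11_89 : c1chk 44 5 4 V0_11 = true := by decide +kernel

theorem tail_11_89 : Tail 89 11 4 := tail_c1 (a := 44) (b := 5) (a' := 44) V0_11_eq c1_11_89 (le_refl _)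

theorem sm_11_89 : smallAll 89 11 K_11 2 = true := by decide +kernel

theorem head_11_89 : Head 89 11 4 := head_small (n := 2) (by norm_num) (by norm_num) K_11 okK_11 sm_11_89

theorem ns_11_89 : NoSol 89 11 := noSol_of tail_11_89 head_11_89

theorem c1_11_97 : c1chk 48 5 3 V0_11 = true := by decide +kernel

theorem tail_11_97 : Tail 97 11 3 := tail_c1 (a := 48) (b := 5) (a' := 48) V0_11_eq c1_11_97 (le_refl _)

theorem sm_11_97 : smallAll 97 11 K_11 1 = true := by decide +kernel

theorem head_11_97 : Head 97 11 3 := head_small (n := 1) (by norm_num) (by norm_num) K_11 okK_11 sm_11_97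

theorem ns_11_97 : NoSol 97 11 := noSol_of tail_11_97 head_11_97

theorem c1_11_101 : c1chk 50 5 3 V0_11 = true := by decide +kernel

theorem tail_11_101 : Tail 101 11 3 := tail_c1 (a := 50) (b := 5) (a' := 50) V0_11_eq c1_11_101 (le_refl _)

theorem sm_11_101 : smallAll 101 11 K_11 1 = true := by decide +kernel

theorem head_11_101 : Head 101 11 3 := head_small (n := 1) (by norm_num) (by norm_num) K_11 okK_11 sm_11_101

theorem ns_11_101 : NoSol 101 11 := noSol_of tail_11_101 head_11_101

theorem c1_11_103 : c1chk 51 5 3 V0_11 = true := by decide +kernel

theorem tail_11_103 : Tail 103 11 3 := tail_c1 (a := 51) (b := 5) (a' := 51) V0_11_eq c1_11_103 (le_refl _)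

theorem sm_11_103 : smallAll 103 11 K_11 1 = true := by decide +kernel

theorem head_11_103 : Head 103 11 3 := head_small (n := 1) (by norm_num) (by norm_num) K_11 okK_11 sm_11_103

theorem ns_11_103 : NoSol 103 11 := noSol_of tail_11_103 head_11_103

theorem c1_11_107 : c1chk 53 5 3 V0_11 = true := by decide +kernel

theorem tail_11_107 : Tail 107 11 3 := tail_c1 (a := 53) (b := 5) (a' := 53) V0_11_eq c1_11_107 (le_refl _)

theorem sm_11_107 : smallAll 107 11 K_11 1 = true := by decide +kernel

theorem head_11_107 : Head 107 11 3 := head_small (n := 1) (by norm_num) (by norm_num) K_11 okK_11 sm_11_107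

theorem ns_11_107 : NoSol 107 11 := noSol_of tail_11_107 head_11_107

theorem c1_11_109 : c1chk 54 5 3 V0_11 = true := by decide +kernel

theorem tail_11_109 : Tail 109 11 3 := tail_c1 (a := 54) (b := 5) (a' := 54) V0_11_eq c1_11_109 (le_refl _)

theorem sm_11_109 : smallAll 109 11 K_11 1 = true := by decide +kernel

theorem head_11_109 : Head 109 11 3 := head_small (n := 1) (by norm_num) (by norm_num) K_11 okK_11 sm_11_109

theorem ns_11_109 : NoSol 109 11 := noSol_of tail_11_109 head_11_109

theorem c1_11_113 : c1chk 56 5 3 V0_11 = true := by decide +kernel

theorem tail_11_113 : Tail 113 11 3 := tail_c1 (a := 56) (b := 5) (a' := 56) V0_11_eq c1_11_113 (le_refl _)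

theorem sm_11_113 : smallAll 113 11 K_11 1 = true := by decide +kernel

theorem head_11_113 : Head 113 11 3 := head_small (n := 1) (by norm_num) (by norm_num) K_11 okK_11 sm_11_113

theorem ns_11_113 : NoSol 113 11 := noSol_of tail_11_113 head_11_113

theorem c1_11_127 : c1chk 63 5 3 V0_11 = true := by decide +kernel

theorem tail_11_127 : Tail 127 11 3 := tail_c1 (a := 63) (b := 5) (a' := 63) V0_11_eq c1_11_127 (le_refl _)

theorem sm_11_127 : smallAll 127 11 K_11 1 = true := by decide +kernel

theorem head_11_127 : Head 127 11 3 := head_small (n := 1) (by norm_num) (by norm_num) K_11 okK_11 sm_11_127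

theorem ns_11_127 : NoSol 127 11 := noSol_of tail_11_127 head_11_127

theorem c1_11_end : c1chk 65 5 2 V0_11 = true := by decide +kernel

theorem noSol_11 (r : ℕ) (hr : r.Prime) (hrs : 11 < r) : NoSol r 11 := by
  rcases Nat.lt_or_ge r 131 with h | h
  · have key : ∀ n < 131, 11 < n → n.Prime → n ∈ [13, 17, 19, 23, 29, 31, 37, 41, 43, 47, 53, 59, 61, 67, 71, 73, 79, 83, 89, 97, 101, 103, 107, 109, 113, 127] := by decide +kernel
    have hmem := key r h hrs hr
    simp only [List.mem_cons, List.not_mem_nil, or_false] at hmem
    rcases hmem with rfl | rfl | rfl | rfl | rfl | rfl | rfl | rfl | rfl | rfl | rfl | rfl | rfl | rfl | rfl | rfl | rfl | rfl | rfl | rfl | rfl | rfl | rfl | rfl | rfl | rfl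
    · exact ns_11_13
    · exact ns_11_17
    · exact ns_11_19
    · exact ns_11_23
    · exact ns_11_29
    · exact ns_11_31
    · exact ns_11_37
    · exact ns_11_41
    · exact ns_11_43
    · exact ns_11_47
    · exact ns_11_53
    · exact ns_11_59
    · exact ns_11_61
    · exact ns_11_67
    · exact ns_11_71
    · exact ns_11_73
    · exact ns_11_79
    · exact ns_11_83
    · exact ns_11_89
    · exact ns_11_97
    · exact ns_11_101
    · exact ns_11_103
    · exact ns_11_107
    · exact ns_11_109
    · exact ns_11_113
    · exact ns_11_127
  · have ho : Odd r := hr.odd_of_ne_two (by omega)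
    obtain ⟨a', rfl⟩ := ho
    exact noSol_of (T := 2) (tail_c1 (a := 65) (b := 5) (a' := a') V0_11_eq c1_11_end (by omega))
      (fun x y hx _ hxT => absurd hx.two_le (by omega))

end Pool.Agent.W_MP_cac67d_h21
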