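import Mathlib
import Pool.Agent.W_MP_cac67d_h21.Comb

set_option autoImplicit false

namespace Pool.Agent.W_MP_cac67d_h21

def V0_7 : List ℤ := [1, 21, 35, 7]

lemma V0_7_eq (x : ℤ) : (UV x 1 3).2 = ev V0_7 x := by
  simp only [UV, V0_7, ev]
  ring

def K_7 : List (ℕ × ℕ) := [(79, 487131290139805272650990), (109, 130133865052746969968107377900798), (199, 557075484995886188803291148086339421939868348779359661166294), (61, 1125610433435245994), (19, 436194), (149, 487610546899242930701994574783419549931749310), (83, 1885346409971498659636218), (71, 141633242463708630263), (59, 49498105301546982), (367, 273863757268790931844003437353015237277412685127696563358150682562821415565691179571983841496589553415673067914), (479, 1390513032857777454619718416000780418527401380548452458131530810774492868025293179806395839647925624112858845182869047142812617771057867173012458), (5, 14), (233, 5351052835610467342291830322428489206690582100953152347138804986911902), (461, 3844043446499437087930217297407518335600428082941584444654444554604491123722108509199681873554449316471064841493996193002089177515318013666), (107, 124059382438255583450664720537598), (23,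 2039482), (167, 150214776924081020794266160399518924123632036671146), (307, 246149131202110972123495170594507238838316742812605941562419974188603519141909873992500531902), (467, 294490101582207909346992342783109671254505798480663469387709517159018438787059346761677578087931686326830977644241690066237915094408236010466), (313, 12053138782335851098768691983357789665106099105148031467505519573004603577630460558587621980086), (251, 804402414935571860355923219187857334433090027110995160911379563229155614658), (13, 1978), (151, 1414545562933311272158677242201567664555856794), (443, 18088662712163042075268101609940322391729540366906553137930581333983639250729422499171210147405163044690057797840379401663166337105914), (337, 45180383498904025124524612600521876462292100910289075811509430851793902657107945346902349896190968555), (491, 5590209195275867198483350125445624082917589466794701367367527576424026058479058482581037730494431899175089809639146867736245069019363755497743052271), (37, 68509082354), (431, 5544526250279155806855850035582662075410037650256290087868364122870926342908797313617691080653699101383746823503307938787946370254), (283, 15099894498390545531723177036613927501504045746622930613027690156550914905892248065278),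 (191, 3127280883011857457492965627163936520738193603115793714846), (353, 13590720753648190716366320120516718231602494106901787203986832287402974856426592161403378033226777167544042), (409, 290484169917508423051184548627841138510238046433414281032852391029495167306889241832002214648946952465971618354247484517350), (499, 1370509620873458398939614348395648066652363542454876458945906982084992616743785658968009821221457007817406585608058915435581846171165929990969269065654), (487, 316223276255684254730896319185398621707134650370594024599153791659768228182124029769440634336260742424539052545091082362567518196503084347023376286), (257, 171277848704965478600786697990699775923397296518359625174210980173117348587990), (43, 6732649920503), (277, 234681764282137655753905822988173371889259514017122626349070706343405631500025600422), (229, 526861081412755044002662332085434284871607513671201691859641130391754), (197, 180760911275776668063057969776396733034213075938428189294815), (173, 9609184685337591257913510802467858550859422932468706)]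

theorem okK_7 : okV 7 K_7 = true := by decide +kernel

theorem rc_7_11 : rchk 5 3 2 5 3 16 62 (2 ^ 22) 448918356826
  [16]
  [63, 70, 80, 96, 128, 256]
  [61567, 56716, 50556, 42240, 29568]
  [5, 6, 8, 16]
  [231, 196, 140] = true := by
  decide +kernel

theorem tail_7_11 : Tail 11 7 62 := tail_runge (a := 5) (b := 3) rc_7_11

theorem sm_7_11 : smallAll 11 7 K_7 60 = true := by decide +kernel

theorem head_7_11 : Head 11 7 62 := head_small (n := 60) (by norm_num) (by norm_num) K_7 okK_7 sm_7_11

theorem ns_7_11 : NoSol 11 7 := noSol_of tail_7_11 head_7_11

theorem rc_7_13 : rchk 6 3 2 6 3 16 219 (2 ^ 26) 223628926548042512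
  [64]
  [231, 252, 280, 320, 384, 512, 1024]
  [995215, 932152, 855712, 759616, 631488, 439296]
  [5, 6, 8, 16]
  [231, 196, 140] = true := by
  decide +kernel

theorem tail_7_13 : Tail 13 7 219 := tail_runge (a := 6) (b := 3) rc_7_13

theorem sm_7_13 : smallAll 13 7 K_7 217 = true := by decide +kernel

theorem head_7_13 : Head 13 7 219 := head_small (n := 217) (by norm_num) (by norm_num) K_7 okK_7 sm_7_13

theorem ns_7_13 : NoSol 13 7 := noSol_of tail_7_13 head_7_13

theorem rc_7_17 : rchk 8 3 2 8 3 16 1421 (2 ^ 46) 8087512372181254176921785888573
  [-38912, 40960]
  [-715, -1716, -3168, -5376, -8960, -15360, -28672, -65536, -294912, 655360]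
  [387620287239, -428425441656, 1066266928, 1055181568, 1032442368, 986963968, 894353408, 687964160]
  [5, 6, 8, 16]
  [231, 196, 140] = true := by
  decide +kernel

theorem tail_7_17 : Tail 17 7 1421 := tail_runge (a := 8) (b := 3) rc_7_17

theorem sm_7_17 : smallAll 17 7 K_7 1419 = true := by decide +kernel

theorem head_7_17 : Head 17 7 1421 := head_small (n := 1419) (by norm_num) (by norm_num) K_7 okK_7 sm_7_17

theorem ns_7_17 : NoSol 17 7 := noSol_of tail_7_17 head_7_17

theorem rc_7_19 : rchk 9 3 2 9 3 16 890 (2 ^ 51) 4193161631630683284173547831523653
  [-172032, 180224]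
  [-2431, -5720, -10296, -16896, -26880, -43008, -71680, -131072, -294912, -1310720, 2883584]
  [7576316400383, -8297904626512, 17097091632, 16979934592, 16749880768, 16315334656, 15500361728, 13928628224, 10594648064]
  [5, 6, 8, 16]
  [231, 196, 140] = true := by
  decide +kernel

theorem tail_7_19 : Tail 19 7 890 := tail_runge (a := 9) (b := 3) rc_7_19

theorem sm_7_19 : smallAll 19 7 K_7 888 = true := by decide +kernel

theorem head_7_19 : Head 19 7 890 := head_small (n := 888) (by norm_num) (by norm_num) K_7 okK_7 sm_7_19

theorem ns_7_19 : NoSol 19 7 := noSol_of tail_7_19 head_7_19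

theorem c1_7_23 : c1chk 11 3 25 V0_7 = true := by decide +kernel

theorem tail_7_23 : Tail 23 7 25 := tail_c1 (a := 11) (b := 3) (a' := 11) V0_7_eq c1_7_23 (le_refl _)

theorem sm_7_23 : smallAll 23 7 K_7 23 = true := by decide +kernel

theorem head_7_23 : Head 23 7 25 := head_small (n := 23) (by norm_num) (by norm_num) K_7 okK_7 sm_7_23

theorem ns_7_23 : NoSol 23 7 := noSol_of tail_7_23 head_7_23

theorem c1_7_29 : c1chk 14 3 6 V0_7 = true := by decide +kernel

theorem tail_7_29 : Tail 29 7 6 := tail_c1 (a := 14) (b := 3) (a' := 14) V0_7_eq c1_7_29 (le_refl _)

theorem sm_7_29 : smallAll 29 7 K_7 4 = true := by decide +kernel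

theorem head_7_29 : Head 29 7 6 := head_small (n := 4) (by norm_num) (by norm_num) K_7 okK_7 sm_7_29

theorem ns_7_29 : NoSol 29 7 := noSol_of tail_7_29 head_7_29

theorem c1_7_31 : c1chk 15 3 5 V0_7 = true := by decide +kernel

theorem tail_7_31 : Tail 31 7 5 := tail_c1 (a := 15) (b := 3) (a' := 15) V0_7_eq c1_7_31 (le_refl _)

theorem sm_7_31 : smallAll 31 7 K_7 3 = true := by decide +kernel

theorem head_7_31 : Head 31 7 5 := head_small (n := 3) (by norm_num) (by norm_num) K_7 okK_7 sm_7_31

theorem ns_7_31 : NoSol 31 7 := noSol_of tail_7_31 head_7_31

theorem c1_7_37 : c1chk 18 3 3 V0_7 = true := by decide +kernel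

theorem tail_7_37 : Tail 37 7 3 := tail_c1 (a := 18) (b := 3) (a' := 18) V0_7_eq c1_7_37 (le_refl _)

theorem sm_7_37 : smallAll 37 7 K_7 1 = true := by decide +kernel

theorem head_7_37 : Head 37 7 3 := head_small (n := 1) (by norm_num) (by norm_num) K_7 okK_7 sm_7_37

theorem ns_7_37 : NoSol 37 7 := noSol_of tail_7_37 head_7_37

theorem c1_7_41 : c1chk 20 3 3 V0_7 = true := by decide +kernel

theorem tail_7_41 : Tail 41 7 3 := tail_c1 (a := 20) (b := 3) (a' := 20) V0_7_eq c1_7_41 (le_refl _)

theorem sm_7_41 : smallAll 41 7 K_7 1 = true := by decide +kernel

theorem head_7_41 : Head 41 7 3 := head_small (n := 1) (by norm_num) (by norm_num) K_7 okK_7 sm_7_41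

theorem ns_7_41 : NoSol 41 7 := noSol_of tail_7_41 head_7_41

theorem c1_7_43 : c1chk 21 3 3 V0_7 = true := by decide +kernel

theorem tail_7_43 : Tail 43 7 3 := tail_c1 (a := 21) (b := 3) (a' := 21) V0_7_eq c1_7_43 (le_refl _)

theorem sm_7_43 : smallAll 43 7 K_7 1 = true := by decide +kernel

theorem head_7_43 : Head 43 7 3 := head_small (n := 1) (by norm_num) (by norm_num) K_7 okK_7 sm_7_43

theorem ns_7_43 : NoSol 43 7 := noSol_of tail_7_43 head_7_43

theorem c1_7_47 : c1chk 23 3 3 V0_7 = true := by decide +kernel

theorem tail_7_47 : Tail 47 7 3 := tail_c1 (a := 23) (b := 3) (a' := 23) V0_7_eq c1_7_47 (le_refl _)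

theorem sm_7_47 : smallAll 47 7 K_7 1 = true := by decide +kernel

theorem head_7_47 : Head 47 7 3 := head_small (n := 1) (by norm_num) (by norm_num) K_7 okK_7 sm_7_47

theorem ns_7_47 : NoSol 47 7 := noSol_of tail_7_47 head_7_47

theorem c1_7_end : c1chk 26 3 2 V0_7 = true := by decide +kernel

theorem noSol_7 (r : ℕ) (hr : r.Prime) (hrs : 7 < r) : NoSol r 7 := by
  rcases Nat.lt_or_ge r 53 with h | h
  · have key : ∀ n < 53, 7 < n → n.Prime → n ∈ [11, 13, 17, 19, 23, 29, 31, 37, 41, 43, 47] := by decide +kernel
    have hmem := key r h hrs hr
    simp only [List.mem_cons, List.not_mem_nil, or_false] at hmem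
    rcases hmem with rfl | rfl | rfl | rfl | rfl | rfl | rfl | rfl | rfl | rfl | rfl
    · exact ns_7_11
    · exact ns_7_13
    · exact ns_7_17
    · exact ns_7_19
    · exact ns_7_23
    · exact ns_7_29
    · exact ns_7_31
    · exact ns_7_37
    · exact ns_7_41
    · exact ns_7_43
    · exact ns_7_47
  · have ho : Odd r := hr.odd_of_ne_two (by omega)
    obtain ⟨a', rfl⟩ := ho
    exact noSol_of (T := 2) (tail_c1 (a := 26) (b := 3) (a' := a') V0_7_eq c1_7_end (by omega))
      (fun x y hx _ hxT => absurd hx.two_le (by omega))

end Pool.Agent.W_MP_cac67d_h21
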