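import Mathlib

set_option autoImplicit false

/-!
# The exponents of two representations
-/

namespace Pool.Agent.W_MP_cac67d_h21

lemma geom_prod (x u v : ℕ) (hx : 2 ≤ x) :
    ∑ i ∈ Finset.range (u * v), x ^ i =
      (∑ i ∈ Finset.range u, x ^ i) * ∑ j ∈ Finset.range v, (x ^ u) ^ j := by
  have h : (∑ i ∈ Finset.range (u * v), (x : ℤ) ^ i) =
      (∑ i ∈ Finset.range u, (x : ℤ) ^ i) * ∑ j ∈ Finset.range v, ((x : ℤ) ^ u) ^ j := by
    have e1 := geom_sum_mul (x : ℤ) (u * v)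
    have e2 := geom_sum_mul (x : ℤ) u
    have e3 := geom_sum_mul ((x : ℤ) ^ u) v
    have hx1 : (x : ℤ) - 1 ≠ 0 := by
      have : (2 : ℤ) ≤ x := by exact_mod_cast hx
      linarith
    apply mul_right_cancel₀ hx1
    rw [e1, mul_right_comm, e2, mul_comm ((x : ℤ) ^ u - 1), e3, ← pow_mul]
  exact_mod_cast h

lemma two_le_geom {x u : ℕ} (hx : 1 ≤ x) (hu : 2 ≤ u) : 2 ≤ ∑ i ∈ Finset.range u, x ^ i := by
  have h1 : ∑ i ∈ Finset.range 2, x ^ i ≤ ∑ i ∈ Finset.range u, x ^ i :=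
    Finset.sum_le_sum_of_subset (Finset.range_subset_range.mpr hu)
  have h2 : ∑ i ∈ Finset.range 2, x ^ i = 1 + x := by simp [Finset.sum_range_succ]
  omega

/-- The exponent of a prime repunit is prime. -/
lemma exp_prime {x r : ℕ} (hx : 2 ≤ x) (hr : 2 ≤ r) (hN : (∑ i ∈ Finset.range r, x ^ i).Prime) :
    r.Prime := by
  by_contra hcon
  obtain ⟨u, hu1, hu2⟩ := Nat.exists_dvd_of_not_prime2 hr hcon
  obtain ⟨hu2, hu3⟩ := hu2
  obtain ⟨v, rfl⟩ := hu1
  have hv : 2 ≤ v := by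
    by_contra h
    have : v = 0 ∨ v = 1 := by omega
    rcases this with h | h
    · subst h; omega
    · subst h; omega
  rw [geom_prod x u v hx] at hN
  have h1 := two_le_geom (x := x) (by omega) hu2
  have h2 := two_le_geom (x := x ^ u) (Nat.one_le_pow _ _ (by omega)) hv
  exact Nat.not_prime_mul (by omega) (by omega) hN

/-- The larger base has the smaller exponent. -/
lemma exp_lt {x y r s : ℕ} (hxy : x < y) (hs : 2 ≤ s)
    (h : ∑ i ∈ Finset.range r, x ^ i = ∑ i ∈ Finset.range s, y ^ i) : s < r := by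
  by_contra hcon
  push Not at hcon
  have h1 : ∑ i ∈ Finset.range r, x ^ i ≤ ∑ i ∈ Finset.range s, x ^ i :=
    Finset.sum_le_sum_of_subset (Finset.range_subset_range.mpr hcon)
  have h2 : ∑ i ∈ Finset.range s, x ^ i < ∑ i ∈ Finset.range s, y ^ i := by
    refine Finset.sum_lt_sum (fun i _ => Nat.pow_le_pow_left hxy.le i)
      ⟨1, Finset.mem_range.mpr hs, by simpa using hxy⟩
  omega

end Pool.Agent.W_MP_cac67d_h21
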