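import Mathlib
import Pool.Agent.W_MP_cac67d_h21.Zero

set_option autoImplicit false

/-!
# A zero estimate for exponential polynomials by elimination
-/

namespace Pool.Agent.W_MP_cac67d_h21

open Finset Matrix Polynomial

/-- The polynomial obtained by eliminating the term `l0`. -/
noncomputable def elQ (a : ℝ) (P : ℕ → ℝ[X]) (l0 l : ℕ) : ℝ[X] :=
  P l0 * (C (a ^ l) * taylor 1 (P l)) - C (a ^ l0) * (taylor 1 (P l0) * P l)

lemma elQ_eval (a : ℝ) (P : ℕ → ℝ[X]) (l0 l : ℕ) (t : ℝ) :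
    (elQ a P l0 l).eval t = (P l0).eval t * (a ^ l * (P l).eval (t + 1)) -
      a ^ l0 * ((P l0).eval (t + 1) * (P l).eval t) := by
  unfold elQ
  rw [eval_sub, eval_mul, eval_mul, eval_mul, eval_mul, eval_C, eval_C, taylor_eval, taylor_eval]

lemma elQ_coeff (a : ℝ) (P : ℕ → ℝ[X]) (l0 l : ℕ) :
    (elQ a P l0 l).coeff ((P l0).natDegree + (P l).natDegree) =
      (a ^ l - a ^ l0) * ((P l0).leadingCoeff * (P l).leadingCoeff) := by
  have e0 : elQ a P l0 l = C (a ^ l) * (P l0 * taylor 1 (P l)) -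
      C (a ^ l0) * (taylor 1 (P l0) * P l) := by unfold elQ; ring
  rw [e0, coeff_sub, coeff_C_mul, coeff_C_mul]
  have e1 : (P l0 * taylor 1 (P l)).coeff ((P l0).natDegree + (P l).natDegree) =
      (P l0).leadingCoeff * (P l).leadingCoeff := by
    have := coeff_mul_degree_add_degree (P l0) (taylor 1 (P l))
    rw [natDegree_taylor, leadingCoeff_taylor] at this
    exact this
  have e2 : (taylor 1 (P l0) * P l).coeff ((P l0).natDegree + (P l).natDegree) =
      (P l0).leadingCoeff * (P l).leadingCoeff := by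
    have := coeff_mul_degree_add_degree (taylor 1 (P l0)) (P l)
    rw [natDegree_taylor, leadingCoeff_taylor] at this
    exact this
  rw [e1, e2]; ring

lemma elQ_ne {a : ℝ} (ha : 1 < a) {P : ℕ → ℝ[X]} {l0 l : ℕ} (h : l ≠ l0) (h0 : P l0 ≠ 0)
    (h1 : P l ≠ 0) : elQ a P l0 l ≠ 0 := by
  intro h2
  have h3 := elQ_coeff a P l0 l
  rw [h2, coeff_zero] at h3
  have h4 : a ^ l - a ^ l0 ≠ 0 := by
    rw [sub_ne_zero]
    exact fun h5 => h (pow_right_injective₀ (by linarith) ha.ne' h5)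
  exact (mul_ne_zero h4 (mul_ne_zero (leadingCoeff_ne_zero.mpr h0)
    (leadingCoeff_ne_zero.mpr h1))) h3.symm

lemma elQ_deg {a : ℝ} {P : ℕ → ℝ[X]} {l0 l d : ℕ} (h0 : (P l0).natDegree ≤ d)
    (h1 : (P l).natDegree ≤ d) : (elQ a P l0 l).natDegree ≤ 2 * d := by
  unfold elQ
  refine (natDegree_sub_le _ _).trans (max_le ?_ ?_)
  · refine natDegree_mul_le.trans ?_
    have : (C (a ^ l) * taylor 1 (P l)).natDegree ≤ d :=
      (natDegree_C_mul_le _ _).trans (by rw [natDegree_taylor]; exact h1)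
    omega
  · refine (natDegree_C_mul_le _ _).trans (natDegree_mul_le.trans ?_)
    rw [natDegree_taylor]
    omega

theorem elim_lemma {a : ℝ} (ha : 1 < a) {κ : Type*} (Ω : Finset κ) (z : κ → ℕ) (ω : κ → ℝ)
    (hz : Set.InjOn z Ω) (hω : ∀ c ∈ Ω, ω c ≠ 0) (n : ℕ) :
    ∀ (S : Finset ℕ) (P : ℕ → ℝ[X]) (d : ℕ), S.card = n + 1 →
      (∀ l ∈ S, P l ≠ 0 ∧ (P l).natDegree ≤ d) →
      (∀ c ∈ Ω, ∀ j ≤ n, ∑ l ∈ S, (P l).eval ((z c : ℝ) + j) * (a ^ j * ω c) ^ l = 0) →
      Ω.card ≤ 2 ^ n * d := by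
  induction n with
  | zero =>
    intro S P d hS hP h
    rw [zero_add, Finset.card_eq_one] at hS
    obtain ⟨l0, rfl⟩ := hS
    obtain ⟨h1, h2⟩ := hP l0 (mem_singleton_self _)
    have h3 := card_roots_lt (n := (P l0).natDegree + 1) h1 (by omega) Ω z hz (fun c hc => by
      have h4 := h c hc 0 le_rfl
      rw [sum_singleton] at h4
      have h5 : (a ^ 0 * ω c) ^ l0 ≠ 0 := by
        rw [pow_zero, one_mul]
        exact pow_ne_zero _ (hω c hc)
      have h6 := (mul_eq_zero.mp h4).resolve_right h5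
      rwa [Nat.cast_zero, add_zero] at h6)
    rw [pow_zero, one_mul]
    omega
  | succ n ih =>
    intro S P d hS hP h
    have hne : S.Nonempty := by
      rw [← Finset.card_pos]; omega
    obtain ⟨l0, hl0⟩ := hne
    have h1 := ih (S.erase l0) (elQ a P l0) (2 * d) (by
      rw [card_erase_of_mem hl0]; omega) (fun l hl => by
      have h2 := mem_erase.mp hl
      exact ⟨elQ_ne ha h2.1 (hP l0 hl0).1 (hP l h2.2).1, elQ_deg (hP l0 hl0).2 (hP l h2.2).2⟩)
      (fun c hc j hj => by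
        set t : ℝ := (z c : ℝ) + j with ht
        set w : ℝ := a ^ j * ω c with hw
        have g1 := h c hc j (by omega)
        have g2 := h c hc (j + 1) (by omega)
        rw [← ht, ← hw, ← add_sum_erase _ _ hl0] at g1
        have e1 : (z c : ℝ) + ((j + 1 : ℕ) : ℝ) = t + 1 := by rw [ht]; push_cast; ring
        have e2 : a ^ (j + 1) * ω c = a * w := by rw [hw]; ring
        rw [e1, e2, ← add_sum_erase _ _ hl0] at g2
        have e3 : ∑ l ∈ S.erase l0, (elQ a P l0 l).eval t * w ^ l =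
            (P l0).eval t * (∑ l ∈ S.erase l0, (P l).eval (t + 1) * (a * w) ^ l) -
            a ^ l0 * (P l0).eval (t + 1) * (∑ l ∈ S.erase l0, (P l).eval t * w ^ l) := by
          rw [mul_sum, mul_sum, ← sum_sub_distrib]
          refine sum_congr rfl fun l _ => ?_
          rw [elQ_eval, mul_pow]
          ring
        rw [e3]
        rw [mul_pow] at g2
        linear_combination (P l0).eval t * g2 - a ^ l0 * (P l0).eval (t + 1) * g1)
    calc Ω.card ≤ 2 ^ n * (2 * d) := h1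
      _ = 2 ^ (n + 1) * d := by ring

end Pool.Agent.W_MP_cac67d_h21
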