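import Mathlib
import Pool.Agent.W_MP_cac67d_h21.Fe1
import Pool.Agent.W_MP_cac67d_h21.Det1
import Pool.Agent.W_MP_cac67d_h21.Det2

set_option autoImplicit false

/-!
# The interpolation matrix with `L` blocks
-/

namespace Pool.Agent.W_MP_cac67d_h21

open Finset Matrix Polynomial

/-- The matrix with the rows `binom (z, k) ω ^ l`. -/
def EM {R : Type*} [CommRing R] {L K : ℕ} {κ : Type*} (z : κ → ℕ) (ω : κ → R) :
    Fin L × Fin K → κ → R :=
  fun r c => ((z c).choose (r.2 : ℕ) : R) * (ω c) ^ (r.1 : ℕ)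

theorem rowsL {L K : ℕ} (hK : 1 ≤ K) {κ : Type*} (Ω Ω' : Finset κ) (z : κ → ℕ) (ω : κ → ℝ)
    {a : ℝ} (ha : 1 < a) (hz : Set.InjOn z Ω') (hω : ∀ c ∈ Ω', ω c ≠ 0)
    (hΩ : ∀ c ∈ Ω', ∀ j < L, ∃ c' ∈ Ω, z c' = z c + j ∧ ω c' = a ^ j * ω c)
    (hcount : 2 ^ (L - 1) * (K - 1) < Ω'.card) (v : Fin L × Fin K → ℝ)
    (hv : ∀ c ∈ Ω, ∑ r, v r * EM z ω r c = 0) : v = 0 := by
  classical
  set P : ℕ → ℝ[X] := fun l => if h : l < L then pv (fun k : Fin K => v (⟨l, h⟩, k)) else 0 with hP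
  have hdeg : ∀ l, P l ≠ 0 → (P l).natDegree ≤ K - 1 := by
    intro l hl
    by_cases h : l < L
    · have e : P l = pv (fun k : Fin K => v (⟨l, h⟩, k)) := by rw [hP]; simp only [h, dite_true]
      rw [e] at hl ⊢
      have := (natDegree_lt_iff_degree_lt hl).mpr (pv_degree (fun k : Fin K => v (⟨l, h⟩, k)))
      omega
    · exfalso
      apply hl
      rw [hP]; simp only [h, dite_false]
  have hrel : ∀ c ∈ Ω, ∑ l ∈ range L, (P l).eval (z c : ℝ) * (ω c) ^ l = 0 := by
    intro c hc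
    have h1 := hv c hc
    rw [Fintype.sum_prod_type] at h1
    rw [← Fin.sum_univ_eq_sum_range (fun l => (P l).eval (z c : ℝ) * (ω c) ^ l) L, ← h1]
    refine Finset.sum_congr rfl fun l _ => ?_
    have e : P l = pv (fun k : Fin K => v (l, k)) := by
      rw [hP]; simp only [l.isLt, dite_true]
    rw [e, pv_eval, Finset.sum_mul]
    refine Finset.sum_congr rfl fun k _ => ?_
    unfold EM
    ring
  set S := (range L).filter (fun l => P l ≠ 0) with hS
  have hrelS : ∀ c ∈ Ω, ∑ l ∈ S, (P l).eval (z c : ℝ) * (ω c) ^ l = 0 := by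
    intro c hc
    rw [← hrel c hc, hS, Finset.sum_filter]
    refine Finset.sum_congr rfl fun l _ => ?_
    split_ifs with h
    · rfl
    · push Not at h
      rw [h, eval_zero, zero_mul]
  by_cases hS0 : S = ∅
  · funext ⟨l, k⟩
    have h1 : P l = 0 := by
      by_contra hne
      have : (l : ℕ) ∈ S := by
        rw [hS, mem_filter, mem_range]
        exact ⟨l.isLt, hne⟩
      rw [hS0] at this
      exact absurd this (notMem_empty _)
    have e : P l = pv (fun k : Fin K => v (l, k)) := by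
      rw [hP]; simp only [l.isLt, dite_true]
    rw [e] at h1
    exact congrFun (pv_zero _ h1) k
  · exfalso
    obtain ⟨n, hn⟩ : ∃ n, S.card = n + 1 := by
      have : 0 < S.card := Finset.card_pos.mpr (Finset.nonempty_iff_ne_empty.mpr hS0)
      exact ⟨S.card - 1, by omega⟩
    have hnL : n + 1 ≤ L := by
      rw [← hn]
      calc S.card ≤ (range L).card := card_le_card (filter_subset _ _)
        _ = L := card_range L
    have h1 := elim_lemma ha Ω' z ω hz hω n S P (K - 1) hn (fun l hl => by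
      have h2 : P l ≠ 0 := (mem_filter.mp hl).2
      exact ⟨h2, hdeg l h2⟩) (fun c hc j hj => by
      obtain ⟨c', hc', e1, e2⟩ := hΩ c hc j (by omega)
      have h3 := hrelS c' hc'
      rw [e1, e2] at h3
      have e3 : (((z c + j : ℕ)) : ℝ) = (z c : ℝ) + j := by push_cast; rfl
      rw [e3] at h3
      exact h3)
    have h2 : 2 ^ n * (K - 1) ≤ 2 ^ (L - 1) * (K - 1) :=
      Nat.mul_le_mul_right _ (Nat.pow_le_pow_right (by norm_num) (by omega))
    omega

/-- Sum of distinct natural numbers. -/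
lemma sum_inj {ι : Type*} [Fintype ι] (g : ι → ℕ) (hg : Function.Injective g) :
    Fintype.card ι * (Fintype.card ι - 1) ≤ 2 * ∑ r, g r := by
  classical
  set N := Fintype.card ι with hN
  have h1 : N * N ≤ (∑ r, g r) + ∑ r, (N - g r) := by
    rw [← Finset.sum_add_distrib]
    calc N * N = ∑ _r : ι, N := by rw [Finset.sum_const, Finset.card_univ, smul_eq_mul]
      _ ≤ _ := Finset.sum_le_sum fun r _ => by omega
  have h2 : ∑ r, (N - g r) = ∑ s ∈ Finset.univ.image g, (N - s) := by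
    rw [Finset.sum_image]
    intro a _ b _ hab
    exact hg hab
  have h3 : ∑ s ∈ Finset.univ.image g, (N - s) ≤ ∑ s ∈ range N, (N - s) := by
    have e1 : ∑ s ∈ Finset.univ.image g, (N - s) =
        ∑ s ∈ (Finset.univ.image g).filter (fun s => s ∈ range N), (N - s) := by
      rw [Finset.sum_filter]
      refine Finset.sum_congr rfl fun s _ => ?_
      split_ifs with hs
      · rfl
      · rw [mem_range] at hs
        omega
    rw [e1]
    refine Finset.sum_le_sum_of_subset ?_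
    intro s hs
    exact (Finset.mem_filter.mp hs).2
  have h4 : 2 * ∑ s ∈ range N, (N - s) = N * (N + 1) := by
    have e1 : ∑ s ∈ range N, (N - s) = ∑ s ∈ range N, (s + 1) := by
      rw [← Finset.sum_range_reflect]
      refine Finset.sum_congr rfl fun s hs => ?_
      have := mem_range.mp hs
      omega
    rw [e1, sum_add_distrib, sum_const, card_range, smul_eq_mul, mul_one]
    have := Finset.sum_range_id_mul_two N
    rcases Nat.eq_zero_or_pos N with h0 | h0
    · rw [h0]; simp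
    · obtain ⟨M, hM⟩ : ∃ M, N = M + 1 := ⟨N - 1, by omega⟩
      rw [hM] at this ⊢
      have e2 : M + 1 - 1 = M := rfl
      rw [e2] at this
      nlinarith
  rcases Nat.eq_zero_or_pos N with h0 | h0
  · rw [h0]; simp
  · obtain ⟨M, hM⟩ : ∃ M, N = M + 1 := ⟨N - 1, by omega⟩
    rw [hM] at h1 h2 h3 h4 ⊢
    have e2 : M + 1 - 1 = M := rfl
    rw [e2]
    nlinarith

/-- The factorization of `binom (m, k) A ^ m`. -/
lemma choose_pow_expand (A : ℤ) {m M : ℕ} (k : ℕ) (h : m ≤ M) :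
    ((m.choose k : ℕ) : ℤ) * A ^ m =
      ∑ j : Fin (M + 1), (((j : ℕ).choose k : ℤ) * (A - 1) ^ ((j : ℕ) - k) * A ^ k) *
        (m.choose (j : ℕ) : ℤ) := by
  have h1 := sum_choose (A - 1) k h
  rw [← Fin.sum_univ_eq_sum_range (fun j => ((j.choose k : ℕ) : ℤ) * (A - 1) ^ (j - k) *
    (m.choose j : ℤ)) (M + 1)] at h1
  have e : (1 : ℤ) + (A - 1) = A := by ring
  rw [e] at h1
  have h2 : ∑ j : Fin (M + 1), (((j : ℕ).choose k : ℤ) * (A - 1) ^ ((j : ℕ) - k) * A ^ k) *
        (m.choose (j : ℕ) : ℤ) = A ^ k * ∑ j : Fin (M + 1), (((j : ℕ).choose k : ℤ) * (A - 1) ^ ((j : ℕ) - k) *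
        (m.choose (j : ℕ) : ℤ)) := by
    rw [mul_sum]
    refine Finset.sum_congr rfl fun j _ => by ring
  rw [h2, h1]
  rcases lt_or_ge m k with h3 | h3
  · rw [Nat.choose_eq_zero_of_lt h3]; simp
  · have e2 : A ^ m = A ^ k * A ^ (m - k) := by rw [← pow_add]; congr 1; omega
    rw [e2]; ring

/-- Divisibility of the interpolation determinant. -/
theorem padic_det {ι : Type*} [Fintype ι] [DecidableEq ι] (kk : ι → ℕ) (A : ι → ℤ) (z : ι → ℕ)
    (q : ℤ) (hA : ∀ r, q ∣ A r - 1) {e : ℕ}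
    (he : 2 * e + 2 * ∑ r, kk r ≤ Fintype.card ι * (Fintype.card ι - 1)) :
    q ^ e ∣ (Matrix.of fun r c => (((z c).choose (kk r) : ℕ) : ℤ) * (A r) ^ (z c)).det := by
  classical
  set M := ∑ c, z c with hM
  have hzM : ∀ c, z c ≤ M := fun c => Finset.single_le_sum (f := z) (fun _ _ => Nat.zero_le _) (mem_univ c)
  have h1 : (Matrix.of fun r c => (((z c).choose (kk r) : ℕ) : ℤ) * (A r) ^ (z c)) =
      Matrix.of fun r c => ∑ s : Fin (M + 1), (fun (r : ι) (j : Fin (M + 1)) =>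
        ((j : ℕ).choose (kk r) : ℤ) * (A r - 1) ^ ((j : ℕ) - kk r) * (A r) ^ (kk r)) r s *
        (fun (j : Fin (M + 1)) (c : ι) => ((z c).choose (j : ℕ) : ℤ)) s c := by
    ext r c
    simp only [Matrix.of_apply]
    exact choose_pow_expand (A r) (kk r) (hzM c)
  rw [h1, det_expand]
  refine Finset.dvd_sum fun g _ => ?_
  by_cases hg : Function.Injective g
  · refine dvd_mul_of_dvd_left ?_ _
    have h2 : q ^ (∑ r, ((g r : ℕ) - kk r)) ∣ ∏ r, (((g r : ℕ).choose (kk r) : ℤ) *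
        (A r - 1) ^ ((g r : ℕ) - kk r) * (A r) ^ (kk r)) := by
      rw [← Finset.prod_pow_eq_pow_sum]
      refine Finset.prod_dvd_prod_of_dvd _ _ fun r _ => ?_
      exact dvd_mul_of_dvd_left (dvd_mul_of_dvd_right (pow_dvd_pow_of_dvd (hA r) _) _) _
    refine dvd_trans (pow_dvd_pow q ?_) h2
    have h3 := sum_inj (fun r => (g r : ℕ)) (fun a b hab => hg (Fin.ext hab))
    have h4 : ∑ r, (g r : ℕ) ≤ (∑ r, ((g r : ℕ) - kk r)) + ∑ r, kk r := by
      rw [← Finset.sum_add_distrib]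
      exact Finset.sum_le_sum fun r _ => by omega
    omega
  · have h3 := det_expand_zero (fun (j : Fin (M + 1)) (c : ι) => ((z c).choose (j : ℕ) : ℤ)) g hg
    rw [h3, mul_zero]
    exact dvd_zero _

/-- A bound for the determinant by rows. -/
lemma det_rows {ι : Type*} [Fintype ι] [DecidableEq ι] (A : Matrix ι ι ℤ) (R : ι → ℕ)
    (h : ∀ r c, |A r c| ≤ R r) : |A.det| ≤ ((Fintype.card ι).factorial * ∏ r, R r : ℕ) := by
  rw [Matrix.det_apply']
  refine (Finset.abs_sum_le_sum_abs _ _).trans ?_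
  have key : ∀ σ : Equiv.Perm ι, |((Equiv.Perm.sign σ : ℤ) : ℤ) * ∏ c, A (σ c) c| ≤
      ((∏ r, R r : ℕ) : ℤ) := by
    intro σ
    rw [abs_mul, Finset.abs_prod]
    have e1 : |((Equiv.Perm.sign σ : ℤ) : ℤ)| = 1 := by
      rcases Int.units_eq_one_or (Equiv.Perm.sign σ) with h1 | h1 <;> rw [h1] <;> simp
    rw [e1, one_mul]
    calc ∏ c, |A (σ c) c| ≤ ∏ c, (R (σ c) : ℤ) :=
          Finset.prod_le_prod (fun _ _ => abs_nonneg _) fun c _ => h _ _
      _ = ∏ r, (R r : ℤ) := Equiv.prod_comp σ (fun r => (R r : ℤ))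
      _ = _ := by push_cast; rfl
  calc _ ≤ ∑ _σ : Equiv.Perm ι, ((∏ r, R r : ℕ) : ℤ) := Finset.sum_le_sum fun σ _ => key σ
    _ = _ := by
      rw [Finset.sum_const, Finset.card_univ, Fintype.card_perm, nsmul_eq_mul]
      push_cast
      ring

end Pool.Agent.W_MP_cac67d_h21
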