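import Mathlib
import Pool.Agent.W_MP_cac67d_h21.Fe2

set_option autoImplicit false

/-!
# Two `y`-adic logarithms
-/

namespace Pool.Agent.W_MP_cac67d_h21

open Finset

/-- the exponent of `x` -/
def cu (G r : ℕ) (c : ℕ × ℕ) : ℕ := G * (r * c.1 / G + 1) - r * c.1 + G * c.2

/-- the variable -/
def cz (G r : ℕ) (c : ℕ × ℕ) : ℕ := r * c.1 / G + 1 + c.2

/-- the base of the exponential -/
def cB (x y G r V : ℕ) (c : ℕ × ℕ) : ℕ := x ^ cu G r c * (y - x) ^ c.1 * (y - 1) ^ (V - c.1)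

lemma cu_eq {G r : ℕ} (hG : 0 < G) (c : ℕ × ℕ) : cu G r c + r * c.1 = G * cz G r c := by
  unfold cu cz
  have h1 := Nat.div_add_mod (r * c.1) G
  have h2 := Nat.mod_lt (r * c.1) hG
  have h3 : G * (r * c.1 / G + 1 + c.2) = G * (r * c.1 / G) + G + G * c.2 := by ring
  have h4 : G * (r * c.1 / G + 1) = G * (r * c.1 / G) + G := by ring
  rw [h3, h4]
  omega

lemma cu_le {G r : ℕ} (hG : 0 < G) (c : ℕ × ℕ) (hc : c.2 < 11) : cu G r c ≤ 11 * G := by
  unfold cu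
  have h1 := Nat.div_add_mod (r * c.1) G
  have h4 : G * (r * c.1 / G + 1) = G * (r * c.1 / G) + G := by ring
  have h5 : G * c.2 ≤ G * 10 := Nat.mul_le_mul_left _ (by omega)
  rw [h4]
  omega

lemma cB_mod {x y G r s V : ℕ} (hG : 0 < G)
    (h : ((y : ℤ) - 1) * (x : ℤ) ^ r = ((x : ℤ) - 1) * (y : ℤ) ^ s + ((y : ℤ) - x)) (hx : 1 ≤ x)
    (hxy : x < y) (c : ℕ × ℕ) (hc : c.1 ≤ V) :
    ((cB x y G r V c : ℕ) : ℤ) ≡ ((x : ℤ) ^ G) ^ (cz G r c) * ((y : ℤ) - 1) ^ V [ZMOD ((y : ℤ) ^ s)] := by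
  have e1 : ((y - x : ℕ) : ℤ) = (y : ℤ) - x := by push_cast [Nat.cast_sub hxy.le]; rfl
  have e2 : ((y - 1 : ℕ) : ℤ) = (y : ℤ) - 1 := by push_cast [Nat.cast_sub (by omega : 1 ≤ y)]; rfl
  have h1 : (y : ℤ) - x ≡ ((y : ℤ) - 1) * (x : ℤ) ^ r [ZMOD ((y : ℤ) ^ s)] :=
    Int.modEq_iff_dvd.mpr ⟨(x : ℤ) - 1, by rw [h]; ring⟩
  have h2 := (h1.pow c.1).mul_left ((x : ℤ) ^ cu G r c)
  have h3 := h2.mul_right (((y : ℤ) - 1) ^ (V - c.1))
  unfold cB
  push_cast
  rw [e1, e2]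
  refine h3.trans ?_
  have e3 : (x : ℤ) ^ cu G r c * (((y : ℤ) - 1) * (x : ℤ) ^ r) ^ c.1 * ((y : ℤ) - 1) ^ (V - c.1) =
      ((x : ℤ) ^ G) ^ (cz G r c) * ((y : ℤ) - 1) ^ V := by
    have e4 : ((x : ℤ) ^ G) ^ (cz G r c) = (x : ℤ) ^ cu G r c * ((x : ℤ) ^ r) ^ c.1 := by
      rw [← pow_mul, ← cu_eq hG, pow_add, ← pow_mul]
    have e5 : ((y : ℤ) - 1) ^ V = ((y : ℤ) - 1) ^ c.1 * ((y : ℤ) - 1) ^ (V - c.1) := by
      rw [← pow_add]; congr 1; omega
    rw [e4, e5, mul_pow]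
    ring
  rw [e3]

lemma sum_kk (K : ℕ) : ∑ r : Fin 4 × Fin K, (r.2 : ℕ) = 2 * (K * (K - 1)) := by
  rw [Fintype.sum_prod_type]
  simp only
  rw [Finset.sum_const, Finset.card_univ, Fintype.card_fin, smul_eq_mul,
    Fin.sum_univ_eq_sum_range (fun k => k) K]
  have := Finset.sum_range_id_mul_two K
  omega

lemma sum_ll (K : ℕ) : ∑ r : Fin 4 × Fin K, (r.1 : ℕ) = 6 * K := by
  rw [Fintype.sum_prod_type]
  simp only [Finset.sum_const, Finset.card_univ, Fintype.card_fin, smul_eq_mul]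
  rw [← Finset.mul_sum, Fin.sum_univ_four]
  simp
  ring

theorem s_bound {x y r s w G : ℕ} (hx : 2 ≤ x) (hxy : x < y)
    (h : ((y : ℤ) - 1) * (x : ℤ) ^ r = ((x : ℤ) - 1) * (y : ℤ) ^ s + ((y : ℤ) - x))
    (hG : (x : ℤ) ^ G ≡ 1 [ZMOD ((y : ℤ) ^ w)]) (hG3 : 3 ≤ G) (hr : 11 * G ≤ r)
    (hs : 726 * w * G ^ 2 ≤ s) : y ^ (6 * w) ≤ y ^ 13 * (12 * r) ^ 2 := by
  classical
  have hG0 : 0 < G := by omega
  obtain ⟨K, hK⟩ : ∃ K : ℕ, K = 11 * G := ⟨_, rfl⟩
  have hK33 : 33 ≤ K := by omega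
  set V := 11 * G with hV
  -- the columns
  set Ω : Finset (ℕ × ℕ) := range V ×ˢ range 11 with hΩ
  set Ω' : Finset (ℕ × ℕ) := range V ×ˢ range 8 with hΩ'
  have hmem : ∀ c ∈ Ω, c.1 < V ∧ c.2 < 11 := by
    intro c hc
    rw [hΩ, mem_product, mem_range, mem_range] at hc
    exact hc
  have hmem' : ∀ c ∈ Ω', c.1 < V ∧ c.2 < 8 := by
    intro c hc
    rw [hΩ', mem_product, mem_range, mem_range] at hc
    exact hc
  have hlt : ∀ c c' : ℕ × ℕ, c.1 < c'.1 → c.2 < 8 → cz G r c < cz G r c' := by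
    intro c c' h1 h2
    unfold cz
    have h3 : (r * c.1 + 11 * G) / G ≤ r * c'.1 / G := by
      refine Nat.div_le_div_right ?_
      have : r * (c.1 + 1) ≤ r * c'.1 := Nat.mul_le_mul_left _ h1
      rw [mul_add, mul_one] at this
      omega
    rw [Nat.add_mul_div_right _ _ hG0] at h3
    omega
  have hinjz : Set.InjOn (cz G r) Ω' := by
    intro c hc c' hc' hcc
    obtain ⟨d1, d2⟩ := hmem' c hc
    obtain ⟨d1', d2'⟩ := hmem' c' hc'
    rcases lt_trichotomy c.1 c'.1 with h1 | h1 | h1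
    · have := hlt c c' h1 d2; omega
    · have h2 : c.2 = c'.2 := by
        unfold cz at hcc
        rw [h1] at hcc
        omega
      exact Prod.ext h1 h2
    · have := hlt c' c h1 d2'; omega
  set a : ℝ := (x : ℝ) ^ G with ha
  have ha1 : 1 < a := by
    have hx' : (1 : ℝ) < x := by exact_mod_cast (by omega : 1 < x)
    exact one_lt_pow₀ hx' (by omega)
  have hBpos : ∀ c, 0 < cB x y G r V c := by
    intro c
    unfold cB
    have k1 : 0 < x := by omega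
    have k2 : 0 < y - x := by omega
    have k3 : 0 < y - 1 := by omega
    positivity
  obtain ⟨col, hcol, hinj, hdet⟩ := exists_minor Ω
    (EM (L := 4) (K := K) (cz G r) (fun c => (cB x y G r V c : ℝ)))
    (fun v hv => rowsL (L := 4) (by omega) Ω Ω' (cz G r) (fun c => (cB x y G r V c : ℝ)) ha1 hinjz
      (fun c _ => by
        have := hBpos c
        have h2 : (0 : ℝ) < (cB x y G r V c : ℝ) := by exact_mod_cast this
        exact h2.ne') (fun c hc j hj => by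
        obtain ⟨d1, d2⟩ := hmem' c hc
        refine ⟨(c.1, c.2 + j), ?_, ?_, ?_⟩
        · rw [hΩ, mem_product, mem_range, mem_range]
          exact ⟨d1, by simp only; omega⟩
        · unfold cz; simp only; ring
        · simp only [ha]
          unfold cB cu
          simp only
          push_cast
          have e1 : G * (r * c.1 / G + 1) - r * c.1 + G * (c.2 + j) =
              G * j + (G * (r * c.1 / G + 1) - r * c.1 + G * c.2) := by ring
          rw [e1, pow_add (x : ℝ) (G * j), pow_mul]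
          ring) (by
        rw [hΩ', card_product, card_range, card_range]
        omega) v hv)
  -- the integer matrix
  set z : Fin 4 × Fin K → ℕ := fun r' => cz G r (col r') with hz
  set B : Fin 4 × Fin K → ℕ := fun r' => cB x y G r V (col r') with hB
  set M : Matrix (Fin 4 × Fin K) (Fin 4 × Fin K) ℤ :=
    Matrix.of (EM z (fun c => (B c : ℤ))) with hM
  have hMdet : M.det ≠ 0 := by
    intro h0
    apply hdet
    have h1 : (Int.castRingHom ℝ) M.det = 0 := by rw [h0]; simp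
    rw [RingHom.map_det] at h1
    rw [← h1]
    congr 1
    ext r' c
    simp only [hM, EM, RingHom.mapMatrix_apply, Matrix.map_apply, Matrix.of_apply, hz, hB]
    rw [map_mul, map_pow, map_natCast, map_natCast]
  -- congruence
  have hcong : ((y : ℤ) ^ s) ∣ M.det - (∏ r' : Fin 4 × Fin K, (((y : ℤ) - 1) ^ V) ^ (r'.1 : ℕ)) *
      (Matrix.of fun (r' : Fin 4 × Fin K) c => (((z c).choose (r'.2 : ℕ) : ℕ) : ℤ) *
        (((x : ℤ) ^ G) ^ (r'.1 : ℕ)) ^ (z c)).det := by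
    rw [← Matrix.det_mul_column]
    have h1 : ∀ r' c, M r' c ≡ (((y : ℤ) - 1) ^ V) ^ (r'.1 : ℕ) *
        ((((z c).choose (r'.2 : ℕ) : ℕ) : ℤ) * (((x : ℤ) ^ G) ^ (r'.1 : ℕ)) ^ (z c))
        [ZMOD ((y : ℤ) ^ s)] := by
      intro r' c
      have h2 := cB_mod (V := V) hG0 h (by omega) hxy (col c) (hmem _ (hcol c)).1.le
      have h3 := (h2.pow (r'.1 : ℕ)).mul_left (((z c).choose (r'.2 : ℕ) : ℕ) : ℤ)
      have e1 : M r' c = (((z c).choose (r'.2 : ℕ) : ℕ) : ℤ) * ((cB x y G r V (col c) : ℕ) : ℤ) ^ (r'.1 : ℕ) := rfl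
      have e2 : (((z c).choose (r'.2 : ℕ) : ℕ) : ℤ) *
          (((x : ℤ) ^ G) ^ (cz G r (col c)) * ((y : ℤ) - 1) ^ V) ^ (r'.1 : ℕ) =
          (((y : ℤ) - 1) ^ V) ^ (r'.1 : ℕ) *
        ((((z c).choose (r'.2 : ℕ) : ℕ) : ℤ) * (((x : ℤ) ^ G) ^ (r'.1 : ℕ)) ^ (z c)) := by
        have e3 : (((x : ℤ) ^ G) ^ (r'.1 : ℕ)) ^ (z c) = (((x : ℤ) ^ G) ^ (cz G r (col c))) ^ (r'.1 : ℕ) := by
          exact pow_right_comm _ _ _
        rw [e3, mul_pow]
        ring
      rw [e1, ← e2]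
      exact h3
    -- reduction modulo y ^ s
    have hn : ((y ^ s : ℕ) : ℤ) = (y : ℤ) ^ s := by push_cast; rfl
    rw [← hn, ← ZMod.intCast_eq_intCast_iff_dvd_sub]
    have e5 := RingHom.map_det (Int.castRingHom (ZMod (y ^ s))) M
    have e6 := RingHom.map_det (Int.castRingHom (ZMod (y ^ s))) (Matrix.of fun r' c =>
      (((y : ℤ) - 1) ^ V) ^ (r'.1 : ℕ) * (Matrix.of fun (r' : Fin 4 × Fin K) c =>
        (((z c).choose (r'.2 : ℕ) : ℕ) : ℤ) * (((x : ℤ) ^ G) ^ (r'.1 : ℕ)) ^ (z c)) r' c)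
    rw [eq_intCast] at e5 e6
    rw [e5, e6]
    congr 1
    ext r' c
    simp only [RingHom.mapMatrix_apply, Matrix.map_apply, Matrix.of_apply, eq_intCast]
    rw [ZMod.intCast_eq_intCast_iff, hn]
    exact (h1 r' c).symm
  -- divisibility
  have hdiv0 : ((y : ℤ) ^ w) ^ (6 * (K * K)) ∣ (Matrix.of fun (r' : Fin 4 × Fin K) c =>
      (((z c).choose (r'.2 : ℕ) : ℕ) : ℤ) * (((x : ℤ) ^ G) ^ (r'.1 : ℕ)) ^ (z c)).det := by
    refine padic_det (fun r' : Fin 4 × Fin K => (r'.2 : ℕ)) (fun r' => ((x : ℤ) ^ G) ^ (r'.1 : ℕ)) z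
      ((y : ℤ) ^ w) (fun r' => ?_) ?_
    · have h2 := (hG.pow (r'.1 : ℕ)).symm
      rw [one_pow] at h2
      exact Int.modEq_iff_dvd.mp h2
    · rw [sum_kk, Fintype.card_prod, Fintype.card_fin, Fintype.card_fin]
      obtain ⟨k, rfl⟩ : ∃ k, K = k + 1 := ⟨K - 1, by omega⟩
      have e7 : k + 1 - 1 = k := rfl
      have e8 : 4 * (k + 1) - 1 = 4 * k + 3 := by omega
      rw [e7, e8]
      nlinarith
  have hdivs : ((y : ℤ) ^ w) ^ (6 * (K * K)) ∣ (y : ℤ) ^ s := by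
    rw [← pow_mul]
    refine pow_dvd_pow _ (le_trans (le_of_eq ?_) hs)
    rw [hK, hV]; ring
  have hdiv : ((y : ℤ) ^ w) ^ (6 * (K * K)) ∣ M.det := by
    have h2 := dvd_add (dvd_trans hdivs hcong) (dvd_mul_of_dvd_right hdiv0
      (∏ r' : Fin 4 × Fin K, (((y : ℤ) - 1) ^ V) ^ (r'.1 : ℕ)))
    rwa [sub_add_cancel] at h2
  have hlow : (((y ^ w) ^ (6 * (K * K)) : ℕ) : ℤ) ≤ |M.det| := by
    push_cast
    exact Int.le_of_dvd (abs_pos.mpr hMdet) ((dvd_abs _ _).mpr hdiv)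
  -- size
  have hup := det_rows M (fun r' => (12 * r) ^ (r'.2 : ℕ) * (y ^ (2 * K)) ^ (r'.1 : ℕ)) (by
    intro r' c
    obtain ⟨d1, d2⟩ := hmem _ (hcol c)
    have e1 : M r' c = (((((z c).choose (r'.2 : ℕ)) * (B c) ^ (r'.1 : ℕ) : ℕ)) : ℤ) := by
      rw [hM]
      simp only [EM, Matrix.of_apply]
      push_cast
      rfl
    rw [e1, Nat.abs_cast]
    have e2 : (z c).choose (r'.2 : ℕ) * (B c) ^ (r'.1 : ℕ) ≤
        (12 * r) ^ (r'.2 : ℕ) * (y ^ (2 * K)) ^ (r'.1 : ℕ) := by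
      refine Nat.mul_le_mul ?_ (Nat.pow_le_pow_left ?_ _)
      · refine (Nat.choose_le_pow _ _).trans (Nat.pow_le_pow_left ?_ _)
        show cz G r (col c) ≤ 12 * r
        unfold cz
        have h3 : r * (col c).1 / G ≤ r * 11 := by
          refine Nat.div_le_of_le_mul ?_
          calc r * (col c).1 ≤ r * (11 * G) := Nat.mul_le_mul_left _ d1.le
            _ = G * (r * 11) := by ring
        omega
      · show cB x y G r V (col c) ≤ y ^ (2 * K)
        unfold cB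
        have hy0 : 0 < y := by omega
        have k1 : x ^ cu G r (col c) ≤ y ^ K := by
          calc x ^ cu G r (col c) ≤ y ^ cu G r (col c) := Nat.pow_le_pow_left hxy.le _
            _ ≤ y ^ K := Nat.pow_le_pow_right hy0 (by rw [hK]; exact cu_le hG0 _ d2)
        have k2 : (y - x) ^ (col c).1 * (y - 1) ^ (V - (col c).1) ≤ y ^ K := by
          calc (y - x) ^ (col c).1 * (y - 1) ^ (V - (col c).1) ≤
              y ^ (col c).1 * y ^ (V - (col c).1) :=
                Nat.mul_le_mul (Nat.pow_le_pow_left (Nat.sub_le _ _) _)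
                  (Nat.pow_le_pow_left (Nat.sub_le _ _) _)
            _ = y ^ K := by rw [← pow_add]; congr 1; omega
        calc x ^ cu G r (col c) * (y - x) ^ (col c).1 * (y - 1) ^ (V - (col c).1) =
            x ^ cu G r (col c) * ((y - x) ^ (col c).1 * (y - 1) ^ (V - (col c).1)) := by ring
          _ ≤ y ^ K * y ^ K := Nat.mul_le_mul k1 k2
          _ = y ^ (2 * K) := by rw [← pow_add]; congr 1; ring
    exact_mod_cast e2)
  have hfin : (y ^ w) ^ (6 * (K * K)) ≤ (4 * K).factorial *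
      ((12 * r) ^ (2 * (K * (K - 1))) * (y ^ (2 * K)) ^ (6 * K)) := by
    have h2 := hlow.trans hup
    rw [Fintype.card_prod, Fintype.card_fin, Fintype.card_fin, Finset.prod_mul_distrib,
      Finset.prod_pow_eq_pow_sum, Finset.prod_pow_eq_pow_sum, sum_kk, sum_ll] at h2
    exact_mod_cast h2
  have hfac : (4 * K).factorial ≤ y ^ (K * K) := by
    have h2 : (4 * K) ^ 4 ≤ 2 ^ K := by
      obtain ⟨k, rfl⟩ : ∃ k, K = 33 + k := ⟨K - 33, by omega⟩
      clear * -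
      induction k with
      | zero => norm_num
      | succ k ih =>
        have e1 : 2 ^ (33 + (k + 1)) = 2 * 2 ^ (33 + k) := by rw [← add_assoc, pow_succ]; ring
        rw [e1]
        refine le_trans ?_ (Nat.mul_le_mul_left 2 ih)
        have e2 : (4 * (33 + (k + 1))) ^ 4 = 256 * (34 + k) ^ 4 := by ring
        have e3 : 2 * (4 * (33 + k)) ^ 4 = 256 * (2 * (33 + k) ^ 4) := by ring
        rw [e2, e3]
        refine Nat.mul_le_mul_left _ ?_
        have h5 : (34 + k) ^ 2 * 4 ≤ (33 + k) ^ 2 * 5 := by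
          have f1 : (34 + k) ^ 2 * 4 = 4624 + 272 * k + 4 * (k * k) := by ring
          have f2 : (33 + k) ^ 2 * 5 = 5445 + 330 * k + 5 * (k * k) := by ring
          rw [f1, f2]
          generalize k * k = q
          omega
        have h6 : ((34 + k) ^ 2 * 4) ^ 2 ≤ ((33 + k) ^ 2 * 5) ^ 2 := Nat.pow_le_pow_left h5 2
        have e4 : ((34 + k) ^ 2 * 4) ^ 2 = 16 * (34 + k) ^ 4 := by ring
        have e5 : ((33 + k) ^ 2 * 5) ^ 2 = 25 * (33 + k) ^ 4 := by ring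
        rw [e4, e5] at h6
        omega
    calc (4 * K).factorial ≤ (4 * K) ^ (4 * K) := Nat.factorial_le_pow _
      _ = ((4 * K) ^ 4) ^ K := by rw [← pow_mul]
      _ ≤ (2 ^ K) ^ K := Nat.pow_le_pow_left h2 _
      _ = 2 ^ (K * K) := by rw [← pow_mul]
      _ ≤ y ^ (K * K) := Nat.pow_le_pow_left (by omega) _
  have hy0 : 0 < y := by omega
  have hfin2 : (y ^ (6 * w)) ^ (K * K) ≤ (y ^ 13 * (12 * r) ^ 2) ^ (K * K) := by
    calc (y ^ (6 * w)) ^ (K * K) = (y ^ w) ^ (6 * (K * K)) := by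
          rw [← pow_mul, ← pow_mul]; congr 1; ring
      _ ≤ (4 * K).factorial * ((12 * r) ^ (2 * (K * (K - 1))) * (y ^ (2 * K)) ^ (6 * K)) := hfin
      _ ≤ y ^ (K * K) * ((12 * r) ^ (2 * (K * K)) * (y ^ (2 * K)) ^ (6 * K)) := by
          refine Nat.mul_le_mul hfac (Nat.mul_le_mul_right _ (Nat.pow_le_pow_right (by omega) ?_))
          exact Nat.mul_le_mul_left _ (Nat.mul_le_mul_left _ (Nat.sub_le _ _))
      _ = (y ^ 13 * (12 * r) ^ 2) ^ (K * K) := by
          generalize 12 * r = Z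
          have e1 : 13 * (K * K) = K * K + 2 * K * (6 * K) := by ring
          rw [mul_pow (y ^ 13), ← pow_mul y 13, ← pow_mul Z, ← pow_mul y (2 * K), e1, pow_add]
          ring
  have hKK : K * K ≠ 0 := by
    have : K ≠ 0 := by omega
    positivity
  exact (Nat.pow_le_pow_iff_left hKK).mp hfin2

end Pool.Agent.W_MP_cac67d_h21
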