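import Mathlib
import Pool.Agent.W_MP_cac67d_h21.C1

set_option autoImplicit false

/-!
# Runge's method for all exponents
-/

namespace Pool.Agent.W_MP_cac67d_h21

open Finset PowerSeries

/-- The convolution of the central binomial coefficients. -/
lemma conv (n : ℕ) : ∑ p ∈ antidiagonal n, (Nat.centralBinom p.1 * Nat.centralBinom p.2) = 4 ^ n := by
  set f : ℚ⟦X⟧ := PowerSeries.mk fun j => (Nat.centralBinom j : ℚ) with hf
  have h1 : ∀ n : ℕ, ((n : ℚ) + 1) * coeff (n + 1) (f * f) = 4 * (n + 1) * coeff n (f * f) := by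
    -- (1 - 4 X) f' = 2 f
    have hd : (1 - 4 * X) * (d⁄dX ℚ f) = 2 * f := by
      ext m
      have e1 : (1 - 4 * X) * (d⁄dX ℚ f) = d⁄dX ℚ f - C (4 : ℚ) * (X * d⁄dX ℚ f) := by
        have : (4 : ℚ⟦X⟧) = C (4 : ℚ) := (map_ofNat (C (R := ℚ)) 4).symm
        rw [this]; ring
      have e2 : (2 : ℚ⟦X⟧) * f = C (2 : ℚ) * f := by
        have : (2 : ℚ⟦X⟧) = C (2 : ℚ) := (map_ofNat (C (R := ℚ)) 2).symm
        rw [this]
      rw [e1, e2, map_sub, coeff_C_mul, coeff_C_mul, coeff_derivative]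
      have hc := Nat.succ_mul_centralBinom_succ m
      have hc' : ((m : ℚ) + 1) * (Nat.centralBinom (m + 1) : ℚ) =
          2 * (2 * m + 1) * (Nat.centralBinom m : ℚ) := by exact_mod_cast hc
      cases m with
      | zero =>
        rw [coeff_zero_X_mul]
        simp only [hf, coeff_mk]
        norm_num at hc' ⊢
        exact hc'
      | succ m =>
        rw [coeff_succ_X_mul, coeff_derivative]
        simp only [hf, coeff_mk]
        push_cast at hc' ⊢
        linarith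
    have hg : (1 - 4 * X) * (d⁄dX ℚ (f * f)) = 4 * (f * f) := by
      rw [Derivation.leibniz, smul_eq_mul]
      calc (1 - 4 * X) * (f * (d⁄dX ℚ) f + f * (d⁄dX ℚ) f) = 2 * f * ((1 - 4 * X) * (d⁄dX ℚ f)) := by ring
        _ = 4 * (f * f) := by rw [hd]; ring
    intro n
    have h2 := congrArg (coeff n) hg
    have e1 : (1 - 4 * X) * (d⁄dX ℚ (f * f)) = d⁄dX ℚ (f * f) - C (4 : ℚ) * (X * d⁄dX ℚ (f * f)) := by
      have : (4 : ℚ⟦X⟧) = C (4 : ℚ) := (map_ofNat (C (R := ℚ)) 4).symm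
      rw [this]; ring
    have e2 : (4 : ℚ⟦X⟧) * (f * f) = C (4 : ℚ) * (f * f) := by
      have : (4 : ℚ⟦X⟧) = C (4 : ℚ) := (map_ofNat (C (R := ℚ)) 4).symm
      rw [this]
    rw [e1, e2, map_sub, coeff_C_mul, coeff_C_mul, coeff_derivative] at h2
    cases n with
    | zero =>
      rw [coeff_zero_X_mul] at h2
      push_cast at h2 ⊢
      linarith
    | succ m =>
      rw [coeff_succ_X_mul, coeff_derivative] at h2
      push_cast at h2 ⊢
      linarith
  have h3 : ∀ n : ℕ, coeff n (f * f) = 4 ^ n := by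
    intro n
    induction n with
    | zero => simp [hf, coeff_mul]
    | succ n ih =>
      have h4 := h1 n
      rw [ih] at h4
      have h5 : ((n : ℚ) + 1) ≠ 0 := by positivity
      have h6 : ((n : ℚ) + 1) * coeff (n + 1) (f * f) = ((n : ℚ) + 1) * 4 ^ (n + 1) := by
        rw [h4]; ring
      exact mul_left_cancel₀ h5 h6
  have h7 := h3 n
  rw [coeff_mul] at h7
  simp only [hf, coeff_mk] at h7
  exact_mod_cast h7

/-- `4 ^ a` times the polynomial part of `√(1 + x + ... + x ^ (2 a))`. -/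
def Fp (a x : ℕ) : ℕ := ∑ j ∈ range (a + 1), Nat.centralBinom j * (4 * x) ^ (a - j)

lemma sum_tri (m : ℕ) (g : ℕ × ℕ → ℕ) :
    ∑ n ∈ range (m + 1), ∑ p ∈ antidiagonal n, g p =
      ∑ p ∈ (range (m + 1) ×ˢ range (m + 1)).filter (fun p => p.1 + p.2 ≤ m), g p := by
  rw [← Finset.sum_fiberwise_of_maps_to (s := (range (m + 1) ×ˢ range (m + 1)).filter
    (fun p => p.1 + p.2 ≤ m)) (t := range (m + 1)) (g := fun p => p.1 + p.2)]
  · refine Finset.sum_congr rfl fun n hn => ?_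
    refine Finset.sum_congr ?_ fun _ _ => rfl
    ext p
    rw [mem_range] at hn
    simp only [HasAntidiagonal.mem_antidiagonal, mem_filter, mem_product, mem_range]
    omega
  · intro p hp
    rw [mem_filter] at hp
    rw [mem_range]
    omega

lemma sum_pow_eq (a m x : ℕ) (hm : m ≤ 2 * a) :
    ∑ n ∈ range (m + 1), ∑ p ∈ antidiagonal n,
      (Nat.centralBinom p.1 * Nat.centralBinom p.2) * (4 * x) ^ (2 * a - (p.1 + p.2)) =
    16 ^ a * ∑ n ∈ range (m + 1), x ^ (2 * a - n) := by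
  rw [Finset.mul_sum]
  refine Finset.sum_congr rfl fun n hn => ?_
  rw [mem_range] at hn
  have : ∀ p ∈ antidiagonal n,
      (Nat.centralBinom p.1 * Nat.centralBinom p.2) * (4 * x) ^ (2 * a - (p.1 + p.2)) =
      (Nat.centralBinom p.1 * Nat.centralBinom p.2) * (4 * x) ^ (2 * a - n) := by
    intro p hp
    rw [HasAntidiagonal.mem_antidiagonal] at hp
    rw [hp]
  rw [Finset.sum_congr rfl this, ← Finset.sum_mul, conv, mul_pow, ← mul_assoc, ← pow_add]
  congr 1
  have e : n + (2 * a - n) = 2 * a := by omega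
  rw [e, pow_mul]
  norm_num

lemma Fp_sq (a x : ℕ) : Fp a x ^ 2 = ∑ p ∈ range (a + 1) ×ˢ range (a + 1),
    (Nat.centralBinom p.1 * Nat.centralBinom p.2) * (4 * x) ^ (2 * a - (p.1 + p.2)) := by
  unfold Fp
  rw [sq, Finset.sum_mul_sum, Finset.sum_product]
  refine Finset.sum_congr rfl fun i hi => Finset.sum_congr rfl fun j hj => ?_
  rw [mem_range] at hi hj
  have e : 2 * a - (i + j) = (a - i) + (a - j) := by omega
  rw [e, pow_add]
  ring

lemma sum_reflect (a x : ℕ) :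
    ∑ n ∈ range (2 * a + 1), x ^ (2 * a - n) = ∑ n ∈ range (2 * a + 1), x ^ n := by
  rw [← Finset.sum_range_reflect]
  refine Finset.sum_congr rfl fun n hn => ?_
  rw [mem_range] at hn
  congr 1
  omega

lemma Fp_sq_le (a x : ℕ) : Fp a x ^ 2 ≤ 16 ^ a * ∑ n ∈ range (2 * a + 1), x ^ n := by
  rw [← sum_reflect, ← sum_pow_eq a (2 * a) x le_rfl, sum_tri, Fp_sq]
  refine Finset.sum_le_sum_of_subset ?_
  intro p hp
  simp only [mem_filter, mem_product, mem_range] at hp ⊢
  omega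

lemma Fp_sq_ge (a x : ℕ) :
    16 ^ a * ∑ n ∈ range (2 * a + 1), x ^ n ≤ Fp a x ^ 2 + 16 ^ a * ∑ n ∈ range a, x ^ n := by
  have h1 : 16 ^ a * ∑ n ∈ range (a + 1), x ^ (2 * a - n) ≤ Fp a x ^ 2 := by
    rw [← sum_pow_eq a a x (by omega), sum_tri, Fp_sq]
    refine Finset.sum_le_sum_of_subset ?_
    intro p hp
    simp only [mem_filter, mem_product, mem_range] at hp ⊢
    omega
  have h2 : ∑ n ∈ range (2 * a + 1), x ^ n =
      ∑ n ∈ range (a + 1), x ^ (2 * a - n) + ∑ n ∈ range a, x ^ n := by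
    rw [← sum_reflect, show 2 * a + 1 = (a + 1) + a by ring, Finset.sum_range_add]
    congr 1
    rw [← Finset.sum_range_reflect (fun n => x ^ n) a]
    refine Finset.sum_congr rfl fun n hn => ?_
    rw [mem_range] at hn
    congr 1
    omega
  rw [h2, mul_add]
  exact Nat.add_le_add_right h1 _

lemma Fp_ge (a x : ℕ) : 4 ^ a * x ^ a ≤ Fp a x := by
  unfold Fp
  have h : Nat.centralBinom 0 * (4 * x) ^ (a - 0) ≤
      ∑ j ∈ range (a + 1), Nat.centralBinom j * (4 * x) ^ (a - j) :=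
    Finset.single_le_sum (f := fun j => Nat.centralBinom j * (4 * x) ^ (a - j))
      (fun _ _ => Nat.zero_le _) (mem_range.mpr (by omega))
  simpa [mul_pow] using h

/-- `v_2(C(2a,a)) + (a - j) ≤ v_2(4^(a-j) C(2j,j))`. -/
lemma val_cb (j k : ℕ) : padicValNat 2 (Nat.centralBinom (j + k)) ≤
    padicValNat 2 (Nat.centralBinom j) + k := by
  induction k with
  | zero => simp
  | succ k ih =>
    have h := Nat.succ_mul_centralBinom_succ (j + k)
    have h1 : padicValNat 2 ((j + k + 1) * Nat.centralBinom (j + k + 1)) =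
        padicValNat 2 (j + k + 1) + padicValNat 2 (Nat.centralBinom (j + k + 1)) :=
      padicValNat.mul (by omega) (Nat.centralBinom_ne_zero _)
    have h2 : padicValNat 2 (2 * (2 * (j + k) + 1) * Nat.centralBinom (j + k)) =
        1 + padicValNat 2 (Nat.centralBinom (j + k)) := by
      rw [padicValNat.mul (by omega) (Nat.centralBinom_ne_zero _), padicValNat.mul (by omega) (by omega)]
      have h3 : padicValNat 2 2 = 1 := by simp
      have h4 : padicValNat 2 (2 * (j + k) + 1) = 0 :=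
        padicValNat.eq_zero_of_not_dvd (by omega)
      rw [h3, h4]
    have h5 : padicValNat 2 ((j + k + 1) * Nat.centralBinom (j + k + 1)) =
        padicValNat 2 (2 * (2 * (j + k) + 1) * Nat.centralBinom (j + k)) := by rw [h]
    rw [h1, h2] at h5
    have e : j + (k + 1) = j + k + 1 := by ring
    rw [e]
    omega

lemma dvd_term {a j : ℕ} (hj : j < a) :
    2 ^ (padicValNat 2 (Nat.centralBinom a) + 1) ∣ Nat.centralBinom j * 4 ^ (a - j) := by
  have hne : Nat.centralBinom j * 4 ^ (a - j) ≠ 0 :=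
    mul_ne_zero (Nat.centralBinom_ne_zero _) (by positivity)
  rw [padicValNat_dvd_iff_le hne, padicValNat.mul (Nat.centralBinom_ne_zero _) (by positivity)]
  have h1 := val_cb j (a - j)
  rw [show j + (a - j) = a by omega] at h1
  have h2 : padicValNat 2 (4 ^ (a - j)) = 2 * (a - j) := by
    rw [show (4 : ℕ) = 2 ^ 2 by norm_num, ← pow_mul, padicValNat.prime_pow]
  rw [h2]
  omega

/-- The two integers are different. -/
lemma Fp_ne {a b : ℕ} (hab : b < a) (x y : ℕ) : Fp a x ≠ 4 ^ (a - b) * Fp b y := by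
  intro h
  set t := padicValNat 2 (Nat.centralBinom a) + 1 with ht
  have h1 : 2 ^ t ∣ 4 ^ (a - b) * Fp b y := by
    unfold Fp
    rw [Finset.mul_sum]
    refine Finset.dvd_sum fun j hj => ?_
    rw [mem_range] at hj
    have h2 := dvd_term (a := a) (j := j) (by omega)
    have e : 4 ^ (a - b) * (Nat.centralBinom j * (4 * y) ^ (b - j)) =
        Nat.centralBinom j * 4 ^ (a - j) * y ^ (b - j) := by
      rw [show a - j = (a - b) + (b - j) by omega, pow_add, mul_pow]
      ring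
    rw [e]
    exact Dvd.dvd.mul_right h2 _
  have h3 : 2 ^ t ∣ ∑ j ∈ range a, Nat.centralBinom j * (4 * x) ^ (a - j) := by
    refine Finset.dvd_sum fun j hj => ?_
    rw [mem_range] at hj
    rw [mul_pow, ← mul_assoc]
    exact Dvd.dvd.mul_right (dvd_term hj) _
  have h4 : Fp a x = ∑ j ∈ range a, Nat.centralBinom j * (4 * x) ^ (a - j) + Nat.centralBinom a := by
    unfold Fp
    rw [Finset.sum_range_succ]
    simp
  rw [← h, h4] at h1
  have h5 : 2 ^ t ∣ Nat.centralBinom a := (Nat.dvd_add_right h3).mp h1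
  rw [padicValNat_dvd_iff_le (Nat.centralBinom_ne_zero _)] at h5
  omega

lemma geom_lt (x n : ℕ) (hx : 2 ≤ x) : (∑ i ∈ range n, x ^ i) * (x - 1) < x ^ n := by
  have h := Nat.geomSum_eq hx n
  rw [h, Nat.div_mul_cancel (Nat.sub_one_dvd_pow_sub_one x n)]
  exact Nat.sub_lt (by positivity) (by norm_num)

/-- Runge's bound: `x ≤ 2 ^ (2 a - 1)`. -/
theorem gen_runge {x y a b : ℕ} (hx : 2 ≤ x) (hxy : x < y) (hab : b < a)
    (h : ∑ i ∈ range (2 * a + 1), x ^ i = ∑ i ∈ range (2 * b + 1), y ^ i) :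
    2 * x ≤ 4 ^ a := by
  set u := Fp a x with hu
  set w := 4 ^ (a - b) * Fp b y with hw
  have hu1 := Fp_sq_le a x
  have hu2 := Fp_sq_ge a x
  have hw1 : w ^ 2 ≤ 16 ^ a * ∑ n ∈ range (2 * a + 1), x ^ n := by
    rw [h, hw, mul_pow]
    have e : 16 ^ a = (4 ^ (a - b)) ^ 2 * 16 ^ b := by
      rw [← pow_mul, mul_comm (a - b) 2, pow_mul, show (4 : ℕ) ^ 2 = 16 by norm_num, ← pow_add]
      congr 1; omega
    rw [e, mul_assoc]
    exact Nat.mul_le_mul_left _ (Fp_sq_le b y)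
  have hw2 : 16 ^ a * ∑ n ∈ range (2 * a + 1), x ^ n ≤ w ^ 2 + 16 ^ a * ∑ n ∈ range b, y ^ n := by
    rw [h, hw, mul_pow]
    have e : 16 ^ a = (4 ^ (a - b)) ^ 2 * 16 ^ b := by
      rw [← pow_mul, mul_comm (a - b) 2, pow_mul, show (4 : ℕ) ^ 2 = 16 by norm_num, ← pow_add]
      congr 1; omega
    rw [e, mul_assoc, mul_assoc, ← mul_add]
    exact Nat.mul_le_mul_left _ (Fp_sq_ge b y)
  have h16 : 16 ^ a = 4 ^ a * 4 ^ a := by rw [← mul_pow]; norm_num
  rcases lt_trichotomy u w with hlt | heq | hgt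
  · -- w² - u² ≤ 16^a Σ x^n
    have h1 : u * u + 2 * u + 1 ≤ w * w := by nlinarith
    have h2 : 2 * u < 16 ^ a * ∑ n ∈ range a, x ^ n := by nlinarith
    have h3 : 4 ^ a * x ^ a ≤ u := Fp_ge a x
    have h4 : 4 ^ a * (2 * x ^ a) < 4 ^ a * (4 ^ a * ∑ n ∈ range a, x ^ n) := by
      rw [h16] at h2
      calc 4 ^ a * (2 * x ^ a) = 2 * (4 ^ a * x ^ a) := by ring
        _ ≤ 2 * u := by omega
        _ < 4 ^ a * 4 ^ a * ∑ n ∈ range a, x ^ n := h2
        _ = _ := by ring
    have h5 : 2 * x ^ a < 4 ^ a * ∑ n ∈ range a, x ^ n := lt_of_mul_lt_mul_left h4 (Nat.zero_le _)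
    have h6 : 2 * x ^ a * (x - 1) < 4 ^ a * x ^ a := by
      calc 2 * x ^ a * (x - 1) < (4 ^ a * ∑ n ∈ range a, x ^ n) * (x - 1) :=
            Nat.mul_lt_mul_of_pos_right h5 (by omega)
        _ = 4 ^ a * ((∑ n ∈ range a, x ^ n) * (x - 1)) := by ring
        _ ≤ 4 ^ a * x ^ a := Nat.mul_le_mul_left _ (geom_lt x a hx).le
    have h7 : x ^ a * (2 * (x - 1)) < x ^ a * 4 ^ a := by
      calc x ^ a * (2 * (x - 1)) = 2 * x ^ a * (x - 1) := by ring
        _ < _ := h6
        _ = _ := by ring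
    have h8 : 2 * (x - 1) < 4 ^ a := lt_of_mul_lt_mul_left h7 (Nat.zero_le _)
    have h9 : 2 ∣ 4 ^ a := by
      have ha0 : a ≠ 0 := by omega
      exact dvd_pow (by norm_num) ha0
    omega
  · exact absurd heq (Fp_ne hab x y)
  · have h1 : w * w + 2 * w + 1 ≤ u * u := by nlinarith
    have h2 : 2 * w < 16 ^ a * ∑ n ∈ range b, y ^ n := by nlinarith
    have h3 : 4 ^ a * y ^ b ≤ w := by
      have := Nat.mul_le_mul_left (4 ^ (a - b)) (Fp_ge b y)
      rw [← mul_assoc, ← pow_add, show a - b + b = a by omega] at this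
      exact this
    have h4 : 4 ^ a * (2 * y ^ b) < 4 ^ a * (4 ^ a * ∑ n ∈ range b, y ^ n) := by
      rw [h16] at h2
      calc 4 ^ a * (2 * y ^ b) = 2 * (4 ^ a * y ^ b) := by ring
        _ ≤ 2 * w := by omega
        _ < 4 ^ a * 4 ^ a * ∑ n ∈ range b, y ^ n := h2
        _ = _ := by ring
    have h5 : 2 * y ^ b < 4 ^ a * ∑ n ∈ range b, y ^ n := lt_of_mul_lt_mul_left h4 (Nat.zero_le _)
    have h6 : 2 * y ^ b * (y - 1) < 4 ^ a * y ^ b := by
      calc 2 * y ^ b * (y - 1) < (4 ^ a * ∑ n ∈ range b, y ^ n) * (y - 1) :=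
            Nat.mul_lt_mul_of_pos_right h5 (by omega)
        _ = 4 ^ a * ((∑ n ∈ range b, y ^ n) * (y - 1)) := by ring
        _ ≤ 4 ^ a * y ^ b := Nat.mul_le_mul_left _ (geom_lt y b (by omega)).le
    have h7 : y ^ b * (2 * (y - 1)) < y ^ b * 4 ^ a := by
      calc y ^ b * (2 * (y - 1)) = 2 * y ^ b * (y - 1) := by ring
        _ < _ := h6
        _ = _ := by ring
    have h8 : 2 * (y - 1) < 4 ^ a := lt_of_mul_lt_mul_left h7 (Nat.zero_le _)
    omega

end Pool.Agent.W_MP_cac67d_h21
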