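import Mathlib
import Pool.Agent.W_MP_cac67d_h21.GenRunge
import Pool.Agent.W_MP_cac67d_h21.Exp

set_option autoImplicit false

/-!
# Explicit bounds in terms of the smaller exponent
-/

namespace Pool.Agent.W_MP_cac67d_h21

lemma sq_bound {x y b : ℕ} (hx : 2 ≤ x) (h : (y : ℤ) < (UV x 1 b).2) :
    y ^ 2 < (3 * x) ^ (2 * b + 1) := by
  have h0 : (y : ℝ) < ((UV x 1 b).2 : ℝ) := by exact_mod_cast h
  have h1 := two_UV x b
  have hx2 : (2 : ℝ) ≤ x := by exact_mod_cast hx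
  have hs0 : 0 ≤ √(x : ℝ) := Real.sqrt_nonneg _
  have hs : √(x : ℝ) * √(x : ℝ) = x := Real.mul_self_sqrt (Nat.cast_nonneg x)
  have hs1 : 1 ≤ √(x : ℝ) := by
    rw [Real.one_le_sqrt]; linarith
  have h2 : 0 ≤ (√(x : ℝ) - 1) ^ (2 * b + 1) := pow_nonneg (by linarith) _
  have h3 : 2 * (y : ℝ) < (√(x : ℝ) + 1) ^ (2 * b + 1) := by linarith
  have h4 : (√(x : ℝ) + 1) ^ 2 ≤ 3 * x := by
    -- 2 √x + 1 ≤ 2 x
    have h5 : 2 * √(x : ℝ) + 1 ≤ 2 * x := by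
      have h6 : √(x : ℝ) ≤ (2 * x - 1) / 2 := by
        rw [Real.sqrt_le_left (by linarith)]
        nlinarith
      linarith
    nlinarith
  have h7 : (2 * (y : ℝ)) ^ 2 < (3 * x : ℝ) ^ (2 * b + 1) := by
    calc (2 * (y : ℝ)) ^ 2 < ((√(x : ℝ) + 1) ^ (2 * b + 1)) ^ 2 :=
          pow_lt_pow_left₀ h3 (by positivity) (by norm_num)
      _ = ((√(x : ℝ) + 1) ^ 2) ^ (2 * b + 1) := by rw [← pow_mul, ← pow_mul, mul_comm]
      _ ≤ _ := pow_le_pow_left₀ (by positivity) h4 _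
  have h8 : (y : ℝ) ^ 2 < (3 * x : ℝ) ^ (2 * b + 1) := by nlinarith [sq_nonneg (y : ℝ)]
  exact_mod_cast h8

theorem finalA_core {x y a b : ℕ} (hx : x.Prime) (hy : y.Prime) (hxy : x < y) (hb : 1 ≤ b)
    (h : ∑ i ∈ Finset.range (2 * a + 1), x ^ i = ∑ i ∈ Finset.range (2 * b + 1), y ^ i) :
    2 * (y : ℝ) < (√(x : ℝ) + 1) ^ (2 * b + 1) - (√(x : ℝ) - 1) ^ (2 * b + 1) ∧
    10 * (2 * a) < 13 * ((2 * b + 1) * (2 * b)) ∧ 2 * x ≤ 4 ^ a ∧
    ∑ i ∈ Finset.range (2 * a + 1), x ^ i < 2 ^ (2 * (2 * b + 1) ^ 4) := by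
  have hcop : Nat.Coprime x y := (Nat.coprime_primes hx hy).mpr hxy.ne
  have hx2 := hx.two_le
  have hmb := main_bound hx2 hxy hy hcop hb h
  have hab : b < a := by
    have := exp_lt hxy (by omega) h
    omega
  have hlt : x ^ a < y ^ b := by
    have hP0 := pell_form h
    have hxz : (2 : ℤ) ≤ x := by exact_mod_cast hx2
    have hxyz : (x : ℤ) < y := by exact_mod_cast hxy
    have hYge : 2 ≤ (y : ℤ) ^ b := by
      have : (y : ℤ) ^ 1 ≤ (y : ℤ) ^ b := pow_le_pow_right₀ (by linarith) hb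
      rw [pow_one] at this
      linarith
    have := pow_lt_of_pell hxz hxyz (by positivity) hYge hP0
    exact_mod_cast this
  have hsq := sq_bound hx2 hmb
  set s := 2 * b + 1 with hs
  -- the bound for the exponent
  have h1 : x ^ (10 * a) < x ^ (13 * (s * b)) := by
    have h2 : (x ^ a) ^ 10 < (y ^ b) ^ 10 := Nat.pow_lt_pow_left hlt (by norm_num)
    have h3 : (y ^ 2) ^ (5 * b) ≤ ((3 * x) ^ s) ^ (5 * b) := Nat.pow_le_pow_left hsq.le _
    have h4 : (3 * x) ^ 5 ≤ x ^ 13 := by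
      have h5 : 3 ^ 5 ≤ x ^ 8 := by
        calc 3 ^ 5 ≤ 2 ^ 8 := by norm_num
          _ ≤ x ^ 8 := Nat.pow_le_pow_left hx2 8
      calc (3 * x) ^ 5 = 3 ^ 5 * x ^ 5 := mul_pow _ _ _
        _ ≤ x ^ 8 * x ^ 5 := Nat.mul_le_mul_right _ h5
        _ = x ^ 13 := by ring
    calc x ^ (10 * a) = (x ^ a) ^ 10 := by rw [← pow_mul, mul_comm]
      _ < (y ^ b) ^ 10 := h2
      _ = (y ^ 2) ^ (5 * b) := by rw [← pow_mul, ← pow_mul]; congr 1; ring
      _ ≤ ((3 * x) ^ s) ^ (5 * b) := h3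
      _ = ((3 * x) ^ 5) ^ (s * b) := by rw [← pow_mul, ← pow_mul]; congr 1; ring
      _ ≤ (x ^ 13) ^ (s * b) := Nat.pow_le_pow_left h4 _
      _ = x ^ (13 * (s * b)) := by rw [← pow_mul]
  have h2 : 10 * a < 13 * (s * b) := (Nat.pow_lt_pow_iff_right hx2).mp h1
  have h3 : 10 * (2 * a) < 13 * (s * (2 * b)) := by
    have : 13 * (s * (2 * b)) = 2 * (13 * (s * b)) := by ring
    omega
  have h4 := gen_runge hx2 hxy hab h
  refine ⟨?_, h3, h4, ?_⟩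
  · have h5 : (y : ℝ) < ((UV x 1 b).2 : ℝ) := by exact_mod_cast hmb
    have h6 := two_UV x b
    linarith
  · have h5 : ∑ i ∈ Finset.range (2 * a + 1), x ^ i < x ^ (2 * a + 1) := by
      have h6 := geom_lt x (2 * a + 1) hx2
      have h7 : (∑ i ∈ Finset.range (2 * a + 1), x ^ i) * 1 ≤
          (∑ i ∈ Finset.range (2 * a + 1), x ^ i) * (x - 1) := Nat.mul_le_mul_left _ (by omega)
      omega
    have h6 : x ≤ 2 ^ (2 * a) := by
      rw [pow_mul]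
      norm_num
      omega
    have h7 : x ^ (2 * a + 1) ≤ 2 ^ (2 * a * (2 * a + 1)) := by
      rw [pow_mul]
      exact Nat.pow_le_pow_left h6 _
    have h8 : 2 * a * (2 * a + 1) ≤ 2 * s ^ 4 := by
      have k1 : 10 * (2 * a + 1) ≤ 13 * s ^ 2 := by
        have : 13 * (s * (2 * b)) + 13 * s = 13 * s ^ 2 := by rw [hs]; ring
        omega
      have k2 : (10 * (2 * a)) * (10 * (2 * a + 1)) ≤ (13 * s ^ 2) * (13 * s ^ 2) :=
        Nat.mul_le_mul (by omega) k1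
      nlinarith
    calc _ < x ^ (2 * a + 1) := h5
      _ ≤ _ := h7
      _ ≤ _ := Nat.pow_le_pow_right (by norm_num) h8

/-- Explicit bounds for all second representations with smaller exponent `s`. -/
theorem finalA : ∀ p q r s : ℕ, p.Prime → q.Prime → p < q → 3 ≤ s →
    (((p ^ r - 1) / (p - 1)).Prime ∨ (Odd r ∧ Odd s)) →
    (p ^ r - 1) / (p - 1) = (q ^ s - 1) / (q - 1) →
    2 * (q : ℝ) < (√(p : ℝ) + 1) ^ s - (√(p : ℝ) - 1) ^ s ∧
    10 * (r - 1) < 13 * (s * (s - 1)) ∧ p ≤ 2 ^ (r - 2) ∧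
    (p ^ r - 1) / (p - 1) < 2 ^ (2 * s ^ 4) := by
  intro p q r s hp hq hpq hs hodd h
  rw [← Nat.geomSum_eq hp.two_le r] at hodd h ⊢
  rw [← Nat.geomSum_eq hq.two_le s] at h
  have hsr := exp_lt hpq (by omega) h
  have ho : Odd r ∧ Odd s := by
    rcases hodd with h1 | h1
    · exact ⟨(exp_prime hp.two_le (by omega) h1).odd_of_ne_two (by omega),
        (exp_prime hq.two_le (by omega) (h ▸ h1)).odd_of_ne_two (by omega)⟩
    · exact h1
  obtain ⟨⟨a, rfl⟩, ⟨b, rfl⟩⟩ := ho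
  obtain ⟨h1, h2, h3, h4⟩ := finalA_core hp hq hpq (by omega) h
  refine ⟨h1, by simpa using h2, ?_, h4⟩
  have e : 4 ^ a = 2 * 2 ^ (2 * a + 1 - 2) := by
    rw [← pow_succ', show 2 * a + 1 - 2 + 1 = 2 * a by omega, pow_mul]
    norm_num
  rw [e] at h3
  omega

end Pool.Agent.W_MP_cac67d_h21
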