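import Mathlib
import Pool.Agent.W_MP_cac67d_h21.FinalA
import Pool.Agent.W_MP_cac67d_h21.Big

set_option autoImplicit false

/-!
# The absolute bound for the smaller base
-/

namespace Pool.Agent.W_MP_cac67d_h21

theorem finalC_core {x y a b : ℕ} (hx : x.Prime) (hy : y.Prime) (hxy : x < y) (hb : 1 ≤ b)
    (h : ∑ i ∈ Finset.range (2 * a + 1), x ^ i = ∑ i ∈ Finset.range (2 * b + 1), y ^ i) :
    x < 2 ^ 167078 := by
  have hab : b < a := by
    have := exp_lt hxy (by omega) h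
    omega
  obtain ⟨_, h2, h3, _⟩ := finalA_core hx hy hxy hb h
  rcases Nat.lt_or_ge b 180 with hb2 | hb2
  · have h4 : (2 * b + 1) * (2 * b) ≤ 359 * 358 := Nat.mul_le_mul (by omega) (by omega)
    have h5 : 2 * a ≤ 167078 := by omega
    have h6 : 4 ^ a ≤ 2 ^ 167078 := by
      have : 4 ^ a = 2 ^ (2 * a) := by rw [pow_mul]; norm_num
      rw [this]
      exact Nat.pow_le_pow_right (by norm_num) h5
    have := hx.pos
    omega
  · rcases Nat.lt_or_ge x 9 with hx9 | hx9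
    · refine lt_of_lt_of_le hx9 ?_
      calc 9 ≤ 2 ^ 4 := by norm_num
        _ ≤ 2 ^ 167078 := Nat.pow_le_pow_right (by norm_num) (by norm_num)
    · have hsol : Sol x y a b := ⟨hx, hy, hxy, by omega, hb, pell_form h⟩
      refine lt_of_le_of_lt (hsol.big hx9 (by omega) hb2) ?_
      exact Nat.pow_lt_pow_right (by norm_num) (by norm_num)

/-- The absolute bound, together with the bounds in terms of the smaller exponent. -/
theorem finalC : ∀ p q r s : ℕ, p.Prime → q.Prime → p < q → 3 ≤ s →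
    (((p ^ r - 1) / (p - 1)).Prime ∨ (Odd r ∧ Odd s)) →
    (p ^ r - 1) / (p - 1) = (q ^ s - 1) / (q - 1) →
    p < 2 ^ 167078 ∧
    2 * (q : ℝ) < (√(p : ℝ) + 1) ^ s - (√(p : ℝ) - 1) ^ s ∧
    10 * (r - 1) < 13 * (s * (s - 1)) ∧ p ≤ 2 ^ (r - 2) ∧
    (p ^ r - 1) / (p - 1) < 2 ^ (2 * s ^ 4) ∧
    (p ^ r - 1) / (p - 1) < 2 ^ (217202 * s ^ 2) := by
  intro p q r s hp hq hpq hs hodd h
  obtain ⟨h1, h2, h3, h4⟩ := finalA p q r s hp hq hpq hs hodd h
  have key : p < 2 ^ 167078 := by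
    rw [← Nat.geomSum_eq hp.two_le r] at hodd h
    rw [← Nat.geomSum_eq hq.two_le s] at h
    have hsr := exp_lt hpq (by omega) h
    have ho : Odd r ∧ Odd s := by
      rcases hodd with h1 | h1
      · exact ⟨(exp_prime hp.two_le (by omega) h1).odd_of_ne_two (by omega),
          (exp_prime hq.two_le (by omega) (h ▸ h1)).odd_of_ne_two (by omega)⟩
      · exact h1
    obtain ⟨⟨a, rfl⟩, ⟨b, rfl⟩⟩ := ho
    exact finalC_core hp hq hpq (by omega) h
  refine ⟨key, h1, h2, h3, h4, ?_⟩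
  have h5 : (p ^ r - 1) / (p - 1) < p ^ r := by
    have hp2 := hp.two_le
    have : 0 < p ^ r := Nat.pow_pos hp.pos
    calc (p ^ r - 1) / (p - 1) ≤ p ^ r - 1 := Nat.div_le_self _ _
      _ < p ^ r := by omega
  refine lt_of_lt_of_le h5 ?_
  calc p ^ r ≤ (2 ^ 167078) ^ r := Nat.pow_le_pow_left key.le _
    _ = 2 ^ (167078 * r) := (pow_mul _ _ _).symm
    _ ≤ _ := by
      refine Nat.pow_le_pow_right (by norm_num) ?_
      have e1 : s * (s - 1) + s = s ^ 2 := by
        obtain ⟨t, rfl⟩ : ∃ t, s = t + 1 := ⟨s - 1, by omega⟩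
        have : t + 1 - 1 = t := rfl
        rw [this]; ring
      have h6 : 10 * r ≤ 13 * s ^ 2 := by omega
      omega

/-- The absolute bound for the smaller base. -/
theorem finalC_base : ∀ p q r s : ℕ, p.Prime → q.Prime → p < q → 3 ≤ s →
    (((p ^ r - 1) / (p - 1)).Prime ∨ (Odd r ∧ Odd s)) →
    (p ^ r - 1) / (p - 1) = (q ^ s - 1) / (q - 1) →
    p < 2 ^ 167078 :=
  fun p q r s hp hq hpq hs hodd h => (finalC p q r s hp hq hpq hs hodd h).1

end Pool.Agent.W_MP_cac67d_h21
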