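import Mathlib
import Pool.Agent.W_MP_cac67d_h21.Det3

set_option autoImplicit false

/-!
# The general interpolation matrix
-/

namespace Pool.Agent.W_MP_cac67d_h21

open Finset Matrix

/-- The interpolation matrix with values `A c`, `B c` at the two points. -/
def GM {R : Type*} [CommRing R] {K : ℕ} {ι : Type*} (m : ι → ℕ) (A B : ι → R) : Row K → ι → R
  | Sum.inl k, c => ((m c).choose k : R) * A c
  | Sum.inr k, c => ((m c).choose k : R) * B c

lemma GM_map {R S : Type*} [CommRing R] [CommRing S] (f : R →+* S) {K : ℕ}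
    (m : Row K → ℕ) (A B : Row K → R) :
    f (Matrix.of (GM m A B)).det = (Matrix.of (GM m (fun c => f (A c)) (fun c => f (B c)))).det := by
  rw [RingHom.map_det]
  congr 1
  ext r c
  simp only [RingHom.mapMatrix_apply, Matrix.map_apply, Matrix.of_apply]
  rcases r with k | k <;> simp [GM]

lemma GM_mem {R : Type*} [CommRing R] (O : Subring R) {K : ℕ}
    (m : Row K → ℕ) (A B : Row K → R) (hA : ∀ c, A c ∈ O) (hB : ∀ c, B c ∈ O) :
    (Matrix.of (GM m A B)).det ∈ O := by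
  rw [Matrix.det_apply']
  refine O.sum_mem fun σ _ => O.mul_mem (intCast_mem _ _) (O.prod_mem fun c _ => ?_)
  simp only [Matrix.of_apply]
  rcases σ c with k | k
  · exact O.mul_mem (natCast_mem _ _) (hA c)
  · exact O.mul_mem (natCast_mem _ _) (hB c)

/-- Trivial bound. -/
lemma GM_triv {K M : ℕ} {H : ℝ} (m : Row K → ℕ) (A B : Row K → ℝ) (hm : ∀ c, m c ≤ M)
    (hA : ∀ c, |A c| ≤ H) (hB : ∀ c, |B c| ≤ H) :
    |(Matrix.of (GM m A B)).det| ≤ (2 * K).factorial * (2 ^ M * H) ^ (2 * K) := by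
  have hcard : Fintype.card (Row K) = 2 * K := by simp [Row, two_mul]
  have := Matrix.det_le (A := Matrix.of (GM m A B))
    (abv := AbsoluteValue.abs) (x := 2 ^ M * H) (fun r c => by
      have e1 : ∀ k : ℕ, ((m c).choose k : ℝ) ≤ 2 ^ M := by
        intro k
        have h4 := (Nat.choose_le_two_pow (m c) k).trans
          (Nat.pow_le_pow_right (by norm_num) (hm c))
        exact_mod_cast h4
      rcases r with k | k
      · simp only [Matrix.of_apply, GM, AbsoluteValue.abs_apply]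
        rw [abs_mul, Nat.abs_cast]
        exact mul_le_mul (e1 _) (hA c) (abs_nonneg _) (by positivity)
      · simp only [Matrix.of_apply, GM, AbsoluteValue.abs_apply]
        rw [abs_mul, Nat.abs_cast]
        exact mul_le_mul (e1 _) (hB c) (abs_nonneg _) (by positivity))
  rw [hcard] at this
  simpa [nsmul_eq_mul] using this

/-- Factorization. -/
lemma GM_fac {K M0 I0 : ℕ} (m i : Row K → ℕ) (A B : Row K → ℝ) {z w : ℝ} (hz : z ≠ 0) (hw : w ≠ 0)
    (h : ∀ c, A c * (z ^ (m c) * w ^ (i c)) = B c * (z ^ M0 * w ^ I0)) :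
    (Matrix.of (GM m A B)).det =
      (∏ k : Fin K, z ^ (k : ℕ) / (z ^ M0 * w ^ I0)) * ((Matrix.of (Ent z w m i)).det * ∏ c, A c) := by
  set g : Row K → ℝ := fun r => match r with
    | Sum.inl _ => 1
    | Sum.inr k => z ^ (k : ℕ) / (z ^ M0 * w ^ I0) with hg
  have hκ : z ^ M0 * w ^ I0 ≠ 0 := mul_ne_zero (pow_ne_zero _ hz) (pow_ne_zero _ hw)
  have h1 : (Matrix.of (GM m A B)) =
      Matrix.of (fun r c => g r * (Matrix.of (fun r c => A c * (Matrix.of (Ent z w m i)) r c)) r c) := by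
    ext r c
    simp only [Matrix.of_apply]
    rcases r with k | k
    · simp only [GM, Ent, hg]
      ring
    · simp only [GM, Ent, hg]
      rcases lt_or_ge (m c) k with h2 | h2
      · rw [Nat.choose_eq_zero_of_lt h2]; simp
      · have e1 : z ^ (k : ℕ) * z ^ (m c - k) = z ^ (m c) := by
          rw [← pow_add]; congr 1; omega
        have e2 := h c
        rw [← e1] at e2
        field_simp
        linear_combination (-((m c).choose k : ℝ)) * e2
  rw [h1, Matrix.det_mul_column, Matrix.det_mul_row]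
  have h2 : ∏ r, g r = ∏ k : Fin K, z ^ (k : ℕ) / (z ^ M0 * w ^ I0) := by
    rw [Fintype.prod_sum_type]
    simp [hg]
  rw [h2]
  ring

lemma GM_ne {K M0 I0 : ℕ} (m i : Row K → ℕ) (A B : Row K → ℝ) {z w : ℝ} (hz : z ≠ 0) (hw : w ≠ 0)
    (h : ∀ c, A c * (z ^ (m c) * w ^ (i c)) = B c * (z ^ M0 * w ^ I0)) (hA : ∀ c, A c ≠ 0)
    (hne : (Matrix.of (Ent z w m i)).det ≠ 0) : (Matrix.of (GM m A B)).det ≠ 0 := by
  rw [GM_fac m i A B hz hw h]
  have hκ : z ^ M0 * w ^ I0 ≠ 0 := mul_ne_zero (pow_ne_zero _ hz) (pow_ne_zero _ hw)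
  refine mul_ne_zero (Finset.prod_ne_zero_iff.mpr fun k _ => ?_)
    (mul_ne_zero hne (Finset.prod_ne_zero_iff.mpr fun c _ => hA c))
  exact div_ne_zero (pow_ne_zero _ hz) hκ

/-- Small value at a place where both points are close to `(1, 1)`. -/
lemma GM_arch {ρ K M I M0 I0 : ℕ} (m i : Row K → ℕ) (A B : Row K → ℝ) {z w ξ H : ℝ}
    (h : ∀ c, A c * (z ^ (m c) * w ^ (i c)) = B c * (z ^ M0 * w ^ I0))
    (hξ0 : 0 < ξ) (hξ1 : ξ ≤ 1 / 2) (hz : |z - 1| ≤ ξ) (hw : |w - 1| ≤ ξ ^ (2 * ρ + 1))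
    (hK : K ≤ M + 1) (hm : ∀ c, m c ≤ M) (hi : ∀ c, i c ≤ I) (h2 : K ≤ 3 * ρ + 2)
    (hA : ∀ c, |A c| ≤ H) :
    |(Matrix.of (GM m A B)).det| ≤
      (2 ^ (K + M0 + I0)) ^ K * ((Ec K M I * ξ ^ Wd ρ K) * H ^ (2 * K)) := by
  have hw' : |w - 1| ≤ 1 / 2 := by
    refine hw.trans (le_trans ?_ hξ1)
    calc ξ ^ (2 * ρ + 1) ≤ ξ ^ 1 := pow_le_pow_of_le_one hξ0.le (by linarith) (by omega)
      _ = ξ := pow_one _
  have hz' : |z - 1| ≤ 1 / 2 := hz.trans hξ1
  have z1 : 1 / 2 ≤ z := by linarith [(abs_le.mp hz').1]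
  have z2 : z ≤ 2 := by linarith [(abs_le.mp hz').2]
  have w1 : 1 / 2 ≤ w := by linarith [(abs_le.mp hw').1]
  have hz0 : z ≠ 0 := by linarith
  have hw0 : w ≠ 0 := by linarith
  rw [GM_fac m i A B hz0 hw0 h, abs_mul, abs_mul, Finset.abs_prod, Finset.abs_prod]
  have hcard : Fintype.card (Row K) = 2 * K := by simp [Row, two_mul]
  have e1 : ∏ k : Fin K, |z ^ (k : ℕ) / (z ^ M0 * w ^ I0)| ≤ (2 ^ (K + M0 + I0)) ^ K := by
    calc ∏ k : Fin K, |z ^ (k : ℕ) / (z ^ M0 * w ^ I0)| ≤ ∏ k : Fin K, (2 ^ (K + M0 + I0) : ℝ) := by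
          refine Finset.prod_le_prod (fun _ _ => abs_nonneg _) fun k _ => ?_
          have hκ : 0 < z ^ M0 * w ^ I0 := by positivity
          rw [abs_of_nonneg (by positivity), div_le_iff₀ hκ]
          have f1 : z ^ (k : ℕ) ≤ 2 ^ K := by
            calc z ^ (k : ℕ) ≤ 2 ^ (k : ℕ) := pow_le_pow_left₀ (by linarith) z2 _
              _ ≤ 2 ^ K := pow_le_pow_right₀ (by norm_num) k.isLt.le
          have f2 : (1 : ℝ) ≤ 2 ^ M0 * z ^ M0 := by
            rw [← mul_pow]
            exact one_le_pow₀ (by linarith)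
          have f3 : (1 : ℝ) ≤ 2 ^ I0 * w ^ I0 := by
            rw [← mul_pow]
            exact one_le_pow₀ (by linarith)
          have f4 : (1 : ℝ) ≤ (2 ^ M0 * z ^ M0) * (2 ^ I0 * w ^ I0) := by
            calc (1 : ℝ) = 1 * 1 := by norm_num
              _ ≤ _ := mul_le_mul f2 f3 (by norm_num) (by linarith)
          calc z ^ (k : ℕ) ≤ 2 ^ K * 1 := by rw [mul_one]; exact f1
            _ ≤ 2 ^ K * ((2 ^ M0 * z ^ M0) * (2 ^ I0 * w ^ I0)) :=
                mul_le_mul_of_nonneg_left f4 (by positivity)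
            _ = _ := by rw [pow_add, pow_add]; ring
      _ = _ := by rw [Finset.prod_const, Finset.card_univ, Fintype.card_fin]
  have e2 : |(Matrix.of (Ent z w m i)).det| ≤ Ec K M I * ξ ^ Wd ρ K := by
    have := arch_det (ρ := ρ) (K := K) (M := M) (I := I) m i (x := z - 1)
      (z := w - 1) hξ0 (by linarith) hz hw hK hm hi h2
    have e4 : (1 : ℝ) + (z - 1) = z := by ring
    have e5 : (1 : ℝ) + (w - 1) = w := by ring
    rwa [e4, e5] at this
  have e3 : ∏ c : Row K, |A c| ≤ H ^ (2 * K) := by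
    calc ∏ c : Row K, |A c| ≤ ∏ c : Row K, H :=
          Finset.prod_le_prod (fun _ _ => abs_nonneg _) fun c _ => hA c
      _ = _ := by rw [Finset.prod_const, Finset.card_univ, hcard]
  exact mul_le_mul e1 (mul_le_mul e2 e3 (Finset.prod_nonneg fun _ _ => abs_nonneg _)
    (by positivity)) (mul_nonneg (abs_nonneg _) (Finset.prod_nonneg fun _ _ => abs_nonneg _))
    (by positivity)

end Pool.Agent.W_MP_cac67d_h21
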