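import Mathlib
import Pool.Agent.W_MP_cac67d_h21.Zero

set_option autoImplicit false

/-!
# The zero estimate with a general shift
-/

namespace Pool.Agent.W_MP_cac67d_h21

open Finset Matrix Polynomial

theorem rows_indep_gen {K : ℕ} (hK : 1 ≤ K) {κ : Type*} (Ω : Finset κ)
    (m i : κ → ℕ) (hm : Set.InjOn m Ω) (T W : ℝ) (hT : T ≠ 0) (hW : W ≠ 0)
    (e f : ℕ) (hα : T ^ e * W ^ f ≠ 1) (Ω' : Finset κ) (hΩ : Ω' ⊆ Ω)
    (hΩ' : ∀ c ∈ Ω', ∃ c' ∈ Ω, m c' = m c + e ∧ i c' = i c + f)
    (hcount : 2 * K ≤ Ω'.card + 1) (v : Row K → ℝ)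
    (hv : ∀ c ∈ Ω, ∑ r, v r * Ent T W m i r c = 0) : v = 0 := by
  set U := pv (fun k : Fin K => v (Sum.inl k)) with hU
  set V := pv (fun k : Fin K => v (Sum.inr k) * (T ^ (k : ℕ))⁻¹) with hV
  have hUd : U.degree < K := pv_degree _
  have hVd : V.degree < K := pv_degree _
  have hrel : ∀ c ∈ Ω, U.eval (m c : ℝ) + V.eval (m c : ℝ) * (T ^ m c * W ^ i c) = 0 := by
    intro c hc
    have h1 := hv c hc
    rw [Fintype.sum_sum_type] at h1
    rw [hU, hV, pv_eval, pv_eval, ← h1, Finset.sum_mul]
    congr 1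
    refine Finset.sum_congr rfl fun k _ => ?_
    simp only [Ent]
    rcases lt_or_ge (m c) k with h2 | h2
    · rw [Nat.choose_eq_zero_of_lt h2]; simp
    · have h3 : T ^ m c = T ^ (m c - (k : ℕ)) * T ^ (k : ℕ) := by
        rw [← pow_add]; congr 1; omega
      rw [h3]
      have h4 : T ^ (k : ℕ) ≠ 0 := pow_ne_zero _ hT
      field_simp
  have hcard : Ω'.card ≤ Ω.card := Finset.card_le_card hΩ
  have hTW : ∀ c, T ^ m c * W ^ i c ≠ 0 := fun c => mul_ne_zero (pow_ne_zero _ hT) (pow_ne_zero _ hW)
  have hnat : ∀ P : ℝ[X], P ≠ 0 → P.degree < K → P.natDegree < K := by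
    intro P hP hd
    exact (natDegree_lt_iff_degree_lt hP).mpr hd
  have hU0 : U = 0 → v = 0 := by
    intro h0
    have hV0 : V = 0 := by
      by_contra hne
      have h1 := card_roots_lt hne (hnat V hne hVd) Ω m hm (fun c hc => by
        have h2 := hrel c hc
        rw [h0, eval_zero, zero_add] at h2
        exact (mul_eq_zero.mp h2).resolve_right (hTW c))
      omega
    have h1 := pv_zero _ h0
    have h2 := pv_zero _ hV0
    funext r
    rcases r with k | k
    · exact congrFun h1 k
    · have h3 := congrFun h2 k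
      simp only [Pi.zero_apply, mul_eq_zero, inv_eq_zero] at h3
      exact h3.resolve_right (pow_ne_zero _ hT)
  have hV0 : V = 0 → v = 0 := by
    intro h0
    apply hU0
    by_contra hne
    have h1 := card_roots_lt hne (hnat U hne hUd) Ω m hm (fun c hc => by
      have h2 := hrel c hc
      rw [h0, eval_zero, zero_mul, add_zero] at h2
      exact h2)
    omega
  by_contra hcon
  have hUne : U ≠ 0 := fun h0 => hcon (hU0 h0)
  have hVne : V ≠ 0 := fun h0 => hcon (hV0 h0)
  set α := T ^ e * W ^ f with hαdef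
  set Q := taylor (e : ℝ) U * V - C α * (U * taylor (e : ℝ) V) with hQ
  have hQz : ∀ c ∈ Ω', Q.eval (m c : ℝ) = 0 := by
    intro c hc
    obtain ⟨c', hc', h1, h2⟩ := hΩ' c hc
    have h3 := hrel c (hΩ hc)
    have h4 := hrel c' hc'
    rw [h1, h2] at h4
    have h5 : T ^ (m c + e) * W ^ (i c + f) = (T ^ m c * W ^ i c) * α := by
      rw [hαdef, pow_add, pow_add]; ring
    rw [h5] at h4
    have h6 : ((m c + e : ℕ) : ℝ) = (m c : ℝ) + e := by push_cast; ring
    rw [h6] at h4
    rw [hQ, eval_sub, eval_mul, eval_mul, eval_mul, eval_C, taylor_eval, taylor_eval]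
    have h7 := hTW c
    set g := T ^ m c * W ^ i c
    have h8 : g * (eval ((m c : ℝ) + e) U * eval (m c : ℝ) V -
        α * (eval (m c : ℝ) U * eval ((m c : ℝ) + e) V)) = 0 := by
      linear_combination (-α * g * eval ((m c : ℝ) + e) V) * h3 +
        (g * eval (m c : ℝ) V) * h4
    exact (mul_eq_zero.mp h8).resolve_left h7
  have hcoef : Q.coeff (U.natDegree + V.natDegree) =
      (1 - α) * (U.leadingCoeff * V.leadingCoeff) := by
    rw [hQ, coeff_sub, coeff_C_mul]
    have e1 : (taylor (e : ℝ) U * V).coeff (U.natDegree + V.natDegree) =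
        U.leadingCoeff * V.leadingCoeff := by
      have := coeff_mul_degree_add_degree (taylor (e : ℝ) U) V
      rw [natDegree_taylor, leadingCoeff_taylor] at this
      exact this
    have e2 : (U * taylor (e : ℝ) V).coeff (U.natDegree + V.natDegree) =
        U.leadingCoeff * V.leadingCoeff := by
      have := coeff_mul_degree_add_degree U (taylor (e : ℝ) V)
      rw [natDegree_taylor, leadingCoeff_taylor] at this
      exact this
    rw [e1, e2]; ring
  have hQne : Q ≠ 0 := by
    intro h0
    rw [h0, coeff_zero] at hcoef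
    have h1 : (1 - α) ≠ 0 := fun h2 => hα (by linarith)
    exact (mul_ne_zero h1 (mul_ne_zero (leadingCoeff_ne_zero.mpr hUne)
      (leadingCoeff_ne_zero.mpr hVne))) hcoef.symm
  have hQd : Q.natDegree < 2 * K - 1 := by
    have hu := hnat U hUne hUd
    have hvv := hnat V hVne hVd
    have h1 : Q.natDegree ≤ U.natDegree + V.natDegree := by
      rw [hQ]
      refine (natDegree_sub_le _ _).trans (max_le ?_ ?_)
      · refine natDegree_mul_le.trans ?_
        rw [natDegree_taylor]
      · refine (natDegree_C_mul_le _ _).trans (natDegree_mul_le.trans ?_)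
        rw [natDegree_taylor]
    omega
  have h1 := card_roots_lt hQne hQd Ω' m (hm.mono (by exact_mod_cast hΩ)) hQz
  omega

end Pool.Agent.W_MP_cac67d_h21
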