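import Mathlib
import Pool.Agent.W_MP_cac67d_h21.Fn1
import Pool.Agent.W_MP_cac67d_h21.Fn2

set_option autoImplicit false

/-!
# Two solutions with the same bases: the columns
-/

namespace Pool.Agent.W_MP_cac67d_h21

open Finset

/-- `(y - 1) x ^ r / ((x - 1) y ^ s)` -/
noncomputable def uu (x y r s : ℕ) : ℝ :=
  (((y : ℝ) - 1) * (x : ℝ) ^ r) / (((x : ℝ) - 1) * (y : ℝ) ^ s)

lemma uu_bd {x y r s : ℕ} (hx : 2 ≤ x) (hxy : x < y) (hs : 1 ≤ s)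
    (h : ((y : ℝ) - 1) * (x : ℝ) ^ r = ((x : ℝ) - 1) * (y : ℝ) ^ s + ((y : ℝ) - x)) :
    1 < uu x y r s ∧ uu x y r s - 1 ≤ ((y : ℝ)⁻¹) ^ (s - 1) := by
  have hx' : (2 : ℝ) ≤ x := by exact_mod_cast hx
  have hxy' : (x : ℝ) + 1 ≤ y := by exact_mod_cast hxy
  have hy0 : (0 : ℝ) < y := by linarith
  have hys : (0 : ℝ) < (y : ℝ) ^ s := by positivity
  have hd : 0 < ((x : ℝ) - 1) * (y : ℝ) ^ s := mul_pos (by linarith) hys
  have e : uu x y r s - 1 = ((y : ℝ) - x) / (((x : ℝ) - 1) * (y : ℝ) ^ s) := by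
    unfold uu
    rw [h, div_sub_one hd.ne']
    congr 1
    ring
  constructor
  · have : 0 < uu x y r s - 1 := by
      rw [e]
      exact div_pos (by linarith) hd
    linarith
  · rw [e, div_le_iff₀ hd]
    obtain ⟨t, rfl⟩ : ∃ t, s = t + 1 := ⟨s - 1, by omega⟩
    have e2 : t + 1 - 1 = t := rfl
    rw [e2, pow_succ]
    have e3 : ((y : ℝ)⁻¹) ^ t * (((x : ℝ) - 1) * ((y : ℝ) ^ t * y)) = ((x : ℝ) - 1) * y := by
      rw [inv_pow]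
      field_simp
    rw [e3]
    nlinarith

section cols

variable (x y r1 s1 r2 s2 Q : ℕ)

/-- the exponent of `(y - 1) / (x - 1)` -/
def ee1 (c : ℕ × ℕ) : ℤ := (c.2 : ℤ) - Q * c.1 + c.1

/-- the exponent of `x` -/
def ee2 (c : ℕ × ℕ) : ℤ := r1 * ((c.2 : ℤ) - Q * c.1) + r2 * c.1

/-- the exponent of `1 / y` -/
def ee3 (c : ℕ × ℕ) : ℕ := s1 * c.2 + (s2 - s1 * Q) * c.1

/-- the denominator -/
def AN (c : ℕ × ℕ) : ℕ :=
  (x - 1) ^ (ee1 Q c).toNat * (y - 1) ^ (-ee1 Q c).toNat * x ^ (-ee2 r1 r2 Q c).toNat *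
    y ^ (ee3 s1 s2 Q c)

/-- the numerator -/
def BN (c : ℕ × ℕ) : ℕ :=
  (x - 1) ^ (-ee1 Q c).toNat * (y - 1) ^ (ee1 Q c).toNat * x ^ (ee2 r1 r2 Q c).toNat

/-- the shifted exponent of `u1` -/
def mm (c : ℕ × ℕ) : ℕ := c.2 + Q * (8 - c.1)

end cols

lemma AB_rel {x y r1 s1 r2 s2 Q : ℕ} (hx : 2 ≤ x) (hxy : x < y) (hQ : s1 * Q ≤ s2)
    (c : ℕ × ℕ) (hc : c.1 < 8) :
    (AN x y r1 s1 r2 s2 Q c : ℝ) * (uu x y r1 s1 ^ (mm Q c) * uu x y r2 s2 ^ c.1) =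
      (BN x y r1 r2 Q c : ℝ) * (uu x y r1 s1 ^ (8 * Q) * uu x y r2 s2 ^ 0) := by
  have hx' : (2 : ℝ) ≤ x := by exact_mod_cast hx
  have hxy' : (x : ℝ) + 1 ≤ y := by exact_mod_cast hxy
  have hx1 : ((x - 1 : ℕ) : ℝ) = (x : ℝ) - 1 := by
    push_cast [Nat.cast_sub (by omega : 1 ≤ x)]; rfl
  have hy1 : ((y - 1 : ℕ) : ℝ) = (y : ℝ) - 1 := by
    push_cast [Nat.cast_sub (by omega : 1 ≤ y)]; rfl
  obtain ⟨j, l⟩ := c
  simp only at hc
  have hm : (mm Q (j, l) : ℤ) = (l : ℤ) - Q * j + 8 * Q := by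
    unfold mm
    simp only
    push_cast [Nat.cast_sub hc.le]
    ring
  have h3 : (ee3 s1 s2 Q (j, l) : ℤ) = s1 * ((l : ℤ) - Q * j) + s2 * j := by
    unfold ee3
    simp only
    push_cast [Nat.cast_sub hQ]
    ring
  unfold AN BN
  set p1 := (ee1 Q (j, l)).toNat with hp1
  set n1 := (-ee1 Q (j, l)).toNat with hn1
  set p2 := (ee2 r1 r2 Q (j, l)).toNat with hp2
  set n2 := (-ee2 r1 r2 Q (j, l)).toNat with hn2
  set m := mm Q (j, l) with hmd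
  set e3 := ee3 s1 s2 Q (j, l) with he3
  have g1 : (p1 : ℤ) - n1 = (l : ℤ) - Q * j + j := by
    rw [hp1, hn1, Int.toNat_sub_toNat_neg]
    rfl
  have g2 : (p2 : ℤ) - n2 = r1 * ((l : ℤ) - Q * j) + r2 * j := by
    rw [hp2, hn2, Int.toNat_sub_toNat_neg]
    rfl
  simp only
  set P : ℝ := (y : ℝ) - 1 with hP
  set X' : ℝ := (x : ℝ) - 1 with hX'
  have hP0 : 0 < P := by rw [hP]; linarith
  have hX0 : 0 < X' := by rw [hX']; linarith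
  have hy0 : (0 : ℝ) < y := by linarith
  have hx0 : (0 : ℝ) < x := by linarith
  have k1 : X' ^ p1 * X' ^ (8 * Q) = X' ^ n1 * (X' ^ m * X' ^ j) := by
    rw [← pow_add, ← pow_add, ← pow_add]
    congr 1
    have : ((p1 + 8 * Q : ℕ) : ℤ) = ((n1 + (m + j) : ℕ) : ℤ) := by
      push_cast
      linarith
    exact_mod_cast this
  have k2 : P ^ n1 * (P ^ m * P ^ j) = P ^ p1 * P ^ (8 * Q) := by
    rw [← pow_add, ← pow_add, ← pow_add]
    congr 1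
    have : ((n1 + (m + j) : ℕ) : ℤ) = ((p1 + 8 * Q : ℕ) : ℤ) := by
      push_cast
      linarith
    exact_mod_cast this
  have k3 : (x : ℝ) ^ n2 * ((x : ℝ) ^ (r1 * m) * (x : ℝ) ^ (r2 * j)) =
      (x : ℝ) ^ p2 * (x : ℝ) ^ (r1 * (8 * Q)) := by
    rw [← pow_add, ← pow_add, ← pow_add]
    congr 1
    have : ((n2 + (r1 * m + r2 * j) : ℕ) : ℤ) = ((p2 + r1 * (8 * Q) : ℕ) : ℤ) := by
      push_cast
      rw [hm]
      linear_combination -g2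
    exact_mod_cast this
  have k4 : (y : ℝ) ^ e3 * (y : ℝ) ^ (s1 * (8 * Q)) = (y : ℝ) ^ (s1 * m) * (y : ℝ) ^ (s2 * j) := by
    rw [← pow_add, ← pow_add]
    congr 1
    have : ((e3 + s1 * (8 * Q) : ℕ) : ℤ) = ((s1 * m + s2 * j : ℕ) : ℤ) := by
      push_cast
      rw [hm, h3]
      ring
    exact_mod_cast this
  unfold uu
  rw [← hP, ← hX', div_pow, div_pow, div_pow, mul_pow, mul_pow, mul_pow, mul_pow, mul_pow, mul_pow,
    ← pow_mul, ← pow_mul, ← pow_mul, ← pow_mul, ← pow_mul, ← pow_mul, pow_zero, mul_one]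
  push_cast
  rw [hx1, hy1, div_mul_div_comm, mul_div_assoc', mul_div_assoc', div_eq_div_iff (by positivity) (by positivity)]
  calc X' ^ p1 * P ^ n1 * (x : ℝ) ^ n2 * (y : ℝ) ^ e3 *
        (P ^ m * (x : ℝ) ^ (r1 * m) * (P ^ j * (x : ℝ) ^ (r2 * j))) *
        (X' ^ (8 * Q) * (y : ℝ) ^ (s1 * (8 * Q))) =
      (X' ^ p1 * X' ^ (8 * Q)) * (P ^ n1 * (P ^ m * P ^ j)) *
        ((x : ℝ) ^ n2 * ((x : ℝ) ^ (r1 * m) * (x : ℝ) ^ (r2 * j))) *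
        ((y : ℝ) ^ e3 * (y : ℝ) ^ (s1 * (8 * Q))) := by ring
    _ = _ := by rw [k1, k2, k3, k4]; ring

/-- the size of the denominators -/
lemma AN_bd {x y r1 s1 r2 s2 Q n : ℕ} (hx : 2 ≤ x) (hxy : x < y) (hs1 : 1 ≤ s1) (hQ : s1 * Q ≤ s2)
    (hQ2 : s2 - s1 * Q ≤ s1) (h1 : 1 < uu x y r1 s1) (h1' : uu x y r1 s1 ≤ 2) (h2 : 1 < uu x y r2 s2)
    (c : ℕ × ℕ) (hc : c.1 < 8) (hc2 : c.2 < 2 * n + 1) :
    (AN x y r1 s1 r2 s2 Q c : ℝ) ≤ (y : ℝ) ^ (16 * Q + 2 * n + 9 + s1 * (2 * n + 9)) := by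
  have hx' : (2 : ℝ) ≤ x := by exact_mod_cast hx
  have hxy' : (x : ℝ) + 1 ≤ y := by exact_mod_cast hxy
  have hy0 : (0 : ℝ) < y := by linarith
  have hy1 : (1 : ℝ) ≤ y := by linarith
  have hrel := AB_rel (r1 := r1) (r2 := r2) hx hxy hQ c hc
  set u1 := uu x y r1 s1
  set u2 := uu x y r2 s2
  -- the exponents
  have a1 : (ee1 Q c).toNat + (-ee1 Q c).toNat ≤ 8 * Q + 2 * n + 9 := by
    have h3 : (ee1 Q c).toNat + (-ee1 Q c).toNat = (ee1 Q c).natAbs := by omega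
    rw [h3]
    unfold ee1
    have h4 : Q * c.1 ≤ Q * 8 := Nat.mul_le_mul_left _ hc.le
    have h5 : ((Q * c.1 : ℕ) : ℤ) = (Q : ℤ) * c.1 := by push_cast; rfl
    rw [← h5]
    omega
  have a3 : ee3 s1 s2 Q c ≤ s1 * (2 * n + 9) := by
    unfold ee3
    have h3 : (s2 - s1 * Q) * c.1 ≤ s1 * 8 := Nat.mul_le_mul hQ2 hc.le
    have h4 : s1 * c.2 ≤ s1 * (2 * n) := Nat.mul_le_mul_left _ (by omega)
    nlinarith
  have b1 : (((x - 1 : ℕ) : ℝ)) ≤ y := by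
    have : x - 1 ≤ y := by omega
    exact_mod_cast this
  have b2 : (((y - 1 : ℕ) : ℝ)) ≤ y := by
    have : y - 1 ≤ y := by omega
    exact_mod_cast this
  set p1 := (ee1 Q c).toNat with hp1
  set n1 := (-ee1 Q c).toNat with hn1
  rcases le_or_gt 0 (ee2 r1 r2 Q c) with h0 | h0
  · have e1 : (-ee2 r1 r2 Q c).toNat = 0 := by omega
    unfold AN
    rw [e1]
    push_cast
    rw [pow_zero, mul_one]
    calc ((x - 1 : ℕ) : ℝ) ^ (ee1 Q c).toNat * ((y - 1 : ℕ) : ℝ) ^ (-ee1 Q c).toNat *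
          (y : ℝ) ^ (ee3 s1 s2 Q c) ≤ (y : ℝ) ^ p1 * (y : ℝ) ^ n1 * (y : ℝ) ^ (ee3 s1 s2 Q c) := by
          refine mul_le_mul_of_nonneg_right ?_ (by positivity)
          exact mul_le_mul (pow_le_pow_left₀ (Nat.cast_nonneg _) b1 _)
            (pow_le_pow_left₀ (Nat.cast_nonneg _) b2 _) (by positivity) (by positivity)
      _ = (y : ℝ) ^ (p1 + n1 + ee3 s1 s2 Q c) := by rw [pow_add, pow_add]
      _ ≤ _ := pow_le_pow_right₀ hy1 (by omega)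
  · have e1 : (ee2 r1 r2 Q c).toNat = 0 := by omega
    have hB : (BN x y r1 r2 Q c : ℝ) ≤ (y : ℝ) ^ (p1 + n1) := by
      unfold BN
      rw [e1]
      push_cast
      rw [pow_zero, mul_one, add_comm p1 n1, pow_add]
      exact mul_le_mul (pow_le_pow_left₀ (Nat.cast_nonneg _) b1 _)
            (pow_le_pow_left₀ (Nat.cast_nonneg _) b2 _) (by positivity) (by positivity)
    have hA0 : (0 : ℝ) ≤ AN x y r1 s1 r2 s2 Q c := Nat.cast_nonneg _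
    have h3 : (1 : ℝ) ≤ u1 ^ mm Q c * u2 ^ c.1 := by
      calc (1 : ℝ) = 1 * 1 := by norm_num
        _ ≤ _ := mul_le_mul (one_le_pow₀ h1.le) (one_le_pow₀ h2.le) (by norm_num) (by positivity)
    calc (AN x y r1 s1 r2 s2 Q c : ℝ) = AN x y r1 s1 r2 s2 Q c * 1 := (mul_one _).symm
      _ ≤ AN x y r1 s1 r2 s2 Q c * (u1 ^ mm Q c * u2 ^ c.1) := mul_le_mul_of_nonneg_left h3 hA0
      _ = (BN x y r1 r2 Q c : ℝ) * u1 ^ (8 * Q) := by rw [hrel, pow_zero, mul_one]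
      _ ≤ (y : ℝ) ^ (p1 + n1) * (y : ℝ) ^ (8 * Q) := by
          refine mul_le_mul hB (pow_le_pow_left₀ (by linarith) (by linarith) _) (by positivity)
            (by positivity)
      _ = (y : ℝ) ^ (p1 + n1 + 8 * Q) := by rw [← pow_add]
      _ ≤ _ := pow_le_pow_right₀ hy1 (by omega)

end Pool.Agent.W_MP_cac67d_h21
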