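import Mathlib
import Pool.Agent.W_MP_cac67d_h21.Fn3

set_option autoImplicit false

/-!
# Two solutions with the same bases
-/

namespace Pool.Agent.W_MP_cac67d_h21

open Finset

lemma Wd_self (K : ℕ) : Wd K K = K * K := by
  unfold Wd
  have : (2 * K + 1) * K = K * K + K * (K + 1) := by ring
  omega

/-- A crude bound for the constant. -/
lemma Ec_two (K M I : ℕ) :
    Ec K M I ≤ 2 ^ (2 * K * (3 * M + 2 * I + 2 * K)) := by
  unfold Ec
  have h1 : (M + 1) * (I + 1) ≤ 2 ^ (M + I) := by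
    rw [pow_add]
    exact Nat.mul_le_mul (Nat.lt_two_pow_self) (Nat.lt_two_pow_self)
  have h2 : (2 * K).factorial ≤ 2 ^ (2 * K * (2 * K)) := by
    calc (2 * K).factorial ≤ (2 * K) ^ (2 * K) := Nat.factorial_le_pow _
      _ ≤ (2 ^ (2 * K)) ^ (2 * K) := Nat.pow_le_pow_left (Nat.lt_two_pow_self).le _
      _ = _ := by rw [← pow_mul]
  calc ((M + 1) * (I + 1)) ^ (2 * K) * (2 * K).factorial * 2 ^ ((2 * M + I) * (2 * K)) ≤
      (2 ^ (M + I)) ^ (2 * K) * 2 ^ (2 * K * (2 * K)) * 2 ^ ((2 * M + I) * (2 * K)) := by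
        refine Nat.mul_le_mul_right _ (Nat.mul_le_mul (Nat.pow_le_pow_left h1 _) h2)
    _ = _ := by
        rw [← pow_mul, ← pow_add, ← pow_add]
        congr 1
        ring

/-- Two solutions with the same bases: if the smaller one is large, the other one is not much
larger. -/
theorem two_sol {x y r1 s1 r2 s2 : ℕ} (hx : 2 ≤ x) (hxy : x < y)
    (h1 : ((y : ℝ) - 1) * (x : ℝ) ^ r1 = ((x : ℝ) - 1) * (y : ℝ) ^ s1 + ((y : ℝ) - x))
    (h2 : ((y : ℝ) - 1) * (x : ℝ) ^ r2 = ((x : ℝ) - 1) * (y : ℝ) ^ s2 + ((y : ℝ) - x))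
    (hs1 : 2000 ≤ s1) (hs2 : s1 ^ 2 ≤ s2) : False := by
  classical
  have hs1' : 0 < s1 := by omega
  obtain ⟨Q, hQ1, hQ2, hQ3⟩ : ∃ Q : ℕ, s1 ≤ Q ∧ s1 * Q ≤ s2 ∧ s2 - s1 * Q ≤ s1 := by
    refine ⟨s2 / s1, ?_, Nat.mul_div_le _ _, ?_⟩
    · rw [Nat.le_div_iff_mul_le hs1', ← pow_two]
      exact hs2
    · have := Nat.div_add_mod s2 s1
      have h3 := Nat.mod_lt s2 hs1'
      omega
  obtain ⟨n, hn1, hn2, hn9⟩ : ∃ n : ℕ, s1 * n ≤ 100 * Q + 9 * s1 ∧ 100 * Q + 8 * s1 ≤ s1 * n ∧ 9 ≤ n := by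
    refine ⟨100 * Q / s1 + 9, ?_, ?_, Nat.le_add_left _ _⟩
    · rw [mul_add]
      have := Nat.mul_div_le (100 * Q) s1
      omega
    · rw [mul_add]
      have := Nat.div_add_mod (100 * Q) s1
      have h3 := Nat.mod_lt (100 * Q) hs1'
      omega
  obtain ⟨K, hK⟩ : ∃ K : ℕ, K = 8 * n := ⟨_, rfl⟩
  have hnQ : 2 * n + 1 ≤ Q := by
    by_contra hcon
    have hcon' : Q ≤ 2 * n := by omega
    have h4 : s1 * Q ≤ s1 * (2 * n) := Nat.mul_le_mul_left _ hcon'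
    have h5 : s1 * Q ≤ 200 * Q + 18 * s1 := by
      calc s1 * Q ≤ s1 * (2 * n) := h4
        _ = 2 * (s1 * n) := by ring
        _ ≤ 2 * (100 * Q + 9 * s1) := Nat.mul_le_mul_left _ hn1
        _ = _ := by ring
    nlinarith
  have hx' : (2 : ℝ) ≤ x := by exact_mod_cast hx
  have hxy' : (x : ℝ) + 1 ≤ y := by exact_mod_cast hxy
  have hy0 : (0 : ℝ) < y := by linarith
  have hy1 : (1 : ℝ) ≤ y := by linarith
  have hy2 : (2 : ℝ) ≤ y := by linarith
  obtain ⟨f1, f2⟩ := uu_bd hx hxy (by omega) h1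
  obtain ⟨g1, g2⟩ := uu_bd hx hxy (by nlinarith) h2
  set u1 := uu x y r1 s1 with hu1
  set u2 := uu x y r2 s2 with hu2
  set ξ : ℝ := ((y : ℝ)⁻¹) ^ (s1 - 1) with hξ
  have hyi0 : 0 < (y : ℝ)⁻¹ := by positivity
  have hyi1 : (y : ℝ)⁻¹ ≤ 1 / 2 := by
    rw [inv_eq_one_div]
    exact one_div_le_one_div_of_le (by norm_num) hy2
  have hξ0 : 0 < ξ := by positivity
  have hξ1 : ξ ≤ 1 / 2 := by
    calc ξ ≤ ((y : ℝ)⁻¹) ^ 1 := pow_le_pow_of_le_one hyi0.le (by linarith) (by omega)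
      _ = (y : ℝ)⁻¹ := pow_one _
      _ ≤ 1 / 2 := hyi1
  have hz : |u1 - 1| ≤ ξ := by
    rw [abs_of_pos (by linarith)]; exact f2
  have hu12 : u1 ≤ 2 := by linarith
  have hclose : (s1 - 1) * (2 * K + 1) ≤ s2 - 1 := by
    have h3 : s1 * (2 * K + 1) ≤ s2 - 1 := by
      have h4 : s1 * (2 * K + 1) = 16 * (s1 * n) + s1 := by rw [hK]; ring
      have h5 : s1 * (2 * K + 1) ≤ 1600 * Q + 145 * s1 := by
        rw [h4]
        have := Nat.mul_le_mul_left 16 hn1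
        omega
      have h6 : 2000 * Q ≤ s1 * Q := Nat.mul_le_mul_right _ hs1
      omega
    exact le_trans (Nat.mul_le_mul_right _ (by omega)) h3
  have hw : |u2 - 1| ≤ ξ ^ (2 * K + 1) := by
    rw [abs_of_pos (by linarith), hξ, ← pow_mul]
    exact g2.trans (pow_le_pow_of_le_one hyi0.le (by linarith) hclose)
  -- the columns
  set Ω : Finset (ℕ × ℕ) := range 8 ×ˢ range (2 * n + 1) with hΩ
  set Ω' : Finset (ℕ × ℕ) := range 8 ×ˢ range (2 * n) with hΩ'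
  have hmem : ∀ c ∈ Ω, c.1 < 8 ∧ c.2 < 2 * n + 1 := by
    intro c hc
    rw [hΩ, mem_product, mem_range, mem_range] at hc
    exact hc
  have hinjm : Set.InjOn (mm Q) Ω := by
    intro c hc c' hc' hcc
    obtain ⟨c1, c2⟩ := hmem c hc
    obtain ⟨c1', c2'⟩ := hmem c' hc'
    unfold mm at hcc
    have hQ0 : 0 < Q := by omega
    have k1 : (c.2 + Q * (8 - c.1)) / Q = 8 - c.1 := by
      rw [Nat.add_mul_div_left _ _ hQ0, Nat.div_eq_of_lt (by omega), zero_add]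
    have k2 : (c'.2 + Q * (8 - c'.1)) / Q = 8 - c'.1 := by
      rw [Nat.add_mul_div_left _ _ hQ0, Nat.div_eq_of_lt (by omega), zero_add]
    have hcc' : c.2 + Q * (8 - c.1) = c'.2 + Q * (8 - c'.1) := hcc
    have k3 : 8 - c.1 = 8 - c'.1 := by rw [← k1, ← k2, hcc']
    have k4 : c.2 = c'.2 := by rw [k3] at hcc'; omega
    exact Prod.ext (by omega) k4
  obtain ⟨col, hcol, hinj, hdet⟩ := exists_minor Ω
    (Ent u1 u2 (K := K) (mm Q) (fun c => c.1))
    (fun v hv => rows_indep_gen (by omega) Ω (mm Q) (fun c => c.1) hinjm u1 u2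
      (by linarith) (by linarith) 1 0 (by rw [pow_one, pow_zero, mul_one]; linarith) Ω' (by
        rw [hΩ, hΩ']
        exact product_subset_product_right (range_subset_range.mpr (by omega))) (by
        intro c hc
        rw [hΩ', mem_product, mem_range, mem_range] at hc
        refine ⟨(c.1, c.2 + 1), ?_, ?_, ?_⟩
        · rw [hΩ, mem_product, mem_range, mem_range]
          exact ⟨hc.1, by simp only; omega⟩
        · unfold mm; simp only; ring
        · simp only [add_zero]) (by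
        rw [hΩ', card_product, card_range, card_range]; omega) v hv)
  -- the determinant
  set m : Row K → ℕ := fun r => mm Q (col r) with hm
  set i : Row K → ℕ := fun r => (col r).1 with hi
  set A : Row K → ℝ := fun r => (AN x y r1 s1 r2 s2 Q (col r) : ℝ) with hA
  set B : Row K → ℝ := fun r => (BN x y r1 r2 Q (col r) : ℝ) with hB
  have hrel : ∀ c, A c * (u1 ^ (m c) * u2 ^ (i c)) = B c * (u1 ^ (8 * Q) * u2 ^ 0) :=
    fun c => AB_rel hx hxy hQ2 (col c) (hmem _ (hcol c)).1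
  have hAne : ∀ c, A c ≠ 0 := by
    intro c
    have : AN x y r1 s1 r2 s2 Q (col c) ≠ 0 := by
      unfold AN
      have k1 : x - 1 ≠ 0 := by omega
      have k2 : y - 1 ≠ 0 := by omega
      have k3 : x ≠ 0 := by omega
      have k4 : y ≠ 0 := by omega
      positivity
    show (AN x y r1 s1 r2 s2 Q (col c) : ℝ) ≠ 0
    exact_mod_cast this
  have hne : (Matrix.of (GM m A B)).det ≠ 0 := by
    refine GM_ne m i A B (by linarith) (by linarith) hrel hAne ?_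
    intro h0
    apply hdet
    rw [← h0]
    congr 1
    ext r c
    rcases r with k | k <;> rfl
  have hmemO := GM_mem (Int.castRingHom ℝ).range m A B (fun c => natCast_mem _ _)
    (fun c => natCast_mem _ _)
  obtain ⟨d, hd⟩ := hmemO
  have hd' : (Matrix.of (GM m A B)).det = (d : ℝ) := hd.symm
  have hd0 : d ≠ 0 := by
    intro h0
    rw [hd', h0, Int.cast_zero] at hne
    exact hne rfl
  have hge : (1 : ℝ) ≤ |(Matrix.of (GM m A B)).det| := by
    rw [hd', ← Int.cast_abs]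
    have := Int.one_le_abs hd0
    exact_mod_cast this
  obtain ⟨E, hE⟩ : ∃ E : ℕ, E = 16 * Q + 2 * n + 9 + s1 * (2 * n + 9) := ⟨_, rfl⟩
  have hmM : ∀ c, m c ≤ 8 * Q + 2 * n := by
    intro c
    have h3 := hmem _ (hcol c)
    rw [hm]
    unfold mm
    have h4 : Q * (8 - (col c).1) ≤ Q * 8 := Nat.mul_le_mul_left _ (by omega)
    have h5 := h3.2
    simp only
    omega
  have hle := GM_arch (ρ := K) (K := K) (M := 8 * Q + 2 * n) (I := 7) (M0 := 8 * Q) (I0 := 0)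
    m i A B (z := u1) (w := u2) (ξ := ξ) (H := (y : ℝ) ^ E) hrel hξ0 hξ1 hz hw
    (by omega) hmM (fun c => by
      have := (hmem _ (hcol c)).1
      show (col c).1 ≤ 7
      omega) (by omega) (fun c => by
      rw [hA]
      simp only
      rw [Nat.abs_cast]
      rw [hE]
      exact AN_bd hx hxy hs1' hQ2 hQ3 f1 hu12 g1 (col c) (hmem _ (hcol c)).1 (hmem _ (hcol c)).2)
  obtain ⟨E1, hE1⟩ : ∃ E1 : ℕ, E1 = 2 * K * (3 * (8 * Q + 2 * n) + 2 * 7 + 2 * K) := ⟨_, rfl⟩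
  obtain ⟨E2, hE2⟩ : ∃ E2 : ℕ, E2 = (K + 8 * Q) * K := ⟨_, rfl⟩
  obtain ⟨G, hG⟩ : ∃ G : ℕ, G = (s1 - 1) * (K * K) := ⟨_, rfl⟩
  have hEc : (Ec K (8 * Q + 2 * n) 7 : ℝ) ≤ (y : ℝ) ^ E1 := by
    have h3 : (Ec K (8 * Q + 2 * n) 7 : ℝ) ≤ 2 ^ E1 := by
      rw [hE1]
      exact_mod_cast Ec_two K (8 * Q + 2 * n) 7
    exact h3.trans (pow_le_pow_left₀ (by norm_num) hy2 _)
  have h2y : ((2 : ℝ) ^ (K + 8 * Q + 0)) ^ K ≤ (y : ℝ) ^ E2 := by
    rw [add_zero, ← pow_mul, ← hE2]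
    exact pow_le_pow_left₀ (by norm_num) hy2 _
  rw [Wd_self] at hle
  have hξp : ξ ^ (K * K) * (y : ℝ) ^ G = 1 := by
    rw [hξ, ← pow_mul, inv_pow, ← hG]
    exact inv_mul_cancel₀ (by positivity)
  have hfin : (y : ℝ) ^ G ≤ (y : ℝ) ^ (E2 + E1 + E * (2 * K)) := by
    have h3 : (1 : ℝ) ≤ (y : ℝ) ^ E2 * (((y : ℝ) ^ E1 * ξ ^ (K * K)) * ((y : ℝ) ^ E) ^ (2 * K)) := by
      refine hge.trans (hle.trans ?_)
      refine mul_le_mul h2y ?_ (by positivity) (by positivity)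
      refine mul_le_mul_of_nonneg_right ?_ (by positivity)
      exact mul_le_mul_of_nonneg_right hEc (by positivity)
    have h4 : (y : ℝ) ^ G * 1 ≤ (y : ℝ) ^ G * ((y : ℝ) ^ E2 *
        (((y : ℝ) ^ E1 * ξ ^ (K * K)) * ((y : ℝ) ^ E) ^ (2 * K))) :=
      mul_le_mul_of_nonneg_left h3 (by positivity)
    have h5 : (y : ℝ) ^ G * ((y : ℝ) ^ E2 *
        (((y : ℝ) ^ E1 * ξ ^ (K * K)) * ((y : ℝ) ^ E) ^ (2 * K))) =
        (ξ ^ (K * K) * (y : ℝ) ^ G) * ((y : ℝ) ^ E2 * ((y : ℝ) ^ E1 * ((y : ℝ) ^ E) ^ (2 * K))) := by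
      ring
    rw [h5, hξp, one_mul, mul_one, ← pow_mul, ← pow_add, ← pow_add, ← add_assoc] at h4
    exact h4
  have hexp : G ≤ E2 + E1 + E * (2 * K) :=
    (pow_le_pow_iff_right₀ (by linarith : (1 : ℝ) < y)).mp hfin
  -- divide by K
  have hK0 : 0 < K := by omega
  have hexp2 : (s1 - 1) * K ≤ (K + 8 * Q) + 2 * (3 * (8 * Q + 2 * n) + 2 * 7 + 2 * K) + E * 2 := by
    refine Nat.le_of_mul_le_mul_left ?_ hK0
    rw [hG, hE1, hE2] at hexp
    calc K * ((s1 - 1) * K) = (s1 - 1) * (K * K) := by ring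
      _ ≤ _ := hexp
      _ = _ := by ring
  obtain ⟨t, rfl⟩ : ∃ t, s1 = t + 1 := ⟨s1 - 1, by omega⟩
  have e1 : t + 1 - 1 = t := rfl
  have e2 : t * (8 * n) = 8 * (t * n) := by ring
  have e3 : (t + 1) * (2 * n + 9) = 2 * (t * n) + 9 * t + 2 * n + 9 := by ring
  have e4 : (t + 1) * n = t * n + n := by ring
  rw [e1, hE, hK, e2, e3] at hexp2
  rw [e4] at hn2
  have h5 : 1999 * n ≤ t * n := Nat.mul_le_mul_right _ (by omega)
  have h6 : t * 9 ≤ t * n := Nat.mul_le_mul_left _ hn9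
  omega

end Pool.Agent.W_MP_cac67d_h21
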