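import Mathlib
import Pool.Agent.W_MP_cac67d_h21.Quad

set_option autoImplicit false

/-!
# The ring `ℤ[√D, √x]` inside `ℝ ^ 4` and the norm
-/

namespace Pool.Agent.W_MP_cac67d_h21

open Finset

/-- the scalar `√x` -/
noncomputable def sc (x : ℕ) : ℝ × ℝ := (√(x : ℝ), √(x : ℝ))

lemma sc_sq (x : ℕ) : sc x * sc x = (x : ℝ × ℝ) := by
  have hs : √(x : ℝ) * √(x : ℝ) = x := Real.mul_self_sqrt (Nat.cast_nonneg x)
  unfold sc
  refine Prod.ext ?_ ?_ <;> simpa using hs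

/-- The ring `ℤ[√D, √x]`. -/
noncomputable def O4 (D x : ℕ) : Subring ((ℝ × ℝ) × (ℝ × ℝ)) where
  carrier := {w | ∃ P ∈ OR D, ∃ Q ∈ OR D, w = (P + sc x * Q, P - sc x * Q)}
  mul_mem' := by
    rintro _ _ ⟨P, hP, Q, hQ, rfl⟩ ⟨P', hP', Q', hQ', rfl⟩
    refine ⟨P * P' + (x : ℝ × ℝ) * (Q * Q'), (OR D).add_mem ((OR D).mul_mem hP hP')
      ((OR D).mul_mem (natCast_mem _ _) ((OR D).mul_mem hQ hQ')), P * Q' + Q * P',
      (OR D).add_mem ((OR D).mul_mem hP hQ') ((OR D).mul_mem hQ hP'), ?_⟩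
    rw [Prod.mk_mul_mk]
    have h := sc_sq x
    refine Prod.ext ?_ ?_
    · simp only
      linear_combination (Q * Q') * h
    · simp only
      linear_combination (Q * Q') * h
  one_mem' := ⟨1, (OR D).one_mem, 0, (OR D).zero_mem, by simp; rfl⟩
  add_mem' := by
    rintro _ _ ⟨P, hP, Q, hQ, rfl⟩ ⟨P', hP', Q', hQ', rfl⟩
    refine ⟨P + P', (OR D).add_mem hP hP', Q + Q', (OR D).add_mem hQ hQ', ?_⟩
    rw [Prod.mk_add_mk]
    refine Prod.ext ?_ ?_ <;> simp only <;> ring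
  zero_mem' := ⟨0, (OR D).zero_mem, 0, (OR D).zero_mem, by simp; rfl⟩
  neg_mem' := by
    rintro _ ⟨P, hP, Q, hQ, rfl⟩
    refine ⟨-P, (OR D).neg_mem hP, -Q, (OR D).neg_mem hQ, ?_⟩
    refine Prod.ext ?_ ?_ <;> simp only [Prod.fst_neg, Prod.snd_neg] <;> ring

/-- the diagonal -/
noncomputable def dg : (ℝ × ℝ) →+* (ℝ × ℝ) × (ℝ × ℝ) := (RingHom.id _).prod (RingHom.id _)

lemma dg_mem {D x : ℕ} {z : ℝ × ℝ} (h : z ∈ OR D) : dg z ∈ O4 D x :=
  ⟨z, h, 0, (OR D).zero_mem, by simp [dg]⟩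

lemma nsq_int {D : ℕ} (hD : Irrational √(D : ℝ)) {m n : ℤ} (h : m ^ 2 = D * n ^ 2) :
    m = 0 ∧ n = 0 := by
  have hn : n = 0 := by
    by_contra hn
    apply hD
    have hn' : (n : ℝ) ≠ 0 := by exact_mod_cast hn
    have h1 : (D : ℝ) = ((m : ℝ) / n) ^ 2 := by
      have h2 : (m : ℝ) ^ 2 = D * (n : ℝ) ^ 2 := by exact_mod_cast h
      rw [div_pow, h2]
      field_simp
    refine ⟨|(m : ℚ) / n|, ?_⟩
    rw [h1, Real.sqrt_sq_eq_abs]
    push_cast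
    rfl
  subst hn
  refine ⟨?_, rfl⟩
  have : m ^ 2 = 0 := by rw [h]; ring
  exact pow_eq_zero_iff (two_ne_zero) |>.mp this

/-- Independence of the four square roots. -/
lemma indep4 {D x : ℕ} (hD0 : D ≠ 0) (hx : Irrational √(x : ℝ))
    (hxD : Irrational √((x * D : ℕ) : ℝ)) {a b c d : ℤ}
    (h1 : a ^ 2 + D * c ^ 2 = x * (b ^ 2 + D * d ^ 2)) (h2 : a * c = x * (b * d)) :
    a = 0 ∧ b = 0 ∧ c = 0 ∧ d = 0 := by
  have hDZ : (D : ℤ) ≠ 0 := by exact_mod_cast hD0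
  have h3 : (a ^ 2 - D * c ^ 2 - x * (b ^ 2 - D * d ^ 2)) *
      (a ^ 2 - D * c ^ 2 + x * (b ^ 2 - D * d ^ 2)) = 0 := by
    linear_combination (a ^ 2 + D * c ^ 2 + x * (b ^ 2 + D * d ^ 2)) * h1 -
      4 * D * (a * c + x * (b * d)) * h2
  rcases mul_eq_zero.mp h3 with h4 | h4
  · have h5 : a ^ 2 = x * b ^ 2 := by linarith
    obtain ⟨ha, hb⟩ := nsq_int hx h5
    have h6 : (D : ℤ) * c ^ 2 = D * (x * d ^ 2) := by
      rw [ha, hb] at h1
      linear_combination h1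
    obtain ⟨hc, hd⟩ := nsq_int hx (mul_left_cancel₀ hDZ h6)
    exact ⟨ha, hb, hc, hd⟩
  · have h5 : a ^ 2 = ((x * D : ℕ) : ℤ) * d ^ 2 := by
      push_cast
      linarith
    obtain ⟨ha, hd⟩ := nsq_int hxD h5
    have h6 : ((D : ℤ) * c) ^ 2 = ((x * D : ℕ) : ℤ) * b ^ 2 := by
      rw [ha, hd] at h1
      push_cast
      linear_combination (D : ℤ) * h1
    obtain ⟨hc, hb⟩ := nsq_int hxD h6
    exact ⟨ha, hb, (mul_eq_zero.mp hc).resolve_left hDZ, hd⟩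

/-- The norm of a nonzero element is at least `1`. -/
theorem norm4 {D x : ℕ} (hD0 : D ≠ 0) (hD : Irrational √(D : ℝ)) (hx : Irrational √(x : ℝ))
    (hxD : Irrational √((x * D : ℕ) : ℝ)) {w : (ℝ × ℝ) × (ℝ × ℝ)} (hw : w ∈ O4 D x)
    (hne : w.1.1 ≠ 0) : 1 ≤ |w.1.1| * |w.1.2| * (|w.2.1| * |w.2.2|) := by
  obtain ⟨P, ⟨a, c, rfl⟩, Q, ⟨b, d, rfl⟩, rfl⟩ := hw
  have hsD : √(D : ℝ) * √(D : ℝ) = D := Real.mul_self_sqrt (Nat.cast_nonneg D)
  have hsx : √(x : ℝ) * √(x : ℝ) = x := Real.mul_self_sqrt (Nat.cast_nonneg x)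
  simp only [sc, qe, Prod.fst_add, Prod.snd_add, Prod.fst_sub, Prod.snd_sub, Prod.fst_mul,
    Prod.snd_mul] at hne ⊢
  set m : ℤ := a ^ 2 + D * c ^ 2 - x * (b ^ 2 + D * d ^ 2) with hm
  set n : ℤ := 2 * (a * c - x * (b * d)) with hn
  set rD := √(D : ℝ)
  set rx := √(x : ℝ)
  have key : (a + c * rD + rx * (b + d * rD)) * (a - c * rD + rx * (b - d * rD)) *
      ((a + c * rD - rx * (b + d * rD)) * (a - c * rD - rx * (b - d * rD))) =
      ((m ^ 2 - D * n ^ 2 : ℤ) : ℝ) := by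
    have e1 : (a + c * rD + rx * (b + d * rD)) * (a + c * rD - rx * (b + d * rD)) =
        (m : ℝ) + n * rD := by
      rw [hm, hn]
      push_cast
      linear_combination ((c : ℝ) ^ 2 - x * d ^ 2) * hsD - ((b : ℝ) + d * rD) ^ 2 * hsx
    have e2 : (a - c * rD + rx * (b - d * rD)) * (a - c * rD - rx * (b - d * rD)) =
        (m : ℝ) - n * rD := by
      rw [hm, hn]
      push_cast
      linear_combination ((c : ℝ) ^ 2 - x * d ^ 2) * hsD - ((b : ℝ) - d * rD) ^ 2 * hsx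
    calc (a + c * rD + rx * (b + d * rD)) * (a - c * rD + rx * (b - d * rD)) *
      ((a + c * rD - rx * (b + d * rD)) * (a - c * rD - rx * (b - d * rD))) =
        ((a + c * rD + rx * (b + d * rD)) * (a + c * rD - rx * (b + d * rD))) *
        ((a - c * rD + rx * (b - d * rD)) * (a - c * rD - rx * (b - d * rD))) := by ring
      _ = ((m : ℝ) + n * rD) * ((m : ℝ) - n * rD) := by rw [e1, e2]
      _ = _ := by
        push_cast
        linear_combination (-(n : ℝ) ^ 2) * hsD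
  rw [← abs_mul, ← abs_mul, ← abs_mul, key, ← Int.cast_abs]
  have hN : m ^ 2 - D * n ^ 2 ≠ 0 := by
    intro h0
    obtain ⟨hm0, hn0⟩ := nsq_int hD (by linarith : m ^ 2 = D * n ^ 2)
    obtain ⟨ha, hb, hc, hd⟩ := indep4 hD0 hx hxD (a := a) (b := b) (c := c) (d := d)
      (by linarith) (by linarith)
    apply hne
    rw [ha, hb, hc, hd]
    simp
  have := Int.one_le_abs hN
  exact_mod_cast this

end Pool.Agent.W_MP_cac67d_h21
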