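import Mathlib
import Pool.Agent.W_MP_cac67d_h21.Arc
import Pool.Agent.W_MP_cac67d_h21.Cnt3
import Pool.Agent.W_MP_cac67d_h21.Big

set_option autoImplicit false

/-!
# The values of the units when `y` is large
-/

namespace Pool.Agent.W_MP_cac67d_h21

/-- the limit of `θ` -/
noncomputable def ta (x : ℕ) : ℝ := (√(x : ℝ) - 1) / (√(x : ℝ) + 1)

lemma sqrt_bd {x : ℕ} (hx : 2 ≤ x) : 7 / 5 ≤ √(x : ℝ) ∧ √(x : ℝ) ≤ 3 * x / 4 := by
  have hx' : (2 : ℝ) ≤ x := by exact_mod_cast hx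
  constructor
  · rw [Real.le_sqrt (by norm_num) (by linarith)]
    norm_num
    linarith
  · rw [Real.sqrt_le_left (by linarith)]
    nlinarith

lemma ta_bd {x : ℕ} (hx : 2 ≤ x) : 0 < ta x ∧ ta x ≤ 1 ∧ (ta x)⁻¹ ≤ 6 := by
  obtain ⟨h1, _⟩ := sqrt_bd hx
  unfold ta
  have h3 : 0 < √(x : ℝ) + 1 := by linarith
  refine ⟨div_pos (by linarith) h3, (div_le_one h3).mpr (by linarith), ?_⟩
  rw [inv_div, div_le_iff₀ (by linarith)]
  linarith

section

variable {x y a b : ℕ}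

theorem Sol.place0 (h : Sol x y a b) : ∃ r : ℝ, 0 < r ∧ r < 1 / √(x : ℝ) ∧
    (1 / √(x : ℝ) - r) * (1 / √(x : ℝ)) ≤ ((x : ℝ) - 1) / (x * (y - 1)) ∧
    (1 + r) * (h.Th : ℝ × ℝ).1 = 1 - r ∧ (1 - r) * (h.Th : ℝ × ℝ).2 = 1 + r ∧
    ((x : ℝ) ^ a + r) * (h.W : ℝ × ℝ).1 = (x : ℝ) ^ a - r ∧
    ((x : ℝ) ^ a - r) * (h.W : ℝ × ℝ).2 = (x : ℝ) ^ a + r := by
  have hx2' : (2 : ℝ) ≤ x := by exact_mod_cast h.hx.two_le
  have hxy : (x : ℝ) + 1 ≤ y := by exact_mod_cast h.hxy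
  have hx0 : (0 : ℝ) < x := by linarith
  set X : ℝ := (x : ℝ) ^ a with hX
  set Y : ℝ := (y : ℝ) ^ b with hY
  set A : ℝ := (x : ℝ) * (y - 1) with hA
  set C : ℝ := (y : ℝ) - x with hC
  have hA0 : 0 < A := by
    rw [hA]
    have : (0 : ℝ) < (y : ℝ) - 1 := by linarith
    positivity
  have hC0 : 0 < C := by rw [hC]; linarith
  have hX1 : 2 ≤ X := by
    calc (2 : ℝ) ≤ x := hx2'
      _ = (x : ℝ) ^ 1 := (pow_one _).symm
      _ ≤ X := pow_le_pow_right₀ (by linarith) (by have := h.ha; omega)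
  have hE : A * X ^ 2 = y * (x - 1) * Y ^ 2 + (y - x) := by
    have := congrArg (Int.cast : ℤ → ℝ) h.hE
    push_cast at this
    exact this
  set r : ℝ := √(C / A) with hr
  have hr0 : 0 < r := Real.sqrt_pos.mpr (div_pos hC0 hA0)
  have hrr : A * r ^ 2 = C := by
    rw [hr, Real.sq_sqrt (div_pos hC0 hA0).le]
    field_simp
  have hsD : √((DD x y : ℕ) : ℝ) = A * r := by
    rw [Real.sqrt_eq_iff_mul_self_eq (Nat.cast_nonneg _) (by positivity)]
    have := congrArg (Int.cast : ℤ → ℝ) h.Dc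
    push_cast at this
    rw [this]
    have e : A * r * (A * r) = A * (A * r ^ 2) := by ring
    rw [e, hrr]
  set u : ℝ := 1 / √(x : ℝ) with hu
  have hs0 : 0 < √(x : ℝ) := Real.sqrt_pos.mpr hx0
  have hu0 : 0 < u := by positivity
  have hus : u ^ 2 = 1 / x := by
    rw [hu, div_pow, Real.sq_sqrt hx0.le, one_pow]
  have hu1 : u < 1 := by
    rw [hu, div_lt_one hs0]
    have := (sqrt_bd h.hx.two_le).1
    linarith
  have hur2 : A * (u ^ 2 - r ^ 2) = (x : ℝ) - 1 := by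
    rw [mul_sub, hrr, hus, hA, hC]
    field_simp
    ring
  have hru : r < u := by
    have h1 : 0 < u ^ 2 - r ^ 2 := by
      by_contra hcon
      push Not at hcon
      nlinarith
    exact (pow_lt_pow_iff_left₀ hr0.le hu0.le two_ne_zero).mp (by linarith)
  have hr1 : r < 1 := hru.trans hu1
  have hB : (y : ℝ) * (x - 1) = A * (1 - r ^ 2) := by
    have : A * (1 - r ^ 2) = A - C := by rw [mul_sub, mul_one, hrr]
    rw [this, hA, hC]; ring
  have hXYr : (1 - r ^ 2) * Y ^ 2 = X ^ 2 - r ^ 2 := by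
    have h1 : A * ((1 - r ^ 2) * Y ^ 2) = A * (X ^ 2 - r ^ 2) := by
      linear_combination (-Y ^ 2) * hB - hE + hrr + hC
    exact mul_left_cancel₀ hA0.ne' h1
  have hx1 : (((x - 1 : ℕ) : ℝ)) = (x : ℝ) - 1 := by
    have := congrArg (Int.cast : ℤ → ℝ) h.x1
    push_cast at this
    exact this
  refine ⟨r, hr0, hru, ?_, ?_, ?_, ?_, ?_⟩
  · rw [le_div_iff₀ hA0]
    have h1 : 0 ≤ (u - r) * r := mul_nonneg (by linarith) hr0.le
    have h2 : (u - r) * u * A = A * (u ^ 2 - r ^ 2) - A * ((u - r) * r) := by ring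
    rw [h2, hur2]
    have h3 : 0 ≤ A * ((u - r) * r) := mul_nonneg hA0.le h1
    linarith
  · have h1 := congrArg Prod.fst h.Th_mul
    simp only [Prod.fst_mul, Prod.fst_natCast, qe, hsD] at h1
    push_cast [hx1] at h1
    have h2 : (A * (1 - r)) * ((1 + r) * (h.Th : ℝ × ℝ).1) = (A * (1 - r)) * (1 - r) := by
      calc (A * (1 - r)) * ((1 + r) * (h.Th : ℝ × ℝ).1) =
          (A * (1 - r ^ 2)) * (h.Th : ℝ × ℝ).1 := by ring
        _ = ((y : ℝ) * (x - 1)) * (h.Th : ℝ × ℝ).1 := by rw [← hB]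
        _ = _ := by
            rw [h1]
            linear_combination -hrr - hA - hC
    exact mul_left_cancel₀ (mul_ne_zero hA0.ne' (by linarith)) h2
  · have h1 := congrArg Prod.snd h.Th_mul
    simp only [Prod.snd_mul, Prod.snd_natCast, qe, hsD] at h1
    push_cast [hx1] at h1
    have h2 : (A * (1 + r)) * ((1 - r) * (h.Th : ℝ × ℝ).2) = (A * (1 + r)) * (1 + r) := by
      calc (A * (1 + r)) * ((1 - r) * (h.Th : ℝ × ℝ).2) =
          (A * (1 - r ^ 2)) * (h.Th : ℝ × ℝ).2 := by ring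
        _ = ((y : ℝ) * (x - 1)) * (h.Th : ℝ × ℝ).2 := by rw [← hB]
        _ = _ := by
            rw [h1]
            linear_combination -hrr - hA - hC
    exact mul_left_cancel₀ (mul_ne_zero hA0.ne' (by linarith)) h2
  · have h1 := congrArg Prod.fst h.W_mul
    simp only [Prod.fst_mul, Prod.fst_natCast, qe, hsD] at h1
    push_cast [hx1] at h1
    have h2 : (A * (X - r)) * ((X + r) * (h.W : ℝ × ℝ).1) = (A * (X - r)) * (X - r) := by
      calc (A * (X - r)) * ((X + r) * (h.W : ℝ × ℝ).1) =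
          (A * (X ^ 2 - r ^ 2)) * (h.W : ℝ × ℝ).1 := by ring
        _ = (((x : ℝ) - 1) * (y : ℝ) ^ (2 * b + 1)) * (h.W : ℝ × ℝ).1 := by
            rw [← hXYr, ← mul_assoc, ← hB, hY]; ring
        _ = _ := by
            rw [h1, ← hX, ← hA, ← hC, ← hrr]
            ring
    exact mul_left_cancel₀ (mul_ne_zero hA0.ne' (by linarith)) h2
  · have h1 := congrArg Prod.snd h.W_mul
    simp only [Prod.snd_mul, Prod.snd_natCast, qe, hsD] at h1
    push_cast [hx1] at h1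
    have h2 : (A * (X + r)) * ((X - r) * (h.W : ℝ × ℝ).2) = (A * (X + r)) * (X + r) := by
      calc (A * (X + r)) * ((X - r) * (h.W : ℝ × ℝ).2) =
          (A * (X ^ 2 - r ^ 2)) * (h.W : ℝ × ℝ).2 := by ring
        _ = (((x : ℝ) - 1) * (y : ℝ) ^ (2 * b + 1)) * (h.W : ℝ × ℝ).2 := by
            rw [← hXYr, ← mul_assoc, ← hB, hY]; ring
        _ = _ := by
            rw [h1, ← hX, ← hA, ← hC, ← hrr]
            ring
    exact mul_left_cancel₀ (mul_ne_zero hA0.ne' (by linarith)) h2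

end

end Pool.Agent.W_MP_cac67d_h21
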