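import Mathlib
import Pool.Agent.W_MP_cac67d_h21.Fn6

set_option autoImplicit false

/-!
# Closeness of the units when `y` is large
-/

namespace Pool.Agent.W_MP_cac67d_h21

section

variable {x y a b : ℕ}

theorem Sol.place (h : Sol x y a b) (h8 : 8 * x ≤ y) {N : ℕ} (hN : N ≤ b) (hN1 : 1 ≤ N) :
    (0 < (h.Th : ℝ × ℝ).1 ∧ (h.Th : ℝ × ℝ).1 ≤ 1 ∧ ((h.Th : ℝ × ℝ).1)⁻¹ ≤ 6 ∧
      (h.Th : ℝ × ℝ).2 = ((h.Th : ℝ × ℝ).1)⁻¹) ∧
    (1 / 2 ≤ (h.W : ℝ × ℝ).1 ∧ (h.W : ℝ × ℝ).1 ≤ 1 ∧ (h.W : ℝ × ℝ).2 = ((h.W : ℝ × ℝ).1)⁻¹) ∧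
    (|(h.Th : ℝ × ℝ).1 / ta x - 1| ≤ 4 * x / y ∧ |(h.Th : ℝ × ℝ).2 / (ta x)⁻¹ - 1| ≤ 4 * x / y ∧
      (h.Th : ℝ × ℝ).1 / ta x ≠ 1) ∧
    (|(h.W : ℝ × ℝ).1 - 1| ≤ (4 * x / y) ^ N ∧ |(h.W : ℝ × ℝ).2 - 1| ≤ (4 * x / y) ^ N) := by
  have hx2 := h.hx.two_le
  have hx2' : (2 : ℝ) ≤ x := by exact_mod_cast hx2
  have h8' : 8 * (x : ℝ) ≤ y := by exact_mod_cast h8
  have hx0 : (0 : ℝ) < x := by linarith only [hx2']
  have hy0 : (0 : ℝ) < y := by linarith only [h8', hx0]
  obtain ⟨hs1, hs2⟩ := sqrt_bd hx2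
  obtain ⟨r, hr0, hru, hclose, ht1, ht2, hw1, hw2⟩ := h.place0
  obtain ⟨ht0, htle, _⟩ := ta_bd hx2
  set s := √(x : ℝ) with hs
  set u := 1 / s with hu
  have hs0 : 0 < s := by linarith only [hs1]
  have hsu : s * u = 1 := by rw [hu]; field_simp
  have hu0 : 0 < u := by positivity
  have hu1 : u < 1 := by rw [hu, div_lt_one hs0]; linarith only [hs1]
  have hu57 : u ≤ 5 / 7 := by
    rw [hu, div_le_iff₀ hs0]; linarith only [hs1]
  have hss : s * s = x := Real.mul_self_sqrt hx0.le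
  have hta : ta x * (1 + u) = 1 - u := by
    have : ta x * (s + 1) = s - 1 := by
      unfold ta
      rw [← hs]
      exact div_mul_cancel₀ _ (by linarith only [hs0])
    have h3 : s * (ta x * (1 + u)) = s * (1 - u) := by
      linear_combination this + (ta x) * hsu + hsu
    exact mul_left_cancel₀ hs0.ne' h3
  have hr1 : r < 1 := hru.trans hu1
  set X : ℝ := (x : ℝ) ^ a with hX
  have hX2 : 4 ≤ X := by
    calc (4 : ℝ) = 2 ^ 2 := by norm_num
      _ ≤ (x : ℝ) ^ 2 := pow_le_pow_left₀ (by norm_num) hx2' _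
      _ ≤ X := pow_le_pow_right₀ (by linarith only [hx2']) h.ha
  set t := (h.Th : ℝ × ℝ).1 with ht
  set t2 := (h.Th : ℝ × ℝ).2 with ht2'
  set w := (h.W : ℝ × ℝ).1 with hw
  set w2 := (h.W : ℝ × ℝ).2 with hw2'
  -- θ
  have e1 : t = (1 - r) / (1 + r) := by
    rw [eq_div_iff (by linarith only [hr0])]; linarith only [ht1]
  have e2 : t2 = (1 + r) / (1 - r) := by
    rw [eq_div_iff (by linarith only [hr1])]; linarith only [ht2]
  have e3 : w = (X - r) / (X + r) := by
    rw [eq_div_iff (by linarith only [hr0, hX2])]; linarith only [hw1]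
  have e4 : w2 = (X + r) / (X - r) := by
    rw [eq_div_iff (by linarith only [hr1, hX2])]; linarith only [hw2]
  have e5 : ta x = (1 - u) / (1 + u) := by
    rw [eq_div_iff (by linarith only [hu0])]; exact hta
  have ht21 : t2 = t⁻¹ := by rw [e1, e2, inv_div]
  have hw21 : w2 = w⁻¹ := by rw [e3, e4, inv_div]
  -- the key estimate
  have key : 2 * (u - r) ≤ (4 * x / y) * (1 - u) := by
    have hxinv : u ^ 2 = 1 / x := by
      rw [hu, div_pow, one_pow, pow_two, hss]
    have hy1 : (0 : ℝ) < (y : ℝ) - 1 := by linarith only [hx2', h8']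
    have f1 : (u - r) * u * (x * (y - 1)) ≤ x - 1 := by
      have := mul_le_mul_of_nonneg_right hclose (by positivity : (0 : ℝ) ≤ x * (y - 1))
      rwa [div_mul_cancel₀ _ (by positivity)] at this
    -- multiply by s
    have f2 : (u - r) * (x * (y - 1)) ≤ s * (x - 1) := by
      have := mul_le_mul_of_nonneg_left f1 hs0.le
      have e : s * ((u - r) * u * (x * (y - 1))) = (s * u) * ((u - r) * (x * (y - 1))) := by ring
      rw [e, hsu, one_mul] at this
      exact this
    have f3 : 2 * (u - r) * (1 + u) * (x * (y - 1)) * y ≤ 4 * (x - 1) * (x * (y - 1)) := by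
      have g1 : 2 * (u - r) * (1 + u) * (x * (y - 1)) * y ≤ 2 * (s * (x - 1)) * (1 + u) * y := by
        have : 0 ≤ 2 * (1 + u) * y := by positivity
        linarith only [mul_le_mul_of_nonneg_left f2 this]
      have g2 : 2 * (s * (x - 1)) * (1 + u) * y = 2 * (x - 1) * ((s + 1) * y) := by
        linear_combination (2 * ((x : ℝ) - 1) * y) * hsu
      have g3 : (s + 1) * y ≤ 2 * (x * (y - 1)) := by
        have g4 : (s + 1) * y ≤ (5 * x / 4) * y := mul_le_mul_of_nonneg_right (by linarith only [hx2', hs2]) hy0.le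
        nlinarith only [hx2', h8', hs2]
      rw [g2] at g1
      have g5 : 2 * ((x : ℝ) - 1) * ((s + 1) * y) ≤ 2 * (x - 1) * (2 * (x * (y - 1))) :=
        mul_le_mul_of_nonneg_left g3 (by linarith only [hs1, hs2])
      linarith only [g1, g5]
    have f4 : 2 * (u - r) * (1 + u) * y ≤ 4 * (x - 1) := by
      have hp : 0 < (x : ℝ) * (y - 1) := by positivity
      refine le_of_mul_le_mul_right ?_ hp
      calc 2 * (u - r) * (1 + u) * y * (x * (y - 1)) = 2 * (u - r) * (1 + u) * (x * (y - 1)) * y := by ring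
        _ ≤ _ := f3
    have f5 : (4 * (x : ℝ) / y) * (1 - u) * ((1 + u) * y) = 4 * (x - 1) := by
      have : (1 - u) * (1 + u) = 1 - 1 / x := by rw [← hxinv]; ring
      calc (4 * (x : ℝ) / y) * (1 - u) * ((1 + u) * y) = (4 * x / y * y) * ((1 - u) * (1 + u)) := by ring
        _ = 4 * x * (1 - 1 / x) := by rw [this, div_mul_cancel₀ _ hy0.ne']
        _ = _ := by field_simp
    refine le_of_mul_le_mul_right ?_ (by positivity : 0 < (1 + u) * (y : ℝ))
    rw [f5]
    calc 2 * (u - r) * ((1 + u) * y) = 2 * (u - r) * (1 + u) * y := by ring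
      _ ≤ _ := f4
  have hξ0 : (0 : ℝ) < 4 * x / y := by positivity
  set ξ : ℝ := 4 * x / y with hξ
  -- z
  have hz1 : t / ta x - 1 = 2 * (u - r) / ((1 + r) * (1 - u)) := by
    rw [e1, e5]
    have : (1 - u) ≠ 0 := by linarith only [hu57]
    have : (1 + u) ≠ 0 := by linarith only [hu0]
    have : (1 + r) ≠ 0 := by linarith only [hr0]
    field_simp
    ring
  have hz2 : 1 - t2 / (ta x)⁻¹ = 2 * (u - r) / ((1 - r) * (1 + u)) := by
    rw [e2, e5]
    have : (1 - u) ≠ 0 := by linarith only [hu57]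
    have : (1 + u) ≠ 0 := by linarith only [hu0]
    have : (1 - r) ≠ 0 := by linarith only [hr1]
    field_simp
    ring
  have hur0 : 0 < u - r := by linarith only [hru]
  have h1u : 0 < 1 - u := by linarith only [hu57]
  have h1r : 0 < 1 - r := by linarith only [hur0, h1u]
  have hYX : (y : ℝ) ^ b ≤ 2 * X := by
    have h3 : ((y : ℝ) ^ b) ^ 2 ≤ (2 * X) ^ 2 := by
      have h4 : (y : ℝ) ^ (2 * b) ≤ 2 * (x : ℝ) ^ (2 * a) := by exact_mod_cast h.yb
      have e6 : ((y : ℝ) ^ b) ^ 2 = (y : ℝ) ^ (2 * b) := by rw [← pow_mul, mul_comm]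
      have e7 : X ^ 2 = (x : ℝ) ^ (2 * a) := by rw [hX, ← pow_mul, mul_comm]
      rw [e6, mul_pow, e7]
      have : (0 : ℝ) ≤ (x : ℝ) ^ (2 * a) := by positivity
      linarith only [h4, this]
    exact (pow_le_pow_iff_left₀ (by positivity) (by positivity) two_ne_zero).mp h3
  have hX0 : 0 < X := by linarith only [hX2]
  have h4X : 4 / X ≤ ξ ^ N := by
    have f1 : 4 / X ≤ 8 / (y : ℝ) ^ b := by
      rw [div_le_div_iff₀ hX0 (by positivity)]
      linarith only [hYX]
    have f2 : 8 / (y : ℝ) ^ b ≤ 8 / (y : ℝ) ^ N := by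
      refine div_le_div_of_nonneg_left (by norm_num) (by positivity) ?_
      exact pow_le_pow_right₀ (by linarith only [hx2', h8']) hN
    have f3 : (8 : ℝ) ≤ (4 * x) ^ N := by
      calc (8 : ℝ) ≤ (4 * x) ^ 1 := by rw [pow_one]; linarith only [hx2']
        _ ≤ (4 * x) ^ N := pow_le_pow_right₀ (by linarith only [hx2']) hN1
    have f4 : 8 / (y : ℝ) ^ N ≤ ξ ^ N := by
      rw [hξ, div_pow]
      exact div_le_div_of_nonneg_right f3 (by positivity)
    linarith only [f1, f2, f4]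
  refine ⟨⟨?_, ?_, ?_, ht21⟩, ⟨?_, ?_, hw21⟩, ⟨?_, ?_, ?_⟩, ⟨?_, ?_⟩⟩
  · rw [e1]; exact div_pos h1r (by linarith only [hr0])
  · rw [e1, div_le_one (by linarith only [hr0])]; linarith only [hr0]
  · rw [e1, inv_div, div_le_iff₀ h1r]
    linarith only [hru, hu57]
  · rw [e3, le_div_iff₀ (by linarith only [hr0, hX0])]
    linarith only [hX2, h1r]
  · rw [e3, div_le_one (by linarith only [hr0, hX0])]; linarith only [hr0]
  · rw [hz1, abs_of_pos (by positivity), div_le_iff₀ (by positivity)]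
    have : ξ * (1 - u) ≤ ξ * ((1 + r) * (1 - u)) := by
      refine mul_le_mul_of_nonneg_left ?_ hξ0.le
      nlinarith only [hr0, ht0, hta]
    linarith only [key, this]
  · rw [abs_sub_comm, hz2, abs_of_pos (by positivity), div_le_iff₀ (by positivity)]
    have : ξ * (1 - u) ≤ ξ * ((1 - r) * (1 + u)) := by
      refine mul_le_mul_of_nonneg_left ?_ hξ0.le
      nlinarith only [hru, hu0, hr1]
    linarith only [key, this]
  · intro h0
    rw [h0, sub_self] at hz1
    have : 0 < 2 * (u - r) / ((1 + r) * (1 - u)) := by positivity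
    linarith only [hz1, this]
  · refine le_trans ?_ h4X
    have f1 : w - 1 = -(2 * r / (X + r)) := by
      rw [e3]
      have : X + r ≠ 0 := by linarith only [hr0, hX0]
      field_simp
      ring
    rw [f1, abs_neg, abs_of_pos (by positivity), div_le_div_iff₀ (by positivity) hX0]
    nlinarith only [hX2, h1r]
  · refine le_trans ?_ h4X
    have hXr : 0 < X - r := by linarith only [hX2, h1r]
    have f1 : w2 - 1 = 2 * r / (X - r) := by
      rw [e4]
      have : X - r ≠ 0 := hXr.ne'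
      field_simp
      ring
    rw [f1, abs_of_pos (by positivity), div_le_div_iff₀ hXr hX0]
    nlinarith only [hr1, hX2]

end

end Pool.Agent.W_MP_cac67d_h21
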