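import Mathlib
import Pool.Agent.W_MP_cac67d_h21.Fn5
import Pool.Agent.W_MP_cac67d_h21.Fn7

set_option autoImplicit false

/-!
# The entries of the interpolation matrix over the biquadratic field
-/

namespace Pool.Agent.W_MP_cac67d_h21

open Finset

/-- integrality of powers -/
lemma zintG {R : Type*} [CommRing R] (O : Subring R) {c : ℕ} {E : Rˣ}
    (h1 : (c : R) * (E : R) ∈ O) (h2 : (c : R) * ((E⁻¹ : Rˣ) : R) ∈ O) (n : ℤ) :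
    (c : R) ^ n.natAbs * ((E ^ n : Rˣ) : R) ∈ O := by
  have key : ∀ (F : Rˣ), (c : R) * (F : R) ∈ O → ∀ k : ℕ,
      (c : R) ^ k * ((F ^ k : Rˣ) : R) ∈ O := by
    intro F hF k
    have := O.pow_mem hF k
    rw [mul_pow] at this
    exact_mod_cast this
  rcases Int.natAbs_eq n with h | h
  · rw [h]
    have := key E h1 n.natAbs
    rw [zpow_natCast]
    rwa [Int.natAbs_natCast]
  · have h3 := key E⁻¹ h2 n.natAbs
    have h4 : E ^ n = E⁻¹ ^ n.natAbs := by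
      conv_lhs => rw [h]
      rw [zpow_neg, zpow_natCast, inv_pow]
    rw [h4]
    exact h3

lemma map_unit_zpow {R : Type*} [CommRing R] (f : R →+* ℝ) (E : Rˣ) (n : ℤ) :
    f ((E ^ n : Rˣ) : R) = (f (E : R)) ^ n := by
  have h1 := congrArg (Units.val) (map_zpow (Units.map (f : R →* ℝ)) E n)
  rw [Units.val_zpow_eq_zpow_val] at h1
  exact h1

lemma zpow_bd {g C : ℝ} (hg : 0 < g) (h1 : g ≤ C) (h2 : g⁻¹ ≤ C) (n : ℤ) :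
    g ^ n ≤ C ^ n.natAbs := by
  rcases Int.natAbs_eq n with h | h
  · conv_lhs => rw [h]
    rw [zpow_natCast]
    exact pow_le_pow_left₀ hg.le h1 _
  · conv_lhs => rw [h]
    rw [zpow_neg, zpow_natCast, ← inv_pow]
    exact pow_le_pow_left₀ (inv_pos.mpr hg).le h2 _

/-- the unit `θ_∞` -/
noncomputable def tauU {x : ℕ} (hx : 2 ≤ x) : ((ℝ × ℝ) × (ℝ × ℝ))ˣ where
  val := ((ta x, ta x), ((ta x)⁻¹, (ta x)⁻¹))
  inv := (((ta x)⁻¹, (ta x)⁻¹), (ta x, ta x))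
  val_inv := by
    have h := (ta_bd hx).1.ne'
    refine Prod.ext (Prod.ext ?_ ?_) (Prod.ext ?_ ?_) <;> simp [h]
  inv_val := by
    have h := (ta_bd hx).1.ne'
    refine Prod.ext (Prod.ext ?_ ?_) (Prod.ext ?_ ?_) <;> simp [h]

lemma ta_mul {x : ℕ} (hx : 2 ≤ x) :
    ((x : ℝ) - 1) * ta x = x + 1 - 2 * √(x : ℝ) ∧ ((x : ℝ) - 1) * (ta x)⁻¹ = x + 1 + 2 * √(x : ℝ) := by
  obtain ⟨h1, _⟩ := sqrt_bd hx
  have hss : √(x : ℝ) * √(x : ℝ) = x := Real.mul_self_sqrt (Nat.cast_nonneg x)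
  unfold ta
  set s := √(x : ℝ)
  have h2 : s + 1 ≠ 0 := by linarith
  have h3 : s - 1 ≠ 0 := by linarith
  rw [← hss, inv_div]
  constructor
  · rw [mul_div_assoc', div_eq_iff h2]; ring
  · rw [mul_div_assoc', div_eq_iff h3]; ring

lemma tau_mem {x D : ℕ} (hx : 2 ≤ x) :
    (((x - 1 : ℕ)) : (ℝ × ℝ) × (ℝ × ℝ)) * (tauU hx : (ℝ × ℝ) × (ℝ × ℝ)) ∈ O4 D x := by
  obtain ⟨h1, h2⟩ := ta_mul hx
  have hx1 : ((x - 1 : ℕ) : ℝ) = (x : ℝ) - 1 := by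
    push_cast [Nat.cast_sub (by omega : 1 ≤ x)]; rfl
  refine ⟨((x + 1 : ℤ) : ℝ × ℝ), intCast_mem _ _, ((-2 : ℤ) : ℝ × ℝ), intCast_mem _ _, ?_⟩
  unfold tauU sc
  refine Prod.ext (Prod.ext ?_ ?_) (Prod.ext ?_ ?_)
  · simp only [Prod.fst_mul, Prod.fst_natCast, Prod.fst_add, Prod.fst_intCast, hx1]
    push_cast
    linear_combination h1
  · simp only [Prod.fst_mul, Prod.snd_mul, Prod.fst_natCast, Prod.snd_natCast, Prod.snd_add,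
      Prod.snd_intCast, hx1]
    push_cast
    linear_combination h1
  · simp only [Prod.fst_mul, Prod.snd_mul, Prod.fst_natCast, Prod.snd_natCast, Prod.fst_sub,
      Prod.fst_intCast, hx1]
    push_cast
    linear_combination h2
  · simp only [Prod.snd_mul, Prod.snd_natCast, Prod.snd_sub,
      Prod.snd_intCast, hx1]
    push_cast
    linear_combination h2

lemma tau_inv_mem {x D : ℕ} (hx : 2 ≤ x) :
    (((x - 1 : ℕ)) : (ℝ × ℝ) × (ℝ × ℝ)) * (((tauU hx)⁻¹ : ((ℝ × ℝ) × (ℝ × ℝ))ˣ) : (ℝ × ℝ) × (ℝ × ℝ)) ∈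
      O4 D x := by
  obtain ⟨h1, h2⟩ := ta_mul hx
  have hx1 : ((x - 1 : ℕ) : ℝ) = (x : ℝ) - 1 := by
    push_cast [Nat.cast_sub (by omega : 1 ≤ x)]; rfl
  refine ⟨((x + 1 : ℤ) : ℝ × ℝ), intCast_mem _ _, ((2 : ℤ) : ℝ × ℝ), intCast_mem _ _, ?_⟩
  have e : (((tauU hx)⁻¹ : ((ℝ × ℝ) × (ℝ × ℝ))ˣ) : (ℝ × ℝ) × (ℝ × ℝ)) =
    (((ta x)⁻¹, (ta x)⁻¹), (ta x, ta x)) := rfl
  rw [e]
  unfold sc
  refine Prod.ext (Prod.ext ?_ ?_) (Prod.ext ?_ ?_)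
  · simp only [Prod.fst_mul, Prod.fst_natCast, Prod.fst_add, Prod.fst_intCast, hx1]
    push_cast
    linear_combination h2
  · simp only [Prod.fst_mul, Prod.snd_mul, Prod.fst_natCast, Prod.snd_natCast, Prod.snd_add,
      Prod.snd_intCast, hx1]
    push_cast
    linear_combination h2
  · simp only [Prod.fst_mul, Prod.snd_mul, Prod.fst_natCast, Prod.snd_natCast, Prod.fst_sub,
      Prod.fst_intCast, hx1]
    push_cast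
    linear_combination h1
  · simp only [Prod.snd_mul, Prod.snd_natCast, Prod.snd_sub,
      Prod.snd_intCast, hx1]
    push_cast
    linear_combination h1

lemma grp_id {G : Type*} [CommGroup G] (T W : G) (s σ k t : ℤ) :
    (T ^ (2 : ℕ) * W) ^ k * (T ^ s * W ^ σ) ^ (2 * t) =
      (T ^ (2 : ℕ) * W) ^ (k + s * t) * W ^ ((2 * σ - s) * t) := by
  have e1 : T ^ (2 : ℕ) = T ^ (2 : ℤ) := by norm_cast
  rw [e1, mul_zpow, mul_zpow, mul_zpow, ← zpow_mul, ← zpow_mul, ← zpow_mul, ← zpow_mul,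
    mul_mul_mul_comm, mul_assoc (T ^ (2 * (k + s * t))), ← zpow_add, ← zpow_add, ← zpow_add]
  congr 2 <;> ring

section

variable {x y a b : ℕ}

/-- exponents -/
def uz (b K0 : ℕ) (c : ℕ × ℕ) : ℤ := ((c.2 : ℤ) - K0) + (2 * b + 1 : ℕ) * ((c.1 : ℤ) - 3)

/-- exponent of `W` -/
def vz (b σ : ℕ) (c : ℕ × ℕ) : ℤ := (2 * (σ : ℤ) - (2 * b + 1 : ℕ)) * ((c.1 : ℤ) - 3)

/-- the denominator -/
def dn (x y b σ K0 : ℕ) (c : ℕ × ℕ) : ℕ :=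
  (y * (x - 1)) ^ ((c.2 : ℤ) - K0).natAbs * ((x - 1) ^ σ) ^ (2 * ((c.1 : ℤ) - 3)).natAbs *
    (x - 1) ^ (uz b K0 c).natAbs

/-- the first entry -/
noncomputable def A4 {x : ℕ} (hx : 2 ≤ x) (y b σ K0 : ℕ) (c : ℕ × ℕ) : (ℝ × ℝ) × (ℝ × ℝ) :=
  (dn x y b σ K0 c : (ℝ × ℝ) × (ℝ × ℝ)) * ((tauU hx ^ (uz b K0 c) : ((ℝ × ℝ) × (ℝ × ℝ))ˣ) :
    (ℝ × ℝ) × (ℝ × ℝ))

/-- the second entry -/
noncomputable def Sol.B4 (h : Sol x y a b) (σ K0 : ℕ) (c : ℕ × ℕ) : (ℝ × ℝ) × (ℝ × ℝ) :=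
  dg ((dn x y b σ K0 c : ℝ × ℝ) * ((h.Th ^ (uz b K0 c) * h.W ^ (vz b σ c) : (ℝ × ℝ)ˣ) : ℝ × ℝ))

lemma A4_mem {x : ℕ} (hx : 2 ≤ x) (y b σ K0 D : ℕ) (c : ℕ × ℕ) : A4 hx y b σ K0 c ∈ O4 D x := by
  unfold A4 dn
  have h1 := zintG (O4 D x) (tau_mem (D := D) hx) (tau_inv_mem (D := D) hx) (uz b K0 c)
  have h2 := (O4 D x).mul_mem (natCast_mem (O4 D x)
    ((y * (x - 1)) ^ ((c.2 : ℤ) - K0).natAbs * ((x - 1) ^ σ) ^ (2 * ((c.1 : ℤ) - 3)).natAbs)) h1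
  convert h2 using 1
  push_cast
  ring

lemma Sol.B4_mem (h : Sol x y a b) {σ : ℕ} (K0 : ℕ)
    (h1 : (((x - 1) ^ σ : ℕ) : ℝ × ℝ) * (((h.T ^ (2 * b + 1) * h.W ^ σ : (ℝ × ℝ)ˣ)) : ℝ × ℝ) ∈
      OR (DD x y))
    (h2 : (((x - 1) ^ σ : ℕ) : ℝ × ℝ) * (((h.T ^ (2 * b + 1) * h.W ^ σ)⁻¹ : (ℝ × ℝ)ˣ) : ℝ × ℝ) ∈
      OR (DD x y)) (c : ℕ × ℕ) : h.B4 σ K0 c ∈ O4 (DD x y) x := by
  unfold Sol.B4
  refine dg_mem ?_
  have e0 : h.Th ^ (uz b K0 c) * h.W ^ (vz b σ c) =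
      h.Th ^ ((c.2 : ℤ) - K0) * (h.T ^ (2 * b + 1) * h.W ^ σ) ^ (2 * ((c.1 : ℤ) - 3)) := by
    have := grp_id h.T h.W ((2 * b + 1 : ℕ) : ℤ) (σ : ℤ) ((c.2 : ℤ) - K0) ((c.1 : ℤ) - 3)
    rw [h.theta, zpow_natCast, zpow_natCast] at this
    exact this.symm
  have g1 := zint (D := DD x y) (c := y * (x - 1)) (E := h.Th)
    (by rw [h.Th_mul]; exact ⟨_, _, rfl⟩) (by rw [h.Th_mul_inv]; exact ⟨_, _, rfl⟩) ((c.2 : ℤ) - K0)
  have g2 := zint (D := DD x y) (c := (x - 1) ^ σ) (E := h.T ^ (2 * b + 1) * h.W ^ σ) h1 h2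
    (2 * ((c.1 : ℤ) - 3))
  have g5 := (OR (DD x y)).mul_mem ((OR (DD x y)).mul_mem g1 g2)
      ((OR (DD x y)).pow_mem (natCast_mem (OR (DD x y)) (x - 1)) (uz b K0 c).natAbs)
  rw [e0, Units.val_mul]
  unfold dn
  convert g5 using 1
  push_cast
  ring

end

end Pool.Agent.W_MP_cac67d_h21
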