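import Mathlib
import Pool.Agent.W_MP_cac67d_h21.Fn1
import Pool.Agent.W_MP_cac67d_h21.Fn2
import Pool.Agent.W_MP_cac67d_h21.Fn4
import Pool.Agent.W_MP_cac67d_h21.Fn8

set_option autoImplicit false

/-!
# The determinant over the biquadratic field
-/

namespace Pool.Agent.W_MP_cac67d_h21

open Finset

lemma rel_pl {d g t w : ℝ} (hg : g ≠ 0) (ht : t ≠ 0) (hw : w ≠ 0) {u v : ℤ} {m i M0 I0 : ℕ}
    (hm : (m : ℤ) = u + M0) (hi : (i : ℤ) = v + I0) :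
    d * g ^ u * ((t / g) ^ m * w ^ i) = d * (t ^ u * w ^ v) * ((t / g) ^ M0 * w ^ I0) := by
  have e1 : (t / g) ^ m = (t / g) ^ u * (t / g) ^ M0 := by
    rw [← zpow_natCast, hm, zpow_add₀ (div_ne_zero ht hg), zpow_natCast]
  have e2 : w ^ i = w ^ v * w ^ I0 := by
    rw [← zpow_natCast, hi, zpow_add₀ hw, zpow_natCast]
  have e3 : g ^ u * (t / g) ^ u = t ^ u := by
    rw [← mul_zpow, mul_div_cancel₀ _ hg]
  rw [e1, e2]
  linear_combination (d * w ^ v * w ^ I0 * (t / g) ^ M0) * e3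

/-- the shifted exponent of `z` -/
def mN (b : ℕ) (c : ℕ × ℕ) : ℕ := c.2 + (2 * b + 1) * c.1

/-- the shifted exponent of `W` -/
def iN (b σ : ℕ) (c : ℕ × ℕ) : ℕ := if σ = b then 6 - c.1 else c.1

lemma mN_uz (b K0 : ℕ) (c : ℕ × ℕ) :
    (mN b c : ℤ) = uz b K0 c + (K0 + 3 * (2 * b + 1) : ℕ) := by
  unfold mN uz
  push_cast
  ring

lemma iN_vz {b σ : ℕ} (hσ : σ = b ∨ σ = b + 1) (c : ℕ × ℕ) (hc : c.1 < 7) :
    (iN b σ c : ℤ) = vz b σ c + (3 : ℕ) := by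
  unfold iN vz
  rcases hσ with rfl | rfl
  · rw [if_pos rfl]
    push_cast [Nat.cast_sub (by omega : c.1 ≤ 6)]
    ring
  · rw [if_neg (by omega)]
    push_cast
    ring

/-- the places -/
noncomputable def pl1 : (ℝ × ℝ) × (ℝ × ℝ) →+* ℝ := (RingHom.fst ℝ ℝ).comp (RingHom.fst (ℝ × ℝ) (ℝ × ℝ))
noncomputable def pl2 : (ℝ × ℝ) × (ℝ × ℝ) →+* ℝ := (RingHom.snd ℝ ℝ).comp (RingHom.fst (ℝ × ℝ) (ℝ × ℝ))
noncomputable def pl3 : (ℝ × ℝ) × (ℝ × ℝ) →+* ℝ := (RingHom.fst ℝ ℝ).comp (RingHom.snd (ℝ × ℝ) (ℝ × ℝ))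
noncomputable def pl4 : (ℝ × ℝ) × (ℝ × ℝ) →+* ℝ := (RingHom.snd ℝ ℝ).comp (RingHom.snd (ℝ × ℝ) (ℝ × ℝ))

lemma A4_val (f : (ℝ × ℝ) × (ℝ × ℝ) →+* ℝ) {x : ℕ} (hx : 2 ≤ x) (y b σ K0 : ℕ) (c : ℕ × ℕ) :
    f (A4 hx y b σ K0 c) = (dn x y b σ K0 c : ℝ) * (f (tauU hx : (ℝ × ℝ) × (ℝ × ℝ))) ^ (uz b K0 c) := by
  unfold A4
  rw [map_mul, map_natCast, map_unit_zpow]

section

variable {x y a b : ℕ}

lemma Sol.B4_val (h : Sol x y a b) (f : (ℝ × ℝ) × (ℝ × ℝ) →+* ℝ) (σ K0 : ℕ) (c : ℕ × ℕ) :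
    f (h.B4 σ K0 c) = (dn x y b σ K0 c : ℝ) * ((f (dg (h.Th : ℝ × ℝ))) ^ (uz b K0 c) *
      (f (dg (h.W : ℝ × ℝ))) ^ (vz b σ c)) := by
  unfold Sol.B4
  rw [map_mul, map_mul, map_natCast, map_natCast, Units.val_mul, map_mul, map_mul]
  have h1 := map_unit_zpow (f.comp dg) h.Th (uz b K0 c)
  have h2 := map_unit_zpow (f.comp dg) h.W (vz b σ c)
  simp only [RingHom.comp_apply] at h1 h2
  rw [h1, h2]

lemma Sol.irrxD (h : Sol x y a b) (hxy2 : x * (x - 1) < 2 * (y - 1)) :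
    Irrational √((x * DD x y : ℕ) : ℝ) := by
  rw [irrational_sqrt_natCast_iff]
  rintro ⟨d, hd⟩
  have hx2 := h.hx.two_le
  have hxy := h.hxy
  have e1 : x * DD x y = x ^ 2 * ((y - 1) * (y - x)) := by unfold DD; ring
  rw [e1] at hd
  have h1 : x ^ 2 ∣ d ^ 2 := ⟨(y - 1) * (y - x), by rw [hd]; ring⟩
  have h2 : x ∣ d := (Nat.pow_dvd_pow_iff two_ne_zero).mp h1
  obtain ⟨e, rfl⟩ := h2
  have h3 : (y - 1) * (y - x) = e * e := by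
    have : x ^ 2 * ((y - 1) * (y - x)) = x ^ 2 * (e * e) := by rw [hd]; ring
    exact Nat.eq_of_mul_eq_mul_left (by positivity) this
  obtain ⟨n, rfl⟩ : ∃ n, x = n + 1 := ⟨x - 1, by omega⟩
  obtain ⟨t, rfl⟩ : ∃ t, y = t + 1 := ⟨y - 1, by omega⟩
  have e2 : n + 1 - 1 = n := rfl
  have e3 : t + 1 - 1 = t := rfl
  have e4 : t + 1 - (n + 1) = t - n := by omega
  rw [e2, e3] at hxy2
  rw [e3, e4] at h3
  obtain ⟨w, rfl⟩ : ∃ w, t = n + w := ⟨t - n, by omega⟩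
  have e5 : n + w - n = w := by omega
  rw [e5] at h3
  -- (n + w) w = e ^ 2, (n + 1) n < 2 (n + w)
  have h4 : w < e := by
    by_contra hcon
    push Not at hcon
    have : e * e ≤ w * w := Nat.mul_le_mul hcon hcon
    have hw0 : 0 < w := by omega
    nlinarith
  have h5 : (w + 1) * (w + 1) ≤ e * e := Nat.mul_le_mul h4 h4
  -- 4 e ^ 2 = (n + 2 w) ^ 2 - n ^ 2
  have h6 : 2 * e < n + 2 * w := by
    by_contra hcon
    push Not at hcon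
    have : (n + 2 * w) * (n + 2 * w) ≤ (2 * e) * (2 * e) := Nat.mul_le_mul hcon hcon
    nlinarith
  have h7 : (2 * e + 1) * (2 * e + 1) ≤ (n + 2 * w) * (n + 2 * w) := Nat.mul_le_mul h6 h6
  nlinarith

/-- the size of the denominators -/
lemma dn_bd (hx : 2 ≤ x) (hxy : x < y) {σ K0 : ℕ} (hσ : σ ≤ b + 1) (c : ℕ × ℕ) (hc : c.1 < 7)
    (hc2 : c.2 < 2 * K0 + 1) :
    (dn x y b σ K0 c : ℝ) ≤ (y : ℝ) ^ K0 * (x : ℝ) ^ (K0 + 6 * (b + 1) + (K0 + 3 * (2 * b + 1))) ∧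
    (uz b K0 c).natAbs ≤ K0 + 3 * (2 * b + 1) := by
  have h1 : ((c.2 : ℤ) - K0).natAbs ≤ K0 := by omega
  have h2 : (2 * ((c.1 : ℤ) - 3)).natAbs ≤ 6 := by omega
  have h3 : (uz b K0 c).natAbs ≤ K0 + 3 * (2 * b + 1) := by
    unfold uz
    have h4 : |((2 * b + 1 : ℕ) : ℤ) * ((c.1 : ℤ) - 3)| ≤ (2 * b + 1 : ℕ) * 3 := by
      rw [abs_mul, Nat.abs_cast]
      refine mul_le_mul_of_nonneg_left ?_ (Nat.cast_nonneg _)
      rw [abs_le]; constructor <;> linarith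
    have h5 := abs_le.mp h4
    have h6 : |((c.2 : ℤ) - K0) + (2 * b + 1 : ℕ) * ((c.1 : ℤ) - 3)| ≤ K0 + 3 * (2 * b + 1) := by
      rw [abs_le]
      push_cast at h5 ⊢
      constructor <;> linarith
    have h7 : ((((c.2 : ℤ) - K0) + (2 * b + 1 : ℕ) * ((c.1 : ℤ) - 3)).natAbs : ℤ) ≤
        ((K0 + 3 * (2 * b + 1) : ℕ) : ℤ) := by
      rw [Int.natCast_natAbs]
      push_cast at h6 ⊢
      exact h6
    exact_mod_cast h7
  refine ⟨?_, h3⟩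
  have h4 : dn x y b σ K0 c ≤ y ^ K0 * x ^ (K0 + 6 * (b + 1) + (K0 + 3 * (2 * b + 1))) := by
    unfold dn
    have hx1 : 1 ≤ x - 1 := by omega
    have hx1' : x - 1 ≤ x := Nat.sub_le _ _
    have hx0 : 0 < x := by omega
    have hy0 : 0 < y := by omega
    have k1 : (y * (x - 1)) ^ ((c.2 : ℤ) - K0).natAbs ≤ y ^ K0 * x ^ K0 := by
      calc (y * (x - 1)) ^ ((c.2 : ℤ) - K0).natAbs ≤ (y * x) ^ ((c.2 : ℤ) - K0).natAbs :=
            Nat.pow_le_pow_left (Nat.mul_le_mul_left _ hx1') _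
        _ ≤ (y * x) ^ K0 := Nat.pow_le_pow_right (Nat.mul_pos hy0 hx0) h1
        _ = _ := mul_pow _ _ _
    have k2 : ((x - 1) ^ σ) ^ (2 * ((c.1 : ℤ) - 3)).natAbs ≤ x ^ (6 * (b + 1)) := by
      rw [← pow_mul]
      calc (x - 1) ^ (σ * (2 * ((c.1 : ℤ) - 3)).natAbs) ≤ x ^ (σ * (2 * ((c.1 : ℤ) - 3)).natAbs) :=
            Nat.pow_le_pow_left hx1' _
        _ ≤ x ^ (6 * (b + 1)) := by
            refine Nat.pow_le_pow_right hx0 ?_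
            calc σ * (2 * ((c.1 : ℤ) - 3)).natAbs ≤ (b + 1) * 6 := Nat.mul_le_mul hσ h2
              _ = _ := Nat.mul_comm _ _
    have k3 : (x - 1) ^ (uz b K0 c).natAbs ≤ x ^ (K0 + 3 * (2 * b + 1)) := by
      calc (x - 1) ^ (uz b K0 c).natAbs ≤ x ^ (uz b K0 c).natAbs := Nat.pow_le_pow_left hx1' _
        _ ≤ _ := Nat.pow_le_pow_right hx0 h3
    calc _ ≤ (y ^ K0 * x ^ K0) * x ^ (6 * (b + 1)) * x ^ (K0 + 3 * (2 * b + 1)) :=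
          Nat.mul_le_mul (Nat.mul_le_mul k1 k2) k3
      _ = _ := by rw [pow_add x (K0 + 6 * (b + 1)), pow_add x K0]; ring
  exact_mod_cast h4

end

end Pool.Agent.W_MP_cac67d_h21
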