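import Mathlib
import Pool.Agent.W_MP_cac67d_h21.Fn9

set_option autoImplicit false

/-!
# The larger base is at most a fixed power of the smaller one
-/

namespace Pool.Agent.W_MP_cac67d_h21

open Finset

lemma H_bd {x : ℕ} {d g w Y : ℝ} {K0 E0 M0 : ℕ} (hx : (2 : ℝ) ≤ x) (hY : 0 ≤ Y)
    (hd0 : 0 ≤ d) (hd : d ≤ Y ^ K0 * (x : ℝ) ^ E0) (hg0 : 0 ≤ g) (hg : g ≤ 6 ^ M0) (hw0 : 0 ≤ w)
    (hw : w ≤ 8) : |d * (g * w)| ≤ Y ^ K0 * (x : ℝ) ^ (E0 + 3 * M0 + 3) := by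
  rw [abs_of_nonneg (by positivity)]
  have h8 : (8 : ℝ) ≤ (x : ℝ) ^ 3 := by
    calc (8 : ℝ) = 2 ^ 3 := by norm_num
      _ ≤ (x : ℝ) ^ 3 := pow_le_pow_left₀ (by norm_num) hx _
  have h1 : g ≤ (x : ℝ) ^ (3 * M0) := by
    refine hg.trans ?_
    rw [pow_mul]
    exact pow_le_pow_left₀ (by norm_num) (by linarith) _
  have hx0 : (0 : ℝ) ≤ x := by linarith
  calc d * (g * w) ≤ (Y ^ K0 * (x : ℝ) ^ E0) * ((x : ℝ) ^ (3 * M0) * (x : ℝ) ^ 3) :=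
        mul_le_mul hd (mul_le_mul h1 (hw.trans h8) hw0 (by positivity)) (by positivity) (by positivity)
    _ = _ := by rw [pow_add, pow_add]; ring

section

variable {x y a b : ℕ}

theorem Sol.yle (h : Sol x y a b) (hb : 197 ≤ b) (h8 : 8 * x ≤ y)
    (hxy2 : x * (x - 1) < 2 * (y - 1)) : y ^ 3 ≤ x ^ 3463 := by
  classical
  have hx2 := h.hx.two_le
  have hxy := h.hxy
  have hx' : (2 : ℝ) ≤ x := by exact_mod_cast hx2
  have hx0 : (0 : ℝ) < x := by linarith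
  have h8' : 8 * (x : ℝ) ≤ y := by exact_mod_cast h8
  have hy0 : (0 : ℝ) < y := by linarith
  obtain ⟨K0, hK14, hK15, hK1⟩ : ∃ K0 : ℕ, 14 * K0 + 1 ≤ b ∧ b ≤ 15 * K0 ∧ 14 ≤ K0 :=
    ⟨(b - 1) / 14, by omega, by omega, by omega⟩
  obtain ⟨K, hK⟩ : ∃ K : ℕ, K = 7 * K0 := ⟨_, rfl⟩
  obtain ⟨M0, hM0⟩ : ∃ M0 : ℕ, M0 = K0 + 3 * (2 * b + 1) := ⟨_, rfl⟩
  obtain ⟨σ, hσ, hp1, hp2⟩ := h.psi
  obtain ⟨⟨t0, t1, t6, t2⟩, ⟨w0, w1, w2⟩, ⟨z1, z2, z3⟩, ⟨c1, c2⟩⟩ :=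
    h.place h8 (N := 2 * K + 1) (by omega) (by omega)
  obtain ⟨g0, g1, g6⟩ := ta_bd hx2
  set t := (h.Th : ℝ × ℝ).1 with ht
  set w := (h.W : ℝ × ℝ).1 with hw
  set g := ta x with hg
  set ξ : ℝ := 4 * x / y with hξ
  have hξ0 : 0 < ξ := by positivity
  have hξ1 : ξ ≤ 1 / 2 := by
    rw [hξ, div_le_iff₀ hy0]; linarith
  have hw0 : 0 < w := by linarith
  -- the columns
  set Ω : Finset (ℕ × ℕ) := range 7 ×ˢ range (2 * K0 + 1) with hΩ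
  set Ω' : Finset (ℕ × ℕ) := range 7 ×ˢ range (2 * K0) with hΩ'
  have hmem : ∀ c ∈ Ω, c.1 < 7 ∧ c.2 < 2 * K0 + 1 := by
    intro c hc
    rw [hΩ, mem_product, mem_range, mem_range] at hc
    exact hc
  have hinjm : Set.InjOn (mN b) Ω := by
    intro c hc c' hc' hcc
    obtain ⟨d1, d2⟩ := hmem c hc
    obtain ⟨d1', d2'⟩ := hmem c' hc'
    have hcc' : c.2 + (2 * b + 1) * c.1 = c'.2 + (2 * b + 1) * c'.1 := hcc
    have hQ0 : 0 < 2 * b + 1 := by omega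
    have k1 : (c.2 + (2 * b + 1) * c.1) / (2 * b + 1) = c.1 := by
      rw [Nat.add_mul_div_left _ _ hQ0, Nat.div_eq_of_lt (by omega), zero_add]
    have k2 : (c'.2 + (2 * b + 1) * c'.1) / (2 * b + 1) = c'.1 := by
      rw [Nat.add_mul_div_left _ _ hQ0, Nat.div_eq_of_lt (by omega), zero_add]
    have k3 : c.1 = c'.1 := by rw [← k1, ← k2, hcc']
    have k4 : c.2 = c'.2 := by rw [k3] at hcc'; omega
    exact Prod.ext k3 k4
  obtain ⟨col, hcol, hinj, hdet⟩ := exists_minor Ω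
    (Ent (t / g) w (K := K) (mN b) (iN b σ))
    (fun v hv => rows_indep_gen (by omega) Ω (mN b) (iN b σ) hinjm (t / g) w
      (div_ne_zero t0.ne' g0.ne') hw0.ne' 1 0 (by rw [pow_one, pow_zero, mul_one]; exact z3) Ω' (by
        rw [hΩ, hΩ']
        exact product_subset_product_right (range_subset_range.mpr (by omega))) (by
        intro c hc
        rw [hΩ', mem_product, mem_range, mem_range] at hc
        refine ⟨(c.1, c.2 + 1), ?_, ?_, ?_⟩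
        · rw [hΩ, mem_product, mem_range, mem_range]
          exact ⟨hc.1, by simp only; omega⟩
        · unfold mN; simp only; ring
        · unfold iN; simp only [add_zero]) (by
        rw [hΩ', card_product, card_range, card_range]; omega) v hv)
  -- the determinant
  set m : Row K → ℕ := fun r => mN b (col r) with hm
  set i : Row K → ℕ := fun r => iN b σ (col r) with hi
  set A : Row K → (ℝ × ℝ) × (ℝ × ℝ) := fun r => A4 hx2 y b σ K0 (col r) with hA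
  set B : Row K → (ℝ × ℝ) × (ℝ × ℝ) := fun r => h.B4 σ K0 (col r) with hB
  have hmemO := GM_mem (O4 (DD x y) x) m A B (fun c => A4_mem hx2 y b σ K0 _ _)
    (fun c => h.B4_mem K0 hp1 hp2 _)
  have hmM : ∀ c, m c ≤ 2 * M0 := by
    intro c
    have h3 := hmem _ (hcol c)
    rw [hm, hM0]
    unfold mN
    have h4 : (2 * b + 1) * (col c).1 ≤ (2 * b + 1) * 6 := Nat.mul_le_mul_left _ (by omega)
    have h5 := h3.2
    simp only
    omega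
  have hiI : ∀ c, i c ≤ 6 := by
    intro c
    have h3 := (hmem _ (hcol c)).1
    rw [hi]
    unfold iN
    simp only
    split_ifs <;> omega
  -- the values
  have hmz : ∀ c, (m c : ℤ) = uz b K0 (col c) + M0 := by
    intro c
    rw [hM0]
    exact mN_uz b K0 (col c)
  have hiz : ∀ c, (i c : ℤ) = vz b σ (col c) + (3 : ℕ) := fun c =>
    iN_vz hσ (col c) (hmem _ (hcol c)).1
  have hdn0 : ∀ c, (0 : ℝ) < (dn x y b σ K0 (col c) : ℝ) := by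
    intro c
    have : 0 < dn x y b σ K0 (col c) := by
      unfold dn
      have k1 : 0 < x - 1 := by omega
      have k2 : 0 < y := by omega
      positivity
    exact_mod_cast this
  have A1 : ∀ c, pl1 (A c) = (dn x y b σ K0 (col c) : ℝ) * g ^ (uz b K0 (col c)) :=
    fun c => A4_val pl1 hx2 y b σ K0 (col c)
  have A2 : ∀ c, pl2 (A c) = (dn x y b σ K0 (col c) : ℝ) * g ^ (uz b K0 (col c)) :=
    fun c => A4_val pl2 hx2 y b σ K0 (col c)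
  have A3 : ∀ c, pl3 (A c) = (dn x y b σ K0 (col c) : ℝ) * (g⁻¹) ^ (uz b K0 (col c)) :=
    fun c => A4_val pl3 hx2 y b σ K0 (col c)
  have A4' : ∀ c, pl4 (A c) = (dn x y b σ K0 (col c) : ℝ) * (g⁻¹) ^ (uz b K0 (col c)) :=
    fun c => A4_val pl4 hx2 y b σ K0 (col c)
  have B1 : ∀ c, pl1 (B c) = (dn x y b σ K0 (col c) : ℝ) * (t ^ (uz b K0 (col c)) *
      w ^ (vz b σ (col c))) := fun c => h.B4_val pl1 σ K0 (col c)
  have B3 : ∀ c, pl3 (B c) = (dn x y b σ K0 (col c) : ℝ) * (t ^ (uz b K0 (col c)) *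
      w ^ (vz b σ (col c))) := fun c => h.B4_val pl3 σ K0 (col c)
  have B2 : ∀ c, pl2 (B c) = (dn x y b σ K0 (col c) : ℝ) * ((t⁻¹) ^ (uz b K0 (col c)) *
      (w⁻¹) ^ (vz b σ (col c))) := by
    intro c
    rw [← t2, ← w2]
    exact h.B4_val pl2 σ K0 (col c)
  have B4' : ∀ c, pl4 (B c) = (dn x y b σ K0 (col c) : ℝ) * ((t⁻¹) ^ (uz b K0 (col c)) *
      (w⁻¹) ^ (vz b σ (col c))) := by
    intro c
    rw [← t2, ← w2]
    exact h.B4_val pl4 σ K0 (col c)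
  -- sizes
  obtain ⟨EE, hEE⟩ : ∃ EE : ℕ, EE = K0 + 6 * (b + 1) + (K0 + 3 * (2 * b + 1)) + 3 * M0 + 3 := ⟨_, rfl⟩
  set H : ℝ := (y : ℝ) ^ K0 * (x : ℝ) ^ EE with hH
  have hH0 : 0 < H := by positivity
  have hdb : ∀ c, (dn x y b σ K0 (col c) : ℝ) ≤
      (y : ℝ) ^ K0 * (x : ℝ) ^ (K0 + 6 * (b + 1) + (K0 + 3 * (2 * b + 1))) ∧
      (uz b K0 (col c)).natAbs ≤ M0 := by
    intro c
    rw [hM0]
    exact dn_bd hx2 hxy (by omega) (col c) (hmem _ (hcol c)).1 (hmem _ (hcol c)).2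
  have hvz : ∀ c, (vz b σ (col c)).natAbs ≤ 3 := by
    intro c
    have h3 := hiz c
    have h4 := hiI c
    omega
  have hpow : ∀ (u : ℝ) (c : Row K), 0 < u → u ≤ 6 → u⁻¹ ≤ 6 → 0 ≤ u ^ (uz b K0 (col c)) ∧
      u ^ (uz b K0 (col c)) ≤ 6 ^ M0 := by
    intro u c hu1 hu2 hu3
    refine ⟨(zpow_pos hu1 _).le, (zpow_bd hu1 hu2 hu3 _).trans ?_⟩
    exact pow_le_pow_right₀ (by norm_num) (hdb c).2
  have hpow2 : ∀ (u : ℝ) (c : Row K), 0 < u → u ≤ 2 → u⁻¹ ≤ 2 → 0 ≤ u ^ (vz b σ (col c)) ∧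
      u ^ (vz b σ (col c)) ≤ 8 := by
    intro u c hu1 hu2 hu3
    refine ⟨(zpow_pos hu1 _).le, (zpow_bd hu1 hu2 hu3 _).trans ?_⟩
    calc (2 : ℝ) ^ (vz b σ (col c)).natAbs ≤ 2 ^ 3 := pow_le_pow_right₀ (by norm_num) (hvz c)
      _ = 8 := by norm_num
  have hbA : ∀ (u : ℝ) (c : Row K), 0 < u → u ≤ 6 → u⁻¹ ≤ 6 →
      |(dn x y b σ K0 (col c) : ℝ) * u ^ (uz b K0 (col c))| ≤ H := by
    intro u c hu1 hu2 hu3
    have h3 := hpow u c hu1 hu2 hu3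
    have h4 := H_bd (x := x) (w := 1) hx' hy0.le (hdn0 c).le (hdb c).1 h3.1 h3.2
      (by norm_num) (by norm_num)
    rw [mul_one, ← hEE] at h4
    exact h4
  have hbB : ∀ (u v : ℝ) (c : Row K), 0 < u → u ≤ 6 → u⁻¹ ≤ 6 → 0 < v → v ≤ 2 → v⁻¹ ≤ 2 →
      |(dn x y b σ K0 (col c) : ℝ) * (u ^ (uz b K0 (col c)) * v ^ (vz b σ (col c)))| ≤ H := by
    intro u v c hu1 hu2 hu3 hv1 hv2 hv3
    have h3 := hpow u c hu1 hu2 hu3
    have h5 := hpow2 v c hv1 hv2 hv3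
    have h4 := H_bd (x := x) hx' hy0.le (hdn0 c).le (hdb c).1 h3.1 h3.2 h5.1 h5.2
    rw [← hEE] at h4
    exact h4
  have gi0 : 0 < g⁻¹ := inv_pos.mpr g0
  have ti0 : 0 < t⁻¹ := inv_pos.mpr t0
  have wi0 : 0 < w⁻¹ := inv_pos.mpr hw0
  have wi2 : w⁻¹ ≤ 2 := by
    rw [inv_le_comm₀ hw0 (by norm_num)]; linarith
  have tii : (t⁻¹)⁻¹ ≤ 6 := by rw [inv_inv]; linarith
  have gii : (g⁻¹)⁻¹ ≤ 6 := by rw [inv_inv]; linarith
  have wii : (w⁻¹)⁻¹ ≤ 2 := by rw [inv_inv]; linarith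
  -- the four determinants
  set Δ := (Matrix.of (GM m A B)).det with hΔ
  have D1 : pl1 Δ = (Matrix.of (GM m (fun c => pl1 (A c)) (fun c => pl1 (B c)))).det :=
    GM_map pl1 m A B
  have D2 : pl2 Δ = (Matrix.of (GM m (fun c => pl2 (A c)) (fun c => pl2 (B c)))).det :=
    GM_map pl2 m A B
  have D3 : pl3 Δ = (Matrix.of (GM m (fun c => pl3 (A c)) (fun c => pl3 (B c)))).det :=
    GM_map pl3 m A B
  have D4 : pl4 Δ = (Matrix.of (GM m (fun c => pl4 (A c)) (fun c => pl4 (B c)))).det :=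
    GM_map pl4 m A B
  have hrel1 : ∀ c, pl1 (A c) * ((t / g) ^ (m c) * w ^ (i c)) =
      pl1 (B c) * ((t / g) ^ M0 * w ^ 3) := by
    intro c
    rw [A1, B1]
    exact rel_pl g0.ne' t0.ne' hw0.ne' (hmz c) (hiz c)
  have hrel4 : ∀ c, pl4 (A c) * ((t⁻¹ / g⁻¹) ^ (m c) * (w⁻¹) ^ (i c)) =
      pl4 (B c) * ((t⁻¹ / g⁻¹) ^ M0 * (w⁻¹) ^ 3) := by
    intro c
    rw [A4', B4']
    exact rel_pl gi0.ne' ti0.ne' wi0.ne' (hmz c) (hiz c)
  have hne : pl1 Δ ≠ 0 := by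
    rw [D1]
    refine GM_ne m i _ _ (div_ne_zero t0.ne' g0.ne') hw0.ne' hrel1 (fun c => ?_) ?_
    · rw [A1]
      exact mul_ne_zero (hdn0 c).ne' (zpow_pos g0 _).ne'
    · intro h0
      apply hdet
      rw [← h0]
      congr 1
      ext r c
      rcases r with k | k <;> rfl
  have hDD0 : DD x y ≠ 0 := by
    unfold DD
    have k1 : y - 1 ≠ 0 := by omega
    have k2 : y - x ≠ 0 := by omega
    have k3 : x ≠ 0 := by omega
    positivity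
  have hge := norm4 hDD0 h.nsq h.hx.irrational_sqrt (h.irrxD hxy2) hmemO hne
  have hge' : 1 ≤ |pl1 Δ| * |pl2 Δ| * (|pl3 Δ| * |pl4 Δ|) := hge
  have hle1 : |pl1 Δ| ≤ (2 ^ (K + M0 + 3)) ^ K * ((Ec K (2 * M0) 6 * ξ ^ Wd K K) * H ^ (2 * K)) := by
    rw [D1]
    exact GM_arch (ρ := K) (K := K) (M := 2 * M0) (I := 6) (M0 := M0) (I0 := 3) m i _ _ hrel1 hξ0 hξ1
      z1 c1 (by omega) hmM hiI (by omega) (fun c => by
        rw [A1]
        exact hbA g c g0 (by linarith) g6)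
  have hle4 : |pl4 Δ| ≤ (2 ^ (K + M0 + 3)) ^ K * ((Ec K (2 * M0) 6 * ξ ^ Wd K K) * H ^ (2 * K)) := by
    rw [D4]
    exact GM_arch (ρ := K) (K := K) (M := 2 * M0) (I := 6) (M0 := M0) (I0 := 3) m i _ _ hrel4 hξ0 hξ1
      (by rw [← t2]; exact z2) (by rw [← w2]; exact c2) (by omega) hmM hiI (by omega) (fun c => by
        rw [A4']
        exact hbA g⁻¹ c gi0 g6 gii)
  have hle2 : |pl2 Δ| ≤ (2 * K).factorial * (2 ^ (2 * M0) * H) ^ (2 * K) := by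
    rw [D2]
    exact GM_triv m _ _ hmM (fun c => by
      rw [A2]; exact hbA g c g0 (by linarith) g6) (fun c => by
      rw [B2]; exact hbB t⁻¹ w⁻¹ c ti0 t6 tii wi0 wi2 wii)
  have hle3 : |pl3 Δ| ≤ (2 * K).factorial * (2 ^ (2 * M0) * H) ^ (2 * K) := by
    rw [D3]
    exact GM_triv m _ _ hmM (fun c => by
      rw [A3]; exact hbA g⁻¹ c gi0 g6 gii) (fun c => by
      rw [B3]; exact hbB t w c t0 (by linarith) t6 hw0 (by linarith) wi2)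
  -- simplification
  obtain ⟨e1, he1⟩ : ∃ e1 : ℕ, e1 = (K + M0 + 3) * K + 2 * K * (3 * (2 * M0) + 2 * 6 + 2 * K) := ⟨_, rfl⟩
  obtain ⟨e2, he2⟩ : ∃ e2 : ℕ, e2 = 2 * K * (2 * K) + 2 * M0 * (2 * K) := ⟨_, rfl⟩
  have hm1 : (2 ^ (K + M0 + 3)) ^ K * ((Ec K (2 * M0) 6 * ξ ^ Wd K K) * H ^ (2 * K)) ≤
      (x : ℝ) ^ e1 * ξ ^ (K * K) * H ^ (2 * K) := by
    rw [Wd_self]
    have f1 : ((2 : ℝ) ^ (K + M0 + 3)) ^ K ≤ (x : ℝ) ^ ((K + M0 + 3) * K) := by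
      rw [← pow_mul]
      exact pow_le_pow_left₀ (by norm_num) hx' _
    have f2 : (Ec K (2 * M0) 6 : ℝ) ≤ (x : ℝ) ^ (2 * K * (3 * (2 * M0) + 2 * 6 + 2 * K)) := by
      have h3 : (Ec K (2 * M0) 6 : ℝ) ≤ 2 ^ (2 * K * (3 * (2 * M0) + 2 * 6 + 2 * K)) := by
        exact_mod_cast Ec_two K (2 * M0) 6
      exact h3.trans (pow_le_pow_left₀ (by norm_num) hx' _)
    calc (2 ^ (K + M0 + 3)) ^ K * ((Ec K (2 * M0) 6 * ξ ^ (K * K)) * H ^ (2 * K)) ≤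
        (x : ℝ) ^ ((K + M0 + 3) * K) *
          (((x : ℝ) ^ (2 * K * (3 * (2 * M0) + 2 * 6 + 2 * K)) * ξ ^ (K * K)) * H ^ (2 * K)) := by
          refine mul_le_mul f1 ?_ (by positivity) (by positivity)
          refine mul_le_mul_of_nonneg_right ?_ (by positivity)
          exact mul_le_mul_of_nonneg_right f2 (by positivity)
      _ = _ := by rw [he1, pow_add]; ring
  have hm2 : ((2 * K).factorial : ℝ) * (2 ^ (2 * M0) * H) ^ (2 * K) ≤ (x : ℝ) ^ e2 * H ^ (2 * K) := by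
    have f1 : (((2 * K).factorial : ℕ) : ℝ) ≤ (x : ℝ) ^ (2 * K * (2 * K)) := by
      have f2 : (2 * K).factorial ≤ 2 ^ (2 * K * (2 * K)) := by
        calc (2 * K).factorial ≤ (2 * K) ^ (2 * K) := Nat.factorial_le_pow _
          _ ≤ (2 ^ (2 * K)) ^ (2 * K) := Nat.pow_le_pow_left (Nat.lt_two_pow_self).le _
          _ = _ := by rw [← pow_mul]
      have f3 : (((2 * K).factorial : ℕ) : ℝ) ≤ 2 ^ (2 * K * (2 * K)) := by exact_mod_cast f2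
      exact f3.trans (pow_le_pow_left₀ (by norm_num) hx' _)
    have f4 : ((2 : ℝ) ^ (2 * M0)) ^ (2 * K) ≤ (x : ℝ) ^ (2 * M0 * (2 * K)) := by
      rw [← pow_mul]
      exact pow_le_pow_left₀ (by norm_num) hx' _
    rw [mul_pow]
    calc ((2 * K).factorial : ℝ) * ((2 ^ (2 * M0)) ^ (2 * K) * H ^ (2 * K)) ≤
        (x : ℝ) ^ (2 * K * (2 * K)) * ((x : ℝ) ^ (2 * M0 * (2 * K)) * H ^ (2 * K)) := by
          refine mul_le_mul f1 ?_ (by positivity) (by positivity)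
          exact mul_le_mul_of_nonneg_right f4 (by positivity)
      _ = _ := by rw [he2, pow_add]; ring
  set Bm : ℝ := (x : ℝ) ^ e1 * ξ ^ (K * K) * H ^ (2 * K) with hBm
  set Bt : ℝ := (x : ℝ) ^ e2 * H ^ (2 * K) with hBt
  have hBm0 : 0 < Bm := by positivity
  have hBt0 : 0 < Bt := by positivity
  have htot : 1 ≤ (Bm * Bt) * (Bt * Bm) := by
    refine hge'.trans ?_
    refine mul_le_mul ?_ ?_ (by positivity) (by positivity)
    · exact mul_le_mul (hle1.trans hm1) (hle2.trans hm2) (abs_nonneg _) hBm0.le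
    · exact mul_le_mul (hle3.trans hm2) (hle4.trans hm1) (abs_nonneg _) hBt0.le
  -- multiply by y ^ (2 K ^ 2)
  have hξy : ξ ^ (K * K) * (y : ℝ) ^ (K * K) ≤ (x : ℝ) ^ (3 * (K * K)) := by
    have g1 : 4 * (x : ℝ) ≤ (x : ℝ) ^ 3 := by
      have g2 : (4 : ℝ) ≤ (x : ℝ) ^ 2 := by nlinarith
      have g3 := mul_le_mul_of_nonneg_right g2 hx0.le
      calc 4 * (x : ℝ) ≤ (x : ℝ) ^ 2 * x := g3
        _ = (x : ℝ) ^ 3 := by ring
    have g4 : ξ * (y : ℝ) = 4 * x := by rw [hξ]; exact div_mul_cancel₀ _ hy0.ne'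
    rw [← mul_pow, g4, pow_mul (x : ℝ) 3 (K * K)]
    exact pow_le_pow_left₀ (by positivity) g1 _
  obtain ⟨G, hG⟩ : ∃ G : ℕ, G = 2 * e1 + 2 * e2 + 6 * (K * K) + EE * (8 * K) := ⟨_, rfl⟩
  have hfin : (y : ℝ) ^ (2 * (K * K)) ≤ (x : ℝ) ^ G * (y : ℝ) ^ (8 * K * K0) := by
    have f1 : (y : ℝ) ^ (2 * (K * K)) * 1 ≤ (y : ℝ) ^ (2 * (K * K)) * ((Bm * Bt) * (Bt * Bm)) :=
      mul_le_mul_of_nonneg_left htot (by positivity)
    have f2 : (y : ℝ) ^ (2 * (K * K)) * ((Bm * Bt) * (Bt * Bm)) =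
        (ξ ^ (K * K) * (y : ℝ) ^ (K * K)) ^ 2 * ((x : ℝ) ^ e1 * (x : ℝ) ^ e2) ^ 2 * H ^ (8 * K) := by
      rw [hBm, hBt]
      have e3 : (y : ℝ) ^ (2 * (K * K)) = ((y : ℝ) ^ (K * K)) ^ 2 := by rw [← pow_mul, mul_comm]
      have e4 : H ^ (8 * K) = (H ^ (2 * K)) ^ 4 := by rw [← pow_mul]; congr 1; ring
      rw [e3, e4]
      ring
    rw [f2, mul_one] at f1
    refine f1.trans ?_
    have f3 : (ξ ^ (K * K) * (y : ℝ) ^ (K * K)) ^ 2 ≤ ((x : ℝ) ^ (3 * (K * K))) ^ 2 :=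
      pow_le_pow_left₀ (by positivity) hξy _
    calc (ξ ^ (K * K) * (y : ℝ) ^ (K * K)) ^ 2 * ((x : ℝ) ^ e1 * (x : ℝ) ^ e2) ^ 2 * H ^ (8 * K) ≤
        ((x : ℝ) ^ (3 * (K * K))) ^ 2 * ((x : ℝ) ^ e1 * (x : ℝ) ^ e2) ^ 2 * H ^ (8 * K) := by
          refine mul_le_mul_of_nonneg_right ?_ (by positivity)
          exact mul_le_mul_of_nonneg_right f3 (by positivity)
      _ = (x : ℝ) ^ G * (y : ℝ) ^ (8 * K * K0) := by
          have e5 : G = 3 * (K * K) * 2 + (e1 + e2) * 2 + EE * (8 * K) := by rw [hG]; ring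
          have e6 : 8 * K * K0 = K0 * (8 * K) := by ring
          have e9 : H ^ (8 * K) = (y : ℝ) ^ (K0 * (8 * K)) * (x : ℝ) ^ (EE * (8 * K)) := by
            rw [hH, mul_pow, ← pow_mul, ← pow_mul]
          have e10 : ((x : ℝ) ^ (3 * (K * K))) ^ 2 = (x : ℝ) ^ (3 * (K * K) * 2) := by rw [← pow_mul]
          have e11 : ((x : ℝ) ^ e1 * (x : ℝ) ^ e2) ^ 2 = (x : ℝ) ^ ((e1 + e2) * 2) := by
            rw [← pow_add, ← pow_mul]
          rw [e5, e6, e9, e10, e11, pow_add, pow_add]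
          ring
  have hyne : (0 : ℝ) < (y : ℝ) ^ (8 * K * K0) := by positivity
  have e7 : 2 * (K * K) = 42 * (K0 * K0) + 8 * K * K0 := by rw [hK]; ring
  rw [e7, pow_add] at hfin
  have hfin2 : (y : ℝ) ^ (42 * (K0 * K0)) ≤ (x : ℝ) ^ G := le_of_mul_le_mul_right hfin hyne
  have hfin3 : y ^ (42 * (K0 * K0)) ≤ x ^ G := by exact_mod_cast hfin2
  have hGle : G ≤ 3463 * (14 * (K0 * K0)) := by
    rw [hG, he1, he2, hEE, hM0, hK]
    have e8 : b ≤ 15 * K0 := hK15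
    have e9 : K0 * b ≤ K0 * (15 * K0) := Nat.mul_le_mul_left _ e8
    nlinarith
  have hfin4 : (y ^ 3) ^ (14 * (K0 * K0)) ≤ (x ^ 3463) ^ (14 * (K0 * K0)) := by
    rw [← pow_mul, ← pow_mul]
    calc y ^ (3 * (14 * (K0 * K0))) = y ^ (42 * (K0 * K0)) := by congr 1; ring
      _ ≤ x ^ G := hfin3
      _ ≤ _ := Nat.pow_le_pow_right (by omega) hGle
  have hne0 : 14 * (K0 * K0) ≠ 0 := by
    have : K0 ≠ 0 := by omega
    positivity
  exact (Nat.pow_le_pow_iff_left hne0).mp hfin4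

end

end Pool.Agent.W_MP_cac67d_h21
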