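import Mathlib
import Pool.Agent.W_MP_cac67d_h21.FinalC
import Pool.Agent.W_MP_cac67d_h21.Fn4
import Pool.Agent.W_MP_cac67d_h21.Fn10

set_option autoImplicit false

/-!
# Finiteness of the second representations in prime bases
-/

namespace Pool.Agent.W_MP_cac67d_h21

open Finset

lemma real_form {x y r s : ℕ} (h : ∑ i ∈ range r, x ^ i = ∑ i ∈ range s, y ^ i) :
    ((y : ℝ) - 1) * (x : ℝ) ^ r = ((x : ℝ) - 1) * (y : ℝ) ^ s + ((y : ℝ) - x) := by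
  have h1 : (∑ i ∈ range r, (x : ℝ) ^ i) * ((x : ℝ) - 1) = (x : ℝ) ^ r - 1 := geom_sum_mul _ _
  have h2 : (∑ i ∈ range s, (y : ℝ) ^ i) * ((y : ℝ) - 1) = (y : ℝ) ^ s - 1 := geom_sum_mul _ _
  have h3 : (∑ i ∈ range r, (x : ℝ) ^ i) = ∑ i ∈ range s, (y : ℝ) ^ i := by exact_mod_cast h
  rw [h3] at h1
  linear_combination ((x : ℝ) - 1) * h2 - ((y : ℝ) - 1) * h1

lemma le_geom {x r : ℕ} (hx : 1 ≤ x) : r ≤ ∑ i ∈ range r, x ^ i := by
  calc r = ∑ i ∈ range r, 1 := by simp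
    _ ≤ _ := sum_le_sum fun i _ => Nat.one_le_pow _ _ hx

/-- For a fixed pair of bases there are only finitely many solutions. -/
theorem fin_pair {x y : ℕ} (hx : 2 ≤ x) (hxy : x < y) :
    {rs : ℕ × ℕ | ∑ i ∈ range rs.1, x ^ i = ∑ i ∈ range rs.2, y ^ i}.Finite := by
  have key : ∀ n : ℕ, (∀ rs : ℕ × ℕ, ∑ i ∈ range rs.1, x ^ i = ∑ i ∈ range rs.2, y ^ i → rs.2 ≤ n) →
      {rs : ℕ × ℕ | ∑ i ∈ range rs.1, x ^ i = ∑ i ∈ range rs.2, y ^ i}.Finite := by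
    intro n hn
    refine Set.Finite.subset (Set.finite_Iic ((∑ i ∈ range n, y ^ i, n) : ℕ × ℕ)) ?_
    intro rs hrs
    have h1 := hn rs hrs
    have h2 : ∑ i ∈ range rs.1, x ^ i = ∑ i ∈ range rs.2, y ^ i := hrs
    have h3 : rs.1 ≤ ∑ i ∈ range n, y ^ i := by
      refine (le_geom (by omega : 1 ≤ x)).trans ?_
      rw [h2]
      exact sum_le_sum_of_subset (range_subset_range.mpr h1)
    exact ⟨h3, h1⟩
  by_cases h0 : ∃ rs : ℕ × ℕ, ∑ i ∈ range rs.1, x ^ i = ∑ i ∈ range rs.2, y ^ i ∧ 2000 ≤ rs.2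
  · obtain ⟨rs, h1, h2⟩ := h0
    refine key (rs.2 ^ 2) fun rs' h3 => ?_
    by_contra hcon
    exact two_sol hx hxy (real_form h1) (real_form h3) h2 (by omega)
  · push Not at h0
    exact key 2000 fun rs h1 => (h0 rs h1).le

/-- The larger base is at most a fixed power of the smaller one if the exponents are large. -/
theorem y_le {x y a b : ℕ} (hx : x.Prime) (hy : y.Prime) (hxy : x < y) (hb : 197 ≤ b)
    (h : ∑ i ∈ range (2 * a + 1), x ^ i = ∑ i ∈ range (2 * b + 1), y ^ i) :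
    y ^ 3 ≤ x ^ 3463 := by
  have hab : b < a := by
    have := exp_lt hxy (by omega) h
    omega
  have hsol : Sol x y a b := ⟨hx, hy, hxy, by omega, by omega, pell_form h⟩
  have hx2 := hx.two_le
  rcases Nat.lt_or_ge y (8 * x) with h8 | h8
  · have h1 : y ≤ x ^ 4 := by
      have : 8 ≤ x ^ 3 := by
        calc 8 = 2 ^ 3 := by norm_num
          _ ≤ x ^ 3 := Nat.pow_le_pow_left hx2 3
      calc y ≤ 8 * x := h8.le
        _ ≤ x ^ 3 * x := Nat.mul_le_mul_right _ this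
        _ = x ^ 4 := by ring
    calc y ^ 3 ≤ (x ^ 4) ^ 3 := Nat.pow_le_pow_left h1 3
      _ = x ^ 12 := by rw [← pow_mul]
      _ ≤ _ := Nat.pow_le_pow_right (by omega) (by norm_num)
  · rcases Nat.lt_or_ge (x * (x - 1)) (2 * (y - 1)) with h2 | h2
    · exact hsol.yle hb h8 h2
    · have h1 : y ≤ x ^ 2 := by
        obtain ⟨n, rfl⟩ : ∃ n, x = n + 1 := ⟨x - 1, by omega⟩
        have e : n + 1 - 1 = n := rfl
        rw [e] at h2
        have h3 : 2 * (y - 1) ≤ (n + 1) * n := h2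
        have h4 : (n + 1) ^ 2 = (n + 1) * n + (n + 1) := by ring
        rw [h4]
        generalize (n + 1) * n = w at h3 ⊢
        omega
      calc y ^ 3 ≤ (x ^ 2) ^ 3 := Nat.pow_le_pow_left h1 3
        _ = x ^ 6 := by rw [← pow_mul]
        _ ≤ _ := Nat.pow_le_pow_right (by omega) (by norm_num)

lemma two_pow_aux {y k M N : ℕ} (h : y ^ k < 2 ^ M) (hMN : M ≤ N * k) : y < 2 ^ N := by
  refine lt_of_pow_lt_pow_left₀ k (Nat.zero_le _) (lt_of_lt_of_le h ?_)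
  rw [← pow_mul]
  exact Nat.pow_le_pow_right (by norm_num) hMN

lemma two_pow_aux2 {x y k l M N : ℕ} (hx : x < 2 ^ M) (hl : l ≠ 0) (h : y ^ k ≤ x ^ l)
    (hMN : M * l ≤ N * k) : y < 2 ^ N := by
  refine two_pow_aux (k := k) (M := M * l) ?_ hMN
  rw [pow_mul]
  exact lt_of_le_of_lt h (Nat.pow_lt_pow_left hx hl)

lemma two_pow_aux3 {x y k M N : ℕ} (hx : x < 2 ^ M) (h : y ^ 2 < (3 * x) ^ k)
    (hMN : (M + 2) * k ≤ N * 2) : y < 2 ^ N := by
  refine two_pow_aux (k := 2) (M := (M + 2) * k) (lt_of_lt_of_le h ?_) hMN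
  rw [pow_mul]
  refine Nat.pow_le_pow_left ?_ _
  rw [pow_add]
  omega

/-- The absolute bound for the larger base. -/
theorem y_abs {x y a b : ℕ} (hx : x.Prime) (hy : y.Prime) (hxy : x < y) (hb : 1 ≤ b)
    (h : ∑ i ∈ range (2 * a + 1), x ^ i = ∑ i ∈ range (2 * b + 1), y ^ i) :
    y < 2 ^ 192863706 := by
  have hx3 := finalC_core hx hy hxy hb h
  have hx2 := hx.two_le
  rcases Nat.lt_or_ge b 197 with h1 | h1
  · -- small exponents
    have hcop : Nat.Coprime x y := (Nat.coprime_primes hx hy).mpr hxy.ne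
    have hsq := sq_bound hx2 (main_bound hx2 hxy hy hcop hb h)
    exact two_pow_aux3 hx3 hsq (by omega)
  · exact two_pow_aux2 hx3 (by norm_num) (y_le hx hy hxy h1 h) (by norm_num)

/-- Both bases are bounded. -/
theorem bases_bounded : ∀ p q r s : ℕ, p.Prime → q.Prime → p < q → 3 ≤ s →
    (((p ^ r - 1) / (p - 1)).Prime ∨ (Odd r ∧ Odd s)) →
    (p ^ r - 1) / (p - 1) = (q ^ s - 1) / (q - 1) →
    p < 2 ^ 167078 ∧ q < 2 ^ 192863706 ∧
      ∑ i ∈ range r, p ^ i = ∑ i ∈ range s, q ^ i := by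
  intro p q r s hp hq hpq hs hodd h
  rw [← Nat.geomSum_eq hp.two_le r] at hodd h
  rw [← Nat.geomSum_eq hq.two_le s] at h
  have hsr := exp_lt hpq (by omega) h
  have ho : Odd r ∧ Odd s := by
    rcases hodd with h1 | h1
    · exact ⟨(exp_prime hp.two_le (by omega) h1).odd_of_ne_two (by omega),
        (exp_prime hq.two_le (by omega) (h ▸ h1)).odd_of_ne_two (by omega)⟩
    · exact h1
  obtain ⟨⟨a, rfl⟩, ⟨b, rfl⟩⟩ := ho
  exact ⟨finalC_core hp hq hpq (by omega) h, y_abs hp hq hpq (by omega) h, h⟩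

/-- Finiteness. -/
theorem fin_all : {t : ℕ × ℕ × ℕ × ℕ | t.1.Prime ∧ t.2.1.Prime ∧ t.1 < t.2.1 ∧ 3 ≤ t.2.2.2 ∧
    (((t.1 ^ t.2.2.1 - 1) / (t.1 - 1)).Prime ∨ (Odd t.2.2.1 ∧ Odd t.2.2.2)) ∧
    (t.1 ^ t.2.2.1 - 1) / (t.1 - 1) = (t.2.1 ^ t.2.2.2 - 1) / (t.2.1 - 1)}.Finite := by
  classical
  obtain ⟨X0, Y0, hXY⟩ : ∃ X0 Y0 : ℕ, ∀ p q r s : ℕ, p.Prime → q.Prime → p < q → 3 ≤ s →
    (((p ^ r - 1) / (p - 1)).Prime ∨ (Odd r ∧ Odd s)) →
    (p ^ r - 1) / (p - 1) = (q ^ s - 1) / (q - 1) →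
    p < X0 ∧ q < Y0 ∧ ∑ i ∈ range r, p ^ i = ∑ i ∈ range s, q ^ i := ⟨_, _, bases_bounded⟩
  set S : Set (ℕ × ℕ × ℕ × ℕ) := ⋃ p ∈ Set.Iio X0, ⋃ q ∈ Set.Iio Y0,
    (fun rs : ℕ × ℕ => (p, q, rs)) '' {rs : ℕ × ℕ | 2 ≤ p ∧ p < q ∧
      ∑ i ∈ range rs.1, p ^ i = ∑ i ∈ range rs.2, q ^ i} with hS
  have hSf : S.Finite := by
    rw [hS]
    refine Set.Finite.biUnion (Set.finite_Iio _) fun p _ => ?_
    refine Set.Finite.biUnion (Set.finite_Iio _) fun q _ => ?_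
    refine Set.Finite.image _ ?_
    by_cases h : 2 ≤ p ∧ p < q
    · exact (fin_pair h.1 h.2).subset fun rs hrs => hrs.2.2
    · have : {rs : ℕ × ℕ | 2 ≤ p ∧ p < q ∧
        ∑ i ∈ range rs.1, p ^ i = ∑ i ∈ range rs.2, q ^ i} = ∅ := by
        ext rs
        simp only [Set.mem_ofPred_eq, Set.mem_empty_iff_false, iff_false]
        intro h1
        exact h ⟨h1.1, h1.2.1⟩
      rw [this]
      exact Set.finite_empty
  refine hSf.subset ?_
  rintro ⟨p, q, r, s⟩ ⟨hp, hq, hpq, hs, hodd, h⟩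
  simp only at hp hq hpq hs hodd h
  obtain ⟨h1, h2, h3⟩ := hXY p q r s hp hq hpq hs hodd h
  rw [hS]
  simp only [Set.mem_iUnion, Set.mem_image, Set.mem_ofPred_eq, Set.mem_Iio]
  exact ⟨p, h1, q, h2, (r, s), ⟨hp.two_le, hpq, h3⟩, rfl⟩

end Pool.Agent.W_MP_cac67d_h21
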