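import Mathlib
import Pool.Agent.W_MP_cac67d_h21.Fn11

set_option autoImplicit false

/-!
# Finiteness of the numbers with two representations
-/

namespace Pool.Agent.W_MP_cac67d_h21

open Finset

lemma geom_inj {p r s : ℕ} (hp : 1 ≤ p) (h : ∑ i ∈ range r, p ^ i = ∑ i ∈ range s, p ^ i) : r = s := by
  have key : ∀ r s : ℕ, r < s → ∑ i ∈ range r, p ^ i < ∑ i ∈ range s, p ^ i := by
    intro r s hrs
    exact sum_lt_sum_of_subset (range_subset_range.mpr hrs.le) (i := r)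
      (mem_range.mpr hrs) (by simp) (Nat.pow_pos hp) (fun _ _ _ => Nat.zero_le _)
  rcases lt_trichotomy r s with h1 | h1 | h1
  · have := key r s h1; omega
  · exact h1
  · have := key s r h1; omega

/-- Only finitely many `N` have two representations with odd exponents, or are prime with two
representations. -/
theorem fin_N : {N : ℕ | ∃ p q r s : ℕ, p.Prime ∧ q.Prime ∧ 3 ≤ r ∧ 3 ≤ s ∧ (p, r) ≠ (q, s) ∧
    (N.Prime ∨ (Odd r ∧ Odd s)) ∧ N = (p ^ r - 1) / (p - 1) ∧ N = (q ^ s - 1) / (q - 1)}.Finite := by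
  refine (fin_all.image (fun t : ℕ × ℕ × ℕ × ℕ => (t.1 ^ t.2.2.1 - 1) / (t.1 - 1))).subset ?_
  rintro N ⟨p, q, r, s, hp, hq, hr, hs, hne, hodd, h1, h2⟩
  have h := h1.symm.trans h2
  rcases lt_trichotomy p q with hpq | hpq | hpq
  · exact ⟨(p, q, r, s), ⟨hp, hq, hpq, hs, h1 ▸ hodd, h⟩, h1.symm⟩
  · exfalso
    subst hpq
    apply hne
    rw [← Nat.geomSum_eq hp.two_le r, ← Nat.geomSum_eq hp.two_le s] at h
    rw [geom_inj hp.one_le h]
  · exact ⟨(q, p, s, r), ⟨hq, hp, hpq, hr, h2 ▸ hodd.imp id And.symm, h.symm⟩, h2.symm⟩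

end Pool.Agent.W_MP_cac67d_h21
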