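import Mathlib
import Pool.Agent.W_MP_cac67d_h21.Fe3
import Pool.Agent.W_MP_cac67d_h21.Fn12

set_option autoImplicit false

/-!
# The explicit absolute bound
-/

namespace Pool.Agent.W_MP_cac67d_h21

open Finset

lemma int_form {x y r s : ℕ} (h : ∑ i ∈ range r, x ^ i = ∑ i ∈ range s, y ^ i) :
    ((y : ℤ) - 1) * (x : ℤ) ^ r = ((x : ℤ) - 1) * (y : ℤ) ^ s + ((y : ℤ) - x) := by
  have h1 : (∑ i ∈ range r, (x : ℤ) ^ i) * ((x : ℤ) - 1) = (x : ℤ) ^ r - 1 := geom_sum_mul _ _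
  have h2 : (∑ i ∈ range s, (y : ℤ) ^ i) * ((y : ℤ) - 1) = (y : ℤ) ^ s - 1 := geom_sum_mul _ _
  have h3 : (∑ i ∈ range r, (x : ℤ) ^ i) = ∑ i ∈ range s, (y : ℤ) ^ i := by exact_mod_cast h
  rw [h3] at h1
  linear_combination ((x : ℤ) - 1) * h2 - ((y : ℤ) - 1) * h1

lemma pow_mod {x y : ℕ} (hy : y.Prime) (hx : x.Prime) (hxy : x < y) (w : ℕ) (hw : 1 ≤ w) :
    (x : ℤ) ^ (y ^ (w - 1) * (y - 1)) ≡ 1 [ZMOD ((y : ℤ) ^ w)] := by
  have hcop : Nat.Coprime x (y ^ w) :=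
    Nat.Coprime.pow_right _ ((Nat.coprime_primes hx hy).mpr hxy.ne)
  have h1 := Nat.ModEq.pow_totient hcop
  rw [Nat.totient_prime_pow hy (by omega)] at h1
  have h2 := (Int.natCast_modEq_iff).mpr h1
  push_cast at h2
  have e : ((x ^ (y ^ (w - 1) * (y - 1)) : ℕ) : ℤ) = (x : ℤ) ^ (y ^ (w - 1) * (y - 1)) := by
    push_cast; rfl
  have h3 : ((x ^ (y ^ (w - 1) * (y - 1)) : ℕ) : ℤ) ≡ ((1 : ℕ) : ℤ) [ZMOD ((y ^ w : ℕ) : ℤ)] :=
    (Int.natCast_modEq_iff).mpr h1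
  rw [e] at h3
  have e2 : ((y ^ w : ℕ) : ℤ) = (y : ℤ) ^ w := by push_cast; rfl
  rw [e2, Nat.cast_one] at h3
  exact h3

lemma num_bd (w : ℕ) (hw : 27 ≤ w) : 10062360 * (w + 1) ≤ 3 ^ (w - 9) := by
  obtain ⟨k, rfl⟩ : ∃ k, w = 27 + k := ⟨w - 27, by omega⟩
  have e : 27 + k - 9 = 18 + k := by omega
  rw [e]
  clear e hw
  induction k with
  | zero => norm_num
  | succ k ih =>
    have e1 : 3 ^ (18 + (k + 1)) = 3 * 3 ^ (18 + k) := by rw [← add_assoc, pow_succ]; ring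
    rw [e1]
    omega

/-- The bound for the smaller exponent. -/
theorem s_le {x y r s : ℕ} (hx : x.Prime) (hy : y.Prime) (hxy : x < y)
    (h : ∑ i ∈ range r, x ^ i = ∑ i ∈ range s, y ^ i) (hsr : s ≤ r) (hrs : r ≤ 1155 * s) :
    s < 19602 * y ^ 54 := by
  have hx2 := hx.two_le
  have hy3 : 3 ≤ y := by omega
  have hform := int_form h
  by_contra hcon
  push Not at hcon
  have key : ∀ k : ℕ, 726 * (27 + k) * y ^ (2 * (27 + k)) ≤ s := by
    intro k
    induction k with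
    | zero => norm_num at hcon ⊢; exact hcon
    | succ k ih =>
      by_contra hk
      push Not at hk
      obtain ⟨w, hw⟩ : ∃ w, w = 27 + k := ⟨_, rfl⟩
      have hw27 : 27 ≤ w := by omega
      have e0 : 27 + (k + 1) = w + 1 := by omega
      rw [← hw] at ih
      rw [e0] at hk
      set G := y ^ (w - 1) * (y - 1) with hG
      have hGy : G ≤ y ^ w := by
        obtain ⟨v, rfl⟩ : ∃ v, w = v + 1 := ⟨w - 1, by omega⟩
        have e1 : v + 1 - 1 = v := rfl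
        rw [hG, e1, pow_succ]
        exact Nat.mul_le_mul_left _ (Nat.sub_le _ _)
      have hG3 : 3 ≤ G := by
        have h1 : 3 ≤ y ^ (w - 1) := by
          calc 3 ≤ y := hy3
            _ = y ^ 1 := (pow_one _).symm
            _ ≤ y ^ (w - 1) := Nat.pow_le_pow_right (by omega) (by omega)
        calc 3 = 3 * 1 := rfl
          _ ≤ G := Nat.mul_le_mul h1 (by omega)
      have hG2 : G ^ 2 ≤ y ^ (2 * w) := by
        calc G ^ 2 ≤ (y ^ w) ^ 2 := Nat.pow_le_pow_left hGy 2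
          _ = y ^ (2 * w) := by rw [← pow_mul, mul_comm]
      have h1 : 726 * w * G ^ 2 ≤ s := le_trans (Nat.mul_le_mul_left _ hG2) ih
      have h2 : 11 * G ≤ r := by
        refine le_trans ?_ (le_trans h1 hsr)
        have : 11 * G ≤ (726 * w) * (G * G) := by
          refine Nat.mul_le_mul (by omega) ?_
          calc G = G * 1 := (mul_one _).symm
            _ ≤ G * G := Nat.mul_le_mul_left _ (by omega)
        calc 11 * G ≤ (726 * w) * (G * G) := this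
          _ = _ := by ring
      have h3 := s_bound hx2 hxy hform (pow_mod hy hx hxy w (by omega)) hG3 h2 h1
      have h4 : 12 * r ≤ 13860 * (726 * (w + 1) * y ^ (2 * (w + 1))) := by
        have : 12 * r ≤ 13860 * s := by omega
        exact this.trans (Nat.mul_le_mul_left _ hk.le)
      have h5 : y ^ 13 * (12 * r) ^ 2 ≤ y ^ (4 * w + 17) * (10062360 * (w + 1)) ^ 2 := by
        calc y ^ 13 * (12 * r) ^ 2 ≤ y ^ 13 * (13860 * (726 * (w + 1) * y ^ (2 * (w + 1)))) ^ 2 :=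
              Nat.mul_le_mul_left _ (Nat.pow_le_pow_left h4 2)
          _ = (y ^ 13 * (y ^ (2 * (w + 1))) ^ 2) * (10062360 * (w + 1)) ^ 2 := by ring
          _ = _ := by
              rw [← pow_mul, ← pow_add]
              congr 2
              ring
      have h6 : (10062360 * (w + 1)) ^ 2 ≤ y ^ (2 * w - 18) := by
        calc (10062360 * (w + 1)) ^ 2 ≤ (3 ^ (w - 9)) ^ 2 := Nat.pow_le_pow_left (num_bd w hw27) 2
          _ ≤ (y ^ (w - 9)) ^ 2 := Nat.pow_le_pow_left (Nat.pow_le_pow_left hy3 _) 2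
          _ = y ^ (2 * w - 18) := by rw [← pow_mul]; congr 1; omega
      have h7 : y ^ (6 * w) ≤ y ^ (6 * w - 1) := by
        calc y ^ (6 * w) ≤ y ^ 13 * (12 * r) ^ 2 := h3
          _ ≤ y ^ (4 * w + 17) * (10062360 * (w + 1)) ^ 2 := h5
          _ ≤ y ^ (4 * w + 17) * y ^ (2 * w - 18) := Nat.mul_le_mul_left _ h6
          _ = y ^ (6 * w - 1) := by rw [← pow_add]; congr 1; omega
      have h8 : y ^ (6 * w - 1) < y ^ (6 * w) := Nat.pow_lt_pow_right (by omega) (by omega)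
      omega
  have h1 := key s
  have h2 : 1 ≤ y ^ (2 * (27 + s)) := Nat.one_le_pow _ _ (by omega)
  have h3 : 726 * (27 + s) * 1 ≤ 726 * (27 + s) * y ^ (2 * (27 + s)) := Nat.mul_le_mul_left _ h2
  omega

lemma tower {N y s Y0 : ℕ} (hN : N < y ^ s) (hy : y < 2 ^ Y0) (hY : Y0 ≤ 2 ^ 28)
    (hs : s < 19602 * y ^ 54) : N < 2 ^ (2 ^ (43 + 54 * Y0)) := by
  have h1 : y ^ s ≤ 2 ^ (Y0 * s) := by
    rw [pow_mul]
    exact Nat.pow_le_pow_left hy.le _
  have h2 : Y0 * s ≤ 2 ^ (43 + 54 * Y0) := by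
    have h3 : y ^ 54 ≤ 2 ^ (54 * Y0) := by
      rw [mul_comm, pow_mul]
      exact Nat.pow_le_pow_left hy.le _
    calc Y0 * s ≤ 2 ^ 28 * (2 ^ 15 * 2 ^ (54 * Y0)) := by
          refine Nat.mul_le_mul hY (hs.le.trans ?_)
          exact Nat.mul_le_mul (by norm_num) h3
      _ = 2 ^ (43 + 54 * Y0) := by rw [← pow_add, ← pow_add]; congr 1; ring
  exact lt_of_lt_of_le (lt_of_lt_of_le hN h1) (Nat.pow_le_pow_right (by norm_num) h2)

lemma tower2 {N a b : ℕ} (h : N < 2 ^ (2 ^ a)) (hab : a ≤ b) : N < 2 ^ (2 ^ b) :=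
  lt_of_lt_of_le h (Nat.pow_le_pow_right (by norm_num) (Nat.pow_le_pow_right (by norm_num) hab))

lemma geom_lt_pow {y s : ℕ} (hy : 2 ≤ y) : ∑ i ∈ range s, y ^ i < y ^ s := by
  have h6 := geom_lt y s hy
  have h7 : (∑ i ∈ range s, y ^ i) * 1 ≤ (∑ i ∈ range s, y ^ i) * (y - 1) :=
    Nat.mul_le_mul_left _ (by omega)
  omega

theorem eff_core {x y a b : ℕ} (hx : x.Prime) (hy : y.Prime) (hxy : x < y) (hb : 1 ≤ b)
    (h : ∑ i ∈ range (2 * a + 1), x ^ i = ∑ i ∈ range (2 * b + 1), y ^ i) (Y0 : ℕ)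
    (hY0 : y < 2 ^ Y0) (hY1 : Y0 ≤ 2 ^ 28) (e : ℕ) (he : 43 + 54 * Y0 ≤ e) :
    ∑ i ∈ range (2 * a + 1), x ^ i < 2 ^ (2 ^ e) := by
  have hx2 := hx.two_le
  have hab : b < a := by
    have := exp_lt hxy (by omega) h
    omega
  rcases Nat.lt_or_ge b 197 with h1 | h1
  · obtain ⟨_, _, _, h2⟩ := finalA_core hx hy hxy hb h
    refine lt_of_lt_of_le h2 (Nat.pow_le_pow_right (by norm_num) ?_)
    calc 2 * (2 * b + 1) ^ 4 ≤ 2 * 393 ^ 4 :=
          Nat.mul_le_mul_left _ (Nat.pow_le_pow_left (by omega) 4)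
      _ ≤ 2 ^ 36 := by norm_num
      _ ≤ 2 ^ e := Nat.pow_le_pow_right (by norm_num) (by omega)
  · have h2 := y_le hx hy hxy h1 h
    have hlt : x ^ a < y ^ b := by
      have hP0 := pell_form h
      have hxz : (2 : ℤ) ≤ x := by exact_mod_cast hx2
      have hxyz : (x : ℤ) < y := by exact_mod_cast hxy
      have hYge : 2 ≤ (y : ℤ) ^ b := by
        have : (y : ℤ) ^ 1 ≤ (y : ℤ) ^ b := pow_le_pow_right₀ (by linarith) hb
        rw [pow_one] at this
        linarith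
      have := pow_lt_of_pell hxz hxyz (by positivity) hYge hP0
      exact_mod_cast this
    have h3 : x ^ (3 * a) < x ^ (3463 * b) := by
      calc x ^ (3 * a) = (x ^ a) ^ 3 := by rw [← pow_mul, mul_comm]
        _ < (y ^ b) ^ 3 := Nat.pow_lt_pow_left hlt (by norm_num)
        _ = (y ^ 3) ^ b := by rw [← pow_mul, ← pow_mul, mul_comm]
        _ ≤ (x ^ 3463) ^ b := Nat.pow_le_pow_left h2 _
        _ = x ^ (3463 * b) := by rw [← pow_mul]
    have h4 : 3 * a < 3463 * b := (Nat.pow_lt_pow_iff_right hx2).mp h3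
    have h5 := s_le hx hy hxy h (by omega) (by omega)
    rw [h]
    exact tower2 (tower (geom_lt_pow (s := 2 * b + 1) hy.two_le) hY0 hY1 h5) he

/-- The explicit absolute bound for all second representations. -/
theorem eff : ∀ N p q r s : ℕ, p.Prime → q.Prime → 3 ≤ r → 3 ≤ s → (p, r) ≠ (q, s) →
    (N.Prime ∨ (Odd r ∧ Odd s)) → N = (p ^ r - 1) / (p - 1) → N = (q ^ s - 1) / (q - 1) →
    N < 2 ^ (2 ^ (2 ^ 34)) := by
  have key : ∀ N p q r s : ℕ, p.Prime → q.Prime → p < q → 3 ≤ r → 3 ≤ s →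
      (N.Prime ∨ (Odd r ∧ Odd s)) → N = ∑ i ∈ range r, p ^ i → N = ∑ i ∈ range s, q ^ i →
      N < 2 ^ (2 ^ (2 ^ 34)) := by
    intro N p q r s hp hq hpq hr hs hodd h1 h2
    have h := h1.symm.trans h2
    have hsr := exp_lt hpq (by omega) h
    have ho : Odd r ∧ Odd s := by
      rcases hodd with h3 | h3
      · exact ⟨(exp_prime hp.two_le (by omega) (h1 ▸ h3)).odd_of_ne_two (by omega),
          (exp_prime hq.two_le (by omega) (h2 ▸ h3)).odd_of_ne_two (by omega)⟩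
      · exact h3
    obtain ⟨⟨a, rfl⟩, ⟨b, rfl⟩⟩ := ho
    rw [h1]
    exact eff_core hp hq hpq (by omega) h 192863706 (y_abs hp hq hpq (by omega) h) (by norm_num) _
      (by norm_num)
  intro N p q r s hp hq hr hs hne hodd h1 h2
  rw [← Nat.geomSum_eq hp.two_le r] at h1
  rw [← Nat.geomSum_eq hq.two_le s] at h2
  rcases lt_trichotomy p q with hpq | hpq | hpq
  · exact key N p q r s hp hq hpq hr hs hodd h1 h2
  · exfalso
    subst hpq
    apply hne
    rw [geom_inj hp.one_le (h1.symm.trans h2)]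
  · exact key N q p s r hq hp hpq hs hr (hodd.imp id And.symm) h2 h1

end Pool.Agent.W_MP_cac67d_h21
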