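import Mathlib
import Pool.Agent.W_MP_cac67d_h21.Fe4

set_option autoImplicit false

/-!
# Explicit bounds for all unknowns
-/

namespace Pool.Agent.W_MP_cac67d_h21

open Finset

theorem eff_all : ∀ p q r s : ℕ, p.Prime → q.Prime → p < q → 3 ≤ s →
    (((p ^ r - 1) / (p - 1)).Prime ∨ (Odd r ∧ Odd s)) →
    (p ^ r - 1) / (p - 1) = (q ^ s - 1) / (q - 1) →
    p < 2 ^ 167078 ∧ q < 2 ^ 192863706 ∧ (p ^ r - 1) / (p - 1) < 2 ^ (2 ^ (2 ^ 34)) := by
  intro p q r s hp hq hpq hs hodd h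
  obtain ⟨h1, h2, h3⟩ := bases_bounded p q r s hp hq hpq hs hodd h
  refine ⟨h1, h2, ?_⟩
  have hsr := exp_lt hpq (by omega) h3
  refine eff _ p q r s hp hq (by omega) hs ?_ hodd rfl h
  intro h4
  have := (Prod.mk.inj h4).1
  omega

end Pool.Agent.W_MP_cac67d_h21
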