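import Mathlib
import Pool.Agent.W_MP_cac67d_h21.D5
import Pool.Agent.W_MP_cac67d_h21.D7
import Pool.Agent.W_MP_cac67d_h21.D11
import Pool.Agent.W_MP_cac67d_h21.D13
import Pool.Agent.W_MP_cac67d_h21.D17
import Pool.Agent.W_MP_cac67d_h21.D19
import Pool.Agent.W_MP_cac67d_h21.Exp

set_option autoImplicit false

/-!
# No second representation with a small exponent
-/

namespace Pool.Agent.W_MP_cac67d_h21

def V0_3 : List ℤ := [1, 3]

lemma V0_3_eq (x : ℤ) : (UV x 1 1).2 = ev V0_3 x := by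
  simp only [UV, V0_3, ev]
  ring

theorem c1_3_5 : c1chk 2 1 4 V0_3 = true := by decide +kernel

theorem c1_3_end : c1chk 3 1 2 V0_3 = true := by decide +kernel

lemma case_three {x y r : ℕ} (hx : x.Prime) (hy : y.Prime) (hxy : x < y) (hr : r.Prime)
    (hr3 : 3 < r) (hN : (∑ i ∈ Finset.range r, x ^ i).Prime)
    (h : ∑ i ∈ Finset.range r, x ^ i = ∑ i ∈ Finset.range 3, y ^ i) :
    ∑ i ∈ Finset.range r, x ^ i = 31 := by
  have hcop : Nat.Coprime x y := (Nat.coprime_primes hx hy).mpr hxy.ne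
  obtain ⟨a', rfl⟩ : Odd r := hr.odd_of_ne_two (by omega)
  rcases Nat.lt_or_ge a' 3 with h3 | h3
  · have ha : a' = 2 := by omega
    subst ha
    rcases Nat.lt_or_ge x 4 with h4 | h4
    · have hx2 := hx.two_le
      have : x = 2 ∨ x = 3 := by omega
      rcases this with h5 | h5
      · subst h5; decide
      · subst h5
        exfalso
        have e : ∑ i ∈ Finset.range (2 * 2 + 1), 3 ^ i = 121 := by decide
        rw [e] at hN
        norm_num at hN
    · exact absurd h (tail_c1 (a := 2) (b := 1) (a' := 2) V0_3_eq c1_3_5 (le_refl _) x y h4 hxy hy hcop)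
  · exact absurd h (tail_c1 (a := 3) (b := 1) (a' := a') V0_3_eq c1_3_end h3 x y hx.two_le hxy hy hcop)

theorem main_lt {x y r s : ℕ} (hx : x.Prime) (hy : y.Prime) (hxy : x < y) (hr : 3 ≤ r) (hs : 3 ≤ s)
    (hN : (∑ i ∈ Finset.range r, x ^ i).Prime)
    (h : ∑ i ∈ Finset.range r, x ^ i = ∑ i ∈ Finset.range s, y ^ i) (hs22 : s ≤ 22) :
    ∑ i ∈ Finset.range r, x ^ i = 31 := by
  have hrp : r.Prime := exp_prime hx.two_le (by omega) hN
  have hsp : s.Prime := exp_prime hy.two_le (by omega) (h ▸ hN)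
  have hsr := exp_lt hxy (by omega) h
  have key : s = 3 ∨ s = 5 ∨ s = 7 ∨ s = 11 ∨ s = 13 ∨ s = 17 ∨ s = 19 := by
    have : ∀ n < 23, 3 ≤ n → n.Prime →
        n = 3 ∨ n = 5 ∨ n = 7 ∨ n = 11 ∨ n = 13 ∨ n = 17 ∨ n = 19 := by decide
    exact this s (by omega) hs hsp
  rcases key with rfl | rfl | rfl | rfl | rfl | rfl | rfl
  · exact case_three hx hy hxy hrp hsr hN h
  · exact absurd h (noSol_5 r hrp hsr x y hx hy hxy hN)
  · exact absurd h (noSol_7 r hrp hsr x y hx hy hxy hN)
  · exact absurd h (noSol_11 r hrp hsr x y hx hy hxy hN)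
  · exact absurd h (noSol_13 r hrp hsr x y hx hy hxy hN)
  · exact absurd h (noSol_17 r hrp hsr x y hx hy hxy hN)
  · exact absurd h (noSol_19 r hrp hsr x y hx hy hxy hN)

/-- If a prime `N` has two representations `R(p, r) = R(q, s)`, and one exponent is at most `22`,
then `N = 31`. -/
theorem finalB : ∀ N p q r s : ℕ, N.Prime → p.Prime → q.Prime → 3 ≤ r → 3 ≤ s →
    (p, r) ≠ (q, s) → N = (p ^ r - 1) / (p - 1) → N = (q ^ s - 1) / (q - 1) →
    (r ≤ 22 ∨ s ≤ 22) → N = 31 := by
  intro N p q r s hN hp hq hr hs hne h1 h2 hmin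
  rw [← Nat.geomSum_eq hp.two_le r] at h1
  rw [← Nat.geomSum_eq hq.two_le s] at h2
  rcases lt_trichotomy p q with hpq | hpq | hpq
  · have h := h1.symm.trans h2
    have hsr := exp_lt hpq (by omega) h
    rw [h1]
    exact main_lt hp hq hpq hr hs (h1 ▸ hN) h (by omega)
  · exfalso
    subst hpq
    apply hne
    have h := h1.symm.trans h2
    rcases lt_trichotomy r s with hrs | hrs | hrs
    · have : ∑ i ∈ Finset.range r, p ^ i < ∑ i ∈ Finset.range s, p ^ i := by
        refine Finset.sum_lt_sum_of_subset (Finset.range_subset_range.mpr hrs.le) (i := r)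
          (Finset.mem_range.mpr hrs) (by simp) (Nat.pow_pos hp.pos) (fun _ _ _ => Nat.zero_le _)
      omega
    · rw [hrs]
    · have : ∑ i ∈ Finset.range s, p ^ i < ∑ i ∈ Finset.range r, p ^ i := by
        refine Finset.sum_lt_sum_of_subset (Finset.range_subset_range.mpr hrs.le) (i := s)
          (Finset.mem_range.mpr hrs) (by simp) (Nat.pow_pos hp.pos) (fun _ _ _ => Nat.zero_le _)
      omega
  · have h := h2.symm.trans h1
    have hsr := exp_lt hpq (by omega) h
    rw [h2]
    exact main_lt hq hp hpq hs hr (h2 ▸ hN) h (by omega)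

end Pool.Agent.W_MP_cac67d_h21
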