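import Mathlib
import Pool.Agent.W_MP_cac67d_h21.Comb
import Pool.Agent.W_MP_cac67d_h21.F13

set_option autoImplicit false

namespace Pool.Agent.W_MP_cac67d_h21

theorem cl_13_23_0 : clsR 23 13 78 1088 1 F_13_23 0 78 = true := by decide +kernel

theorem cl_13_29_0 : clsR 29 13 78 194 1 F_13_29 0 78 = true := by decide +kernel

theorem cl_13_31_0 : clsR 31 13 78 96 1 F_13_31 0 78 = true := by decide +kernel

theorem cl_13_41_0 : clsR 41 13 78 63 1 F_13_41 0 78 = true := by decide +kernel

theorem cl_13_43_0 : clsR 43 13 78 56 1 F_13_43 0 78 = true := by decide +kernel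

theorem cl_13_47_0 : clsR 47 13 78 5008 1 F_13_47 0 78 = true := by decide +kernel

theorem cl_13_53_0 : clsR 53 13 78 226 1 F_13_53 0 78 = true := by decide +kernel

theorem cl_13_59_0 : clsR 59 13 78 52102 1 F_13_59 0 78 = true := by decide +kernel

theorem cl_13_67_0 : clsR 67 13 78 614 1 F_13_67 0 78 = true := by decide +kernel

theorem cl_13_71_0 : clsR 71 13 78 13508 1 F_13_71 0 78 = true := by decide +kernel

end Pool.Agent.W_MP_cac67d_h21
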