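import Mathlib
import Pool.Agent.W_MP_cac67d_h21.Comb
import Pool.Agent.W_MP_cac67d_h21.F17

set_option autoImplicit false

namespace Pool.Agent.W_MP_cac67d_h21

theorem cl_17_19_0 : clsR 19 17 102 114 1 F_17_19 0 102 = true := by decide +kernel

theorem cl_17_23_0 : clsR 23 17 102 832 1 F_17_23 0 102 = true := by decide +kernel

theorem cl_17_29_0 : clsR 29 17 102 148 1 F_17_29 0 102 = true := by decide +kernel

theorem cl_17_31_0 : clsR 31 17 102 92437 1 F_17_31 0 102 = true := by decide +kernel

theorem cl_17_37_0 : clsR 37 17 102 16046 1 F_17_37 0 102 = true := by decide +kernel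

theorem cl_17_41_0 : clsR 41 17 102 35 1 F_17_41 0 102 = true := by decide +kernel

theorem cl_17_43_0 : clsR 43 17 3570 26931 1 F_17_43 0 3570 = true := by decide +kernel

theorem cl_17_47_0 : clsR 47 17 3570 15415 1 F_17_47 0 3570 = true := by decide +kernel

theorem cl_17_53_0 : clsR 53 17 102 1084 1 F_17_53 0 102 = true := by decide +kernel

theorem cl_17_59_0 : clsR 59 17 3570 2992 1 F_17_59 0 3570 = true := by decide +kernel

theorem cl_17_61_0 : clsR 61 17 102 4306 1 F_17_61 0 102 = true := by decide +kernel

theorem cl_17_67_0 : clsR 67 17 3570 87584 1 F_17_67 0 3570 = true := by decide +kernel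

theorem cl_17_71_0 : clsR 71 17 3570 336318 1 F_17_71 0 3570 = true := by decide +kernel

theorem cl_17_73_0 : clsR 73 17 102 178 1 F_17_73 0 102 = true := by decide +kernel

theorem cl_17_79_0 : clsR 79 17 3570 212183 1 F_17_79 0 3570 = true := by decide +kernel

theorem cl_17_83_0 : clsR 83 17 3570 82820 1 F_17_83 0 3570 = true := by decide +kernel

theorem cl_17_89_0 : clsR 89 17 102 69 1 F_17_89 0 102 = true := by decide +kernel

theorem cl_17_101_0 : clsR 101 17 102 8862 1 F_17_101 0 102 = true := by decide +kernel

theorem cl_17_103_0 : clsR 103 17 3570 88605 1 F_17_103 0 3570 = true := by decide +kernel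

theorem cl_17_107_0 : clsR 107 17 3570 172034 1 F_17_107 0 3570 = true := by decide +kernel

theorem cl_17_109_0 : clsR 109 17 102 44234 1 F_17_109 0 102 = true := by decide +kernel

theorem cl_17_127_0 : clsR 127 17 3570 196227 1 F_17_127 0 3570 = true := by decide +kernel

theorem cl_17_131_0 : clsR 131 17 3570 92728 1 F_17_131 0 3570 = true := by decide +kernel

end Pool.Agent.W_MP_cac67d_h21
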