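import Mathlib
import Pool.Agent.W_MP_cac67d_h21.Comb
import Pool.Agent.W_MP_cac67d_h21.F19

set_option autoImplicit false

namespace Pool.Agent.W_MP_cac67d_h21

theorem cl_19_23_0 : clsR 23 19 114 745 1 F_19_23 0 114 = true := by decide +kernel

theorem cl_19_29_0 : clsR 29 19 114 42688 1 F_19_29 0 114 = true := by decide +kernel

theorem cl_19_31_0 : clsR 31 19 114 66 1 F_19_31 0 114 = true := by decide +kernel

theorem cl_19_41_0 : clsR 41 19 3990 3062360 1 F_19_41 0 1937 = true := by decide +kernel

theorem cl_19_41_1 : clsR 41 19 3990 3062360 1 F_19_41 1937 2053 = true := by decide +kernel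

theorem cl_19_43_0 : clsR 43 19 114 11175 1 F_19_43 0 114 = true := by decide +kernel

theorem cl_19_47_0 : clsR 47 19 3990 518651 1 F_19_47 0 3990 = true := by decide +kernel

theorem cl_19_53_0 : clsR 53 19 3990 54255 1 F_19_53 0 3990 = true := by decide +kernel

theorem cl_19_59_0 : clsR 59 19 3990 20740 1 F_19_59 0 3990 = true := by decide +kernel

theorem cl_19_61_0 : clsR 61 19 114 2434 1 F_19_61 0 114 = true := by decide +kernel

theorem cl_19_67_0 : clsR 67 19 114 7246 1 F_19_67 0 114 = true := by decide +kernel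

theorem cl_19_71_0 : clsR 71 19 3990 300916 1 F_19_71 0 3990 = true := by decide +kernel

theorem cl_19_79_0 : clsR 79 19 114 24239 1 F_19_79 0 114 = true := by decide +kernel

theorem cl_19_83_0 : clsR 83 19 3990 5605637 1 F_19_83 0 1291 = true := by decide +kernel

theorem cl_19_83_1 : clsR 83 19 3990 5605637 1 F_19_83 1291 1368 = true := by decide +kernel

end Pool.Agent.W_MP_cac67d_h21
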