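import Mathlib
import Pool.Agent.W_MP_cac67d_h21.Comb
import Pool.Agent.W_MP_cac67d_h21.F19

set_option autoImplicit false

namespace Pool.Agent.W_MP_cac67d_h21

theorem cl_19_83_2 : clsR 83 19 3990 5605637 1 F_19_83 2659 1331 = true := by decide +kernel

theorem cl_19_89_0 : clsR 89 19 3990 1582249 1 F_19_89 0 3990 = true := by decide +kernel

theorem cl_19_97_0 : clsR 97 19 3990 3150 1 F_19_97 0 3990 = true := by decide +kernel

theorem cl_19_101_0 : clsR 101 19 3990 310050 1 F_19_101 0 3990 = true := by decide +kernel

theorem cl_19_103_0 : clsR 103 19 114 26937 1 F_19_103 0 114 = true := by decide +kernel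

theorem cl_19_107_0 : clsR 107 19 3990 153925 1 F_19_107 0 3990 = true := by decide +kernel

theorem cl_19_113_0 : clsR 113 19 3990 743403 1 F_19_113 0 3990 = true := by decide +kernel

theorem cl_19_127_0 : clsR 127 19 114 30 1 F_19_127 0 114 = true := by decide +kernel

theorem cl_19_131_0 : clsR 131 19 3990 5436439 1 F_19_131 0 1291 = true := by decide +kernel

theorem cl_19_131_1 : clsR 131 19 3990 5436439 1 F_19_131 1291 1368 = true := by decide +kernel

end Pool.Agent.W_MP_cac67d_h21
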