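import Mathlib
import Pool.Agent.W_MP_cac67d_h21.Comb
import Pool.Agent.W_MP_cac67d_h21.F19

set_option autoImplicit false

namespace Pool.Agent.W_MP_cac67d_h21

theorem cl_19_131_2 : clsR 131 19 3990 5436439 1 F_19_131 2659 1331 = true := by decide +kernel

theorem cl_19_137_0 : clsR 137 19 3990 2563041 1 F_19_137 0 1937 = true := by decide +kernel

theorem cl_19_137_1 : clsR 137 19 3990 2563041 1 F_19_137 1937 2053 = true := by decide +kernel

theorem cl_19_139_0 : clsR 139 19 3990 5433 1 F_19_139 0 3990 = true := by decide +kernel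

theorem cl_19_149_0 : clsR 149 19 3990 716891 1 F_19_149 0 3990 = true := by decide +kernel

theorem cl_19_151_0 : clsR 151 19 3990 6730 1 F_19_151 0 3990 = true := by decide +kernel

theorem cl_19_157_0 : clsR 157 19 3990 6829 1 F_19_157 0 3990 = true := by decide +kernel

theorem cl_19_163_0 : clsR 163 19 114 38 1 F_19_163 0 114 = true := by decide +kernel

theorem cl_19_167_0 : clsR 167 19 114 4985 1 F_19_167 0 114 = true := by decide +kernel

end Pool.Agent.W_MP_cac67d_h21
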